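import Pool.Agent.Helper95K9.IR.Stm

/-!
Degree of irrationality of del Pezzo surfaces: leaf BZ23.
-/

set_option autoImplicit false

namespace Pool.Agent.Helper95K9.IR

universe u

namespace BZ23

section Forms

variable {E : Type u} [Field E] (a b c p q r s : E)

/-- The forms of degree two and three have no common zero. -/
def NoZ : Prop :=
  ∀ (Ω : Type u) [Field Ω] [Algebra E Ω] (x y : Ω),
    algebraMap E Ω a * x ^ 2 + algebraMap E Ω b * x * y + algebraMap E Ω c * y ^ 2 = 0 →
    algebraMap E Ω p * x ^ 3 + algebraMap E Ω q * x ^ 2 * y + algebraMap E Ω r * x * y ^ 2 +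
      algebraMap E Ω s * y ^ 3 = 0 → x = 0 ∧ y = 0

/-- A quadratic polynomial over an algebraically closed field splits. -/
theorem split {Ω : Type u} [Field Ω] [IsAlgClosed Ω] (a b c : Ω) (ha : a ≠ 0) :
    ∃ x y : Ω, b = - (a * (x + y)) ∧ c = a * x * y := by
  have hdeg : (Polynomial.C a * Polynomial.X ^ 2 + Polynomial.C b * Polynomial.X +
      Polynomial.C c).degree ≠ 0 := by
    rw [Polynomial.degree_quadratic ha]
    decide
  obtain ⟨x, hx⟩ := IsAlgClosed.exists_root _ hdeg
  have hx' : a * x ^ 2 + b * x + c = 0 := by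
    simpa [Polynomial.IsRoot] using hx
  refine ⟨x, - b / a - x, ?_, ?_⟩
  · field_simp
    ring
  · field_simp
    linear_combination hx'

/-- A cubic form over an algebraically closed field has a zero. -/
theorem cubic_zero {Ω : Type u} [Field Ω] [IsAlgClosed Ω] (p q r s : Ω) :
    ∃ x y : Ω, ¬ (x = 0 ∧ y = 0) ∧ p * x ^ 3 + q * x ^ 2 * y + r * x * y ^ 2 + s * y ^ 3 = 0 := by
  by_cases hp : p = 0
  · exact ⟨1, 0, by simp, by simp [hp]⟩
  · have hdeg : (Polynomial.C p * Polynomial.X ^ 3 + Polynomial.C q * Polynomial.X ^ 2 +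
      Polynomial.C r * Polynomial.X + Polynomial.C s).degree ≠ 0 := by
      rw [Polynomial.degree_cubic hp]
      decide
    obtain ⟨x, hx⟩ := IsAlgClosed.exists_root _ hdeg
    have hx' : p * x ^ 3 + q * x ^ 2 + r * x + s = 0 := by
      simpa [Polynomial.IsRoot] using hx
    exact ⟨x, 1, by simp, by linear_combination hx'⟩

theorem ne_zero (h : NoZ a b c p q r s) : ¬ (a = 0 ∧ b = 0 ∧ c = 0) := by
  rintro ⟨rfl, rfl, rfl⟩
  obtain ⟨x, y, hxy, h0⟩ := cubic_zero (Ω := AlgebraicClosure E) (algebraMap E _ p)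
    (algebraMap E _ q) (algebraMap E _ r) (algebraMap E _ s)
  exact hxy (h _ x y (by simp) h0)

/-- Multiplication by the quadratic form is injective. -/
theorem mul_inj (h : ¬ (a = 0 ∧ b = 0 ∧ c = 0)) (u₀ u₁ u₂ : E) (h0 : u₀ * a = 0)
    (h1 : u₀ * b + u₁ * a = 0) (h2 : u₀ * c + u₁ * b + u₂ * a = 0) (h3 : u₁ * c + u₂ * b = 0)
    (h4 : u₂ * c = 0) : u₀ = 0 ∧ u₁ = 0 ∧ u₂ = 0 := by
  by_cases ha : a = 0
  · subst ha
    by_cases hb : b = 0
    · subst hb
      have hc : c ≠ 0 := fun hc => h ⟨rfl, rfl, hc⟩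
      have e0 : u₀ = 0 := by simpa [hc] using h2
      have e1 : u₁ = 0 := by simpa [hc] using h3
      have e2 : u₂ = 0 := by simpa [hc] using h4
      exact ⟨e0, e1, e2⟩
    · have e0 : u₀ = 0 := by simpa [hb] using h1
      subst e0
      have e1 : u₁ = 0 := by simpa [hb] using h2
      subst e1
      have e2 : u₂ = 0 := by simpa [hb] using h3
      exact ⟨rfl, rfl, e2⟩
  · have e0 : u₀ = 0 := by simpa [ha] using h0
    subst e0
    have e1 : u₁ = 0 := by simpa [ha] using h1
    subst e1
    have e2 : u₂ = 0 := by simpa [ha] using h2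
    exact ⟨rfl, rfl, e2⟩

/-- The Sylvester system has only the trivial solution. -/
theorem syl (h : NoZ a b c p q r s) (u₀ u₁ u₂ v₀ v₁ : E)
    (h0 : u₀ * a + v₀ * p = 0) (h1 : u₀ * b + u₁ * a + v₀ * q + v₁ * p = 0)
    (h2 : u₀ * c + u₁ * b + u₂ * a + v₀ * r + v₁ * q = 0)
    (h3 : u₁ * c + u₂ * b + v₀ * s + v₁ * r = 0) (h4 : u₂ * c + v₁ * s = 0) :
    u₀ = 0 ∧ u₁ = 0 ∧ u₂ = 0 ∧ v₀ = 0 ∧ v₁ = 0 := by
  have hne := ne_zero a b c p q r s h
  have hv : v₀ = 0 ∧ v₁ = 0 := by
    let Ω := AlgebraicClosure E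
    let i : E →+* Ω := algebraMap E Ω
    have hi : Function.Injective i := i.injective
    have H : ∀ x y : Ω, i a * x ^ 2 + i b * x * y + i c * y ^ 2 = 0 →
        ¬ (x = 0 ∧ y = 0) →
        i p * x ^ 3 + i q * x ^ 2 * y + i r * x * y ^ 2 + i s * y ^ 3 ≠ 0 := by
      intro x y h1 h2 h3
      exact h2 (h Ω x y h1 h3)
    have k0 := congrArg i h0
    have k1 := congrArg i h1
    have k2 := congrArg i h2
    have k3 := congrArg i h3
    have k4 := congrArg i h4
    simp only [map_add, map_mul, map_zero] at k0 k1 k2 k3 k4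
    -- value at a zero of the quadratic form
    have val : ∀ x y : Ω, i a * x ^ 2 + i b * x * y + i c * y ^ 2 = 0 → ¬ (x = 0 ∧ y = 0) →
        i v₀ * x + i v₁ * y = 0 := by
      intro x y hxy hn
      have h5 : (i v₀ * x + i v₁ * y) *
          (i p * x ^ 3 + i q * x ^ 2 * y + i r * x * y ^ 2 + i s * y ^ 3) = 0 := by
        linear_combination x ^ 4 * k0 + x ^ 3 * y * k1 + x ^ 2 * y ^ 2 * k2 + x * y ^ 3 * k3 +
          y ^ 4 * k4 - (i u₀ * x ^ 2 + i u₁ * x * y + i u₂ * y ^ 2) * hxy
      rcases mul_eq_zero.1 h5 with h6 | h6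
      · exact h6
      · exact absurd h6 (H x y hxy hn)
    have goal : i v₀ = 0 ∧ i v₁ = 0 := by
      by_cases ha : a = 0
      · have hia : i a = 0 := by rw [ha, map_zero]
        have e0 : i v₀ = 0 := by
          have := val 1 0 (by rw [hia]; ring) (by simp)
          linear_combination this
        refine ⟨e0, ?_⟩
        by_cases hb : b = 0
        · have hib : i b = 0 := by rw [hb, map_zero]
          have hp : i p ≠ 0 := by
            have := H 1 0 (by rw [hia]; ring) (by simp)
            intro hp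
            apply this
            rw [hp]
            ring
          have h5 : i v₁ * i p = 0 := by
            rw [hia, hib, e0] at k1
            linear_combination k1
          rcases mul_eq_zero.1 h5 with h6 | h6
          · exact h6
          · exact absurd h6 hp
        · have hib : i b ≠ 0 := fun h5 => hb (hi (by rw [h5, map_zero]))
          have := val (- i c) (i b) (by rw [hia]; ring) (by
            rintro ⟨-, h5⟩
            exact hib h5)
          rw [e0] at this
          have h5 : i v₁ * i b = 0 := by linear_combination this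
          rcases mul_eq_zero.1 h5 with h6 | h6
          · exact h6
          · exact absurd h6 hib
      · have hia : i a ≠ 0 := fun h5 => ha (hi (by rw [h5, map_zero]))
        obtain ⟨x, y, hb, hc⟩ := split (i a) (i b) (i c) hia
        have hx0 : i a * x ^ 2 + i b * x * 1 + i c * 1 ^ 2 = 0 := by rw [hb, hc]; ring
        have hy0 : i a * y ^ 2 + i b * y * 1 + i c * 1 ^ 2 = 0 := by rw [hb, hc]; ring
        have hx := val x 1 hx0 (by simp)
        have hy := val y 1 hy0 (by simp)
        have e0 : i v₀ = 0 := by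
          by_cases hxy : x = y
          · subst hxy
            have h5 : i v₀ * (i p * x ^ 3 + i q * x ^ 2 * 1 + i r * x * 1 ^ 2 + i s * 1 ^ 3) =
                0 := by
              have hd : 2 * i a * x + i b = 0 := by rw [hb]; ring
              linear_combination 4 * x ^ 3 * k0 + 3 * x ^ 2 * k1 + 2 * x * k2 + k3 -
                (2 * i u₀ * x + i u₁) * hx0 - (i u₀ * x ^ 2 + i u₁ * x + i u₂) * hd -
                (3 * i p * x ^ 2 + 2 * i q * x + i r) * hx
            rcases mul_eq_zero.1 h5 with h6 | h6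
            · exact h6
            · exact absurd h6 (H x 1 hx0 (by simp))
          · have h5 : i v₀ * (x - y) = 0 := by linear_combination hx - hy
            rcases mul_eq_zero.1 h5 with h6 | h6
            · exact h6
            · exact absurd (sub_eq_zero.1 h6) hxy
        refine ⟨e0, ?_⟩
        rw [e0] at hx
        linear_combination hx
    exact ⟨hi (by rw [goal.1, map_zero]), hi (by rw [goal.2, map_zero])⟩
  obtain ⟨rfl, rfl⟩ := hv
  obtain ⟨e0, e1, e2⟩ := mul_inj a b c hne u₀ u₁ u₂ (by linear_combination h0)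
    (by linear_combination h1) (by linear_combination h2) (by linear_combination h3)
    (by linear_combination h4)
  exact ⟨e0, e1, e2, rfl, rfl⟩

/-- The Sylvester map. -/
def sylMap : (Fin 5 → E) →ₗ[E] (Fin 5 → E) where
  toFun w := ![w 0 * a + w 3 * p, w 0 * b + w 1 * a + w 3 * q + w 4 * p,
    w 0 * c + w 1 * b + w 2 * a + w 3 * r + w 4 * q, w 1 * c + w 2 * b + w 3 * s + w 4 * r,
    w 2 * c + w 4 * s]
  map_add' v w := by
    ext i
    fin_cases i <;> simp <;> ring
  map_smul' t w := by
    ext i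
    fin_cases i <;> simp <;> ring

theorem sylMap_surj (h : NoZ a b c p q r s) : Function.Surjective (sylMap a b c p q r s) := by
  rw [← LinearMap.injective_iff_surjective]
  rw [injective_iff_map_eq_zero]
  intro w hw
  have h0 := congrFun hw 0
  have h1 := congrFun hw 1
  have h2 := congrFun hw 2
  have h3 := congrFun hw 3
  have h4 := congrFun hw 4
  simp only [sylMap, LinearMap.coe_mk, AddHom.coe_mk, Pi.zero_apply] at h0 h1 h2 h3 h4
  obtain ⟨e0, e1, e2, e3, e4⟩ := syl a b c p q r s h (w 0) (w 1) (w 2) (w 3) (w 4) h0 h1 h2 h3 h4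
  ext i
  fin_cases i <;> simp [e0, e1, e2, e3, e4]

end Forms

section Field

variable {E K : Type u} [Field E] [Field K] [Algebra E K] (X Y : K)

/-- Evaluation of the polynomials of degree at most three. -/
noncomputable def L3 : (Fin 10 → E) →ₗ[E] K where
  toFun v := algebraMap E K (v 0) * X ^ 3 + algebraMap E K (v 1) * X ^ 2 * Y +
    algebraMap E K (v 2) * X * Y ^ 2 + algebraMap E K (v 3) * Y ^ 3 +
    algebraMap E K (v 4) * X ^ 2 + algebraMap E K (v 5) * X * Y + algebraMap E K (v 6) * Y ^ 2 +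
    algebraMap E K (v 7) * X + algebraMap E K (v 8) * Y + algebraMap E K (v 9)
  map_add' v w := by
    simp only [Pi.add_apply, map_add]
    ring
  map_smul' t w := by
    simp only [Pi.smul_apply, smul_eq_mul, map_mul, RingHom.id_apply, Algebra.smul_def]
    ring

theorem L3_apply (v : Fin 10 → E) : L3 X Y v =
    algebraMap E K (v 0) * X ^ 3 + algebraMap E K (v 1) * X ^ 2 * Y +
    algebraMap E K (v 2) * X * Y ^ 2 + algebraMap E K (v 3) * Y ^ 3 +
    algebraMap E K (v 4) * X ^ 2 + algebraMap E K (v 5) * X * Y + algebraMap E K (v 6) * Y ^ 2 +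
    algebraMap E K (v 7) * X + algebraMap E K (v 8) * Y + algebraMap E K (v 9) := rfl

variable (a b c d e f p q r s g₀ g₁ g₂ g₃ g₄ g₅ : E)

/-- Monomials of degree four. -/
theorem four (h : NoZ a b c p q r s)
    (hq : algebraMap E K a * X ^ 2 + algebraMap E K b * X * Y + algebraMap E K c * Y ^ 2 +
      algebraMap E K d * X + algebraMap E K e * Y + algebraMap E K f = 0)
    (hc : algebraMap E K p * X ^ 3 + algebraMap E K q * X ^ 2 * Y +
      algebraMap E K r * X * Y ^ 2 +
      algebraMap E K s * Y ^ 3 + algebraMap E K g₀ * X ^ 2 + algebraMap E K g₁ * X * Y +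
      algebraMap E K g₂ * Y ^ 2 + algebraMap E K g₃ * X + algebraMap E K g₄ * Y +
      algebraMap E K g₅ = 0) (t : Fin 5 → E) :
    ∃ v : Fin 10 → E, L3 X Y v = algebraMap E K (t 0) * X ^ 4 +
      algebraMap E K (t 1) * X ^ 3 * Y + algebraMap E K (t 2) * X ^ 2 * Y ^ 2 +
      algebraMap E K (t 3) * X * Y ^ 3 + algebraMap E K (t 4) * Y ^ 4 := by
  obtain ⟨w, rfl⟩ := sylMap_surj a b c p q r s h t
  refine ⟨![-(w 0 * d + w 3 * g₀), -(w 0 * e + w 1 * d + w 3 * g₁ + w 4 * g₀),
    -(w 1 * e + w 2 * d + w 3 * g₂ + w 4 * g₁), -(w 2 * e + w 4 * g₂),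
    -(w 0 * f + w 3 * g₃), -(w 1 * f + w 3 * g₄ + w 4 * g₃), -(w 2 * f + w 4 * g₄),
    -(w 3 * g₅), -(w 4 * g₅), 0], ?_⟩
  rw [L3_apply]
  simp only [sylMap, LinearMap.coe_mk, AddHom.coe_mk, Matrix.cons_val_zero, Matrix.cons_val_one,
    Matrix.cons_val, map_add, map_mul, map_neg, map_zero]
  linear_combination (-(algebraMap E K (w 0) * X ^ 2 + algebraMap E K (w 1) * X * Y +
    algebraMap E K (w 2) * Y ^ 2)) * hq - (algebraMap E K (w 3) * X + algebraMap E K (w 4) * Y) * hc

end Field

end BZ23

theorem bz23 : S_BZ23.{u} := by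
  intro E K _ _ _ X Y a b c d e f p q r s g₀ g₁ g₂ g₃ g₄ g₅ hgen hq hc hno
  have hno' : BZ23.NoZ a b c p q r s := hno
  have four := BZ23.four X Y a b c d e f p q r s g₀ g₁ g₂ g₃ g₄ g₅ hno' hq hc
  set V : Submodule E K := LinearMap.range (BZ23.L3 (E := E) X Y) with hV
  have hX : ∀ z ∈ V, X * z ∈ V := by
    rintro z ⟨v, rfl⟩
    obtain ⟨v', hv'⟩ := four ![v 0, v 1, v 2, v 3, 0]
    refine ⟨v' + ![v 4, v 5, v 6, 0, v 7, v 8, 0, v 9, 0, 0], ?_⟩
    rw [map_add, hv', BZ23.L3_apply, BZ23.L3_apply]
    simp only [Matrix.cons_val_zero, Matrix.cons_val_one, Matrix.cons_val, map_zero]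
    ring
  have hY : ∀ z ∈ V, Y * z ∈ V := by
    rintro z ⟨v, rfl⟩
    obtain ⟨v', hv'⟩ := four ![0, v 0, v 1, v 2, v 3]
    refine ⟨v' + ![0, v 4, v 5, v 6, 0, v 7, v 8, 0, v 9, 0], ?_⟩
    rw [map_add, hv', BZ23.L3_apply, BZ23.L3_apply]
    simp only [Matrix.cons_val_zero, Matrix.cons_val_one, Matrix.cons_val, map_zero]
    ring
  have h1V : (1 : K) ∈ V := by
    refine ⟨![0, 0, 0, 0, 0, 0, 0, 0, 0, 1], ?_⟩
    rw [BZ23.L3_apply]
    simp
  have hmul : ∀ w ∈ Algebra.adjoin E ({X, Y} : Set K), ∀ z ∈ V, w * z ∈ V := by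
    intro w hw
    induction hw using Algebra.adjoin_induction with
    | mem x hx =>
      rcases hx with rfl | rfl
      · exact hX
      · exact hY
    | algebraMap t =>
      intro z hz
      rw [← Algebra.smul_def]
      exact V.smul_mem t hz
    | add x y _ _ hx hy =>
      intro z hz
      rw [add_mul]
      exact V.add_mem (hx z hz) (hy z hz)
    | mul x y _ _ hx hy =>
      intro z hz
      rw [mul_assoc]
      exact hx _ (hy z hz)
  have hle : Subalgebra.toSubmodule (Algebra.adjoin E ({X, Y} : Set K)) ≤ V := by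
    intro w hw
    have := hmul w hw 1 h1V
    rwa [mul_one] at this
  have hVfin : FiniteDimensional E V := by
    rw [hV]
    infer_instance
  have hAfin : FiniteDimensional E (Subalgebra.toSubmodule (Algebra.adjoin E ({X, Y} : Set K))) :=
    Submodule.finiteDimensional_of_le hle
  have halg : ∀ x ∈ ({X, Y} : Set K), IsAlgebraic E x := by
    intro x hx
    have hx' : x ∈ Algebra.adjoin E ({X, Y} : Set K) := Algebra.subset_adjoin hx
    have hfg : (Subalgebra.toSubmodule (Algebra.adjoin E ({X, Y} : Set K))).FG :=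
      Module.Finite.iff_fg.1 hAfin
    exact (IsIntegral.of_mem_of_fg _ hfg x hx').isAlgebraic
  have htop : Algebra.adjoin E ({X, Y} : Set K) = ⊤ := by
    rw [← IntermediateField.adjoin_toSubalgebra_of_isAlgebraic halg, hgen]
    rfl
  have hVtop : V = ⊤ := by
    rw [eq_top_iff]
    intro x _
    apply hle
    rw [htop]
    trivial
  have hKfin : FiniteDimensional E K := by
    have h2 : FiniteDimensional E (⊤ : Submodule E K) := by
      rw [← hVtop]; exact hVfin
    exact Module.Finite.equiv (Submodule.topEquiv (R := E) (M := K))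
  refine ⟨Module.finrank_pos, ?_⟩
  have hrk := LinearMap.finrank_range_add_finrank_ker (BZ23.L3 (E := E) X Y)
  have h10 : Module.finrank E (Fin 10 → E) = 10 := by simp
  have hr : Module.finrank E (LinearMap.range (BZ23.L3 (E := E) X Y)) = Module.finrank E K := by
    rw [← hV, hVtop, finrank_top]
  rw [h10, hr] at hrk
  -- four independent relations
  let R : Fin 4 → (Fin 10 → E) := ![![a, b, c, 0, d, e, 0, f, 0, 0],
    ![0, a, b, c, 0, d, e, 0, f, 0], ![p, q, r, s, g₀, g₁, g₂, g₃, g₄, g₅],
    ![0, 0, 0, 0, a, b, c, d, e, f]]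
  have hRker : ∀ j, R j ∈ LinearMap.ker (BZ23.L3 (E := E) X Y) := by
    intro j
    rw [LinearMap.mem_ker, BZ23.L3_apply]
    fin_cases j
    · simp [R]
      linear_combination X * hq
    · simp [R]
      linear_combination Y * hq
    · simp [R]
      linear_combination hc
    · simp [R]
      linear_combination hq
  have hRli : LinearIndependent E R := by
    rw [Fintype.linearIndependent_iff]
    intro t ht
    have h0 := congrFun ht 0
    have h1 := congrFun ht 1
    have h2 := congrFun ht 2
    have h3 := congrFun ht 3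
    have h4 := congrFun ht 4
    have h5 := congrFun ht 5
    have h6 := congrFun ht 6
    simp [R, Fin.sum_univ_succ] at h0 h1 h2 h3 h4 h5 h6
    obtain ⟨e0, e1, -, e2, -⟩ := BZ23.syl a b c p q r s hno' (t 0) (t 1) 0 (t 2) 0
      (by linear_combination h0) (by linear_combination h1) (by linear_combination h2)
      (by linear_combination h3) (by ring)
    have hne := BZ23.ne_zero a b c p q r s hno'
    have e3 : t 3 = 0 := by
      by_contra h7
      apply hne
      refine ⟨?_, ?_, ?_⟩
      · simpa [h7, e0, e1, e2] using h4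
      · simpa [h7, e0, e1, e2] using h5
      · simpa [h7, e0, e1, e2] using h6
    intro j
    fin_cases j
    · exact e0
    · exact e1
    · exact e2
    · exact e3
  have hker : 4 ≤ Module.finrank E (LinearMap.ker (BZ23.L3 (E := E) X Y)) := by
    have h3 : LinearIndependent E
        (fun j => (⟨R j, hRker j⟩ : LinearMap.ker (BZ23.L3 (E := E) X Y))) := by
      apply LinearIndependent.of_comp (Submodule.subtype _)
      exact hRli
    simpa using h3.fintype_card_le_finrank
  omega

end Pool.Agent.Helper95K9.IR
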