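import Pool.Agent.Helper95K9.IR.Tool

/-!
Degree of irrationality of del Pezzo surfaces: the leaf BZ22 (two conics without a common point
at infinity).
-/

set_option autoImplicit false

namespace Pool.Agent.Helper95K9.IR.Bz22

universe u

/-- A finite-dimensional space containing `1` and stable under `X` and `Y`. -/
theorem top_of_stable {E K : Type u} [Field E] [Field K] [Algebra E K] (X Y : K)
    (hXY : IntermediateField.adjoin E ({X, Y} : Set K) = ⊤) (R : Submodule E K)
    [FiniteDimensional E R] (h1 : (1 : K) ∈ R) (hX : ∀ z ∈ R, X * z ∈ R)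
    (hY : ∀ z ∈ R, Y * z ∈ R) : R = ⊤ := by
  let S : Subalgebra E K :=
    { carrier := {z | ∀ w ∈ R, z * w ∈ R}
      mul_mem' := by
        intro x y hx hy w hw
        rw [mul_assoc]
        exact hx _ (hy w hw)
      one_mem' := by
        intro w hw
        rwa [one_mul]
      add_mem' := by
        intro x y hx hy w hw
        rw [add_mul]
        exact add_mem (hx w hw) (hy w hw)
      zero_mem' := by
        intro w _
        rw [zero_mul]
        exact zero_mem _
      algebraMap_mem' := by
        intro r w hw
        rw [← Algebra.smul_def]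
        exact R.smul_mem r hw }
  have hSR : S.toSubmodule ≤ R := by
    intro z hz
    have h := (show ∀ w ∈ R, z * w ∈ R from hz) 1 h1
    rwa [mul_one] at h
  have hSf : Module.Finite E S.toSubmodule := Submodule.finiteDimensional_of_le hSR
  have hSf' : Module.Finite E S := hSf
  let T : IntermediateField E K := S.toIntermediateField (by
    intro x hx
    have h2 : IsAlgebraic E ((⟨x, hx⟩ : S) : K) := by
      have h3 : IsIntegral E (⟨x, hx⟩ : S) := IsIntegral.of_finite E _
      exact (h3.map S.val).isAlgebraic
    exact S.inv_mem_of_algebraic h2)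
  have hT : (⊤ : IntermediateField E K) ≤ T := by
    rw [← hXY, IntermediateField.adjoin_le_iff]
    intro z hz
    rcases hz with rfl | hz
    · exact hX
    · rw [Set.mem_singleton_iff] at hz
      rw [hz]
      exact hY
  rw [eq_top_iff]
  intro z _
  have h2 : z ∈ T := hT (IntermediateField.mem_top (x := z))
  exact hSR h2

theorem finrank_of_stable {E K : Type u} [Field E] [Field K] [Algebra E K] (X Y : K)
    (hXY : IntermediateField.adjoin E ({X, Y} : Set K) = ⊤) (R : Submodule E K)
    [FiniteDimensional E R] (h1 : (1 : K) ∈ R) (hX : ∀ z ∈ R, X * z ∈ R)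
    (hY : ∀ z ∈ R, Y * z ∈ R) (m : ℕ) (hm : Module.finrank E R ≤ m) :
    0 < Module.finrank E K ∧ Module.finrank E K ≤ m := by
  have h := top_of_stable X Y hXY R h1 hX hY
  subst h
  have hf : Module.Finite E K := by
    have : Module.Finite E (⊤ : Submodule E K) := inferInstance
    exact Module.Finite.equiv (Submodule.topEquiv (R := E) (M := K))
  rw [finrank_top] at hm
  exact ⟨Module.finrank_pos, hm⟩

/-- `v ↦ v 0 + v 1 X + v 2 Y + v 3 X ^ 2 + v 4 X Y + v 5 Y ^ 2`. -/
noncomputable def phi {E K : Type u} [Field E] [Field K] [Algebra E K] (X Y : K) :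
    (Fin 6 → E) →ₗ[E] K where
  toFun v := algebraMap E K (v 0) + algebraMap E K (v 1) * X + algebraMap E K (v 2) * Y +
    algebraMap E K (v 3) * X ^ 2 + algebraMap E K (v 4) * (X * Y) + algebraMap E K (v 5) * Y ^ 2
  map_add' v w := by
    simp only [Pi.add_apply, map_add]
    ring
  map_smul' r v := by
    simp only [Pi.smul_apply, smul_eq_mul, map_mul, RingHom.id_apply, Algebra.smul_def]
    ring

theorem bz22 : S_BZ22.{u} := by
  intro E K _ _ _ X Y a b c d e f a' b' c' d' e' f' hXY h1 h2 hD
  let R : Submodule E K := LinearMap.range (phi (E := E) X Y)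
  have hphi : ∀ v : Fin 6 → E, algebraMap E K (v 0) + algebraMap E K (v 1) * X +
    algebraMap E K (v 2) * Y + algebraMap E K (v 3) * X ^ 2 + algebraMap E K (v 4) * (X * Y) +
    algebraMap E K (v 5) * Y ^ 2 ∈ R := fun v => ⟨v, rfl⟩
  have hsm : ∀ (r : E) (z : K), z ∈ R → algebraMap E K r * z ∈ R := by
    intro r z hz
    rw [← Algebra.smul_def]
    exact R.smul_mem r hz
  have m1 : (1 : K) ∈ R := by simpa using hphi ![1, 0, 0, 0, 0, 0]
  have mX : X ∈ R := by simpa using hphi ![0, 1, 0, 0, 0, 0]
  have mY : Y ∈ R := by simpa using hphi ![0, 0, 1, 0, 0, 0]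
  have mXX : X ^ 2 ∈ R := by simpa using hphi ![0, 0, 0, 1, 0, 0]
  have mXY : X * Y ∈ R := by simpa using hphi ![0, 0, 0, 0, 1, 0]
  have mYY : Y ^ 2 ∈ R := by simpa using hphi ![0, 0, 0, 0, 0, 1]
  set D : E := (a * c' - a' * c) ^ 2 - (a * b' - a' * b) * (b * c' - b' * c) with hDdef
  have hD' : algebraMap E K D ≠ 0 := by simpa using hD
  -- the four products
  have mlin : ∀ p q r : E,
      algebraMap E K p * X + algebraMap E K q * Y + algebraMap E K r * 1 ∈ R := by
    intro p q r
    exact add_mem (add_mem (hsm _ _ mX) (hsm _ _ mY)) (hsm _ _ m1)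
  have mX1 : ∀ p q r : E, algebraMap E K p * X ^ 2 + algebraMap E K q * (X * Y) +
      algebraMap E K r * X ∈ R := by
    intro p q r
    exact add_mem (add_mem (hsm _ _ mXX) (hsm _ _ mXY)) (hsm _ _ mX)
  have mY1 : ∀ p q r : E, algebraMap E K p * (X * Y) + algebraMap E K q * Y ^ 2 +
      algebraMap E K r * Y ∈ R := by
    intro p q r
    exact add_mem (add_mem (hsm _ _ mXY) (hsm _ _ mYY)) (hsm _ _ mY)
  have key : ∀ (z : K) (r₁ r₂ r₃ r₄ : E),
      algebraMap E K D * z =
        algebraMap E K r₁ * (algebraMap E K a * X ^ 3 + algebraMap E K b * X ^ 2 * Y +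
          algebraMap E K c * X * Y ^ 2) +
        algebraMap E K r₂ * (algebraMap E K a * X ^ 2 * Y + algebraMap E K b * X * Y ^ 2 +
          algebraMap E K c * Y ^ 3) +
        algebraMap E K r₃ * (algebraMap E K a' * X ^ 3 + algebraMap E K b' * X ^ 2 * Y +
          algebraMap E K c' * X * Y ^ 2) +
        algebraMap E K r₄ * (algebraMap E K a' * X ^ 2 * Y + algebraMap E K b' * X * Y ^ 2 +
          algebraMap E K c' * Y ^ 3) → z ∈ R := by
    intro z r₁ r₂ r₃ r₄ hz
    have h3 : z = algebraMap E K D⁻¹ * (algebraMap E K D * z) := by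
      rw [map_inv₀, inv_mul_cancel_left₀ hD']
    rw [h3]
    apply hsm
    have h4 : algebraMap E K D * z =
        algebraMap E K (-r₁) * (algebraMap E K d * X ^ 2 + algebraMap E K e * (X * Y) +
          algebraMap E K f * X) +
        algebraMap E K (-r₂) * (algebraMap E K d * (X * Y) + algebraMap E K e * Y ^ 2 +
          algebraMap E K f * Y) +
        algebraMap E K (-r₃) * (algebraMap E K d' * X ^ 2 + algebraMap E K e' * (X * Y) +
          algebraMap E K f' * X) +
        algebraMap E K (-r₄) * (algebraMap E K d' * (X * Y) + algebraMap E K e' * Y ^ 2 +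
          algebraMap E K f' * Y) := by
      simp only [map_neg]
      linear_combination hz + algebraMap E K r₁ * X * h1 + algebraMap E K r₂ * Y * h1 +
        algebraMap E K r₃ * X * h2 + algebraMap E K r₄ * Y * h2
    rw [h4]
    exact add_mem (add_mem (add_mem (hsm _ _ (mX1 _ _ _)) (hsm _ _ (mY1 _ _ _)))
      (hsm _ _ (mX1 _ _ _))) (hsm _ _ (mY1 _ _ _))
  have mXXX : X ^ 3 ∈ R := by
    apply key (X ^ 3) (a * c' * c' - b * b' * c' + b' * b' * c - a' * c * c')
      (-b * c' * c' + b' * c * c') (b * b * c' - b * b' * c - a * c * c' + a' * c * c)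
      (b * c * c' - b' * c * c)
    simp only [hDdef, map_add, map_sub, map_mul, map_pow, map_neg]
    ring
  have mXXY : X ^ 2 * Y ∈ R := by
    apply key (X ^ 2 * Y) (a' * b * c' - a' * b' * c) (a * c' * c' - a' * c * c')
      (-a * b * c' + a * b' * c) (-a * c * c' + a' * c * c)
    simp only [hDdef, map_add, map_sub, map_mul, map_pow, map_neg]
    ring
  have mXYY : X * Y ^ 2 ∈ R := by
    apply key (X * Y ^ 2) (-a * a' * c' + a' * a' * c) (-a * b' * c' + a' * b * c')
      (a * a * c' - a * a' * c) (a * b' * c - a' * b * c)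
    simp only [hDdef, map_add, map_sub, map_mul, map_pow, map_neg]
    ring
  have mYYY : Y ^ 3 ∈ R := by
    apply key (Y ^ 3) (a * a' * b' - a' * a' * b)
      (a * b' * b' - a * a' * c' - a' * b * b' + a' * a' * c)
      (-a * a * b' + a * a' * b) (a * a * c' - a * b * b' + a' * b * b - a * a' * c)
    simp only [hDdef, map_add, map_sub, map_mul, map_pow, map_neg]
    ring
  have hfd : FiniteDimensional E R := inferInstance
  refine finrank_of_stable X Y hXY R m1 ?_ ?_ 4 ?_
  · rintro z ⟨v, rfl⟩
    have : X * phi (E := E) X Y v = algebraMap E K (v 0) * X + algebraMap E K (v 1) * X ^ 2 +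
        algebraMap E K (v 2) * (X * Y) + algebraMap E K (v 3) * X ^ 3 +
        algebraMap E K (v 4) * (X ^ 2 * Y) + algebraMap E K (v 5) * (X * Y ^ 2) := by
      change X * (algebraMap E K (v 0) + algebraMap E K (v 1) * X + algebraMap E K (v 2) * Y +
        algebraMap E K (v 3) * X ^ 2 + algebraMap E K (v 4) * (X * Y) +
        algebraMap E K (v 5) * Y ^ 2) = _
      ring
    rw [this]
    exact add_mem (add_mem (add_mem (add_mem (add_mem (hsm _ _ mX) (hsm _ _ mXX))
      (hsm _ _ mXY)) (hsm _ _ mXXX)) (hsm _ _ mXXY)) (hsm _ _ mXYY)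
  · rintro z ⟨v, rfl⟩
    have : Y * phi (E := E) X Y v = algebraMap E K (v 0) * Y + algebraMap E K (v 1) * (X * Y) +
        algebraMap E K (v 2) * Y ^ 2 + algebraMap E K (v 3) * (X ^ 2 * Y) +
        algebraMap E K (v 4) * (X * Y ^ 2) + algebraMap E K (v 5) * Y ^ 3 := by
      change Y * (algebraMap E K (v 0) + algebraMap E K (v 1) * X + algebraMap E K (v 2) * Y +
        algebraMap E K (v 3) * X ^ 2 + algebraMap E K (v 4) * (X * Y) +
        algebraMap E K (v 5) * Y ^ 2) = _
      ring
    rw [this]
    exact add_mem (add_mem (add_mem (add_mem (add_mem (hsm _ _ mY) (hsm _ _ mXY))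
      (hsm _ _ mYY)) (hsm _ _ mXXY)) (hsm _ _ mXYY)) (hsm _ _ mYYY)
  · have h3 := LinearMap.finrank_range_add_finrank_ker (phi (E := E) X Y)
    rw [Module.finrank_fin_fun] at h3
    have h4 : 2 ≤ Module.finrank E (LinearMap.ker (phi (E := E) X Y)) := by
      let w : Fin 2 → LinearMap.ker (phi (E := E) X Y) :=
        ![⟨![f, d, e, a, b, c], by
            rw [LinearMap.mem_ker]
            change algebraMap E K f + algebraMap E K d * X + algebraMap E K e * Y +
              algebraMap E K a * X ^ 2 + algebraMap E K b * (X * Y) +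
              algebraMap E K c * Y ^ 2 = 0
            linear_combination h1⟩,
          ⟨![f', d', e', a', b', c'], by
            rw [LinearMap.mem_ker]
            change algebraMap E K f' + algebraMap E K d' * X + algebraMap E K e' * Y +
              algebraMap E K a' * X ^ 2 + algebraMap E K b' * (X * Y) +
              algebraMap E K c' * Y ^ 2 = 0
            linear_combination h2⟩]
      have hw : LinearIndependent E w := by
        rw [LinearIndependent.pair_iff]
        intro p q hpq
        have h5 := congrArg Subtype.val hpq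
        have e3 : p * a + q * a' = 0 := by simpa using congrFun h5 3
        have e4 : p * b + q * b' = 0 := by simpa using congrFun h5 4
        have e5 : p * c + q * c' = 0 := by simpa using congrFun h5 5
        constructor
        · by_contra hp
          apply hD
          have k1 : a * c' - a' * c = 0 := by
            apply mul_left_cancel₀ hp
            linear_combination c' * e3 - a' * e5
          have k2 : a * b' - a' * b = 0 := by
            apply mul_left_cancel₀ hp
            linear_combination b' * e3 - a' * e4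
          rw [hDdef, k1, k2]
          ring
        · by_contra hq
          apply hD
          have k1 : a * c' - a' * c = 0 := by
            apply mul_left_cancel₀ hq
            linear_combination a * e5 - c * e3
          have k2 : a * b' - a' * b = 0 := by
            apply mul_left_cancel₀ hq
            linear_combination a * e4 - b * e3
          rw [hDdef, k1, k2]
          ring
      simpa using hw.fintype_card_le_finrank
    change Module.finrank E (LinearMap.range (phi (E := E) X Y)) ≤ 4
    omega

end Pool.Agent.Helper95K9.IR.Bz22
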