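import Pool.Agent.Helper95K9.IR.C6U3

/-!
Degree of irrationality of del Pezzo surfaces: the leaf [6U2], and more tools for degree six.
-/

set_option autoImplicit false

namespace Pool.Agent.Helper95K9.IR.Six

open Polynomial IntermediateField

universe u

variable {F Ω : Type u} [Field F] [Field Ω] [Algebra F Ω]

theorem not_alg_of_surface {K : IntermediateField F Ω} (hK : IsSurfaceField F K) :
    ¬ ∀ x ∈ K, IsAlgebraic F x := by
  intro h
  have h2 := hK.1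
  have : Algebra.IsAlgebraic F K := by
    constructor
    intro x
    have := h x x.2
    rwa [← isAlgebraic_algebraMap_iff (A := Ω) (algebraMap K Ω).injective]
  have h3 : Algebra.trdeg F K = 0 := trdeg_eq_zero
  rw [h3] at h2
  norm_num at h2

/-- Linear independence of `1` and `ω` over `K`. -/
theorem lin2 {ω ω' : Ω} (hω : IsQuad F ω ω') {K : IntermediateField F Ω}
    (hK : ∀ x ∈ K, IsAlgebraic F x → x ∈ (algebraMap F Ω).range) (s t : Ω) (hs : s ∈ K)
    (ht : t ∈ K) (h : s + t * ω = 0) : s = 0 ∧ t = 0 := by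
  obtain ⟨hne, g, hg, hgp⟩ := hω
  have hroot : aeval ω g = 0 := by
    rw [← eval_map_algebraMap, hgp]
    simp
  have ht0 : t = 0 := by
    by_contra ht0
    have hωK : ω ∈ K := by
      have : ω = (-s) / t := by
        rw [eq_div_iff ht0]
        linear_combination h
      rw [this]
      exact K.div_mem (K.neg_mem hs) ht
    obtain ⟨a, ha⟩ := hK ω hωK ⟨g, hg.ne_zero, hroot⟩
    have hdeg : g.natDegree = 2 := by
      rw [← Polynomial.natDegree_map (algebraMap F Ω), hgp,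
        natDegree_mul (X_sub_C_ne_zero _) (X_sub_C_ne_zero _)]
      simp
    have h1 : g.degree = 1 := degree_eq_one_of_irreducible_of_root (x := a) hg (by
      rw [IsRoot.def]
      rw [← ha, aeval_algebraMap_apply, map_eq_zero] at hroot
      simpa [coe_aeval_eq_eval] using hroot)
    have h2 : g.natDegree = 1 := natDegree_eq_of_degree_eq_some h1
    omega
  refine ⟨?_, ht0⟩
  rw [ht0] at h
  linear_combination h

/-- The product over the three conjugates. -/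
theorem prod_conj {θ : Fin 3 → Ω} {ω ω' : Ω} (hθ : IsCubic F θ) (hω : IsQuad F ω ω')
    {K : IntermediateField F Ω} (x y : Fin 3 → Ω) (hx : ∀ j, x j ∈ K) (hy : ∀ j, y j ∈ K) :
    ∃ s t : Ω, s ∈ K ∧ t ∈ K ∧ (∏ i, zz θ ω x y i) = s + t * ω ∧
      (∏ i, zz θ ω' x y i) = s + t * ω' := by
  obtain ⟨A, B, hB, hA⟩ := quad hω
  have cx := Co.of (K := K) (θ := θ) x hx
  have cy := Co.of (K := K) (θ := θ) y hy
  have n0 := cx.prod_mem hθ
  have n3 := cy.prod_mem hθ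
  have n1 := (cy.mul hθ (cx.adj hθ)).sum_mem hθ
  have n2 := (cx.mul hθ (cy.adj hθ)).sum_mem hθ
  have a1 : (0 : Fin 3) + 1 = 1 := rfl
  have a2 : (0 : Fin 3) + 2 = 2 := rfl
  have a3 : (1 : Fin 3) + 1 = 2 := rfl
  have a4 : (1 : Fin 3) + 2 = 0 := rfl
  have a5 : (2 : Fin 3) + 1 = 0 := rfl
  have a6 : (2 : Fin 3) + 2 = 1 := rfl
  simp only [a1, a2, a3, a4, a5, a6] at n0 n1 n2 n3
  set N0 := ev x (θ 0) * ev x (θ 1) * ev x (θ 2) with hN0
  set N3 := ev y (θ 0) * ev y (θ 1) * ev y (θ 2) with hN3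
  set N1 := ev y (θ 0) * (ev x (θ 1) * ev x (θ 2)) + ev y (θ 1) * (ev x (θ 2) * ev x (θ 0)) +
    ev y (θ 2) * (ev x (θ 0) * ev x (θ 1)) with hN1
  set N2 := ev x (θ 0) * (ev y (θ 1) * ev y (θ 2)) + ev x (θ 1) * (ev y (θ 2) * ev y (θ 0)) +
    ev x (θ 2) * (ev y (θ 0) * ev y (θ 1)) with hN2
  have mA := K.algebraMap_mem A
  have mB := K.algebraMap_mem B
  have hA' : algebraMap F Ω A = - (ω * ω') := by rw [hA]; ring
  have hB' : algebraMap F Ω B = ω + ω' := hB.symm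
  set a := algebraMap F Ω A
  set b := algebraMap F Ω B
  refine ⟨N0 + a * N2 + a * b * N3, N1 + b * N2 + (a + b * b) * N3,
    K.add_mem (K.add_mem n0 (K.mul_mem mA n2)) (K.mul_mem (K.mul_mem mA mB) n3),
    K.add_mem (K.add_mem n1 (K.mul_mem mB n2)) (K.mul_mem (K.add_mem mA (K.mul_mem mB mB)) n3),
    ?_, ?_⟩
  · rw [Fin.prod_univ_three, hA', hB', hN0, hN1, hN2, hN3]
    simp only [zz]
    ring
  · rw [Fin.prod_univ_three, hA', hB', hN0, hN1, hN2, hN3]
    simp only [zz]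
    ring

/-- A line and a conic. -/
theorem rel_YL (hYL : S_YL.{u}) {A B : IntermediateField F Ω} (hAB : A ≤ B) (X Y : Ω)
    (hX : X ∈ B) (hY : Y ∈ B) (hB : B ≤ A ⊔ adjoin F {X, Y}) (l₀ l₁ c n₀ n₁ n₂ m₀ m₁ d : A)
    (h1 : (l₀ : Ω) * X + l₁ * Y + c = 0)
    (h2 : (n₀ : Ω) * X ^ 2 + n₁ * X * Y + n₂ * Y ^ 2 + m₀ * X + m₁ * Y + d = 0)
    (h3 : (n₀ : Ω) * l₁ ^ 2 - n₁ * l₀ * l₁ + n₂ * l₀ ^ 2 ≠ 0) :
    0 < relfinrank A B ∧ relfinrank A B ≤ 2 := by
  have hBe : B = A ⊔ adjoin F {X, Y} := le_antisymm hB (sup_le hAB (by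
    rw [adjoin_le_iff]
    rintro z (rfl | rfl)
    · exact hX
    · exact hY))
  rw [hBe, relfinrank_adjoin]
  have hmX : X ∈ adjoin A ({X, Y} : Set Ω) := subset_adjoin A _ (by simp)
  have hmY : Y ∈ adjoin A ({X, Y} : Set Ω) := subset_adjoin A _ (by simp)
  have htop : adjoin A ({⟨X, hmX⟩, ⟨Y, hmY⟩} : Set (adjoin A ({X, Y} : Set Ω))) = ⊤ :=
    adjoin_val_top A {X, Y} _ (by rw [Set.image_pair])
  exact hYL A (adjoin A ({X, Y} : Set Ω)) ⟨X, hmX⟩ ⟨Y, hmY⟩ l₀ l₁ c n₀ n₁ n₂ m₀ m₁ d htop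
    (Subtype.ext h1) (Subtype.ext h2) (fun h => h3 (by
      have := congrArg (fun z : A => (z : Ω)) h
      simpa using this))

theorem fin3 : ∀ j k : Fin 3, j = k ∨ j = k + 1 ∨ j = k + 2 := by decide

/-- [6U2] -/
theorem t6U2 (hUB : S_UB.{u}) (hYL : S_YL.{u}) (hD : S_DESC.{u}) : S_6U2.{u} := by
  intro F Ω _ _ _ θ ω ω' b c₀ c₁ K h6 hFF hNK
  obtain ⟨hθ, hω, hb, hc0, hc1, hN, hne0⟩ := h6
  obtain ⟨hK, x₀, y₀, ⟨hT1, hT2⟩, hxy₀⟩ := hFF
  obtain ⟨X, Y, hX, hY, hm⟩ := hNK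
  have hne : ω - ω' ≠ 0 := sub_ne_zero.2 hω.1
  have halgK := alg_of_surface hK
  obtain ⟨hG1, hG2⟩ := gal6 hθ hω
  set G := adjoin F (Set.range θ ∪ {ω, ω'}) with hG
  have gθ : ∀ i, θ i ∈ G := fun i => subset_adjoin F _ (Or.inl ⟨i, rfl⟩)
  have gω : ω ∈ G := subset_adjoin F _ (Or.inr (by simp))
  have gω' : ω' ∈ G := subset_adjoin F _ (Or.inr (by simp))
  have rM : ∀ (M : IntermediateField F Ω) (z : Ω), z ∈ (algebraMap F Ω).range → z ∈ M := by
    rintro M z ⟨a, rfl⟩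
    exact M.algebraMap_mem a
  have hb0 : ∀ i, ev b (θ i) ≠ 0 := by
    have : (∏ i, ev b (θ i)) ≠ 0 := by rw [hN]; exact hne0
    rw [Finset.prod_ne_zero_iff] at this
    exact fun i => this i (Finset.mem_univ i)
  -- the conjugate product of the twisting element
  obtain ⟨s, t, hs, ht, hst1, hst2⟩ := prod_conj hθ hω (K := K) X Y (fun j => rM K _ (hX j))
    (fun j => rM K _ (hY j))
  have hst : s = c₀ ∧ t = c₁ := by
    have := lin2 hω halgK (s - c₀) (t - c₁) (K.sub_mem hs (rM K _ hc0))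
      (K.sub_mem ht (rM K _ hc1)) (by
        rw [hst1] at hm
        linear_combination hm)
    exact ⟨sub_eq_zero.1 this.1, sub_eq_zero.1 this.2⟩
  rw [hst.1, hst.2] at hst1 hst2
  have hc_ne := left_ne_zero_of_mul hne0
  have hc_ne' := right_ne_zero_of_mul hne0
  have hm0 : ∀ i, zz θ ω X Y i ≠ 0 := by
    have : (∏ i, zz θ ω X Y i) ≠ 0 := by rw [hm]; exact hc_ne
    rw [Finset.prod_ne_zero_iff] at this
    exact fun i => this i (Finset.mem_univ i)
  have hm0' : ∀ i, zz θ ω' X Y i ≠ 0 := by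
    have : (∏ i, zz θ ω' X Y i) ≠ 0 := by
      rw [hst2, mul_comm c₁ ω', mul_comm ω' c₁]; exact hc_ne'
    rw [Finset.prod_ne_zero_iff] at this
    exact fun i => this i (Finset.mem_univ i)
  obtain ⟨x, y, hxy, e1, e2⟩ := twist hθ hω K x₀ y₀ hxy₀ X Y hX hY
    (fun i => mul_ne_zero (hm0 i) (hm0' i))
  have hxK : ∀ j, x j ∈ K := fun j => hxy ▸ mem_adj_l x y j
  have hyK : ∀ j, y j ∈ K := fun j => hxy ▸ mem_adj_r x y j
  have cx := Co.of (K := K) (θ := θ) x hxK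
  have cy := Co.of (K := K) (θ := θ) y hyK
  have hP1 : (∏ i, zz θ ω x y i) = 1 := by
    apply mul_right_cancel₀ hc_ne
    rw [one_mul]
    calc (∏ i, zz θ ω x y i) * (c₀ + c₁ * ω) =
        (∏ i, zz θ ω x y i) * (∏ i, zz θ ω X Y i) := by rw [hm]
      _ = ∏ i, zz θ ω x₀ y₀ i := by
        rw [← Finset.prod_mul_distrib]
        exact Finset.prod_congr rfl (fun i _ => (e1 i).symm)
      _ = c₀ + c₁ * ω := hT2
  have hP2 : (∏ i, zz θ ω' x y i) = 1 := by
    obtain ⟨s, t, hs, ht, hst1, hst2⟩ := prod_conj hθ hω (K := K) x y hxK hyK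
    have := lin2 hω halgK (s - 1) t (K.sub_mem hs K.one_mem) ht (by
        rw [hst1] at hP1
        linear_combination hP1)
    rw [hst2, this.2, sub_eq_zero.1 this.1]
    ring
  obtain ⟨β, hβ⟩ : ∃ β : Fin 3 → Ω, ∀ i, β i = ev b (θ i) / (zz θ ω X Y i * zz θ ω' X Y i) :=
    ⟨_, fun _ => rfl⟩
  have hβG : ∀ i, β i ∈ G := by
    intro i
    rw [hβ i]
    exact G.div_mem (ev_mem b (fun j => rM G _ (hb j)) gθ i)
      (G.mul_mem (zz_mem X Y (fun j => rM G _ (hX j)) (fun j => rM G _ (hY j)) gθ gω i)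
        (zz_mem X Y (fun j => rM G _ (hX j)) (fun j => rM G _ (hY j)) gθ gω' i))
  have hβ0 : ∀ i, β i ≠ 0 := by
    intro i
    rw [hβ i]
    exact div_ne_zero (hb0 i) (mul_ne_zero (hm0 i) (hm0' i))
  have hzz : ∀ i, zz θ ω x y i * zz θ ω' x y i = β i := by
    intro i
    have h1 := hT1 i
    rw [e1 i, e2 i] at h1
    rw [hβ i, eq_div_iff (mul_ne_zero (hm0 i) (hm0' i)), ← h1]
    ring
  -- the values of `y` do not vanish
  have hy0 : ∀ i, ev y (θ i) ≠ 0 := by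
    apply cy.ne_zero hθ halgK
    intro h0
    have h0' : ∀ i, ev y (θ i) = 0 := fun i => congrFun h0 i
    have k1 : ∀ i, zz θ ω x y i = zz θ ω' x y i := by
      intro i
      simp only [zz, h0' i, mul_zero]
    have hGalg : ∀ z ∈ G, z ∈ algebraicClosure F Ω := by
      intro z hz
      rw [mem_algebraicClosure_iff]
      have halg : IsAlgebraic F (⟨z, hz⟩ : G) := Algebra.IsAlgebraic.isAlgebraic _
      exact halg.algebraMap (A := Ω)
    have k2 : ∀ i, zz θ ω x y i ∈ algebraicClosure F Ω := by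
      intro i
      have h2 := hzz i
      rw [← k1 i] at h2
      rw [mem_algebraicClosure_iff]
      have h3 : IsAlgebraic F (zz θ ω x y i ^ 2) := by
        rw [pow_two, h2]
        exact (mem_algebraicClosure_iff).1 (hGalg _ (hβG i))
      exact h3.of_pow (by norm_num)
    apply not_alg_of_surface hK
    intro z hz
    rw [← hxy] at hz
    have := le_of_values hθ.1 hω.1 x y (algebraicClosure F Ω) (fun i => hGalg _ (gθ i))
      (hGalg _ gω) (hGalg _ gω') k2 (fun i => k1 i ▸ k2 i) hz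
    exact (mem_algebraicClosure_iff).1 this
  obtain ⟨k, hk⟩ : ∃ k, y k ≠ 0 := by
    by_contra hcon
    push Not at hcon
    apply hy0 0
    simp only [ev, hcon]
    ring
  set lam := y k with hlam
  -- the base field
  apply hasDeg_of_sup hUB hD hK ⟨hG1, hG2⟩ (y (k + 1) / lam) (y (k + 2) / lam)
    (K.div_mem (hyK _) (hyK _)) (K.div_mem (hyK _) (hyK _)) 2
  set E := adjoin F ({y (k + 1) / lam, y (k + 2) / lam} : Set Ω) with hE
  have hEK : E ≤ K := by
    rw [hE, adjoin_le_iff]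
    rintro z (rfl | rfl)
    · exact K.div_mem (hyK _) (hyK _)
    · exact K.div_mem (hyK _) (hyK _)
  have hyE : ∀ j, y j / lam ∈ E := by
    have h0 : y k / lam ∈ E := by rw [hlam, div_self hk]; exact E.one_mem
    have h1 : y (k + 1) / lam ∈ E := subset_adjoin F _ (by simp)
    have h2 : y (k + 2) / lam ∈ E := subset_adjoin F _ (by simp)
    intro j
    rcases fin3 j k with rfl | rfl | rfl
    · exact h0
    · exact h1
    · exact h2
  obtain ⟨A₀, B₀, hB₀, hA₀⟩ := quad hω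
  set A := E ⊔ G with hA
  have hGA : G ≤ A := le_sup_right
  have hEA : E ≤ A := le_sup_left
  obtain ⟨η, hη⟩ : ∃ η : Fin 3 → Ω, ∀ i, η i = ev (fun j => y j / lam) (θ i) := ⟨_, fun _ => rfl⟩
  have hηA : ∀ i, η i ∈ A := fun i => by
    rw [hη i]; exact ev_mem _ (fun j => hEA (hyE j)) (fun i => hGA (gθ i)) i
  have hηe : ∀ i, ev y (θ i) = lam * η i := by
    intro i
    rw [hη i]
    simp only [ev]
    field_simp
  have hη0 : ∀ i, η i ≠ 0 := by
    intro i h0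
    apply hy0 i
    rw [hηe i, h0, mul_zero]
  obtain ⟨r, hr⟩ : ∃ r : Fin 3 → Ω, ∀ i, r i = ev x (θ i) / ev y (θ i) := ⟨_, fun _ => rfl⟩
  have hrx : ∀ i, ev x (θ i) = r i * ev y (θ i) := fun i => by
    rw [hr i, div_mul_cancel₀ _ (hy0 i)]
  obtain ⟨α, hα⟩ : ∃ α : Fin 3 → Ω, ∀ i, α i = β i / η i ^ 2 := ⟨_, fun _ => rfl⟩
  have hαA : ∀ i, α i ∈ A := fun i => by
    rw [hα i]; exact A.div_mem (hGA (hβG i)) (pow_mem (hηA i) 2)
  have hα0 : ∀ i, α i ≠ 0 := fun i => by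
    rw [hα i]; exact div_ne_zero (hβ0 i) (pow_ne_zero 2 (hη0 i))
  have hz1 : ∀ i, zz θ ω x y i = ev y (θ i) * (r i + ω) := fun i => by
    simp only [zz]; rw [hrx i]; ring
  have hz2 : ∀ i, zz θ ω' x y i = ev y (θ i) * (r i + ω') := fun i => by
    simp only [zz]; rw [hrx i]; ring
  -- the norm equation
  have hnorm : ∀ i, lam ^ 2 * ((r i + ω) * (r i + ω')) = α i := by
    intro i
    have h1 := hzz i
    rw [hz1 i, hz2 i, hηe i] at h1
    rw [hα i, eq_div_iff (pow_ne_zero 2 (hη0 i)), ← h1]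
    ring
  have hQ1 : (lam * η 0) * (lam * η 1) * (lam * η 2) * ((r 0 + ω) * (r 1 + ω) * (r 2 + ω)) = 1 := by
    rw [← hηe, ← hηe, ← hηe, ← hP1, Fin.prod_univ_three, hz1, hz1, hz1]
    ring
  have hQ2 : (lam * η 0) * (lam * η 1) * (lam * η 2) * ((r 0 + ω') * (r 1 + ω') * (r 2 + ω')) = 1 := by
    rw [← hηe, ← hηe, ← hηe, ← hP2, Fin.prod_univ_three, hz2, hz2, hz2]
    ring
  have hR : r 0 * r 1 + r 0 * r 2 + r 1 * r 2 + (ω + ω') * (r 0 + r 1 + r 2) +
      ((ω + ω') ^ 2 - ω * ω') = 0 := by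
    have h1 : (lam * η 0) * (lam * η 1) * (lam * η 2) ≠ 0 := left_ne_zero_of_mul
      (by rw [hQ1]; exact one_ne_zero)
    apply mul_left_cancel₀ hne
    apply mul_left_cancel₀ h1
    linear_combination hQ1 - hQ2
  obtain ⟨p, hp⟩ : ∃ p : Fin 3 → Ω, ∀ i, p i = r 0 + r 1 + r 2 + (ω + ω') - r i := ⟨_, fun _ => rfl⟩
  have hpp0 : p 1 * p 2 = (r 0 + ω) * (r 0 + ω') := by
    rw [hp 1, hp 2]; linear_combination hR
  have hpp1 : p 0 * p 2 = (r 1 + ω) * (r 1 + ω') := by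
    rw [hp 0, hp 2]; linear_combination hR
  have hpp2 : p 0 * p 1 = (r 2 + ω) * (r 2 + ω') := by
    rw [hp 0, hp 1]; linear_combination hR
  set κ := lam ^ 2 * (p 0 * p 1 * p 2) with hκ
  have hk0 : α 0 * p 0 = κ := by rw [← hnorm 0, ← hpp0, hκ]; ring
  have hk1 : α 1 * p 1 = κ := by rw [← hnorm 1, ← hpp1, hκ]; ring
  have hk2 : α 2 * p 2 = κ := by rw [← hnorm 2, ← hpp2, hκ]; ring
  have hkp : ∀ i, p i = κ / α i := by
    intro i
    rw [eq_div_iff (hα0 i)]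
    fin_cases i
    · show p 0 * α 0 = κ
      rw [← hk0]; ring
    · show p 1 * α 1 = κ
      rw [← hk1]; ring
    · show p 2 * α 2 = κ
      rw [← hk2]; ring
  have hκ0 : κ ≠ 0 := by
    intro h0
    have h1 : p 1 = 0 := by rw [hkp 1, h0, zero_div]
    have h2 := hnorm 0
    rw [← hpp0, h1, zero_mul, mul_zero] at h2
    exact hα0 0 h2.symm
  -- memberships
  have hκK : ∀ M : IntermediateField F Ω, K ≤ M → G ≤ M → κ ∈ M ∧ r 0 + r 1 + r 2 ∈ M := by
    intro M hKM hGM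
    have hrM : ∀ i, r i ∈ M := fun i => by
      rw [hr i]
      exact M.div_mem (ev_mem x (fun j => hKM (hxK j)) (fun i => hGM (gθ i)) i)
        (ev_mem y (fun j => hKM (hyK j)) (fun i => hGM (gθ i)) i)
    have hpM : ∀ i, p i ∈ M := fun i => by
      rw [hp i]
      exact M.sub_mem (M.add_mem (M.add_mem (M.add_mem (hrM 0) (hrM 1)) (hrM 2))
        (M.add_mem (hGM gω) (hGM gω'))) (hrM i)
    refine ⟨?_, M.add_mem (M.add_mem (hrM 0) (hrM 1)) (hrM 2)⟩
    rw [hκ]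
    exact M.mul_mem (pow_mem (hKM (hyK k)) 2) (M.mul_mem (M.mul_mem (hpM 0) (hpM 1)) (hpM 2))
  obtain ⟨mκ, me⟩ := hκK (K ⊔ G) le_sup_left le_sup_right
  set e := r 0 + r 1 + r 2 with he
  have hAB : A ≤ K ⊔ G := sup_le (hEK.trans le_sup_left) le_sup_right
  have hωA : ω ∈ A := hGA gω
  have hωA' : ω' ∈ A := hGA gω'
  have two : (2 : Ω) ∈ A := by
    have : (2 : Ω) = 1 + 1 := by norm_num
    rw [this]; exact A.add_mem A.one_mem A.one_mem
  have three : (3 : Ω) ∈ A := by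
    have : (3 : Ω) = 1 + 1 + 1 := by norm_num
    rw [this]; exact A.add_mem (A.add_mem A.one_mem A.one_mem) A.one_mem
  have mS : 1 / α 0 + 1 / α 1 + 1 / α 2 ∈ A :=
    A.add_mem (A.add_mem (A.div_mem A.one_mem (hαA 0)) (A.div_mem A.one_mem (hαA 1)))
      (A.div_mem A.one_mem (hαA 2))
  have mQ : 1 / (α 0 * α 1) + 1 / (α 0 * α 2) + 1 / (α 1 * α 2) ∈ A :=
    A.add_mem (A.add_mem (A.div_mem A.one_mem (A.mul_mem (hαA 0) (hαA 1)))
      (A.div_mem A.one_mem (A.mul_mem (hαA 0) (hαA 2))))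
      (A.div_mem A.one_mem (A.mul_mem (hαA 1) (hαA 2)))
  set S := 1 / α 0 + 1 / α 1 + 1 / α 2 with hS
  set Q := 1 / (α 0 * α 1) + 1 / (α 0 * α 2) + 1 / (α 1 * α 2) with hQ
  have hline : 2 * e - S * κ + 3 * (ω + ω') = 0 := by
    have h1 : p 0 + p 1 + p 2 = S * κ := by
      rw [hkp 0, hkp 1, hkp 2, hS]
      ring
    rw [← h1, hp 0, hp 1, hp 2, he]
    ring
  have hconic : e ^ 2 - Q * κ ^ 2 + 3 * (ω + ω') * e + (2 * (ω + ω') ^ 2 + ω * ω') = 0 := by
    have h1 : p 0 * p 1 + p 0 * p 2 + p 1 * p 2 = Q * κ ^ 2 := by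
      rw [hkp 0, hkp 1, hkp 2, hQ]
      have := hα0 0
      have := hα0 1
      have := hα0 2
      field_simp
    rw [← h1, hp 0, hp 1, hp 2, he]
    linear_combination -hR
  have hcond : S ^ 2 - 4 * Q ≠ 0 := by
    intro h0
    have h1 : κ ^ 2 * (S ^ 2 - 4 * Q) = (ω - ω') ^ 2 := by
      linear_combination (-(2 * e + 3 * (ω + ω')) - S * κ) * hline + 4 * hconic
    rw [h0, mul_zero] at h1
    exact hne (pow_eq_zero_iff (two_ne_zero)|>.1 h1.symm)
  refine rel_YL hYL hAB e κ me mκ ?_ ⟨2, two⟩ ⟨-S, A.neg_mem mS⟩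
    ⟨3 * (ω + ω'), A.mul_mem three (A.add_mem hωA hωA')⟩ 1 0 ⟨-Q, A.neg_mem mQ⟩
    ⟨3 * (ω + ω'), A.mul_mem three (A.add_mem hωA hωA')⟩ 0
    ⟨2 * (ω + ω') ^ 2 + ω * ω', A.add_mem (A.mul_mem two (pow_mem (A.add_mem hωA hωA') 2))
      (A.mul_mem hωA hωA')⟩ ?_ ?_ ?_
  · set M := A ⊔ adjoin F {e, κ} with hM
    have hAM : A ≤ M := le_sup_left
    have heM : e ∈ M := (le_sup_right : adjoin F {e, κ} ≤ M) (subset_adjoin F _ (by simp))
    have hκM : κ ∈ M := (le_sup_right : adjoin F {e, κ} ≤ M) (subset_adjoin F _ (by simp))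
    apply sup_le _ (hGA.trans hAM)
    have hpM : ∀ i, p i ∈ M := fun i => by
      rw [hkp i]
      exact M.div_mem hκM (hAM (hαA i))
    have hrM : ∀ i, r i ∈ M := fun i => by
      have : r i = e + (ω + ω') - p i := by rw [hp i]; ring
      rw [this]
      exact M.sub_mem (M.add_mem heM (M.add_mem (hAM hωA) (hAM hωA'))) (hpM i)
    have hppp : p 0 * p 1 * p 2 ≠ 0 := right_ne_zero_of_mul (by rw [← hκ]; exact hκ0)
    have hlam2 : lam ^ 2 ∈ M := by
      have : lam ^ 2 = κ / (p 0 * p 1 * p 2) := by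
        rw [eq_div_iff hppp]
      rw [this]
      exact M.div_mem hκM (M.mul_mem (M.mul_mem (hpM 0) (hpM 1)) (hpM 2))
    have hlam3 : lam ^ 3 ∈ M := by
      have h1 : lam ^ 3 * (η 0 * η 1 * η 2 * ((r 0 + ω) * (r 1 + ω) * (r 2 + ω))) = 1 := by
        rw [← hQ1]; ring
      rw [eq_inv_of_mul_eq_one_left h1]
      exact M.inv_mem (M.mul_mem (M.mul_mem (M.mul_mem (hAM (hηA 0)) (hAM (hηA 1)))
        (hAM (hηA 2))) (M.mul_mem (M.mul_mem (M.add_mem (hrM 0) (hAM hωA))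
        (M.add_mem (hrM 1) (hAM hωA))) (M.add_mem (hrM 2) (hAM hωA))))
    have hlamM : lam ∈ M := by
      have : lam = lam ^ 3 / lam ^ 2 := by
        field_simp
      rw [this]
      exact M.div_mem hlam3 hlam2
    have heyM : ∀ i, ev y (θ i) ∈ M := fun i => by
      rw [hηe i]; exact M.mul_mem hlamM (hAM (hηA i))
    rw [← hxy]
    apply le_of_values hθ.1 hω.1 x y M (fun i => hAM (hGA (gθ i))) (hAM hωA) (hAM hωA')
    · intro i
      rw [hz1 i]
      exact M.mul_mem (heyM i) (M.add_mem (hrM i) (hAM hωA))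
    · intro i
      rw [hz2 i]
      exact M.mul_mem (heyM i) (M.add_mem (hrM i) (hAM hωA'))
  · linear_combination hline
  · simp only [OneMemClass.coe_one, ZeroMemClass.coe_zero]
    linear_combination hconic
  · simp only [OneMemClass.coe_one, ZeroMemClass.coe_zero]
    intro h0
    apply hcond
    linear_combination h0

end Pool.Agent.Helper95K9.IR.Six
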