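import Pool.Agent.Helper95K9.IR.Six2

/-!
Degree of irrationality of del Pezzo surfaces: the leaf [6U3], and more tools for degree six.
-/

set_option autoImplicit false

namespace Pool.Agent.Helper95K9.IR.Six

open Polynomial IntermediateField

universe u

variable {F Ω : Type u} [Field F] [Field Ω] [Algebra F Ω]

theorem not_le_of_surface {K G : IntermediateField F Ω} (hK : IsSurfaceField F K)
    (hG : FiniteDimensional F G) : ¬ K ≤ G := by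
  intro h
  have h1 := inf_bot hK hG
  rw [inf_eq_left.2 h] at h1
  subst h1
  have h2 := hK.1
  have h3 : Algebra.trdeg F (⊥ : IntermediateField F Ω) = 0 := trdeg_eq_zero
  rw [h3] at h2
  norm_num at h2

/-- A root of a cubic equation. -/
theorem rel_cubic {A B : IntermediateField F Ω} (hAB : A ≤ B) (w : Ω) (hw : w ∈ B)
    (hB : B ≤ A ⊔ adjoin F {w}) (k₀ k₁ k₂ k₃ : Ω) (h0 : k₀ ∈ A) (h1 : k₁ ∈ A) (h2 : k₂ ∈ A)
    (h3 : k₃ ∈ A) (hne : k₃ ≠ 0) (h : k₃ * w ^ 3 + k₂ * w ^ 2 + k₁ * w + k₀ = 0) :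
    0 < relfinrank A B ∧ relfinrank A B ≤ 3 := by
  set p : Polynomial A := C ⟨k₃, h3⟩ * X ^ 3 + C ⟨k₂, h2⟩ * X ^ 2 + C ⟨k₁, h1⟩ * X + C ⟨k₀, h0⟩
    with hp
  have hp0 : p ≠ 0 := by
    intro hp0
    have c3 : p.coeff 3 = ⟨k₃, h3⟩ := by
      rw [hp]; simp [coeff_X, coeff_X_pow]
    rw [hp0] at c3
    exact hne (congrArg Subtype.val c3).symm
  apply rel1 hAB w hw hB p hp0 3
  · rw [hp]
    compute_degree
  · rw [hp]
    simp only [map_add, map_mul, map_pow, aeval_C, aeval_X]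
    exact h

section Core

variable {θ : Fin 3 → Ω} {ω ω' : Ω}

/-- `zz` lies in every field which contains the coordinates, the `θ i` and `ω`. -/
theorem zz_mem {M : IntermediateField F Ω} (x y : Fin 3 → Ω) (hx : ∀ j, x j ∈ M)
    (hy : ∀ j, y j ∈ M) (hθ : ∀ i, θ i ∈ M) (h : ω ∈ M) (i : Fin 3) : zz θ ω x y i ∈ M := by
  have ev_mem : ∀ (v : Fin 3 → Ω), (∀ j, v j ∈ M) → ev v (θ i) ∈ M := fun v hv =>
    M.add_mem (M.add_mem (hv 0) (M.mul_mem (hv 1) (hθ i)))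
      (M.mul_mem (hv 2) (pow_mem (hθ i) 2))
  exact M.add_mem (ev_mem x hx) (M.mul_mem h (ev_mem y hy))

theorem ev_mem {M : IntermediateField F Ω} (v : Fin 3 → Ω) (hv : ∀ j, v j ∈ M)
    (hθ : ∀ i, θ i ∈ M) (i : Fin 3) : ev v (θ i) ∈ M :=
  M.add_mem (M.add_mem (hv 0) (M.mul_mem (hv 1) (hθ i)))
      (M.mul_mem (hv 2) (pow_mem (hθ i) 2))

/-- The torsor for `b = 1`: the elements `u` with `z = (u + ω) / (u + ω')`. -/
theorem hilbert90 (hθ : IsCubic F θ) (hω : IsQuad F ω ω') (K : IntermediateField F Ω)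
    (hK : IsSurfaceField F K) (x y : Fin 3 → Ω)
    (hxy : adjoin F (Set.range x ∪ Set.range y) = K)
    (h1 : ∀ i, zz θ ω x y i * zz θ ω' x y i = 1) :
    ∃ u : Fin 3 → Ω, (∀ j, u j ∈ K) ∧ (∀ i, ev u (θ i) + ω' ≠ 0) ∧
      (∀ i, zz θ ω x y i * (ev u (θ i) + ω') = ev u (θ i) + ω) ∧
      (∀ M : IntermediateField F Ω, (∀ i, θ i ∈ M) → ω ∈ M → ω' ∈ M →
        (∀ i, ev u (θ i) ∈ M) → K ≤ M) := by
  have hxK : ∀ j, x j ∈ K := fun j => hxy ▸ mem_adj_l x y j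
  have hyK : ∀ j, y j ∈ K := fun j => hxy ▸ mem_adj_r x y j
  have cx := Co.of (K := K) (θ := θ) x hxK
  have cy := Co.of (K := K) (θ := θ) y hyK
  have hne : ω - ω' ≠ 0 := sub_ne_zero.2 hω.1
  obtain ⟨hG1, hG2⟩ := gal6 hθ hω
  set G := adjoin F (Set.range θ ∪ {ω, ω'}) with hG
  have gθ : ∀ i, θ i ∈ G := fun i => subset_adjoin F _ (Or.inl ⟨i, rfl⟩)
  have gω : ω ∈ G := subset_adjoin F _ (Or.inr (by simp))
  have gω' : ω' ∈ G := subset_adjoin F _ (Or.inr (by simp))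
  have hy0 : ∀ i, ev y (θ i) ≠ 0 := by
    apply cy.ne_zero hθ (alg_of_surface hK)
    intro h0
    have h0' : ∀ i, ev y (θ i) = 0 := fun i => congrFun h0 i
    have e1 : ∀ i, zz θ ω x y i = zz θ ω' x y i := by
      intro i
      simp only [zz, h0' i, mul_zero]
    have e2 : ∀ i, zz θ ω x y i ∈ G := by
      intro i
      have h2 := h1 i
      rw [← e1 i] at h2
      have h3 : (zz θ ω x y i - 1) * (zz θ ω x y i + 1) = 0 := by linear_combination h2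
      rcases mul_eq_zero.1 h3 with h4 | h4
      · rw [sub_eq_zero.1 h4]; exact G.one_mem
      · rw [eq_neg_of_add_eq_zero_left h4]; exact G.neg_mem G.one_mem
    apply not_le_of_surface hK hG2
    rw [← hxy]
    exact le_of_values hθ.1 hω.1 x y G gθ gω gω' e2 (fun i => e1 i ▸ e2 i)
  have c1 : Co K θ (fun _ => (1 : Ω)) := Co.const 1 K.one_mem
  obtain ⟨u, huK, hu⟩ := (c1.add cx).div hθ cy hy0
  have hu' : ∀ i, ev u (θ i) * ev y (θ i) = 1 + ev x (θ i) := by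
    intro i
    rw [← hu i]
    exact div_mul_cancel₀ _ (hy0 i)
  have hz : ∀ i, zz θ ω x y i * (ev u (θ i) + ω') = ev u (θ i) + ω := by
    intro i
    apply mul_right_cancel₀ (hy0 i)
    have h2 := h1 i
    have h3 := hu' i
    simp only [zz] at h2 ⊢
    linear_combination (ev x (θ i) + ω * ev y (θ i) - 1) * h3 + h2
  have hd : ∀ i, ev u (θ i) + ω' ≠ 0 := by
    intro i h0
    have h2 := hz i
    rw [h0, mul_zero] at h2
    apply hne
    linear_combination -h2 - h0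
  refine ⟨u, huK, hd, hz, ?_⟩
  intro M mθ mω mω' mu
  rw [← hxy]
  have hz1 : ∀ i, zz θ ω x y i ∈ M := by
    intro i
    have : zz θ ω x y i = (ev u (θ i) + ω) / (ev u (θ i) + ω') := by
      rw [eq_div_iff (hd i)]
      exact hz i
    rw [this]
    exact M.div_mem (M.add_mem (mu i) mω) (M.add_mem (mu i) mω')
  apply le_of_values hθ.1 hω.1 x y M mθ mω mω' hz1
  intro i
  have h0 : zz θ ω x y i ≠ 0 := left_ne_zero_of_mul (by rw [h1 i]; exact one_ne_zero)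
  have : zz θ ω' x y i = (zz θ ω x y i)⁻¹ := eq_inv_of_mul_eq_one_right (h1 i)
  rw [this]
  exact M.inv_mem (hz1 i)

end Core

/-- [6U3] -/
theorem t6U3 (hUB : S_UB.{u}) (hD : S_DESC.{u}) : S_6U3.{u} := by
  intro F Ω _ _ _ θ ω ω' b c₀ c₁ K h6 hFF hNL hNK
  obtain ⟨hθ, hω, hb, hc0, hc1, hN, hne0⟩ := h6
  obtain ⟨hK, x₀, y₀, ⟨hT1, hT2⟩, hxy₀⟩ := hFF
  obtain ⟨X, Y, hX, hY, hm⟩ := hNL
  have hb0 : ∀ i, ev b (θ i) ≠ 0 := by
    have : (∏ i, ev b (θ i)) ≠ 0 := by rw [hN]; exact hne0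
    rw [Finset.prod_ne_zero_iff] at this
    exact fun i => this i (Finset.mem_univ i)
  have hmn : ∀ i, zz θ ω X Y i * zz θ ω' X Y i ≠ 0 := fun i => by rw [hm i]; exact hb0 i
  obtain ⟨x, y, hxy, e1, e2⟩ := twist hθ hω K x₀ y₀ hxy₀ X Y hX hY hmn
  have hz1 : ∀ i, zz θ ω x y i * zz θ ω' x y i = 1 := by
    intro i
    have h1 := hT1 i
    rw [e1 i, e2 i] at h1
    apply mul_right_cancel₀ (hb0 i)
    have h2 := hm i
    rw [one_mul]
    calc zz θ ω x y i * zz θ ω' x y i * ev b (θ i) =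
        zz θ ω x y i * zz θ ω' x y i * (zz θ ω X Y i * zz θ ω' X Y i) := by rw [h2]
      _ = ev b (θ i) := by rw [← h1]; ring
  obtain ⟨hG1, hG2⟩ := gal6 hθ hω
  set G := adjoin F (Set.range θ ∪ {ω, ω'}) with hG
  have gθ : ∀ i, θ i ∈ G := fun i => subset_adjoin F _ (Or.inl ⟨i, rfl⟩)
  have gω : ω ∈ G := subset_adjoin F _ (Or.inr (by simp))
  have gω' : ω' ∈ G := subset_adjoin F _ (Or.inr (by simp))
  have rG : ∀ z : Ω, z ∈ (algebraMap F Ω).range → z ∈ G := by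
    rintro z ⟨a, rfl⟩
    exact G.algebraMap_mem a
  set c := c₀ + c₁ * ω with hc
  have hcG : c ∈ G := G.add_mem (rG _ hc0) (G.mul_mem (rG _ hc1) gω)
  set m := ∏ i, zz θ ω X Y i with hmdef
  have hmG : m ∈ G := by
    rw [hmdef]
    exact G.prod_mem (fun i _ => zz_mem X Y (fun j => rG _ (hX j)) (fun j => rG _ (hY j)) gθ gω i)
  have hm0 : m ≠ 0 := Finset.prod_ne_zero_iff.2 (fun i _ => left_ne_zero_of_mul (hmn i))
  set γ := ∏ i, zz θ ω x y i with hγ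
  have hγm : γ * m = c := by
    rw [hγ, hmdef, ← Finset.prod_mul_distrib, ← hT2]
    exact Finset.prod_congr rfl (fun i _ => (e1 i).symm)
  have hγG : γ ∈ G := by
    have : γ = c / m := by rw [eq_div_iff hm0, hγm]
    rw [this]
    exact G.div_mem hcG hmG
  have hγ1 : γ ≠ 1 := by
    intro h
    rw [h, one_mul] at hγm
    exact hNK ⟨X, Y, hX, hY, hγm⟩
  obtain ⟨u, huK, hd, hz, hM⟩ := hilbert90 hθ hω K hK x y hxy hz1
  have hprod : (ev u (θ 0) + ω) * (ev u (θ 1) + ω) * (ev u (θ 2) + ω) =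
      γ * ((ev u (θ 0) + ω') * (ev u (θ 1) + ω') * (ev u (θ 2) + ω')) := by
    rw [← hz 0, ← hz 1, ← hz 2, hγ, Fin.prod_univ_three]
    ring
  apply hasDeg_of_sup hUB hD hK ⟨hG1, hG2⟩ (u 1) (u 2) (huK 1) (huK 2) 3
  set E := adjoin F ({u 1, u 2} : Set Ω) with hE
  have uE1 : u 1 ∈ E := subset_adjoin F _ (by simp)
  have uE2 : u 2 ∈ E := subset_adjoin F _ (by simp)
  have hEK : E ≤ K := by
    rw [hE, adjoin_le_iff]
    rintro z (rfl | rfl)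
    · exact huK 1
    · exact huK 2
  have hr : ∀ i, u 1 * θ i + u 2 * θ i ^ 2 ∈ E ⊔ G := by
    intro i
    have hθ' : θ i ∈ E ⊔ G := (le_sup_right : G ≤ E ⊔ G) (gθ i)
    exact (E ⊔ G).add_mem ((E ⊔ G).mul_mem ((le_sup_left : E ≤ E ⊔ G) uE1) hθ')
      ((E ⊔ G).mul_mem ((le_sup_left : E ≤ E ⊔ G) uE2) (pow_mem hθ' 2))
  have hωA : ω ∈ E ⊔ G := (le_sup_right : G ≤ E ⊔ G) gω
  have hωA' : ω' ∈ E ⊔ G := (le_sup_right : G ≤ E ⊔ G) gω'
  have hγA : γ ∈ E ⊔ G := (le_sup_right : G ≤ E ⊔ G) hγG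
  set A := E ⊔ G with hA
  have hα : ∀ i, u 1 * θ i + u 2 * θ i ^ 2 + ω ∈ A := fun i => A.add_mem (hr i) hωA
  have hβ : ∀ i, u 1 * θ i + u 2 * θ i ^ 2 + ω' ∈ A := fun i => A.add_mem (hr i) hωA'
  obtain ⟨α, hαd⟩ : ∃ α : Fin 3 → Ω, ∀ i, α i = u 1 * θ i + u 2 * θ i ^ 2 + ω := ⟨_, fun _ => rfl⟩
  obtain ⟨β, hβd⟩ : ∃ β : Fin 3 → Ω, ∀ i, β i = u 1 * θ i + u 2 * θ i ^ 2 + ω' :=
    ⟨_, fun _ => rfl⟩
  have hα : ∀ i, α i ∈ A := fun i => by rw [hαd i]; exact A.add_mem (hr i) hωA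
  have hβ : ∀ i, β i ∈ A := fun i => by rw [hβd i]; exact A.add_mem (hr i) hωA'
  have hu0 : ∀ i, ev u (θ i) + ω = u 0 + α i := fun i => by rw [hαd i]; simp only [ev]; ring
  have hu0' : ∀ i, ev u (θ i) + ω' = u 0 + β i := fun i => by rw [hβd i]; simp only [ev]; ring
  rw [hu0, hu0, hu0, hu0', hu0', hu0'] at hprod
  have hAB : A ≤ K ⊔ G := sup_le (hEK.trans le_sup_left) le_sup_right
  have s2 : ∀ v : Fin 3 → Ω, (∀ i, v i ∈ A) → v 0 + v 1 + v 2 ∈ A := fun v hv =>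
    A.add_mem (A.add_mem (hv 0) (hv 1)) (hv 2)
  have s1 : ∀ v : Fin 3 → Ω, (∀ i, v i ∈ A) → v 0 * v 1 + v 0 * v 2 + v 1 * v 2 ∈ A :=
    fun v hv => A.add_mem (A.add_mem (A.mul_mem (hv 0) (hv 1)) (A.mul_mem (hv 0) (hv 2)))
      (A.mul_mem (hv 1) (hv 2))
  have s0 : ∀ v : Fin 3 → Ω, (∀ i, v i ∈ A) → v 0 * v 1 * v 2 ∈ A := fun v hv =>
    A.mul_mem (A.mul_mem (hv 0) (hv 1)) (hv 2)
  refine rel_cubic hAB (u 0) ((le_sup_left : K ≤ K ⊔ G) (huK 0)) ?_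
    (α 0 * α 1 * α 2 - γ * (β 0 * β 1 * β 2))
    ((α 0 * α 1 + α 0 * α 2 + α 1 * α 2) - γ * (β 0 * β 1 + β 0 * β 2 + β 1 * β 2))
    ((α 0 + α 1 + α 2) - γ * (β 0 + β 1 + β 2)) (1 - γ)
    (A.sub_mem (s0 α hα) (A.mul_mem hγA (s0 β hβ)))
    (A.sub_mem (s1 α hα) (A.mul_mem hγA (s1 β hβ)))
    (A.sub_mem (s2 α hα) (A.mul_mem hγA (s2 β hβ)))
    (A.sub_mem A.one_mem hγA) (sub_ne_zero.2 (Ne.symm hγ1)) ?_
  · have hAM : A ≤ A ⊔ adjoin F {u 0} := le_sup_left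
    have huM : u 0 ∈ A ⊔ adjoin F {u 0} :=
      (le_sup_right : adjoin F {u 0} ≤ A ⊔ adjoin F {u 0}) (subset_adjoin F _ rfl)
    apply sup_le
    · apply hM
      · intro i; exact hAM ((le_sup_right : G ≤ E ⊔ G) (gθ i))
      · exact hAM hωA
      · exact hAM hωA'
      · intro i
        have : ev u (θ i) = u 0 + (u 1 * θ i + u 2 * θ i ^ 2) := by simp only [ev]; ring
        rw [this]
        exact IntermediateField.add_mem _ huM (hAM (hr i))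
    · exact le_sup_right.trans hAM
  · linear_combination hprod

end Pool.Agent.Helper95K9.IR.Six
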