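import Pool.Agent.Helper95K9.IR.C6U2

/-!
Degree of irrationality of del Pezzo surfaces: the leaf [6U6].
-/

set_option autoImplicit false

namespace Pool.Agent.Helper95K9.IR.Six

open Polynomial IntermediateField

universe u

variable {F Ω : Type u} [Field F] [Field Ω] [Algebra F Ω]

/-- A conic and a cubic without a common point at infinity. -/
theorem rel_BZ23 (hBZ : S_BZ23.{u}) {A B : IntermediateField F Ω} (hAB : A ≤ B) (X Y : Ω)
    (hX : X ∈ B) (hY : Y ∈ B) (hB : B ≤ A ⊔ adjoin F {X, Y}) (a b c d e f : A)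
    (p q r s g₀ g₁ g₂ g₃ g₄ g₅ : A)
    (h1 : (a : Ω) * X ^ 2 + b * X * Y + c * Y ^ 2 + d * X + e * Y + f = 0)
    (h2 : (p : Ω) * X ^ 3 + q * X ^ 2 * Y + r * X * Y ^ 2 + s * Y ^ 3 + g₀ * X ^ 2 +
      g₁ * X * Y + g₂ * Y ^ 2 + g₃ * X + g₄ * Y + g₅ = 0)
    (h3 : ∀ (Ω' : Type u) [Field Ω'] [Algebra A Ω'] (x y : Ω'),
      algebraMap A Ω' a * x ^ 2 + algebraMap A Ω' b * x * y + algebraMap A Ω' c * y ^ 2 = 0 →
      algebraMap A Ω' p * x ^ 3 + algebraMap A Ω' q * x ^ 2 * y + algebraMap A Ω' r * x * y ^ 2 +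
        algebraMap A Ω' s * y ^ 3 = 0 → x = 0 ∧ y = 0) :
    0 < relfinrank A B ∧ relfinrank A B ≤ 6 := by
  have hBe : B = A ⊔ adjoin F {X, Y} := le_antisymm hB (sup_le hAB (by
    rw [adjoin_le_iff]
    rintro z (rfl | rfl)
    · exact hX
    · exact hY))
  rw [hBe, relfinrank_adjoin]
  have hmX : X ∈ adjoin A ({X, Y} : Set Ω) := subset_adjoin A _ (by simp)
  have hmY : Y ∈ adjoin A ({X, Y} : Set Ω) := subset_adjoin A _ (by simp)
  have htop : adjoin A ({⟨X, hmX⟩, ⟨Y, hmY⟩} : Set (adjoin A ({X, Y} : Set Ω))) = ⊤ :=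
    adjoin_val_top A {X, Y} _ (by rw [Set.image_pair])
  exact hBZ A (adjoin A ({X, Y} : Set Ω)) ⟨X, hmX⟩ ⟨Y, hmY⟩ a b c d e f p q r s g₀ g₁ g₂ g₃ g₄ g₅
    htop (Subtype.ext h1) (Subtype.ext h2) h3

/-- [6U6] -/
theorem t6U6 (hUB : S_UB.{u}) (hBZ : S_BZ23.{u}) (hD : S_DESC.{u}) : S_6U6.{u} := by
  intro F Ω _ _ _ θ ω ω' b c₀ c₁ K h6 hFF
  obtain ⟨hθ, hω, hb, hc0, hc1, hN, hne0⟩ := h6
  obtain ⟨hK, x, y, ⟨hT1, hT2⟩, hxy⟩ := hFF
  obtain ⟨hG1, hG2⟩ := gal6 hθ hω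
  set G := adjoin F (Set.range θ ∪ {ω, ω'}) with hG
  have gθ : ∀ i, θ i ∈ G := fun i => subset_adjoin F _ (Or.inl ⟨i, rfl⟩)
  have gω : ω ∈ G := subset_adjoin F _ (Or.inr (by simp))
  have gω' : ω' ∈ G := subset_adjoin F _ (Or.inr (by simp))
  have rM : ∀ (M : IntermediateField F Ω) (z : Ω), z ∈ (algebraMap F Ω).range → z ∈ M := by
    rintro M z ⟨a, rfl⟩
    exact M.algebraMap_mem a
  have hb0 : ∀ i, ev b (θ i) ≠ 0 := by
    have : (∏ i, ev b (θ i)) ≠ 0 := by rw [hN]; exact hne0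
    rw [Finset.prod_ne_zero_iff] at this
    exact fun i => this i (Finset.mem_univ i)
  have hxK : ∀ j, x j ∈ K := fun j => hxy ▸ mem_adj_l x y j
  have hyK : ∀ j, y j ∈ K := fun j => hxy ▸ mem_adj_r x y j
  have cx := Co.of (K := K) (θ := θ) x hxK
  have cy := Co.of (K := K) (θ := θ) y hyK
  have hsx := cx.sum_mem hθ
  have hsy := cy.sum_mem hθ
  set φ₀ := ev x (θ 0) + ev x (θ 1) + ev x (θ 2) with hφ₀
  set φ₁ := ev y (θ 0) + ev y (θ 1) + ev y (θ 2) with hφ₁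
  apply hasDeg_of_sup hUB hD hK ⟨hG1, hG2⟩ φ₀ φ₁ hsx hsy 6
  set E := adjoin F ({φ₀, φ₁} : Set Ω) with hE
  have hEK : E ≤ K := by
    rw [hE, adjoin_le_iff]
    rintro z (rfl | rfl)
    · exact hsx
    · exact hsy
  set A := E ⊔ G with hA
  have hGA : G ≤ A := le_sup_right
  have hEA : E ≤ A := le_sup_left
  have hφ₀A : φ₀ ∈ A := hEA (subset_adjoin F _ (by simp))
  have hφ₁A : φ₁ ∈ A := hEA (subset_adjoin F _ (by simp))
  have hωA : ω ∈ A := hGA gω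
  have hωA' : ω' ∈ A := hGA gω'
  obtain ⟨z, hz⟩ : ∃ z : Fin 3 → Ω, ∀ i, z i = zz θ ω x y i := ⟨_, fun _ => rfl⟩
  obtain ⟨z', hz'⟩ : ∃ z' : Fin 3 → Ω, ∀ i, z' i = zz θ ω' x y i := ⟨_, fun _ => rfl⟩
  obtain ⟨β, hβ⟩ : ∃ β : Fin 3 → Ω, ∀ i, β i = ev b (θ i) := ⟨_, fun _ => rfl⟩
  have hβA : ∀ i, β i ∈ A := fun i => by
    rw [hβ i]; exact hGA (ev_mem b (fun j => rM G _ (hb j)) gθ i)
  have hβ0 : ∀ i, β i ≠ 0 := fun i => by rw [hβ i]; exact hb0 i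
  have hzz : ∀ i, z i * z' i = β i := fun i => by rw [hz i, hz' i, hβ i]; exact hT1 i
  have hz0 : ∀ i, z i ≠ 0 := fun i => left_ne_zero_of_mul (by rw [hzz i]; exact hβ0 i)
  set c := c₀ + c₁ * ω with hc
  have hcA : c ∈ A := hGA (G.add_mem (rM G _ hc0) (G.mul_mem (rM G _ hc1) gω))
  have hprod : z 0 * z 1 * z 2 = c := by
    rw [← hT2, Fin.prod_univ_three, hz 0, hz 1, hz 2]
  have hτ : z 0 + z 1 + z 2 = φ₀ + ω * φ₁ := by
    rw [hz 0, hz 1, hz 2, hφ₀, hφ₁]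
    simp only [zz]
    ring
  have hτ' : z' 0 + z' 1 + z' 2 = φ₀ + ω' * φ₁ := by
    rw [hz' 0, hz' 1, hz' 2, hφ₀, hφ₁]
    simp only [zz]
    ring
  set τ := φ₀ + ω * φ₁ with hτd
  set τ' := φ₀ + ω' * φ₁ with hτd'
  have mτ : τ ∈ A := A.add_mem hφ₀A (A.mul_mem hωA hφ₁A)
  have mτ' : τ' ∈ A := A.add_mem hφ₀A (A.mul_mem hωA' hφ₁A)
  have hz2 : z 2 = τ - z 0 - z 1 := by rw [← hτ]; ring
  have hconic : β 0 * (z 1 * z 2) + β 1 * (z 0 * z 2) + β 2 * (z 0 * z 1) = τ' * c := by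
    rw [← hτ', ← hprod, ← hzz 0, ← hzz 1, ← hzz 2]
    ring
  rw [hz2] at hconic hprod
  have hAB : A ≤ K ⊔ G := sup_le (hEK.trans le_sup_left) le_sup_right
  have hmem : ∀ M : IntermediateField F Ω, K ≤ M → G ≤ M → ∀ i, z i ∈ M := by
    intro M hKM hGM i
    rw [hz i]
    exact zz_mem x y (fun j => hKM (hxK j)) (fun j => hKM (hyK j)) (fun i => hGM (gθ i))
      (hGM gω) i
  have hzB := hmem (K ⊔ G) le_sup_left le_sup_right
  -- conic: β0 z1 (τ - z0 - z1) + β1 z0 (τ - z0 - z1) + β2 z0 z1 - τ' c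
  refine rel_BZ23 hBZ hAB (z 0) (z 1) (hzB 0) (hzB 1) ?_
    ⟨-β 1, A.neg_mem (hβA 1)⟩
    ⟨β 2 - β 0 - β 1, A.sub_mem (A.sub_mem (hβA 2) (hβA 0)) (hβA 1)⟩
    ⟨-β 0, A.neg_mem (hβA 0)⟩
    ⟨β 1 * τ, A.mul_mem (hβA 1) mτ⟩ ⟨β 0 * τ, A.mul_mem (hβA 0) mτ⟩
    ⟨-(τ' * c), A.neg_mem (A.mul_mem mτ' hcA)⟩
    0 (-1) (-1) 0 0 ⟨τ, mτ⟩ 0 0 0 ⟨-c, A.neg_mem hcA⟩ ?_ ?_ ?_
  · set M := A ⊔ adjoin F {z 0, z 1} with hM
    have hAM : A ≤ M := le_sup_left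
    have h0M : z 0 ∈ M := (le_sup_right : adjoin F {z 0, z 1} ≤ M) (subset_adjoin F _ (by simp))
    have h1M : z 1 ∈ M := (le_sup_right : adjoin F {z 0, z 1} ≤ M) (subset_adjoin F _ (by simp))
    apply sup_le _ (hGA.trans hAM)
    have hzM : ∀ i, z i ∈ M := by
      intro i
      fin_cases i
      · exact h0M
      · exact h1M
      · show z 2 ∈ M
        rw [hz2]
        exact M.sub_mem (M.sub_mem (hAM mτ) h0M) h1M
    rw [← hxy]
    apply le_of_values hθ.1 hω.1 x y M (fun i => hAM (hGA (gθ i))) (hAM hωA) (hAM hωA')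
    · intro i
      rw [← hz i]
      exact hzM i
    · intro i
      rw [← hz' i]
      have : z' i = β i / z i := by
        rw [eq_div_iff (hz0 i), ← hzz i]
        ring
      rw [this]
      exact M.div_mem (hAM (hβA i)) (hzM i)
  · linear_combination hconic
  · simp only [NegMemClass.coe_neg, OneMemClass.coe_one, ZeroMemClass.coe_zero]
    linear_combination hprod
  · intro Ω' _ _ x y h1 h2
    have n0 : algebraMap A Ω' ⟨β 0, hβA 0⟩ ≠ 0 := by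
      rw [Ne, map_eq_zero]
      exact fun h => hβ0 0 (congrArg Subtype.val h)
    have n1 : algebraMap A Ω' ⟨β 1, hβA 1⟩ ≠ 0 := by
      rw [Ne, map_eq_zero]
      exact fun h => hβ0 1 (congrArg Subtype.val h)
    have n2 : algebraMap A Ω' ⟨β 2, hβA 2⟩ ≠ 0 := by
      rw [Ne, map_eq_zero]
      exact fun h => hβ0 2 (congrArg Subtype.val h)
    have e1 : (⟨-β 1, A.neg_mem (hβA 1)⟩ : A) = -⟨β 1, hβA 1⟩ := rfl
    have e2 : (⟨β 2 - β 0 - β 1, A.sub_mem (A.sub_mem (hβA 2) (hβA 0)) (hβA 1)⟩ : A) =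
      ⟨β 2, hβA 2⟩ - ⟨β 0, hβA 0⟩ - ⟨β 1, hβA 1⟩ := rfl
    have e3 : (⟨-β 0, A.neg_mem (hβA 0)⟩ : A) = -⟨β 0, hβA 0⟩ := rfl
    rw [e1, e2, e3] at h1
    simp only [map_neg, map_sub, map_one, map_zero] at h1 h2
    set b0 := algebraMap A Ω' ⟨β 0, hβA 0⟩
    set b1 := algebraMap A Ω' ⟨β 1, hβA 1⟩
    set b2 := algebraMap A Ω' ⟨β 2, hβA 2⟩
    have h3 : x * (y * (x + y)) = 0 := by linear_combination -h2
    rcases mul_eq_zero.1 h3 with h4 | h4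
    · subst h4
      refine ⟨rfl, ?_⟩
      have : b0 * y ^ 2 = 0 := by linear_combination -h1
      exact pow_eq_zero_iff (two_ne_zero) |>.1 ((mul_eq_zero.1 this).resolve_left n0)
    rcases mul_eq_zero.1 h4 with h5 | h5
    · subst h5
      refine ⟨?_, rfl⟩
      have : b1 * x ^ 2 = 0 := by linear_combination -h1
      exact pow_eq_zero_iff (two_ne_zero) |>.1 ((mul_eq_zero.1 this).resolve_left n1)
    · have hy : y = -x := by linear_combination h5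
      subst hy
      have : b2 * x ^ 2 = 0 := by linear_combination -h1
      have hx := pow_eq_zero_iff (two_ne_zero) |>.1 ((mul_eq_zero.1 this).resolve_left n2)
      exact ⟨hx, by rw [hx]; simp⟩

end Pool.Agent.Helper95K9.IR.Six
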