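import Pool.Agent.Helper95K9.IR.Stm

/-!
MP_577596_ag, leaf [CUB]: two quadrics with a common zero over a cubic extension have a common
zero.
-/

set_option autoImplicit false

namespace Pool.Agent.Helper95K9.IR.Cub

open MvPolynomial

universe u

section Quad

variable {k : Type u} [Field k] {N : ℕ}

/-- A form of degree two is `∑ M i j X_i X_j`. -/
theorem exists_matrix (q : MvPolynomial (Fin N) k) (hq : q.IsHomogeneous 2) :
    ∃ M : Fin N → Fin N → k, q = ∑ i, ∑ j, C (M i j) * X i * X j := by
  classical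
  -- the set of such polynomials is closed under sums
  let S : Set (MvPolynomial (Fin N) k) :=
    {q | ∃ M : Fin N → Fin N → k, q = ∑ i, ∑ j, C (M i j) * X i * X j}
  have hadd : ∀ a ∈ S, ∀ b ∈ S, a + b ∈ S := by
    rintro a ⟨M, rfl⟩ b ⟨M', rfl⟩
    refine ⟨fun i j => M i j + M' i j, ?_⟩
    simp only [← Finset.sum_add_distrib]
    refine Finset.sum_congr rfl fun i _ => Finset.sum_congr rfl fun j _ => ?_
    rw [C_add]; ring
  have hzero : (0 : MvPolynomial (Fin N) k) ∈ S := ⟨fun _ _ => 0, by simp⟩
  have hmon : ∀ (i j : Fin N) (c : k), C c * X i * X j ∈ S := by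
    intro i j c
    refine ⟨fun i' j' => if i' = i ∧ j' = j then c else 0, ?_⟩
    rw [Finset.sum_eq_single i, Finset.sum_eq_single j]
    · simp
    · intro b _ hb; simp [hb]
    · intro h; exact absurd (Finset.mem_univ _) h
    · intro b _ hb; simp [hb]
    · intro h; exact absurd (Finset.mem_univ _) h
  have hsum : ∀ (s : Finset (Fin N →₀ ℕ)), (∀ d ∈ s, d.degree = 2) →
      ∑ d ∈ s, monomial d (coeff d q) ∈ S := by
    intro s
    induction s using Finset.induction_on with
    | empty => intro _; simpa using hzero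
    | insert a s ha ih =>
      intro h
      rw [Finset.sum_insert ha]
      refine hadd _ ?_ _ (ih fun d hd => h d (Finset.mem_insert_of_mem hd))
      have h2 : a.degree = 2 := h a (Finset.mem_insert_self _ _)
      have hne : a ≠ 0 := by rintro rfl; simp at h2
      obtain ⟨i, hi⟩ := Finsupp.ne_iff.1 hne
      have hi : a i ≠ 0 := by simpa using hi
      have h1 : Finsupp.single i 1 ≤ a := by
        rw [Finsupp.single_le_iff]; omega
      obtain ⟨b, hb⟩ := exists_add_of_le h1
      have hbd : b.degree = 1 := by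
        have := congrArg Finsupp.degree hb
        rw [h2, map_add, Finsupp.degree_single] at this
        omega
      have hbne : b ≠ 0 := by rintro rfl; simp at hbd
      obtain ⟨j, hj⟩ := Finsupp.ne_iff.1 hbne
      have hj : b j ≠ 0 := by simpa using hj
      have h1' : Finsupp.single j 1 ≤ b := by
        rw [Finsupp.single_le_iff]; omega
      obtain ⟨c, hc⟩ := exists_add_of_le h1'
      have hcd : c.degree = 0 := by
        have := congrArg Finsupp.degree hc
        rw [hbd, map_add, Finsupp.degree_single] at this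
        omega
      have hc0 : c = 0 := (Finsupp.degree_eq_zero_iff c).1 hcd
      have : monomial a (coeff a q) = C (coeff a q) * X i * X j := by
        rw [hb, hc, hc0, add_zero]
        simp only [X, C_mul_monomial, monomial_mul, mul_one]
      rw [this]
      exact hmon _ _ _
  have : q ∈ S := by
    rw [q.as_sum]
    refine hsum _ fun d hd => ?_
    have := hq (mem_support_iff.1 hd)
    rw [← this, Finsupp.degree_eq_weight_one]
    rfl
  exact this

/-- The bilinear form of the matrix. -/
def B (M : Fin N → Fin N → k) {A : Type u} [Field A] [Algebra k A] (u v : Fin N → A) : A :=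
  ∑ i, ∑ j, algebraMap k A (M i j) * u i * v j

theorem aeval_eq (M : Fin N → Fin N → k) {A : Type u} [Field A] [Algebra k A]
    (u : Fin N → A) :
    aeval u (∑ i, ∑ j, C (M i j) * X i * X j : MvPolynomial (Fin N) k) = B M u u := by
  simp [B, map_sum, map_mul]

variable (M : Fin N → Fin N → k) {A : Type u} [Field A] [Algebra k A]

theorem B_add_left (u u' v : Fin N → A) : B M (u + u') v = B M u v + B M u' v := by
  simp only [B, ← Finset.sum_add_distrib, Pi.add_apply]
  refine Finset.sum_congr rfl fun i _ => Finset.sum_congr rfl fun j _ => ?_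
  ring

theorem B_add_right (u v v' : Fin N → A) : B M u (v + v') = B M u v + B M u v' := by
  simp only [B, ← Finset.sum_add_distrib, Pi.add_apply]
  refine Finset.sum_congr rfl fun i _ => Finset.sum_congr rfl fun j _ => ?_
  ring

theorem B_smul_left (a : A) (u v : Fin N → A) : B M (a • u) v = a * B M u v := by
  simp only [B, Finset.mul_sum, Pi.smul_apply, smul_eq_mul]
  refine Finset.sum_congr rfl fun i _ => Finset.sum_congr rfl fun j _ => ?_
  ring

theorem B_smul_right (a : A) (u v : Fin N → A) : B M u (a • v) = a * B M u v := by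
  simp only [B, Finset.mul_sum, Pi.smul_apply, smul_eq_mul]
  refine Finset.sum_congr rfl fun i _ => Finset.sum_congr rfl fun j _ => ?_
  ring

theorem B_map (u v : Fin N → k) :
    B M (fun i => algebraMap k A (u i)) (fun i => algebraMap k A (v i)) =
      algebraMap k A (B M u v) := by
  simp [B, map_sum, map_mul]

end Quad

section Cubic

variable {k k' : Type u} [Field k] [Field k'] [Algebra k k']

theorem natDegree_eq (h3 : Module.finrank k k' = 3) (θ : k')
    (hθ : θ ∉ (algebraMap k k').range) : (minpoly k θ).natDegree = 3 := by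
  have : FiniteDimensional k k' := Module.finite_of_finrank_pos (by omega)
  have hint : IsIntegral k θ := IsIntegral.of_finite k θ
  have h1 := minpoly.degree_dvd hint
  rw [h3] at h1
  rcases (Nat.dvd_prime Nat.prime_three).1 h1 with h | h
  · exact absurd (minpoly.natDegree_eq_one_iff.1 h) hθ
  · exact h

theorem indep (h3 : Module.finrank k k' = 3) (θ : k')
    (hθ : θ ∉ (algebraMap k k').range) (a b c : k)
    (h : algebraMap k k' a + algebraMap k k' b * θ + algebraMap k k' c * θ ^ 2 = 0) :
    a = 0 ∧ b = 0 ∧ c = 0 := by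
  have hd := natDegree_eq h3 θ hθ
  let f : Polynomial k := Polynomial.C a + Polynomial.C b * Polynomial.X +
    Polynomial.C c * Polynomial.X ^ 2
  have hf : Polynomial.aeval θ f = 0 := by
    simp only [f, map_add, map_mul, Polynomial.aeval_C, Polynomial.aeval_X, map_pow]
    exact h
  have hf0 : f = 0 := by
    by_contra hne
    have h1 := Polynomial.natDegree_le_natDegree (minpoly.degree_le_of_ne_zero k θ hne hf)
    have h2 : f.natDegree ≤ 2 := by
      simp only [f]
      compute_degree
    omega
  refine ⟨?_, ?_, ?_⟩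
  · have := congrArg (fun p => Polynomial.coeff p 0) hf0
    simpa [f] using this
  · have := congrArg (fun p => Polynomial.coeff p 1) hf0
    simpa [f, Polynomial.coeff_X, Polynomial.coeff_C] using this
  · have := congrArg (fun p => Polynomial.coeff p 2) hf0
    simpa [f, Polynomial.coeff_X, Polynomial.coeff_C] using this

theorem span (h3 : Module.finrank k k' = 3) (θ : k')
    (hθ : θ ∉ (algebraMap k k').range) (z : k') :
    ∃ a b c : k, z = algebraMap k k' a + algebraMap k k' b * θ + algebraMap k k' c * θ ^ 2 := by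
  have : FiniteDimensional k k' := Module.finite_of_finrank_pos (by omega)
  have hli : LinearIndependent k ![(1 : k'), θ, θ ^ 2] := by
    rw [Fintype.linearIndependent_iff]
    intro g hg
    have := indep h3 θ hθ (g 0) (g 1) (g 2) (by
      simpa [Fin.sum_univ_three, Algebra.smul_def] using hg)
    intro i
    fin_cases i
    · exact this.1
    · exact this.2.1
    · exact this.2.2
  have hspan := hli.span_eq_top_of_card_eq_finrank' (by simp [h3])
  have hz : z ∈ Submodule.span k (Set.range ![(1 : k'), θ, θ ^ 2]) := by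
    rw [hspan]; trivial
  rw [Submodule.mem_span_range_iff_exists_fun] at hz
  obtain ⟨c, hc⟩ := hz
  refine ⟨c 0, c 1, c 2, ?_⟩
  rw [← hc]
  simp [Fin.sum_univ_three, Algebra.smul_def]

/-- The case where the coordinates of the point span a line. -/
theorem line (h3 : Module.finrank k k' = 3) {N : ℕ} (u v : Fin N → k) (α β : k')
    (P : Fin N → k') (hP : P ≠ 0)
    (hPe : P = α • (fun i => algebraMap k k' (u i)) + β • (fun i => algebraMap k k' (v i))) :
    ∃ p : Fin N → k, p ≠ 0 ∧ ∀ M : Fin N → Fin N → k, B M P P = 0 → B M p p = 0 := by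
  have hinj : Function.Injective (algebraMap k k') := (algebraMap k k').injective
  by_cases hβ : β = 0
  · -- `P = α u`
    have hα : α ≠ 0 := by
      rintro rfl; apply hP; rw [hPe, hβ]; simp
    refine ⟨u, ?_, ?_⟩
    · rintro rfl; apply hP; rw [hPe, hβ]
      funext i; simp
    · intro M h
      rw [hPe, hβ, zero_smul, add_zero, B_smul_left, B_smul_right, B_map] at h
      have : algebraMap k k' (B M u u) = 0 := by
        rcases mul_eq_zero.1 h with h | h
        · exact absurd h hα
        · rcases mul_eq_zero.1 h with h | h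
          · exact absurd h hα
          · exact h
      exact (map_eq_zero_iff _ hinj).1 this
  · set ρ := α / β with hρ
    have hαρ : α = β * ρ := by rw [hρ]; field_simp
    have hexp : ∀ M : Fin N → Fin N → k, B M P P = 0 →
        algebraMap k k' (B M v v) + algebraMap k k' (B M u v + B M v u) * ρ +
          algebraMap k k' (B M u u) * ρ ^ 2 = 0 := by
      intro M h
      rw [hPe, B_add_left, B_add_right, B_add_right] at h
      simp only [B_smul_left, B_smul_right, B_map] at h
      rw [hαρ] at h
      have : β ^ 2 * (algebraMap k k' (B M v v) + algebraMap k k' (B M u v + B M v u) * ρ +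
          algebraMap k k' (B M u u) * ρ ^ 2) = 0 := by
        rw [map_add]
        linear_combination h
      rcases mul_eq_zero.1 this with h | h
      · exact absurd (pow_eq_zero_iff (two_ne_zero)|>.1 h) hβ
      · exact h
    by_cases hr : ρ ∈ (algebraMap k k').range
    · obtain ⟨r, hr⟩ := hr
      refine ⟨r • u + v, ?_, ?_⟩
      · intro h0
        apply hP
        rw [hPe, hαρ, ← hr]
        funext i
        have := congrFun h0 i
        simp only [Pi.add_apply, Pi.smul_apply, smul_eq_mul, Pi.zero_apply] at this ⊢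
        have h1 : algebraMap k k' (r * u i + v i) = 0 := by rw [this, map_zero]
        rw [map_add, map_mul] at h1
        linear_combination β * h1
      · intro M h
        have h1 := hexp M h
        apply hinj
        rw [map_zero, B_add_left, B_add_right, B_add_right, ← h1, ← hr]
        simp only [B_smul_left, B_smul_right, map_add, map_mul]
        ring
    · by_cases hu : u = 0
      · refine ⟨v, ?_, ?_⟩
        · rintro rfl; apply hP; rw [hPe, hu]; funext i; simp
        · intro M h
          exact (indep h3 ρ hr _ _ _ (hexp M h)).1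
      · refine ⟨u, hu, ?_⟩
        intro M h
        exact (indep h3 ρ hr _ _ _ (hexp M h)).2.2

end Cubic

/-- The planar case. -/
theorem plane {k : Type u} [Field k] (m0 m1 m2 c₁ e₁ f₁ c₂ e₂ f₂ : k) :
    ∃ y0 y1 y2 : k, ¬ (y0 = 0 ∧ y1 = 0 ∧ y2 = 0) ∧
      c₁ * (y0 * y2 - y1 ^ 2) + e₁ * (y1 * y2 + m2 * y1 ^ 2 + m1 * y0 * y1 + m0 * y0 ^ 2) +
        f₁ * (y2 ^ 2 + m2 * y1 * y2 + m1 * y1 ^ 2 + m0 * y0 * y1) = 0 ∧
      c₂ * (y0 * y2 - y1 ^ 2) + e₂ * (y1 * y2 + m2 * y1 ^ 2 + m1 * y0 * y1 + m0 * y0 ^ 2) +
        f₂ * (y2 ^ 2 + m2 * y1 * y2 + m1 * y1 ^ 2 + m0 * y0 * y1) = 0 := by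
  by_cases hdet : e₁ * f₂ - e₂ * f₁ = 0
  · -- the pairs `(e, f)` are proportional
    have key : ∀ e f : k, ∃ y0 y1 y2 : k, ¬ (y0 = 0 ∧ y1 = 0 ∧ y2 = 0) ∧
        y0 * y2 - y1 ^ 2 = 0 ∧
        e * (y1 * y2 + m2 * y1 ^ 2 + m1 * y0 * y1 + m0 * y0 ^ 2) +
        f * (y2 ^ 2 + m2 * y1 * y2 + m1 * y1 ^ 2 + m0 * y0 * y1) = 0 := by
      intro e f
      by_cases hf : f = 0
      · exact ⟨0, 0, 1, by simp, by simp, by simp [hf]⟩
      · refine ⟨1, -e / f, (-e / f) ^ 2, by simp, by ring, ?_⟩
        field_simp
        ring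
    by_cases h1 : e₁ = 0 ∧ f₁ = 0
    · obtain ⟨y0, y1, y2, hy, hA, hM⟩ := key e₂ f₂
      refine ⟨y0, y1, y2, hy, ?_, ?_⟩
      · rw [h1.1, h1.2, hA]; ring
      · rw [hA]; linear_combination hM
    · obtain ⟨y0, y1, y2, hy, hA, hM⟩ := key e₁ f₁
      refine ⟨y0, y1, y2, hy, ?_, ?_⟩
      · rw [hA]; linear_combination hM
      · rw [hA]
        by_cases he : e₁ = 0
        · have hf : f₁ ≠ 0 := fun h => h1 ⟨he, h⟩
          have : e₂ = 0 := by
            rw [he, zero_mul, zero_sub, neg_eq_zero] at hdet
            rcases mul_eq_zero.1 hdet with h | h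
            · exact h
            · exact absurd h hf
          rw [he] at hM
          rw [this]
          have h2 : y2 ^ 2 + m2 * y1 * y2 + m1 * y1 ^ 2 + m0 * y0 * y1 = 0 := by
            rw [zero_mul, zero_add] at hM
            rcases mul_eq_zero.1 hM with h | h
            · exact absurd h hf
            · exact h
          rw [h2]; ring
        · have h2 : f₂ = e₂ * f₁ / e₁ := by
            rw [eq_div_iff he]; linear_combination hdet
          rw [h2]
          have h3 : c₂ * 0 + e₂ * (y1 * y2 + m2 * y1 ^ 2 + m1 * y0 * y1 + m0 * y0 ^ 2) +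
            e₂ * f₁ / e₁ * (y2 ^ 2 + m2 * y1 * y2 + m1 * y1 ^ 2 + m0 * y0 * y1) =
            e₂ / e₁ * (e₁ * (y1 * y2 + m2 * y1 ^ 2 + m1 * y0 * y1 + m0 * y0 ^ 2) +
              f₁ * (y2 ^ 2 + m2 * y1 * y2 + m1 * y1 ^ 2 + m0 * y0 * y1)) := by
            field_simp
            ring
          rw [h3, hM, mul_zero]
  · -- combine to `M₁ + μ₁ A`, `M₂ + μ₂ A`
    set D := e₁ * f₂ - e₂ * f₁ with hD
    set μ₁ := (f₂ * c₁ - f₁ * c₂) / D with hμ₁
    set μ₂ := (e₁ * c₂ - e₂ * c₁) / D with hμ₂
    have hc₁ : c₁ = e₁ * μ₁ + f₁ * μ₂ := by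
      rw [hμ₁, hμ₂]; field_simp; rw [hD]; ring
    have hc₂ : c₂ = e₂ * μ₁ + f₂ * μ₂ := by
      rw [hμ₁, hμ₂]; field_simp; rw [hD]; ring
    obtain ⟨y0, y1, hy, hr⟩ : ∃ y0 y1 : k, ¬ (y0 = 0 ∧ y1 = 0) ∧
        (m1 - μ₂ + μ₁ * (μ₁ - m2)) * y1 + (m0 - μ₁ * μ₂) * y0 = 0 := by
      by_cases h : (m1 - μ₂ + μ₁ * (μ₁ - m2)) = 0 ∧ (m0 - μ₁ * μ₂) = 0
      · exact ⟨1, 0, by simp, by rw [h.1, h.2]; ring⟩
      · refine ⟨m1 - μ₂ + μ₁ * (μ₁ - m2), -(m0 - μ₁ * μ₂), ?_, by ring⟩
        intro h'
        exact h ⟨h'.1, neg_eq_zero.1 h'.2⟩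
    refine ⟨y0, y1, (μ₁ - m2) * y1 - μ₂ * y0, fun h => hy ⟨h.1, h.2.1⟩, ?_, ?_⟩
    · rw [hc₁]
      linear_combination (e₁ * y0 + f₁ * y1) * hr
    · rw [hc₂]
      linear_combination (e₂ * y0 + f₂ * y1) * hr

theorem cub : S_CUB.{u} := by
  intro k k' _ _ _ h3 N q₁ q₂ hq₁ hq₂ P hP h₁ h₂
  obtain ⟨M₁, rfl⟩ := exists_matrix q₁ hq₁
  obtain ⟨M₂, rfl⟩ := exists_matrix q₂ hq₂
  have hev : ∀ (M : Fin N → Fin N → k) (p : Fin N → k),
      eval p (∑ i, ∑ j, C (M i j) * X i * X j) = B M p p := by
    intro M p
    have := aeval_eq M (A := k) p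
    rw [← this, MvPolynomial.aeval_eq_eval]
  rw [aeval_eq] at h₁ h₂
  simp only [hev]
  have : FiniteDimensional k k' := Module.finite_of_finrank_pos (by omega)
  -- a generator
  obtain ⟨θ, hθ⟩ : ∃ θ : k', θ ∉ (algebraMap k k').range := by
    by_contra hcon
    push Not at hcon
    have : Module.finrank k k' ≤ 1 := by
      refine finrank_le_one (1 : k') fun w => ?_
      obtain ⟨c, hc⟩ := hcon w
      exact ⟨c, by rw [Algebra.smul_def, mul_one]; exact hc⟩
    omega
  choose a b c habc using fun i => span h3 θ hθ (P i)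
  obtain ⟨n0, n1, n2, hn⟩ := span h3 θ hθ (θ ^ 3)
  have hPe : P = (fun i => algebraMap k k' (a i)) + θ • (fun i => algebraMap k k' (b i)) +
      θ ^ 2 • (fun i => algebraMap k k' (c i)) := by
    funext i
    simp only [Pi.add_apply, Pi.smul_apply, smul_eq_mul]
    rw [habc i]; ring
  by_cases hli : LinearIndependent k ![a, b, c]
  · -- the planar case
    have hQ : ∀ M : Fin N → Fin N → k, B M P P = 0 → ∀ y0 y1 y2 : k,
        B M (y0 • a + y1 • b + y2 • c) (y0 • a + y1 • b + y2 • c) =
          (B M a c + B M c a) * (y0 * y2 - y1 ^ 2) +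
          (B M b c + B M c b + B M c c * n2) *
            (y1 * y2 + (-n2) * y1 ^ 2 + (-n1) * y0 * y1 + (-n0) * y0 ^ 2) +
          B M c c * (y2 ^ 2 + (-n2) * y1 * y2 + (-n1) * y1 ^ 2 + (-n0) * y0 * y1) := by
      intro M h y0 y1 y2
      rw [hPe] at h
      simp only [B_add_left, B_add_right, B_smul_left, B_smul_right, B_map] at h
      have h4 : θ ^ 4 = algebraMap k k' n0 * θ + algebraMap k k' n1 * θ ^ 2 +
          algebraMap k k' n2 * (algebraMap k k' n0 + algebraMap k k' n1 * θ +
            algebraMap k k' n2 * θ ^ 2) := by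
        rw [← hn]
        have : θ ^ 4 = θ * θ ^ 3 := by ring
        rw [this]
        nth_rewrite 1 [hn]
        ring
      have h5 : algebraMap k k' (B M a a + (B M b c + B M c b) * n0 + B M c c * n2 * n0) +
          algebraMap k k' (B M a b + B M b a + (B M b c + B M c b) * n1 +
            B M c c * (n0 + n2 * n1)) * θ +
          algebraMap k k' (B M a c + B M c a + B M b b + (B M b c + B M c b) * n2 +
            B M c c * (n1 + n2 * n2)) * θ ^ 2 = 0 := by
        simp only [map_add, map_mul]
        linear_combination h - (algebraMap k k' (B M b c) + algebraMap k k' (B M c b)) * hn -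
          algebraMap k k' (B M c c) * h4
      obtain ⟨g0, g1, g2⟩ := indep h3 θ hθ _ _ _ h5
      simp only [B_add_left, B_add_right, B_smul_left, B_smul_right]
      linear_combination y0 ^ 2 * g0 + y0 * y1 * g1 + y1 ^ 2 * g2
    obtain ⟨y0, y1, y2, hy, hz₁, hz₂⟩ := plane (-n0) (-n1) (-n2)
      (B M₁ a c + B M₁ c a) (B M₁ b c + B M₁ c b + B M₁ c c * n2) (B M₁ c c)
      (B M₂ a c + B M₂ c a) (B M₂ b c + B M₂ c b + B M₂ c c * n2) (B M₂ c c)
    refine ⟨y0 • a + y1 • b + y2 • c, ?_, ?_, ?_⟩
    · intro h0
      rw [Fintype.linearIndependent_iff] at hli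
      have := hli ![y0, y1, y2] (by simpa [Fin.sum_univ_three] using h0)
      exact hy ⟨this 0, this 1, this 2⟩
    · rw [hQ M₁ h₁]; exact hz₁
    · rw [hQ M₂ h₂]; exact hz₂
  · -- the coordinates are dependent
    rw [Fintype.linearIndependent_iff] at hli
    push Not at hli
    obtain ⟨g, hg, i, hi⟩ := hli
    rw [Fin.sum_univ_three] at hg
    simp only [Matrix.cons_val_zero, Matrix.cons_val_one, Matrix.cons_val] at hg
    have hg' : ∀ j, algebraMap k k' (g 0) * algebraMap k k' (a j) +
        algebraMap k k' (g 1) * algebraMap k k' (b j) +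
        algebraMap k k' (g 2) * algebraMap k k' (c j) = 0 := by
      intro j
      have := congrFun hg j
      simp only [Pi.add_apply, Pi.smul_apply, smul_eq_mul, Pi.zero_apply] at this
      rw [← map_mul, ← map_mul, ← map_mul, ← map_add, ← map_add, this, map_zero]
    have hfin : ∃ (u v : Fin N → k) (α β : k'),
        P = α • (fun i => algebraMap k k' (u i)) + β • (fun i => algebraMap k k' (v i)) := by
      have hgi : algebraMap k k' (g i) ≠ 0 := by
        rwa [Ne, map_eq_zero_iff _ (algebraMap k k').injective]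
      fin_cases i
      · refine ⟨b, c, θ - algebraMap k k' (g 1) / algebraMap k k' (g 0),
          θ ^ 2 - algebraMap k k' (g 2) / algebraMap k k' (g 0), ?_⟩
        funext j
        have := hg' j
        simp only [Fin.zero_eta] at hgi
        simp only [Pi.add_apply, Pi.smul_apply, smul_eq_mul]
        rw [habc j]
        field_simp
        linear_combination this
      · refine ⟨a, c, 1 - θ * (algebraMap k k' (g 0) / algebraMap k k' (g 1)),
          θ ^ 2 - θ * (algebraMap k k' (g 2) / algebraMap k k' (g 1)), ?_⟩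
        funext j
        have := hg' j
        simp only [Fin.mk_one] at hgi
        simp only [Pi.add_apply, Pi.smul_apply, smul_eq_mul]
        rw [habc j]
        field_simp
        linear_combination θ * this
      · refine ⟨a, b, 1 - θ ^ 2 * (algebraMap k k' (g 0) / algebraMap k k' (g 2)),
          θ - θ ^ 2 * (algebraMap k k' (g 1) / algebraMap k k' (g 2)), ?_⟩
        funext j
        have := hg' j
        simp only [Fin.reduceFinMk] at hgi
        simp only [Pi.add_apply, Pi.smul_apply, smul_eq_mul]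
        rw [habc j]
        field_simp
        linear_combination θ ^ 2 * this
    obtain ⟨u, v, α, β, huv⟩ := hfin
    obtain ⟨p, hp, hM⟩ := line h3 u v α β P hP huv
    exact ⟨p, hp, hM M₁ h₁, hM M₂ h₂⟩

end Pool.Agent.Helper95K9.IR.Cub
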