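import Pool.Agent.Helper95K9.IR.Tool

/-!
Degree of irrationality of del Pezzo surfaces: cubic surfaces, the leaves [3U3], [3U2].
-/

set_option autoImplicit false

namespace Pool.Agent.Helper95K9.IR.Cubic

open MvPolynomial Pool.Agent.Helper95K9.IR.Tool

universe u

/-- Chain rule. -/
theorem chain {F E : Type u} [Field F] [Field E] [Algebra F E] {N : ℕ}
    (a : Fin N → Polynomial E) (f : MvPolynomial (Fin N) F) :
    Polynomial.derivative (aeval a f) = ∑ i, aeval a (pderiv i f) * Polynomial.derivative (a i) := by
  classical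
  induction f using MvPolynomial.induction_on with
  | C c =>
    simp [MvPolynomial.algHom_C, Polynomial.algebraMap_apply]
  | add p q hp hq =>
    simp only [map_add, hp, hq, add_mul, Finset.sum_add_distrib]
  | mul_X p j h =>
    have h1 : ∀ i, aeval a (pderiv i (p * X j)) * Polynomial.derivative (a i) =
        aeval a p * (if i = j then Polynomial.derivative (a i) else 0) +
        (aeval a (pderiv i p) * Polynomial.derivative (a i)) * a j := by
      intro i
      rw [Derivation.leibniz, pderiv_X]
      by_cases hij : i = j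
      · subst hij
        simp only [Pi.single_eq_same, smul_eq_mul, mul_one, map_add, map_mul, aeval_X, if_true]
        ring
      · have hij' : ¬ j = i := fun h => hij h.symm
        simp only [Pi.single_apply, hij, hij', smul_eq_mul, mul_zero, map_mul, aeval_X, if_false,
          zero_add]
        ring
    simp only [h1]
    simp only [map_mul, aeval_X, Polynomial.derivative_mul, h, Finset.sum_add_distrib,
      ← Finset.mul_sum, ← Finset.sum_mul, Finset.sum_ite_eq', Finset.mem_univ, if_true]
    ring

theorem ex_ne : ∀ i0 : Fin 4, ∃ k : Fin 4, k ≠ i0 := by decide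

theorem ex_cov : ∀ i0 k : Fin 4, k ≠ i0 → ∃ i1 i2 : Fin 4, ∀ i, i = i0 ∨ i = k ∨ i = i1 ∨ i = i2 := by
  decide

/-- The common part of the two leaves. -/
theorem core (hUB : S_UB.{u}) {F K : Type u} [Field F] [Field K] [Algebra F K]
    (f : Fin 1 → MvPolynomial (Fin 4) F) (hf : ∀ j, (f j).IsHomogeneous 3)
    (hK : IsSurfaceField F K) (P : Fin 4 → K)
    (hP : ∀ (d : ℕ) (g : MvPolynomial (Fin 4) F), g.IsHomogeneous d →
      (aeval P g = 0 ↔ g ∈ Ideal.span (Set.range f)))
    (hgen : IntermediateField.adjoin F {z : K | ∃ i j, z = P i / P j} = ⊤)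
    (p : Fin 4 → F) (hp : p ≠ 0) (m : ℕ)
    (H : ∀ (E : IntermediateField F K) (u : Fin 4 → E) (vk : K), vk ≠ 0 →
      (∀ c : Fin 4 → F, ∑ i, c i * p i = 0 →
        ∑ i, algebraMap F K (c i) * (u i : K) = (∑ i, algebraMap F K (c i) * P i) / vk) →
      ∀ S : K, S ≠ 0 →
      Polynomial.aeval S (aeval (fun i => Polynomial.C (algebraMap F E (p i)) +
        Polynomial.X * Polynomial.C (u i)) (f 0)) = 0 →
      ∃ Ψ : Polynomial E, Ψ ≠ 0 ∧ Ψ.natDegree ≤ m ∧ Polynomial.aeval S Ψ = 0) :
    ∃ n, n ≤ m ∧ HasDeg F K n := by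
  classical
  obtain ⟨i0, hi0⟩ : ∃ i0, p i0 ≠ 0 := by
    by_contra h
    exact hp (funext fun i => not_not.1 fun hi => h ⟨i, hi⟩)
  obtain ⟨k, hk⟩ := ex_ne i0
  obtain ⟨i1, i2, hcov⟩ := ex_cov i0 k hk
  have hlin := fun c hc => lin_ne_zero f 3 (by norm_num) hf P hP c hc
  have hi0' : algebraMap F K (p i0) ≠ 0 := by
    simpa using hi0
  set w : K := P i0 / algebraMap F K (p i0) with hw
  have hw0 : w ≠ 0 := by
    have := hlin (Pi.single i0 1) (by simp)
    simp [Pi.single_apply] at this
    exact div_ne_zero this hi0'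
  set v : Fin 4 → K := fun i => P i - w * algebraMap F K (p i) with hv
  have hvi0 : v i0 = 0 := by
    simp only [hv, hw]
    field_simp
    ring
  have hvk : v k ≠ 0 := by
    intro h
    have h2 := hlin (fun i => (if i = k then p i0 else 0) - (if i = i0 then p k else 0)) (by
      intro h3
      have := congrFun h3 k
      simp [hk] at this
      exact hi0 this)
    apply h2
    simp only [map_sub, sub_mul, Finset.sum_sub_distrib]
    simp only [apply_ite (algebraMap F K), map_zero, ite_mul, zero_mul, Finset.sum_ite_eq',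
      Finset.mem_univ, if_true]
    simp only [hv, hw] at h
    field_simp at h
    linear_combination h
  set E : IntermediateField F K := IntermediateField.adjoin F ({v i1 / v k, v i2 / v k} : Set K)
    with hE
  have hmem : ∀ i, v i / v k ∈ E := by
    intro i
    rcases hcov i with rfl | rfl | rfl | rfl
    · rw [hvi0, zero_div]; exact E.zero_mem
    · rw [div_self hvk]; exact E.one_mem
    · exact IntermediateField.subset_adjoin _ _ (by simp)
    · exact IntermediateField.subset_adjoin _ _ (by simp)
  let u : Fin 4 → E := fun i => ⟨v i / v k, hmem i⟩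
  let S : K := v k / w
  have hS0 : S ≠ 0 := div_ne_zero hvk hw0
  have hPw : ∀ i, P i / w = algebraMap F K (p i) + S * (u i : K) := by
    intro i
    have h1 : S * (u i : K) = v i / w := by
      change v k / w * (v i / v k) = v i / w
      generalize v k = a at hvk
      generalize v i = b
      field_simp
    rw [h1]
    simp only [hv]
    field_simp
    ring
  have htop : IntermediateField.adjoin E ({S} : Set K) = ⊤ := by
    apply adjoin_top E _ _ hgen
    rintro z ⟨i, j, rfl⟩
    have hj : ∀ i, P i / w ∈ IntermediateField.adjoin E ({S} : Set K) := by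
      intro i
      rw [hPw i]
      refine add_mem ?_ (mul_mem ?_ ?_)
      · exact mem_base E _ _ (E.algebraMap_mem (p i))
      · exact IntermediateField.subset_adjoin _ _ rfl
      · exact mem_base E _ _ (u i).2
    have : P i / P j = (P i / w) / (P j / w) := by
      rw [div_div_div_cancel_right₀ hw0]
    rw [this]
    exact div_mem (hj i) (hj j)
  obtain ⟨Ψ, hΨ0, hΨd, hΨr⟩ := H E u (v k) hvk (by
    intro c hc
    change ∑ i, algebraMap F K (c i) * (v i / v k) = _
    rw [Finset.sum_div]
    have h1 : ∑ i, algebraMap F K (c i) * (v i / v k) =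
        ∑ i, algebraMap F K (c i) * P i / v k -
          (w / v k) * algebraMap F K (∑ i, c i * p i) := by
      rw [map_sum, Finset.mul_sum, ← Finset.sum_sub_distrib]
      apply Finset.sum_congr rfl
      intro i _
      simp only [hv, map_mul]
      ring
    rw [h1, hc]
    simp) S hS0 (by
    have h1 : Polynomial.aeval S (aeval (fun i => Polynomial.C (algebraMap F E (p i)) +
        Polynomial.X * Polynomial.C (u i)) (f 0)) = aeval (fun i => P i / w) (f 0) := by
      have h2 : ∀ g : MvPolynomial (Fin 4) F,
          Polynomial.aeval S (aeval (fun i => Polynomial.C (algebraMap F E (p i)) +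
            Polynomial.X * Polynomial.C (u i)) g) = aeval (fun i => P i / w) g := by
        intro g
        induction g using MvPolynomial.induction_on with
        | C c =>
          simp [MvPolynomial.algHom_C, Polynomial.algebraMap_apply, ← IsScalarTower.algebraMap_apply]
        | add a b ha hb => simp only [map_add, ha, hb]
        | mul_X a i ha =>
          rw [map_mul, map_mul, map_mul, ha, aeval_X, aeval_X, hPw i]
          congr 1
          rw [map_add, map_mul, Polynomial.aeval_C, Polynomial.aeval_X, Polynomial.aeval_C,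
            ← IsScalarTower.algebraMap_apply]
          rfl
      exact h2 (f 0)
    rw [h1]
    have h3 : aeval (fun i => P i / w) (f 0) = (w⁻¹) ^ 3 * aeval P (f 0) := by
      rw [← aeval_scale (hf 0) w⁻¹ P]
      congr 2
      funext i
      rw [div_eq_inv_mul]
    rw [h3, (hP 3 (f 0) (hf 0)).2 (Ideal.subset_span ⟨0, rfl⟩), mul_zero])
  have hfin := finrank_le S htop Ψ hΨ0 m hΨd hΨr
  exact hasDeg_of hUB hK _ _ m hfin.1 hfin.2

/-- The polynomial `f(p + S u)` in `S`. -/
noncomputable def psi {F E : Type u} [Field F] [Field E] [Algebra F E]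
    (f : MvPolynomial (Fin 4) F) (p : Fin 4 → F) (u : Fin 4 → E) : Polynomial E :=
  aeval (fun i => Polynomial.C (algebraMap F E (p i)) + Polynomial.X * Polynomial.C (u i)) f

theorem psi_deg {F E : Type u} [Field F] [Field E] [Algebra F E]
    (f : MvPolynomial (Fin 4) F) (hf : f.IsHomogeneous 3) (p : Fin 4 → F) (u : Fin 4 → E) :
    (psi f p u).natDegree ≤ 3 := by
  have h1 : psi f p u = aeval (fun i => Polynomial.C (algebraMap F E (p i)) +
      Polynomial.X * Polynomial.C (u i)) (map (algebraMap F E) f) := by
    unfold psi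
    rw [aeval_map_algebraMap]
  rw [h1]
  have h2 := aeval_natDegree_le (m := 3) (n := 1) (map (algebraMap F E) f)
    ((hf.map (algebraMap F E)).totalDegree_le)
    (fun i => Polynomial.C (algebraMap F E (p i)) + Polynomial.X * Polynomial.C (u i)) (by
      intro i
      apply Polynomial.natDegree_add_le_of_degree_le
      · simp
      · exact (Polynomial.natDegree_mul_C_le _ _).trans (by simp))
  simpa using h2

theorem psi_eval {F E : Type u} [Field F] [Field E] [Algebra F E]
    (f : MvPolynomial (Fin 4) F) (p : Fin 4 → F) (u : Fin 4 → E) :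
    (psi f p u).eval 0 = algebraMap F E (eval p f) := by
  unfold psi
  induction f using MvPolynomial.induction_on with
  | C c => simp [MvPolynomial.algHom_C, Polynomial.algebraMap_apply]
  | add a b ha hb => simp only [map_add, Polynomial.eval_add, ha, hb]
  | mul_X a i ha =>
    rw [map_mul, Polynomial.eval_mul, ha, aeval_X, map_mul, map_mul, eval_X]
    simp

theorem psi_der {F E : Type u} [Field F] [Field E] [Algebra F E]
    (f : MvPolynomial (Fin 4) F) (p : Fin 4 → F) (u : Fin 4 → E) :
    (psi f p u).derivative.eval 0 = ∑ i, algebraMap F E (eval p (pderiv i f)) * u i := by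
  unfold psi
  rw [chain, Polynomial.eval_finsetSum]
  apply Finset.sum_congr rfl
  intro i _
  rw [Polynomial.eval_mul]
  congr 1
  · exact psi_eval (pderiv i f) p u
  · simp

theorem aeval_self {F : Type u} [Field F] {N : ℕ} (p : Fin N → F) (g : MvPolynomial (Fin N) F) :
    aeval p g = eval p g := by
  rw [← coe_aeval_eq_eval]
  rfl

theorem aeval_alg {F L : Type u} [Field F] [Field L] [Algebra F L] {N : ℕ} (p : Fin N → F)
    (g : MvPolynomial (Fin N) F) :
    aeval (fun i => algebraMap F L (p i)) g = algebraMap F L (eval p g) := by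
  have h2 := aeval_algebraMap_apply L p g
  rw [aeval_self] at h2
  exact h2

/-- [3U3] -/
theorem _root_.Pool.Agent.Helper95K9.IR.threeU3 (hUB : S_UB.{u}) : S_3U3.{u} := by
  intro F K _ _ _ f hf hFF hno
  obtain ⟨hK, P, hP0, hP, hgen⟩ := hFF
  have hp : (Pi.single (3 : Fin 4) (1 : F) : Fin 4 → F) ≠ 0 := by simp
  have hfp : eval (Pi.single (3 : Fin 4) (1 : F) : Fin 4 → F) (f 0) ≠ 0 := by
    intro h
    apply hno
    refine ⟨Pi.single (3 : Fin 4) (1 : F), hp, fun j => ?_⟩
    have : j = 0 := Subsingleton.elim _ _
    rw [this, aeval_self, h]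
  refine core hUB f hf hK P hP hgen _ hp 3 ?_
  intro E u vk hvk _ S hS hroot
  refine ⟨psi (f 0) (Pi.single (3 : Fin 4) (1 : F)) u, ?_, psi_deg _ (hf 0) _ _, hroot⟩
  intro h
  have h1 := psi_eval (f 0) (Pi.single (3 : Fin 4) (1 : F)) u
  rw [h, Polynomial.eval_zero] at h1
  apply hfp
  exact (algebraMap F E).injective (by rw [← h1, map_zero])

/-- [3U2] -/
theorem _root_.Pool.Agent.Helper95K9.IR.threeU2 (hUB : S_UB.{u}) : S_3U2.{u} := by
  intro F K _ _ _ f hf hsm hFF hpt
  obtain ⟨hK, P, hP0, hP, hgen⟩ := hFF
  obtain ⟨p, hp, hfp⟩ := hpt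
  have hfp0 : eval p (f 0) = 0 := by rw [← aeval_self]; exact hfp 0
  -- the gradient at `p`
  have hgrad : (fun i => eval p (pderiv i (f 0))) ≠ 0 := by
    intro h
    have h1 := hsm (fun i => algebraMap F (AlgebraicClosure F) (p i)) (by
      intro h0
      apply hp
      funext i
      have := congrFun h0 i
      simpa using this) (fun j => by
        have : j = 0 := Subsingleton.elim _ _
        rw [this, aeval_alg, hfp0, map_zero])
    have h4 := h1.ne_zero 0
    apply h4
    funext i
    change aeval (fun i => algebraMap F (AlgebraicClosure F) (p i)) (pderiv i (f 0)) = 0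
    have := congrFun h i
    simp only [Pi.zero_apply] at this
    rw [aeval_alg, this, map_zero]
  have heuler : ∑ i, eval p (pderiv i (f 0)) * p i = 0 := by
    have h1 := (hf 0).sum_X_mul_pderiv
    have h2 := congrArg (eval p) h1
    simp only [map_sum, map_mul, eval_X] at h2
    rw [map_nsmul, hfp0, smul_zero] at h2
    rw [← h2]
    apply Finset.sum_congr rfl
    intro i _
    ring
  refine core hUB f hf hK P hP hgen p hp 2 ?_
  intro E u vk hvk hlin S hS hroot
  have hΨ0 : (psi (f 0) p u).eval 0 = 0 := by rw [psi_eval, hfp0, map_zero]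
  have hder : (psi (f 0) p u).derivative.eval 0 ≠ 0 := by
    rw [psi_der]
    intro h
    have h1 := congrArg (algebraMap E K) h
    rw [map_zero, map_sum] at h1
    have h2 := hlin (fun i => eval p (pderiv i (f 0))) heuler
    have h3 : ∑ i, algebraMap F K (eval p (pderiv i (f 0))) * P i ≠ 0 :=
      lin_ne_zero f 3 (by norm_num) hf P hP _ hgrad
    have h4 : ∑ i, algebraMap F K (eval p (pderiv i (f 0))) * (u i : K) = 0 := by
      rw [← h1]
      apply Finset.sum_congr rfl
      intro i _
      rw [map_mul]
      rfl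
    rw [h4] at h2
    exact (div_ne_zero h3 hvk) h2.symm
  obtain ⟨Ψ', hΨ'⟩ : Polynomial.X ∣ psi (f 0) p u := by
    rw [Polynomial.X_dvd_iff, Polynomial.coeff_zero_eq_eval_zero, hΨ0]
  have hne : Ψ' ≠ 0 := by
    rintro rfl
    rw [mul_zero] at hΨ'
    rw [hΨ'] at hder
    simp at hder
  refine ⟨Ψ', hne, ?_, ?_⟩
  · have h1 := psi_deg (f 0) (hf 0) p u
    rw [hΨ', Polynomial.natDegree_X_mul hne] at h1
    omega
  · change Polynomial.aeval S (psi (f 0) p u) = 0 at hroot
    rw [hΨ', map_mul, Polynomial.aeval_X] at hroot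
    exact (mul_eq_zero.1 hroot).resolve_left hS

end Pool.Agent.Helper95K9.IR.Cubic
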