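import Pool.Agent.Helper95K9.IR.Stm

/-!
MP_577596_ag, leaf [DESC]: descent of a degree bound from a finite Galois extension of the
constants.
-/

set_option autoImplicit false

namespace Pool.Agent.Helper95K9.IR.Desc

open IntermediateField Module

universe u

section

variable {F Ω : Type u} [Field F] [Field Ω] [Algebra F Ω]

theorem relrank_sup_le (E G : IntermediateField F Ω) [FiniteDimensional F G] :
    relrank E (E ⊔ G) ≤ Module.rank F G := by
  have h : extendScalars (le_sup_left : E ≤ E ⊔ G) = adjoin E (G : Set Ω) := by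
    apply restrictScalars_injective F
    rw [extendScalars_restrictScalars, restrictScalars_adjoin_eq_sup, adjoin_self]
  rw [relrank_eq_rank_of_le le_sup_left, h]
  exact adjoin_rank_le_of_isAlgebraic_right E G

theorem relfinrank_sup_le (E G : IntermediateField F Ω) [FiniteDimensional F G] :
    0 < relfinrank E (E ⊔ G) ∧ relfinrank E (E ⊔ G) ≤ finrank F G := by
  have h1 := relrank_sup_le E G
  have h2 : Module.rank F G < Cardinal.aleph0 := Module.rank_lt_aleph0 F G
  constructor
  · rw [relfinrank_eq_finrank_of_le le_sup_left]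
    have h3 : Module.rank E (extendScalars (le_sup_left : E ≤ E ⊔ G)) < Cardinal.aleph0 := by
      rw [← relrank_eq_rank_of_le le_sup_left]
      exact h1.trans_lt h2
    have : FiniteDimensional E (extendScalars (le_sup_left : E ≤ E ⊔ G)) :=
      Module.rank_lt_aleph0_iff.1 h3
    exact finrank_pos
  · rw [relfinrank_eq_toNat_relrank]
    exact Cardinal.toNat_le_toNat h1 h2

theorem finrank_top_of (K G : IntermediateField F Ω) [IsGalois F G] [FiniteDimensional F G]
    (h : G ⊓ K = ⊥) (h' : G ⊔ K = ⊤) : finrank K Ω = finrank F G := by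
  have hG : IsGalois K Ω := IsGalois.sup_right G K h'
  have hfin : FiniteDimensional K Ω := by
    have h1 := relrank_sup_le K G
    rw [sup_comm, h', relrank_top_right] at h1
    exact Module.rank_lt_aleph0_iff.1 (h1.trans_lt (Module.rank_lt_aleph0 F G))
  rw [← IsGalois.card_aut_eq_finrank, ← IsGalois.card_aut_eq_finrank]
  exact Nat.card_congr <| Equiv.ofBijective (restrictRestrictAlgEquivMapHom _ _ _ _)
    ⟨restrictRestrictAlgEquivMapHom_injective _ _ h',
      restrictRestrictAlgEquivMapHom_surjective _ _ h⟩

theorem relfinrank_sup_eq (K G : IntermediateField F Ω) [IsGalois F G] [FiniteDimensional F G]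
    (h : K ⊓ G = ⊥) : relfinrank K (K ⊔ G) = finrank F G := by
  let C : IntermediateField F Ω := K ⊔ G
  let A : IntermediateField F C := G.restrict le_sup_right
  let B : IntermediateField F C := K.restrict le_sup_left
  have hA : IntermediateField.lift A = G := lift_restrict le_sup_right
  have hB : IntermediateField.lift B = K := lift_restrict le_sup_left
  have h₁ : A ⊔ B = ⊤ := by
    rw [← lift_inj, lift_top, lift_sup, hA, hB, sup_comm]
  have h₂ : A ⊓ B = ⊥ := by
    rw [← lift_inj, lift_bot, lift_inf, hA, hB, inf_comm, h]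
  have : IsGalois F A := IsGalois.of_algEquiv <| restrictAlgEquiv ..
  have : FiniteDimensional F A :=
    LinearEquiv.finiteDimensional (restrictAlgEquiv (le_sup_right : G ≤ K ⊔ G)).toLinearEquiv
  have h3 := finrank_top_of B A h₂ h₁
  have h4 : finrank F A = finrank F G :=
    ((restrictAlgEquiv (le_sup_right : G ≤ K ⊔ G)).toLinearEquiv.finrank_eq).symm
  have h5 : B = K.comap C.val := by
    ext x
    rw [mem_restrict]
    rfl
  have h6 := finrank_comap (A := K) C.val
  rw [← h5, fieldRange_val] at h6
  rw [← h4, ← h3, h6]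

end

theorem desc : S_DESC.{u} := by
  intro F Ω _ _ _ E K G n hEK hG hfin hbot hpos hle
  have h1 := relfinrank_sup_eq K G hbot
  obtain ⟨h2, h3⟩ := relfinrank_sup_le E G
  have h4 := relfinrank_mul_relfinrank hEK (le_sup_left : K ≤ K ⊔ G)
  have h5 := relfinrank_mul_relfinrank (le_sup_left : E ≤ E ⊔ G)
    (sup_le_sup_right hEK G : E ⊔ G ≤ K ⊔ G)
  rw [h1] at h4
  have h6 : relfinrank E K * finrank F G =
      relfinrank E (E ⊔ G) * relfinrank (E ⊔ G) (K ⊔ G) := by rw [h4, h5]
  have hd : 0 < finrank F G := finrank_pos
  constructor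
  · have : 0 < relfinrank E K * finrank F G := by
      rw [h6]; exact Nat.mul_pos h2 hpos
    rcases Nat.eq_zero_or_pos (relfinrank E K) with h0 | h0
    · rw [h0, zero_mul] at this; exact absurd this (lt_irrefl _)
    · exact h0
  · have : relfinrank E K * finrank F G ≤ n * finrank F G := by
      rw [h6, mul_comm n]
      exact Nat.mul_le_mul h3 hle
    exact Nat.le_of_mul_le_mul_right this hd

end Pool.Agent.Helper95K9.IR.Desc
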