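import Pool.Agent.Helper95K9.IR.Tool

/-!
Degree of irrationality of del Pezzo surfaces: products of two conics, lower bounds.
-/

set_option autoImplicit false

namespace Pool.Agent.Helper95K9.IR.EightA

open MvPolynomial

universe u

section
variable {F : Type u} [Field F]

/-- the form of a conic -/
noncomputable def cform (a β : F) : MvPolynomial (Fin 3) F :=
  X 0 ^ 2 + X 0 * X 1 + C a * X 1 ^ 2 - C β * X 2 ^ 2

theorem cform_hom (a β : F) : (cform a β).IsHomogeneous 2 := by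
  unfold cform
  have h (i : Fin 3) : (X i : MvPolynomial (Fin 3) F).IsHomogeneous 1 := isHomogeneous_X F i
  have h2 (i : Fin 3) : ((X i : MvPolynomial (Fin 3) F) ^ 2).IsHomogeneous 2 := by
    simpa using (h i).pow 2
  have h3 : ((X 0 : MvPolynomial (Fin 3) F) * X 1).IsHomogeneous 2 := (h 0).mul (h 1)
  have h4 (c : F) (i : Fin 3) : (C c * (X i : MvPolynomial (Fin 3) F) ^ 2).IsHomogeneous 2 := by
    simpa using (isHomogeneous_C (Fin 3) c).mul (h2 i)
  exact (((h2 0).add h3).add (h4 a 1)).sub (h4 β 2)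

theorem cform_aeval (a β : F) (R : Type u) [CommRing R] [Algebra F R] (p : Fin 3 → R) :
    aeval p (cform a β) = p 0 ^ 2 + p 0 * p 1 + algebraMap F R a * p 1 ^ 2 -
      algebraMap F R β * p 2 ^ 2 := by
  unfold cform
  simp only [map_sub, map_add, map_mul, map_pow, aeval_X, aeval_C]

theorem conicPt_iff (a β : F) (κ : Type u) [Field κ] [Algebra F κ] :
    ConicPt a β κ ↔ ∃ p : Fin 3 → κ, p ≠ 0 ∧ aeval p (cform a β) = 0 := by
  constructor
  · rintro ⟨x, y, z, h0, h⟩
    refine ⟨![x, y, z], ?_, ?_⟩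
    · intro h1
      apply h0
      refine ⟨congrFun h1 0, congrFun h1 1, congrFun h1 2⟩
    · rw [cform_aeval]
      show x ^ 2 + x * y + algebraMap F κ a * y ^ 2 - algebraMap F κ β * z ^ 2 = 0
      rw [h, sub_self]
  · rintro ⟨p, h0, h⟩
    refine ⟨p 0, p 1, p 2, ?_, ?_⟩
    · rintro ⟨h1, h2, h3⟩
      apply h0
      funext i
      fin_cases i
      · exact h1
      · exact h2
      · exact h3
    · rw [cform_aeval] at h
      exact sub_eq_zero.1 h

/-- points and homomorphisms -/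
theorem conicPt_map {a β : F} {κ κ' : Type u} [Field κ] [Algebra F κ] [Field κ'] [Algebra F κ']
    (φ : κ →ₐ[F] κ') (h : ConicPt a β κ) : ConicPt a β κ' := by
  obtain ⟨x, y, z, h0, h⟩ := h
  refine ⟨φ x, φ y, φ z, ?_, ?_⟩
  · rintro ⟨h1, h2, h3⟩
    exact h0 ⟨(map_eq_zero φ).1 h1, (map_eq_zero φ).1 h2, (map_eq_zero φ).1 h3⟩
  · have := congrArg φ h
    simpa only [map_add, map_mul, map_pow, AlgHom.commutes] using this

/-- the surface has points over the residue field -/
theorem pts_of_PL (hPL : S_PL.{u}) {K : Type u} [Field K] [Algebra F K] {a β a' β' : F}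
    (hK : IsFF8a a β a' β' K) {n : ℕ} (hn : HasDeg F K n) :
    ∃ κ : IntermediateField F (AlgebraicClosure F),
      0 < Module.finrank F κ ∧ Module.finrank F κ ≤ n ∧ ConicPt a β κ ∧ ConicPt a' β' κ := by
  obtain ⟨κ, h0, h1, hp⟩ := hPL F K n hn
  obtain ⟨_, x, y, x', y', hx, hx', _⟩ := hK
  have key : ∀ (a β : F) (x y : K),
      x ^ 2 + x * y + algebraMap F K a * y ^ 2 = algebraMap F K β → ConicPt a β κ := by
    intro a β x y h
    rw [conicPt_iff]
    obtain ⟨p, hp0, hp1⟩ := hp 3 ![x, y, 1] (by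
      intro h2
      exact one_ne_zero (congrFun h2 2))
    refine ⟨p, hp0, hp1 2 _ (cform_hom a β) ?_⟩
    rw [cform_aeval]
    show x ^ 2 + x * y + algebraMap F K a * y ^ 2 - algebraMap F K β * 1 ^ 2 = 0
    rw [h]
    ring
  exact ⟨κ, h0, h1, key a β x y hx, key a' β' x' y' hx'⟩

end

/-- [8aL1] -/
theorem aL1 (hPL : S_PL.{u}) : S_8aL1.{u} := by
  intro F K _ _ _ a β a' β' hK hn
  obtain ⟨κ, h0, h1, h2, h3⟩ := pts_of_PL hPL hK hn
  have hb : κ = ⊥ := by
    rw [← IntermediateField.finrank_eq_one_iff]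
    omega
  subst hb
  exact ⟨conicPt_map (IntermediateField.botEquiv F (AlgebraicClosure F)).toAlgHom h2,
    conicPt_map (IntermediateField.botEquiv F (AlgebraicClosure F)).toAlgHom h3⟩

/-- [8aL] -/
theorem aL (hPL : S_PL.{u}) (hC : S_CUB.{u}) : S_8aL.{u} := by
  intro F K _ _ _ a β a' β' hK n hn hn3
  obtain ⟨κ, h0, h1, h2, h3⟩ := pts_of_PL hPL hK hn
  by_cases h : Module.finrank F κ = 3
  · have key : ∀ a β : F, ConicPt a β κ → ConicPt a β F := by
      intro a β hp
      rw [conicPt_iff] at hp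
      obtain ⟨p, hp0, hp⟩ := hp
      obtain ⟨q, hq0, hq, _⟩ := hC F κ h 3 (cform a β) (cform a β) (cform_hom a β) (cform_hom a β)
        p hp0 hp hp
      rw [conicPt_iff]
      exact ⟨q, hq0, hq⟩
    refine ⟨⊥, Or.inl IntermediateField.finrank_bot, ?_, ?_⟩
    · exact conicPt_map (Algebra.ofId F _) (key a β h2)
    · exact conicPt_map (Algebra.ofId F _) (key a' β' h3)
  · exact ⟨κ, by omega, h2, h3⟩

/-- [8aU4] -/
theorem aU4 (hUB : S_UB.{u}) (hBZ : S_BZ22.{u}) : S_8aU4.{u} := by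
  intro F K _ _ _ a β a' β' hK
  obtain ⟨hs, x, y, x', y', hx, hx', htop⟩ := hK
  obtain ⟨E, hE⟩ : ∃ E : IntermediateField F K, E = IntermediateField.adjoin F ({y, y'} : Set K) :=
    ⟨_, rfl⟩
  have hy : y ∈ E := by
    rw [hE]
    exact IntermediateField.subset_adjoin _ _ (by simp)
  have hy' : y' ∈ E := by
    rw [hE]
    exact IntermediateField.subset_adjoin _ _ (by simp)
  have h1 := hBZ E K x x' 1 0 0 ⟨y, hy⟩ 0 (algebraMap F E a * ⟨y, hy⟩ ^ 2 - algebraMap F E β)
    0 0 1 0 ⟨y', hy'⟩ (algebraMap F E a' * ⟨y', hy'⟩ ^ 2 - algebraMap F E β') ?_ ?_ ?_ ?_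
  · exact Tool.hasDeg_of hUB hs y y' 4 (by rw [← hE]; exact h1.1) (by rw [← hE]; exact h1.2)
  · refine Tool.adjoin_top E _ _ htop ?_
    intro z hz
    simp only [Set.mem_insert_iff, Set.mem_singleton_iff] at hz
    rcases hz with rfl | rfl | rfl | rfl
    · exact IntermediateField.subset_adjoin _ _ (by simp)
    · exact Tool.mem_base E _ _ hy
    · exact IntermediateField.subset_adjoin _ _ (by simp)
    · exact Tool.mem_base E _ _ hy'
  · have e1 : algebraMap E K (⟨y, hy⟩ : E) = y := rfl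
    have e2 : algebraMap E K (algebraMap F E a * (⟨y, hy⟩ : E) ^ 2 - algebraMap F E β) =
        algebraMap F K a * y ^ 2 - algebraMap F K β := rfl
    rw [e1, e2, map_one, map_zero]
    linear_combination hx
  · have e1 : algebraMap E K (⟨y', hy'⟩ : E) = y' := rfl
    have e2 : algebraMap E K (algebraMap F E a' * (⟨y', hy'⟩ : E) ^ 2 - algebraMap F E β') =
        algebraMap F K a' * y' ^ 2 - algebraMap F K β' := rfl
    rw [e1, e2, map_one, map_zero]
    linear_combination hx'
  · simp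

end Pool.Agent.Helper95K9.IR.EightA
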