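import Pool.Agent.Helper95K9.IR.Stm

/-!
Degree of irrationality of del Pezzo surfaces: small tools.
-/

set_option autoImplicit false

namespace Pool.Agent.Helper95K9.IR.Tool

open MvPolynomial

universe u

/-- A field generated by a root of a nonzero polynomial of degree at most `m`. -/
theorem finrank_le {E K : Type u} [Field E] [Field K] [Algebra E K] (w : K)
    (hw : IntermediateField.adjoin E ({w} : Set K) = ⊤) (p : Polynomial E) (hp : p ≠ 0)
    (m : ℕ) (hm : p.natDegree ≤ m) (h : Polynomial.aeval w p = 0) :
    0 < Module.finrank E K ∧ Module.finrank E K ≤ m := by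
  have halg : IsAlgebraic E w := ⟨p, hp, h⟩
  have hint : IsIntegral E w := halg.isIntegral
  have h1 : Module.finrank E (IntermediateField.adjoin E ({w} : Set K)) = (minpoly E w).natDegree :=
    IntermediateField.adjoin.finrank hint
  have h2 : Module.finrank E K = (minpoly E w).natDegree := by
    rw [← h1, hw]
    exact (LinearEquiv.finrank_eq (IntermediateField.topEquiv (F := E) (E := K)).toLinearEquiv).symm
  rw [h2]
  refine ⟨minpoly.natDegree_pos hint, le_trans ?_ hm⟩
  exact Polynomial.natDegree_le_of_dvd (minpoly.dvd E w h) hp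

/-- Generators. -/
theorem adjoin_top {F K : Type u} [Field F] [Field K] [Algebra F K] (E : IntermediateField F K)
    (T S : Set K) (hS : IntermediateField.adjoin F S = ⊤)
    (h : ∀ x ∈ S, x ∈ IntermediateField.adjoin E T) :
    IntermediateField.adjoin E T = ⊤ := by
  have h1 : IntermediateField.adjoin F S ≤ (IntermediateField.adjoin E T).restrictScalars F := by
    rw [IntermediateField.adjoin_le_iff]
    intro x hx
    exact h x hx
  rw [hS] at h1
  rw [eq_top_iff]
  intro x _
  exact h1 (IntermediateField.mem_top (x := x))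

/-- Elements of the base field `E` lie in `E(T)`. -/
theorem mem_base {F K : Type u} [Field F] [Field K] [Algebra F K] (E : IntermediateField F K)
    (T : Set K) (x : K) (hx : x ∈ E) : x ∈ IntermediateField.adjoin E T :=
  (IntermediateField.adjoin E T).algebraMap_mem (⟨x, hx⟩ : E)

/-- A linear form with coefficients `c`. -/
noncomputable def lin {F : Type u} [Field F] {N : ℕ} (c : Fin N → F) : MvPolynomial (Fin N) F :=
  ∑ i, C (c i) * X i

theorem lin_hom {F : Type u} [Field F] {N : ℕ} (c : Fin N → F) : (lin c).IsHomogeneous 1 := by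
  unfold lin
  apply IsHomogeneous.sum
  intro i _
  simpa using (isHomogeneous_C (Fin N) (c i)).mul (isHomogeneous_X F i)

theorem lin_aeval {F K : Type u} [Field F] [Field K] [Algebra F K] {N : ℕ} (c : Fin N → F)
    (P : Fin N → K) : aeval P (lin c) = ∑ i, algebraMap F K (c i) * P i := by
  unfold lin
  simp [map_sum]

theorem lin_ne {F : Type u} [Field F] {N : ℕ} (c : Fin N → F) (hc : c ≠ 0) : lin c ≠ 0 := by
  intro h
  apply hc
  funext i
  have h1 := congrArg (fun g => eval (Pi.single i (1 : F)) g) h
  simpa [lin, Pi.single_apply] using h1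

/-- Elements of an ideal generated by forms of degree `m` have no terms of degree
less than `m`. -/
theorem coeff_of_mem {F : Type u} [Field F] {N r : ℕ} (f : Fin r → MvPolynomial (Fin N) F)
    (m : ℕ) (hf : ∀ j, (f j).IsHomogeneous m) (g : MvPolynomial (Fin N) F)
    (hg : g ∈ Ideal.span (Set.range f)) : ∀ d : Fin N →₀ ℕ, d.degree < m → coeff d g = 0 := by
  classical
  induction hg using Submodule.span_induction with
  | mem x hx =>
    intro d hd
    obtain ⟨j, rfl⟩ := hx
    exact (hf j).coeff_eq_zero (by omega)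
  | zero => simp
  | add x y _ _ hx hy =>
    intro d hd
    rw [coeff_add, hx d hd, hy d hd, add_zero]
  | smul a x _ hx =>
    intro d hd
    rw [smul_eq_mul, coeff_mul]
    apply Finset.sum_eq_zero
    intro e he
    rw [Finset.HasAntidiagonal.mem_antidiagonal] at he
    have h1 : e.2.degree < m := by
      have : d.degree = e.1.degree + e.2.degree := by rw [← he, map_add]
      omega
    rw [hx e.2 h1, mul_zero]

/-- A nonzero form of degree less than `m` does not vanish at the generic point. -/
theorem ne_zero_of_lt {F K : Type u} [Field F] [Field K] [Algebra F K] {N r : ℕ}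
    (f : Fin r → MvPolynomial (Fin N) F) (m : ℕ) (hf : ∀ j, (f j).IsHomogeneous m)
    (P : Fin N → K)
    (hP : ∀ (d : ℕ) (g : MvPolynomial (Fin N) F), g.IsHomogeneous d →
      (aeval P g = 0 ↔ g ∈ Ideal.span (Set.range f)))
    (d : ℕ) (hd : d < m) (g : MvPolynomial (Fin N) F) (hg : g.IsHomogeneous d) (hg0 : g ≠ 0) :
    aeval P g ≠ 0 := by
  intro h
  have h1 := (hP d g hg).1 h
  apply hg0
  ext e
  rw [coeff_zero]
  by_cases he : e.degree = d
  · exact coeff_of_mem f m hf g h1 e (by omega)
  · exact hg.coeff_eq_zero he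

/-- No nontrivial linear relation over `F` holds at the generic point. -/
theorem lin_ne_zero {F K : Type u} [Field F] [Field K] [Algebra F K] {N r : ℕ}
    (f : Fin r → MvPolynomial (Fin N) F) (m : ℕ) (hm : 1 < m) (hf : ∀ j, (f j).IsHomogeneous m)
    (P : Fin N → K)
    (hP : ∀ (d : ℕ) (g : MvPolynomial (Fin N) F), g.IsHomogeneous d →
      (aeval P g = 0 ↔ g ∈ Ideal.span (Set.range f)))
    (c : Fin N → F) (hc : c ≠ 0) : ∑ i, algebraMap F K (c i) * P i ≠ 0 := by
  rw [← lin_aeval]
  exact ne_zero_of_lt f m hf P hP 1 hm (lin c) (lin_hom c) (lin_ne c hc)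

/-- Scaling. -/
theorem aeval_scale {F K : Type u} [Field F] [CommRing K] [Algebra F K] {N : ℕ} {n : ℕ}
    {g : MvPolynomial (Fin N) F} (hg : g.IsHomogeneous n) (c : K) (P : Fin N → K) :
    aeval (fun i => c * P i) g = c ^ n * aeval P g := by
  rw [aeval_def, aeval_def, eval₂_eq', eval₂_eq', Finset.mul_sum]
  apply Finset.sum_congr rfl
  intro d hd
  have h1 : d.degree = n := by
    by_contra h
    exact (mem_support_iff.1 hd) (hg.coeff_eq_zero h)
  have h2 : ∑ i, d i = n := by
    rw [← h1, Finsupp.degree_eq_sum]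
  simp only [mul_pow, Finset.prod_mul_distrib, Finset.prod_pow_eq_pow_sum, h2]
  ring

/-- `HasDeg` from a bound on the degree. -/
theorem hasDeg_of (hUB : S_UB.{u}) {F K : Type u} [Field F] [Field K] [Algebra F K]
    (hK : IsSurfaceField F K) (s t : K) (m : ℕ)
    (h0 : 0 < Module.finrank (IntermediateField.adjoin F ({s, t} : Set K)) K)
    (hm : Module.finrank (IntermediateField.adjoin F ({s, t} : Set K)) K ≤ m) :
    ∃ n, n ≤ m ∧ HasDeg F K n :=
  ⟨_, hm, hUB F K hK.1 s t h0⟩

end Pool.Agent.Helper95K9.IR.Tool
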