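import Pool.Agent.Helper95K9.IR.Stm
import Pool.Agent.Helper95K9.IR.Tool
import Pool.Agent.Helper95K9.IR.Cub

/-!
MP_577596_ag, the common step of [4U2], [8aU2], [8bU2].
-/

set_option autoImplicit false

namespace Pool.Agent.Helper95K9.IR.Step

open MvPolynomial Pool.Agent.Helper95K9.IR.Cub

universe u

section Bil

variable {k : Type u} [Field k] {N : ℕ} (M : Fin N → Fin N → k)

/-- Compatibility of the bilinear form with extensions. -/
theorem B_map' {A A' : Type u} [Field A] [Field A'] [Algebra k A] [Algebra k A'] [Algebra A A']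
    [IsScalarTower k A A'] (u v : Fin N → A) :
    B M (fun i => algebraMap A A' (u i)) (fun i => algebraMap A A' (v i)) =
      algebraMap A A' (B M u v) := by
  simp only [B, map_sum, map_mul, ← IsScalarTower.algebraMap_apply]

/-- The symmetrised form. -/
def S {A : Type u} [Field A] [Algebra k A] (u v : Fin N → A) : A := B M u v + B M v u

variable {A : Type u} [Field A] [Algebra k A]

theorem S_comm (u v : Fin N → A) : S M u v = S M v u := by
  unfold S; ring

theorem S_add_left (u u' v : Fin N → A) : S M (u + u') v = S M u v + S M u' v := by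
  unfold S; rw [B_add_left, B_add_right]; ring

theorem S_add_right (u v v' : Fin N → A) : S M u (v + v') = S M u v + S M u v' := by
  unfold S; rw [B_add_left, B_add_right]; ring

theorem S_smul_left (a : A) (u v : Fin N → A) : S M (a • u) v = a * S M u v := by
  unfold S; rw [B_smul_left, B_smul_right]; ring

theorem S_smul_right (a : A) (u v : Fin N → A) : S M u (a • v) = a * S M u v := by
  unfold S; rw [B_smul_left, B_smul_right]; ring

theorem S_map' {A' : Type u} [Field A'] [Algebra k A'] [Algebra A A']
    [IsScalarTower k A A'] (u v : Fin N → A) :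
    S M (fun i => algebraMap A A' (u i)) (fun i => algebraMap A A' (v i)) =
      algebraMap A A' (S M u v) := by
  simp only [S, B_map', map_add]

theorem B_add_self (u v : Fin N → A) :
    B M (u + v) (u + v) = B M u u + S M u v + B M v v := by
  unfold S; simp only [B_add_left, B_add_right]; ring

end Bil

/-- The common step: a conic through the generic point whose restriction to a line `U` is
`c (y ^ 2 - β x y - α x ^ 2)`, and a quadric which contains `U`. -/
theorem core (hUB : S_UB.{u}) (hYL : S_YL.{u}) {F K : Type u} [Field F] [Field K] [Algebra F K]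
    (hK : IsSurfaceField F K) (M M' : Fin 5 → Fin 5 → F) (P : Fin 5 → K)
    (hlin : ∀ c : Fin 5 → F, c ≠ 0 → ∑ i, algebraMap F K (c i) * P i ≠ 0)
    (hM : B M P P = 0) (hM' : B M' P P = 0)
    (hgen : IntermediateField.adjoin F {z : K | ∃ i j, z = P i / P j} = ⊤)
    (u₀ u₁ : Fin 5 → F) (hu : LinearIndependent F ![u₀, u₁]) (c α β : F) (hc : c ≠ 0)
    (h00 : B M u₀ u₀ = -(c * α)) (h01 : S M u₀ u₁ = -(c * β)) (h11 : B M u₁ u₁ = c)
    (h00' : B M' u₀ u₀ = 0) (h01' : S M' u₀ u₁ = 0) (h11' : B M' u₁ u₁ = 0)
    (hN : S M' (fun i => algebraMap F K (u₀ i)) P ^ 2 +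
      algebraMap F K β * S M' (fun i => algebraMap F K (u₀ i)) P *
        S M' (fun i => algebraMap F K (u₁ i)) P -
      algebraMap F K α * S M' (fun i => algebraMap F K (u₁ i)) P ^ 2 ≠ 0) :
    ∃ n, n ≤ 2 ∧ HasDeg F K n := by
  classical
  -- a basis
  obtain ⟨w₂, hw₂⟩ := exists_linearIndependent_snoc_of_lt_finrank hu (by simp)
  obtain ⟨w₃, hw₃⟩ := exists_linearIndependent_snoc_of_lt_finrank hw₂ (by simp)
  obtain ⟨w₄, hw₄⟩ := exists_linearIndependent_snoc_of_lt_finrank hw₃ (by simp)
  set v : Fin 5 → (Fin 5 → F) := Fin.snoc (Fin.snoc (Fin.snoc ![u₀, u₁] w₂) w₃) w₄ with hv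
  have hv0 : v 0 = u₀ := rfl
  have hv1 : v 1 = u₁ := rfl
  have hv2 : v 2 = w₂ := rfl
  have hv3 : v 3 = w₃ := rfl
  have hv4 : v 4 = w₄ := rfl
  let b := basisOfLinearIndependentOfCardEqFinrank hw₄ (by simp)
  have hb : ∀ k, b k = v k := fun k => by
    simp only [b, coe_basisOfLinearIndependentOfCardEqFinrank]
  let a : Fin 5 → Fin 5 → F := fun k i => b.coord k (Pi.single i 1)
  have ha : ∀ i j : Fin 5, ∑ k, a k j * v k i = (Pi.single j (1 : F) : Fin 5 → F) i := by
    intro i j
    have h1 := b.sum_repr (Pi.single j (1 : F))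
    have h2 := congrFun h1 i
    rw [Finset.sum_apply] at h2
    rw [← h2]
    refine Finset.sum_congr rfl fun k _ => ?_
    rw [hb]
    simp [a, Module.Basis.coord_apply]
  let x : Fin 5 → K := fun k => ∑ i, algebraMap F K (a k i) * P i
  have hP : ∀ i, P i = ∑ k, x k * algebraMap F K (v k i) := by
    intro i
    simp only [x, Finset.sum_mul]
    rw [Finset.sum_comm]
    have : ∀ j, ∑ k, algebraMap F K (a k j) * P j * algebraMap F K (v k i) =
        algebraMap F K ((Pi.single j (1 : F) : Fin 5 → F) i) * P j := by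
      intro j
      rw [← ha i j, map_sum, Finset.sum_mul]
      refine Finset.sum_congr rfl fun k _ => ?_
      rw [map_mul]; ring
    simp only [this]
    rw [Finset.sum_eq_single i]
    · simp
    · intro j _ hj
      simp [Ne.symm hj]
    · intro h; exact absurd (Finset.mem_univ _) h
  have hx2 : x 2 ≠ 0 := by
    apply hlin
    intro h0
    have h1 : b.coord 2 = 0 := by
      apply (Pi.basisFun F (Fin 5)).ext
      intro i
      have := congrFun h0 i
      simpa [a] using this
    have h2 : b.coord 2 (b 2) = 1 := by simp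
    rw [h1] at h2
    simp at h2
  -- the field `E`
  set s := x 3 / x 2 with hs
  set t := x 4 / x 2 with ht
  set X := x 0 / x 2 with hX
  set Y := x 1 / x 2 with hY
  set E := IntermediateField.adjoin F ({s, t} : Set K) with hE
  have hsE : s ∈ E := IntermediateField.subset_adjoin F _ (by simp)
  have htE : t ∈ E := IntermediateField.subset_adjoin F _ (by simp)
  let R : Fin 5 → E := fun i => algebraMap F E (w₂ i) + ⟨s, hsE⟩ * algebraMap F E (w₃ i) +
    ⟨t, htE⟩ * algebraMap F E (w₄ i)
  let U₀ : Fin 5 → E := fun i => algebraMap F E (u₀ i)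
  let U₁ : Fin 5 → E := fun i => algebraMap F E (u₁ i)
  have hcoe : ∀ z : F, algebraMap E K (algebraMap F E z) = algebraMap F K z := fun z =>
    (IsScalarTower.algebraMap_apply F E K z).symm
  have hP' : P = x 2 • (X • (fun i => algebraMap E K (U₀ i)) +
      Y • (fun i => algebraMap E K (U₁ i)) + fun i => algebraMap E K (R i)) := by
    funext i
    rw [hP i]
    simp only [Fin.sum_univ_five, Pi.smul_apply, Pi.add_apply, smul_eq_mul, hv0, hv1, hv2, hv3,
      hv4, U₀, U₁, R, map_add, map_mul, hcoe]
    have e1 : algebraMap E K ⟨s, hsE⟩ = s := rfl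
    have e2 : algebraMap E K ⟨t, htE⟩ = t := rfl
    rw [e1, e2, hs, ht, hX, hY]
    field_simp
    ring
  -- the quadratic equation of a form
  have hquad : ∀ Q : Fin 5 → Fin 5 → F, B Q P P = 0 →
      algebraMap E K (B Q U₀ U₀) * X ^ 2 + algebraMap E K (S Q U₀ U₁) * X * Y +
        algebraMap E K (B Q U₁ U₁) * Y ^ 2 + algebraMap E K (S Q U₀ R) * X +
        algebraMap E K (S Q U₁ R) * Y + algebraMap E K (B Q R R) = 0 := by
    intro Q hQ
    rw [hP', B_smul_left, B_smul_right] at hQ
    have h1 : ∀ p q : K, x 2 * (x 2 * p) = 0 → p = 0 := by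
      intro p _ h
      rcases mul_eq_zero.1 h with h | h
      · exact absurd h hx2
      · rcases mul_eq_zero.1 h with h | h
        · exact absurd h hx2
        · exact h
    have h2 := h1 _ 0 hQ
    rw [← h2, ← S_map', ← S_map', ← S_map', ← B_map', ← B_map', ← B_map']
    simp only [S, B_add_left, B_add_right, B_smul_left, B_smul_right]
    ring
  have hB : ∀ (Q : Fin 5 → Fin 5 → F) (p q : Fin 5 → F),
      B Q (fun i => algebraMap F E (p i)) (fun i => algebraMap F E (q i)) =
        algebraMap F E (B Q p q) := fun Q p q => B_map Q p q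
  have hS : ∀ (Q : Fin 5 → Fin 5 → F) (p q : Fin 5 → F),
      S Q (fun i => algebraMap F E (p i)) (fun i => algebraMap F E (q i)) =
        algebraMap F E (S Q p q) := fun Q p q => by simp only [S, hB, map_add]
  have e00 : B M U₀ U₀ = algebraMap F E (-(c * α)) := by rw [hB, h00]
  have e01 : S M U₀ U₁ = algebraMap F E (-(c * β)) := by rw [hS, h01]
  have e11 : B M U₁ U₁ = algebraMap F E c := by rw [hB, h11]
  have e00' : B M' U₀ U₀ = 0 := by rw [hB, h00', map_zero]
  have e01' : S M' U₀ U₁ = 0 := by rw [hS, h01', map_zero]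
  have e11' : B M' U₁ U₁ = 0 := by rw [hB, h11', map_zero]
  have q1 := hquad M hM
  have q2 := hquad M' hM'
  rw [e00, e01, e11] at q1
  rw [e00', e01', e11'] at q2
  -- the coefficients of the line
  have hl : ∀ u : Fin 5 → F, S M' (fun i => algebraMap F K (u i)) P =
      x 2 * (X * algebraMap E K (S M' (fun i => algebraMap F E (u i)) U₀) +
        Y * algebraMap E K (S M' (fun i => algebraMap F E (u i)) U₁) +
        algebraMap E K (S M' (fun i => algebraMap F E (u i)) R)) := by
    intro u
    have e3 : (fun i => algebraMap F K (u i)) =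
        fun i => algebraMap E K ((fun i => algebraMap F E (u i)) i) := by
      funext i; exact (hcoe _).symm
    rw [e3, ← S_map' M' (A := E) (A' := K), ← S_map' M' (A := E) (A' := K),
      ← S_map' M' (A := E) (A' := K)]
    nth_rewrite 1 [hP']
    rw [S_smul_right, S_add_right, S_add_right, S_smul_right, S_smul_right]
  have e00'' : S M' U₀ U₀ = 0 := by unfold S; rw [e00']; ring
  have e11'' : S M' U₁ U₁ = 0 := by unfold S; rw [e11']; ring
  have hl₀ : S M' (fun i => algebraMap F K (u₀ i)) P = x 2 * algebraMap E K (S M' U₀ R) := by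
    rw [hl]
    change x 2 * (X * algebraMap E K (S M' U₀ U₀) + Y * algebraMap E K (S M' U₀ U₁) +
      algebraMap E K (S M' U₀ R)) = _
    rw [e00'', e01']; simp
  have hl₁ : S M' (fun i => algebraMap F K (u₁ i)) P = x 2 * algebraMap E K (S M' U₁ R) := by
    rw [hl]
    change x 2 * (X * algebraMap E K (S M' U₁ U₀) + Y * algebraMap E K (S M' U₁ U₁) +
      algebraMap E K (S M' U₁ R)) = _
    rw [e11'', S_comm M' U₁ U₀, e01']; simp
  have hadj : IntermediateField.adjoin E ({X, Y} : Set K) = ⊤ := by
    refine Tool.adjoin_top E _ _ hgen ?_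
    rintro z ⟨i, j, rfl⟩
    have hXm : X ∈ IntermediateField.adjoin E ({X, Y} : Set K) :=
      IntermediateField.subset_adjoin E _ (by simp)
    have hYm : Y ∈ IntermediateField.adjoin E ({X, Y} : Set K) :=
      IntermediateField.subset_adjoin E _ (by simp)
    have hm : ∀ i, X * algebraMap E K (U₀ i) + Y * algebraMap E K (U₁ i) +
        algebraMap E K (R i) ∈ IntermediateField.adjoin E ({X, Y} : Set K) := by
      intro i
      exact add_mem (add_mem (mul_mem hXm (IntermediateField.algebraMap_mem _ _))
        (mul_mem hYm (IntermediateField.algebraMap_mem _ _)))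
        (IntermediateField.algebraMap_mem _ _)
    have h1 : ∀ i, P i = x 2 * (X * algebraMap E K (U₀ i) + Y * algebraMap E K (U₁ i) +
        algebraMap E K (R i)) := by
      intro i
      exact congrFun hP' i
    rw [h1 i, h1 j, mul_div_mul_left _ _ hx2]
    exact div_mem (hm i) (hm j)
  have hN' : algebraMap F E (-(c * α)) * (S M' U₁ R) ^ 2 -
      algebraMap F E (-(c * β)) * (S M' U₀ R) * (S M' U₁ R) +
      algebraMap F E c * (S M' U₀ R) ^ 2 ≠ 0 := by
    intro h0
    apply hN
    rw [hl₀, hl₁]
    have h1 := congrArg (algebraMap E K) h0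
    simp only [map_add, map_sub, map_mul, map_pow, map_neg, hcoe, map_zero] at h1
    have hcK : algebraMap F K c ≠ 0 := by
      rwa [Ne, map_eq_zero_iff _ (algebraMap F K).injective]
    have h2 : algebraMap F K c * ((x 2 * algebraMap E K (S M' U₀ R)) ^ 2 +
        algebraMap F K β * (x 2 * algebraMap E K (S M' U₀ R)) *
          (x 2 * algebraMap E K (S M' U₁ R)) -
        algebraMap F K α * (x 2 * algebraMap E K (S M' U₁ R)) ^ 2) = 0 := by
      linear_combination (x 2) ^ 2 * h1
    rcases mul_eq_zero.1 h2 with h | h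
    · exact absurd h hcK
    · exact h
  have hfin := hYL E K X Y (S M' U₀ R) (S M' U₁ R) (B M' R R)
    (algebraMap F E (-(c * α))) (algebraMap F E (-(c * β))) (algebraMap F E c)
    (S M U₀ R) (S M U₁ R) (B M R R) hadj (by
      rw [map_zero] at q2
      linear_combination q2) q1 (by
      intro h0
      apply hN'
      linear_combination h0)
  exact Tool.hasDeg_of hUB hK s t 2 hfin.1 hfin.2

end Pool.Agent.Helper95K9.IR.Step
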