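import Pool.Agent.Helper95K9.IR.EightAU
import Pool.Agent.Helper95K9.IR.Step

/-!
Degree of irrationality of del Pezzo surfaces: products of two conics with a point of degree two.
-/

set_option autoImplicit false

namespace Pool.Agent.Helper95K9.IR.EightA

open MvPolynomial

universe u

section
variable {F K : Type u} [Field F] [Field K] [Algebra F K]

/-- affine points of a smooth conic -/
theorem affine_pt {a β : F} {κ : Type u} [Field κ] [Algebra F κ] (h4 : 1 - 4 * a ≠ 0)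
    (h : ConicPt a β κ) : ∃ x y : κ, x ^ 2 + x * y + algebraMap F κ a * y ^ 2 =
      algebraMap F κ β := by
  obtain ⟨p, q, r, hne, hpq⟩ := h
  by_cases hr : r = 0
  · have hq : q ≠ 0 := by
      rintro rfl
      rw [hr] at hpq
      have : p ^ 2 = 0 := by linear_combination hpq
      exact hne ⟨pow_eq_zero_iff (two_ne_zero) |>.1 this, rfl, hr⟩
    obtain ⟨ρ, hρ⟩ : ∃ ρ : κ, ρ = p / q := ⟨_, rfl⟩
    have hρ2 : ρ ^ 2 + ρ + algebraMap F κ a = 0 := by
      rw [hρ]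
      rw [hr] at hpq
      field_simp
      linear_combination hpq
    have h4κ : 1 - 4 * algebraMap F κ a ≠ 0 := by
      have e : 1 - 4 * algebraMap F κ a = algebraMap F κ (1 - 4 * a) := by
        simp only [map_sub, map_one, map_mul, map_ofNat]
      rw [e]
      exact (map_ne_zero _).2 h4
    have h2 : 1 + 2 * ρ ≠ 0 := by
      intro h0
      apply h4κ
      linear_combination (1 + 2 * ρ) * h0 - 4 * hρ2
    refine ⟨1 + ρ * ((algebraMap F κ β - 1) / (1 + 2 * ρ)), (algebraMap F κ β - 1) / (1 + 2 * ρ),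
      ?_⟩
    obtain ⟨w, hw⟩ : ∃ w, w = (algebraMap F κ β - 1) / (1 + 2 * ρ) := ⟨_, rfl⟩
    have hw2 : w * (1 + 2 * ρ) = algebraMap F κ β - 1 := by
      rw [hw, div_mul_cancel₀ _ h2]
    rw [← hw]
    linear_combination hw2 + w ^ 2 * hρ2
  · refine ⟨p / r, q / r, ?_⟩
    field_simp
    linear_combination hpq

/-- coordinates in a quadratic extension -/
theorem quad_basis {κ : Type u} [Field κ] [Algebra F κ] (h : Module.finrank F κ = 2) :
    ∃ (η : κ) (τ ν : F), (∀ z : κ, ∃ z₀ z₁ : F, z = algebraMap F κ z₀ + algebraMap F κ z₁ * η) ∧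
      (∀ z₀ z₁ : F, algebraMap F κ z₀ + algebraMap F κ z₁ * η = 0 → z₀ = 0 ∧ z₁ = 0) ∧
      η ^ 2 = algebraMap F κ τ * η - algebraMap F κ ν ∧ ∀ r : F, r ^ 2 - τ * r + ν ≠ 0 := by
  have hfd : FiniteDimensional F κ := FiniteDimensional.of_finrank_pos (by omega)
  obtain ⟨η, hη⟩ : ∃ η : κ, η ∉ (algebraMap F κ).range := by
    by_contra hcon
    push Not at hcon
    have h1 : (⊥ : Subalgebra F κ) = ⊤ := by
      rw [eq_top_iff]
      intro z _
      obtain ⟨c, hc⟩ := hcon z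
      exact ⟨c, hc⟩
    have h2 := Subalgebra.bot_eq_top_iff_finrank_eq_one.1 h1
    omega
  have hind : ∀ z₀ z₁ : F, algebraMap F κ z₀ + algebraMap F κ z₁ * η = 0 → z₀ = 0 ∧ z₁ = 0 := by
    intro z₀ z₁ hz
    by_cases h1 : z₁ = 0
    · rw [h1, map_zero, zero_mul, add_zero] at hz
      exact ⟨(map_eq_zero _).1 hz, h1⟩
    · exfalso
      apply hη
      refine ⟨-z₀ / z₁, ?_⟩
      have h2 : algebraMap F κ z₁ ≠ 0 := (map_ne_zero _).2 h1
      rw [map_div₀, map_neg, div_eq_iff h2]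
      linear_combination -hz
  have hli : LinearIndependent F ![(1 : κ), η] := by
    rw [LinearIndependent.pair_iff]
    intro s t hst
    apply hind s t
    rw [Algebra.smul_def, Algebra.smul_def, mul_one] at hst
    exact hst
  have hspan := hli.span_eq_top_of_card_eq_finrank (by rw [h]; rfl)
  have hall : ∀ z : κ, ∃ z₀ z₁ : F, z = algebraMap F κ z₀ + algebraMap F κ z₁ * η := by
    intro z
    have hz : z ∈ Submodule.span F (Set.range ![(1 : κ), η]) := by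
      rw [hspan]
      trivial
    rw [Matrix.range_cons, Matrix.range_cons, Matrix.range_empty, Set.union_empty,
      Set.singleton_union, Submodule.mem_span_pair] at hz
    obtain ⟨s, t, hst⟩ := hz
    refine ⟨s, t, ?_⟩
    rw [← hst, Algebra.smul_def, Algebra.smul_def, mul_one]
  obtain ⟨z₀, τ, hz⟩ := hall (η ^ 2)
  refine ⟨η, τ, -z₀, hall, hind, ?_, ?_⟩
  · rw [hz, map_neg]
    ring
  · intro r hr
    have h1 : (η - algebraMap F κ r) * (η - algebraMap F κ (τ - r)) = 0 := by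
      have h2 := congrArg (algebraMap F κ) hr
      simp only [map_add, map_sub, map_mul, map_pow, map_neg, map_zero] at h2
      rw [map_sub]
      linear_combination hz - h2
    rcases mul_eq_zero.1 h1 with h2 | h2
    · exact hη ⟨r, (sub_eq_zero.1 h2).symm⟩
    · exact hη ⟨τ - r, (sub_eq_zero.1 h2).symm⟩

/-- two conics with a common point of degree two -/
theorem Prd.two (hUB : S_UB.{u}) (hYL : S_YL.{u}) {a β a' β' : F} {x y x' y' : K}
    (h : Prd a β a' β' x y x' y')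
    (h4 : 1 - 4 * a ≠ 0) (hβ : β ≠ 0) (h4' : 1 - 4 * a' ≠ 0) (hβ' : β' ≠ 0)
    (x₀ y₀ x₀' y₀' x₁ y₁ x₁' y₁' c c' τ ν : F)
    (hc : c = x₁ ^ 2 + x₁ * y₁ + a * y₁ ^ 2) (hc' : c' = x₁' ^ 2 + x₁' * y₁' + a' * y₁' ^ 2)
    (hc0 : c ≠ 0) (hc0' : c' ≠ 0)
    (h00 : x₀ ^ 2 + x₀ * y₀ + a * y₀ ^ 2 - β = ν * c)
    (h00' : x₀' ^ 2 + x₀' * y₀' + a' * y₀' ^ 2 - β' = ν * c')
    (h01 : 2 * x₀ * x₁ + x₀ * y₁ + x₁ * y₀ + 2 * a * y₀ * y₁ = -τ * c)
    (h01' : 2 * x₀' * x₁' + x₀' * y₁' + x₁' * y₀' + 2 * a' * y₀' * y₁' = -τ * c')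
    (hirr : ∀ r : F, r ^ 2 - τ * r + ν ≠ 0) :
    ∃ n, n ≤ 2 ∧ HasDeg F K n := by
  obtain ⟨P, hP⟩ : ∃ P : Fin 5 → K, P = ![1, x, y, x', y'] := ⟨_, rfl⟩
  have hP0 : P 0 = 1 := by rw [hP]; rfl
  have hP1 : P 1 = x := by rw [hP]; rfl
  have hP2 : P 2 = y := by rw [hP]; rfl
  have hP3 : P 3 = x' := by rw [hP]; rfl
  have hP4 : P 4 = y' := by rw [hP]; rfl
  obtain ⟨M, hM⟩ : ∃ M : Fin 5 → Fin 5 → F, M = ![![-β, 0, 0, 0, 0], ![0, 1, 1, 0, 0],
    ![0, 0, a, 0, 0], ![0, 0, 0, 0, 0], ![0, 0, 0, 0, 0]] := ⟨_, rfl⟩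
  obtain ⟨M', hM'⟩ : ∃ M' : Fin 5 → Fin 5 → F, M' = ![![c * β' - c' * β, 0, 0, 0, 0],
    ![0, c', c', 0, 0], ![0, 0, c' * a, 0, 0], ![0, 0, 0, -c, -c], ![0, 0, 0, 0, -(c * a')]] :=
    ⟨_, rfl⟩
  have eB : ∀ {A : Type u} [Field A] [Algebra F A] (u v : Fin 5 → A), Cub.B M u v =
      -algebraMap F A β * u 0 * v 0 + u 1 * v 1 + u 1 * v 2 + algebraMap F A a * u 2 * v 2 := by
    intro A _ _ u v
    rw [hM]
    simp [Cub.B, Fin.sum_univ_five]
    ring
  have eB' : ∀ {A : Type u} [Field A] [Algebra F A] (u v : Fin 5 → A), Cub.B M' u v =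
      (algebraMap F A c * algebraMap F A β' - algebraMap F A c' * algebraMap F A β) * u 0 * v 0 +
      algebraMap F A c' * (u 1 * v 1 + u 1 * v 2 + algebraMap F A a * u 2 * v 2) -
      algebraMap F A c * (u 3 * v 3 + u 3 * v 4 + algebraMap F A a' * u 4 * v 4) := by
    intro A _ _ u v
    rw [hM']
    simp [Cub.B, Fin.sum_univ_five]
    ring
  have hlin : ∀ e : Fin 5 → F, e ≠ 0 → ∑ i, algebraMap F K (e i) * P i ≠ 0 := by
    intro e he h0
    rw [Fin.sum_univ_five, hP0, hP1, hP2, hP3, hP4, mul_one] at h0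
    obtain ⟨e1, e2, e3, e4⟩ := h.lin h4 hβ h4' hβ' h0
    rw [e1, e2, e3, e4] at h0
    simp only [map_zero, zero_mul, add_zero] at h0
    apply he
    funext i
    fin_cases i
    · exact (map_eq_zero _).1 h0
    · exact e1
    · exact e2
    · exact e3
    · exact e4
  have hxy1 : ¬ (x₁ = 0 ∧ y₁ = 0) := by
    rintro ⟨e1, e2⟩
    apply hc0
    rw [hc, e1, e2]
    ring
  have hl1 : Step.S M' (fun i => algebraMap F K ((![0, x₁, y₁, x₁', y₁'] : Fin 5 → F) i)) P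
      ≠ 0 := by
    intro h0
    have e : Step.S M' (fun i => algebraMap F K ((![0, x₁, y₁, x₁', y₁'] : Fin 5 → F) i)) P =
        ∑ i, algebraMap F K ((![0, c' * (2 * x₁ + y₁), c' * (x₁ + 2 * a * y₁),
          -(c * (2 * x₁' + y₁')), -(c * (x₁' + 2 * a' * y₁'))] : Fin 5 → F) i) * P i := by
      unfold Step.S
      rw [eB', eB', Fin.sum_univ_five]
      simp [map_ofNat (algebraMap F K) 2]
      ring
    rw [e] at h0
    refine hlin _ ?_ h0
    intro h1
    apply hxy1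
    have e1 : c' * (2 * x₁ + y₁) = 0 := congrFun h1 1
    have e2 : c' * (x₁ + 2 * a * y₁) = 0 := congrFun h1 2
    have e3 := (mul_eq_zero.1 e1).resolve_left hc0'
    have e4 := (mul_eq_zero.1 e2).resolve_left hc0'
    have e5 : (1 - 4 * a) * x₁ = 0 := by linear_combination e4 - 2 * a * e3
    have e6 := (mul_eq_zero.1 e5).resolve_left h4
    refine ⟨e6, ?_⟩
    rw [e6] at e3
    linear_combination e3
  refine Step.core hUB hYL h.hs M M' P hlin ?_ ?_ ?_ ![1, x₀, y₀, x₀', y₀']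
    ![0, x₁, y₁, x₁', y₁'] ?_ c (-ν) τ hc0 ?_ ?_ ?_ ?_ ?_ ?_ ?_
  · rw [eB, hP0, hP1, hP2]
    linear_combination h.e
  · rw [eB', hP0, hP1, hP2, hP3, hP4]
    linear_combination algebraMap F K c' * h.e - algebraMap F K c * h.e'
  · rw [eq_top_iff, ← h.top]
    apply IntermediateField.adjoin.mono
    intro z hz
    simp only [Set.mem_insert_iff, Set.mem_singleton_iff] at hz
    rcases hz with rfl | rfl | rfl | rfl
    · exact ⟨1, 0, by rw [hP0, hP1, div_one]⟩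
    · exact ⟨2, 0, by rw [hP0, hP2, div_one]⟩
    · exact ⟨3, 0, by rw [hP0, hP3, div_one]⟩
    · exact ⟨4, 0, by rw [hP0, hP4, div_one]⟩
  · rw [LinearIndependent.pair_iff]
    intro s t hst
    have s0 : s = 0 := by
      have := congrFun hst 0
      simpa using this
    refine ⟨s0, ?_⟩
    by_contra ht
    apply hxy1
    rw [s0, zero_smul, zero_add] at hst
    have t1 : t * x₁ = 0 := congrFun hst 1
    have t2 : t * y₁ = 0 := congrFun hst 2
    exact ⟨(mul_eq_zero.1 t1).resolve_left ht, (mul_eq_zero.1 t2).resolve_left ht⟩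
  · rw [eB]
    simp
    linear_combination h00
  · unfold Step.S
    rw [eB, eB]
    simp
    linear_combination h01
  · rw [eB, hc]
    simp
    ring
  · rw [eB']
    simp
    linear_combination c' * h00 - c * h00'
  · unfold Step.S
    rw [eB', eB']
    simp
    linear_combination c' * h01 - c * h01'
  · rw [eB']
    simp
    linear_combination -c' * hc + c * hc'
  · intro h0
    obtain ⟨l₀, hl₀⟩ : ∃ l, l = Step.S M'
      (fun i => algebraMap F K ((![1, x₀, y₀, x₀', y₀'] : Fin 5 → F) i)) P := ⟨_, rfl⟩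
    obtain ⟨l₁, hl₁⟩ : ∃ l, l = Step.S M'
      (fun i => algebraMap F K ((![0, x₁, y₁, x₁', y₁'] : Fin 5 → F) i)) P := ⟨_, rfl⟩
    rw [← hl₀, ← hl₁] at h0
    rw [← hl₁] at hl1
    have hr : (-l₀ / l₁) ^ 2 - algebraMap F K τ * (-l₀ / l₁) + algebraMap F K ν = 0 := by
      rw [map_neg] at h0
      field_simp
      linear_combination h0
    have halg : IsAlgebraic F (-l₀ / l₁) := by
      refine ⟨Polynomial.C 1 * Polynomial.X ^ 2 + Polynomial.C (-τ) * Polynomial.X +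
        Polynomial.C ν, ?_, ?_⟩
      · intro h1
        have := congrArg (fun p => Polynomial.coeff p 2) h1
        simp at this
      · simp only [map_add, map_mul, map_pow, Polynomial.aeval_C, Polynomial.aeval_X, map_one,
          map_neg]
        linear_combination hr
    obtain ⟨r, hr'⟩ := h.hs.2 _ halg
    rw [← hr'] at hr
    apply hirr r
    apply (algebraMap F K).injective
    rw [map_zero]
    simp only [map_add, map_sub, map_mul, map_pow]
    exact hr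

end

/-- [8aU2] -/
theorem aU2 (hUB : S_UB.{u}) (hYL : S_YL.{u}) : S_8aU2.{u} := by
  intro F K _ _ _ a β a' β' h4 hβ h4' hβ' hK hPt
  obtain ⟨hs, x, y, x', y', hx, hx', htop⟩ := hK
  have h : Prd a β a' β' x y x' y' := ⟨hs, hx, hx', htop⟩
  obtain ⟨κ, hκ, hp, hp'⟩ := hPt
  by_cases hF : ConicPt a β F
  · exact h.one_pt hUB h4 hβ h4' hβ' hF
  by_cases hF' : ConicPt a' β' F
  · exact h.swap.one_pt hUB h4' hβ' h4 hβ hF'
  rcases hκ with hκ | hκ
  · exfalso
    apply hF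
    have hb : κ = ⊥ := IntermediateField.finrank_eq_one_iff.1 hκ
    subst hb
    exact conicPt_map (IntermediateField.botEquiv F (AlgebraicClosure F)).toAlgHom hp
  obtain ⟨η, τ, ν, hall, hind, hη, hirr⟩ := quad_basis hκ
  have key : ∀ a β : F, 1 - 4 * a ≠ 0 → ConicPt a β κ → ¬ ConicPt a β F →
      ∃ x₀ y₀ x₁ y₁ c : F, c = x₁ ^ 2 + x₁ * y₁ + a * y₁ ^ 2 ∧ c ≠ 0 ∧
        x₀ ^ 2 + x₀ * y₀ + a * y₀ ^ 2 - β = ν * c ∧
        2 * x₀ * x₁ + x₀ * y₁ + x₁ * y₀ + 2 * a * y₀ * y₁ = -τ * c := by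
    intro a β h4 hp hF
    obtain ⟨X, Y, hXY⟩ := affine_pt h4 hp
    obtain ⟨x₀, x₁, rfl⟩ := hall X
    obtain ⟨y₀, y₁, rfl⟩ := hall Y
    obtain ⟨e0, e1⟩ := hind (x₀ ^ 2 + x₀ * y₀ + a * y₀ ^ 2 - β -
      ν * (x₁ ^ 2 + x₁ * y₁ + a * y₁ ^ 2)) (2 * x₀ * x₁ + x₀ * y₁ + x₁ * y₀ + 2 * a * y₀ * y₁ +
      τ * (x₁ ^ 2 + x₁ * y₁ + a * y₁ ^ 2)) (by
        simp only [map_add, map_sub, map_mul, map_pow, map_ofNat]
        linear_combination hXY - (algebraMap F κ x₁ ^ 2 + algebraMap F κ x₁ * algebraMap F κ y₁ +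
          algebraMap F κ a * algebraMap F κ y₁ ^ 2) * hη)
    refine ⟨x₀, y₀, x₁, y₁, _, rfl, ?_, by linear_combination e0, by linear_combination e1⟩
    intro h0
    apply hF
    refine ⟨x₀, y₀, 1, ?_, ?_⟩
    · rintro ⟨_, _, h1⟩
      exact one_ne_zero h1
    · rw [h0] at e0
      simp only [Algebra.algebraMap_self, RingHom.id_apply]
      linear_combination e0
  obtain ⟨x₀, y₀, x₁, y₁, c, hc, hc0, h00, h01⟩ := key a β h4 hp hF
  obtain ⟨x₀', y₀', x₁', y₁', c', hc', hc0', h00', h01'⟩ := key a' β' h4' hp' hF'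
  exact h.two hUB hYL h4 hβ h4' hβ' x₀ y₀ x₀' y₀' x₁ y₁ x₁' y₁' c c' τ ν hc hc' hc0 hc0'
    h00 h00' h01 h01' hirr

end Pool.Agent.Helper95K9.IR.EightA
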