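import Pool.Agent.Helper95K9.IR.EightAL

/-!
Degree of irrationality of del Pezzo surfaces: products of two conics, upper bounds.
-/

set_option autoImplicit false

namespace Pool.Agent.Helper95K9.IR.EightA

open MvPolynomial

universe u

section
variable {F K : Type u} [Field F] [Field K] [Algebra F K]

theorem mem_cl {S : Set K} {z : K} : z ∈ (AlgebraicIndependent.matroid F K).closure S ↔
    IsAlgebraic (IntermediateField.adjoin F S) z := by
  rw [AlgebraicIndependent.matroid_closure_eq, SetLike.mem_coe, Subalgebra.mem_algebraicClosure,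
    IntermediateField.isAlgebraic_adjoin_iff]

/-- the coordinates of a conic are algebraic over one of them -/
theorem alg_quad {a β : F} {x y : K} (h : x ^ 2 + x * y + algebraMap F K a * y ^ 2 =
    algebraMap F K β) (E : IntermediateField F K) (hy : y ∈ E) :
    ∃ p : Polynomial E, p ≠ 0 ∧ p.natDegree ≤ 2 ∧ Polynomial.aeval x p = 0 := by
  refine ⟨Polynomial.C 1 * Polynomial.X ^ 2 + Polynomial.C (⟨y, hy⟩ : E) * Polynomial.X +
    Polynomial.C (algebraMap F E a * ⟨y, hy⟩ ^ 2 - algebraMap F E β), ?_, ?_, ?_⟩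
  · intro h0
    have := congrArg (fun p => Polynomial.coeff p 2) h0
    simp at this
  · exact Polynomial.natDegree_quadratic_le
  · simp only [map_add, map_mul, map_pow, Polynomial.aeval_C, Polynomial.aeval_X]
    have e1 : algebraMap E K (⟨y, hy⟩ : E) = y := rfl
    have e2 : algebraMap E K (algebraMap F E a * (⟨y, hy⟩ : E) ^ 2 - algebraMap F E β) =
        algebraMap F K a * y ^ 2 - algebraMap F K β := rfl
    rw [e1, e2, map_one]
    linear_combination h

theorem tr_quad {y : K} (hy : Transcendental F y) {c₀ c₁ c₂ : F}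
    (h : algebraMap F K c₂ * y ^ 2 + algebraMap F K c₁ * y + algebraMap F K c₀ = 0) :
    c₂ = 0 ∧ c₁ = 0 ∧ c₀ = 0 := by
  have h1 : Polynomial.C c₂ * Polynomial.X ^ 2 + Polynomial.C c₁ * Polynomial.X +
      Polynomial.C c₀ = 0 := by
    by_contra h0
    exact hy ⟨_, h0, by simpa [map_add, map_mul, map_pow] using h⟩
  refine ⟨?_, ?_, ?_⟩
  · have := congrArg (fun p => Polynomial.coeff p 2) h1
    simpa [Polynomial.coeff_X, Polynomial.coeff_C] using this
  · have := congrArg (fun p => Polynomial.coeff p 1) h1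
    simpa [Polynomial.coeff_X, Polynomial.coeff_C] using this
  · have := congrArg (fun p => Polynomial.coeff p 0) h1
    simpa [Polynomial.coeff_X, Polynomial.coeff_C] using this

/-- a smooth conic is not a line -/
theorem no_line {a β : F} (h4 : 1 - 4 * a ≠ 0) (hβ : β ≠ 0) {x y : K}
    (h : x ^ 2 + x * y + algebraMap F K a * y ^ 2 = algebraMap F K β)
    (hy : Transcendental F y) {c₀ c₁ c₂ : F}
    (hl : algebraMap F K c₀ + algebraMap F K c₁ * x + algebraMap F K c₂ * y = 0) :
    c₁ = 0 ∧ c₂ = 0 := by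
  have e : algebraMap F K (c₂ ^ 2 - c₁ * c₂ + a * c₁ ^ 2) * y ^ 2 +
      algebraMap F K (2 * c₀ * c₂ - c₀ * c₁) * y + algebraMap F K (c₀ ^ 2 - β * c₁ ^ 2) = 0 := by
    simp only [map_add, map_sub, map_mul, map_pow, map_ofNat]
    linear_combination (algebraMap F K c₁) ^ 2 * h +
      (algebraMap F K c₀ + algebraMap F K c₂ * y - algebraMap F K c₁ * x -
        algebraMap F K c₁ * y) * hl
  obtain ⟨e2, e1, e0⟩ := tr_quad hy e
  by_cases h0 : c₀ = 0
  · have h1 : c₁ = 0 := by
      rw [h0] at e0
      have : β * c₁ ^ 2 = 0 := by linear_combination -e0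
      exact pow_eq_zero_iff (two_ne_zero) |>.1 ((mul_eq_zero.1 this).resolve_left hβ)
    refine ⟨h1, ?_⟩
    rw [h1] at e2
    have : c₂ ^ 2 = 0 := by linear_combination e2
    exact pow_eq_zero_iff (two_ne_zero) |>.1 this
  · exfalso
    have h1 : c₁ = 2 * c₂ := by
      have : c₀ * (2 * c₂ - c₁) = 0 := by linear_combination e1
      exact (sub_eq_zero.1 ((mul_eq_zero.1 this).resolve_left h0)).symm
    rw [h1] at e2 e0
    have h2 : (1 - 4 * a) * c₂ ^ 2 = 0 := by linear_combination -e2
    have h3 : c₂ = 0 := pow_eq_zero_iff (two_ne_zero) |>.1 ((mul_eq_zero.1 h2).resolve_left h4)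
    apply h0
    rw [h3] at e0
    have : c₀ ^ 2 = 0 := by linear_combination e0
    exact pow_eq_zero_iff (two_ne_zero) |>.1 this

/-- rational parametrisation of a smooth conic with a point -/
theorem par {a β : F} (h4 : 1 - 4 * a ≠ 0) (hβ : β ≠ 0) {x y : K}
    (h : x ^ 2 + x * y + algebraMap F K a * y ^ 2 = algebraMap F K β)
    (hnl : ∀ c₀ c₁ c₂ : F, algebraMap F K c₀ + algebraMap F K c₁ * x + algebraMap F K c₂ * y = 0 →
      c₁ = 0 ∧ c₂ = 0)
    (hP : ConicPt a β F) :
    ∃ t : K, x ∈ IntermediateField.adjoin F {t} ∧ y ∈ IntermediateField.adjoin F {t} := by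
  obtain ⟨p, q, r, hne, hpq⟩ := hP
  simp only [Algebra.algebraMap_self, RingHom.id_apply] at hpq
  have hF : ∀ (c : F) (t : K), algebraMap F K c ∈ IntermediateField.adjoin F {t} := fun c t =>
    IntermediateField.algebraMap_mem _ c
  by_cases hr : r = 0
  · -- a point at infinity
    have hq : q ≠ 0 := by
      rintro rfl
      rw [hr] at hpq
      have : p ^ 2 = 0 := by linear_combination hpq
      exact hne ⟨pow_eq_zero_iff (two_ne_zero) |>.1 this, rfl, hr⟩
    obtain ⟨ρ, hρ⟩ : ∃ ρ : F, ρ = p / q := ⟨_, rfl⟩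
    have hρ2 : ρ ^ 2 + ρ + a = 0 := by
      rw [hρ]
      rw [hr] at hpq
      field_simp
      linear_combination hpq
    have h2 : 1 + 2 * ρ ≠ 0 := by
      intro h0
      apply h4
      linear_combination (1 + 2 * ρ) * h0 - 4 * hρ2
    have hρK : (algebraMap F K ρ) ^ 2 + algebraMap F K ρ + algebraMap F K a = 0 := by
      rw [← map_pow, ← map_add, ← map_add, hρ2, map_zero]
    have h2K : 1 + 2 * algebraMap F K ρ ≠ 0 := by
      have e : 1 + 2 * algebraMap F K ρ = algebraMap F K (1 + 2 * ρ) := by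
        simp only [map_add, map_one, map_mul, map_ofNat]
      rw [e]
      exact (map_ne_zero _).2 h2
    obtain ⟨t, ht⟩ : ∃ t : K, t = x - algebraMap F K ρ * y := ⟨_, rfl⟩
    have hprod : t * (x + (1 + algebraMap F K ρ) * y) = algebraMap F K β := by
      rw [ht, ← h]
      linear_combination -y ^ 2 * hρK
    have ht0 : t ≠ 0 := by
      rintro h0
      rw [h0, zero_mul] at hprod
      exact (map_ne_zero (algebraMap F K)).2 hβ hprod.symm
    have hy : y = (algebraMap F K β / t - t) / (1 + 2 * algebraMap F K ρ) := by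
      rw [eq_div_iff h2K, ← hprod, mul_div_cancel_left₀ _ ht0, ht]
      ring
    have htm : t ∈ IntermediateField.adjoin F {t} := IntermediateField.mem_adjoin_simple_self F t
    have hym : y ∈ IntermediateField.adjoin F {t} := by
      rw [hy]
      refine div_mem (sub_mem (div_mem (hF β t) htm) htm) ?_
      exact add_mem (one_mem _) (mul_mem (ofNat_mem _ 2) (hF ρ t))
    refine ⟨t, ?_, hym⟩
    have hx : x = t + algebraMap F K ρ * y := by rw [ht]; ring
    rw [hx]
    exact add_mem htm (mul_mem (hF ρ t) hym)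
  · -- an affine point
    obtain ⟨x₀, hx₀⟩ : ∃ x₀ : F, x₀ = p / r := ⟨_, rfl⟩
    obtain ⟨y₀, hy₀⟩ : ∃ y₀ : F, y₀ = q / r := ⟨_, rfl⟩
    have h00 : x₀ ^ 2 + x₀ * y₀ + a * y₀ ^ 2 = β := by
      rw [hx₀, hy₀]
      field_simp
      linear_combination hpq
    have h00K : (algebraMap F K x₀) ^ 2 + algebraMap F K x₀ * algebraMap F K y₀ +
        algebraMap F K a * (algebraMap F K y₀) ^ 2 = algebraMap F K β := by
      rw [← h00]
      simp only [map_add, map_mul, map_pow]
    obtain ⟨s, hs⟩ : ∃ s : K, s = x - algebraMap F K x₀ := ⟨_, rfl⟩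
    have hs0 : s ≠ 0 := by
      intro h0
      have := (hnl (-x₀) 1 0 (by
        rw [map_neg, map_one, map_zero]
        linear_combination h0 - hs)).1
      exact one_ne_zero this
    obtain ⟨t, ht⟩ : ∃ t : K, t = (y - algebraMap F K y₀) / s := ⟨_, rfl⟩
    have hy : y = algebraMap F K y₀ + t * s := by
      rw [ht, div_mul_cancel₀ _ hs0]
      ring
    have hx : x = algebraMap F K x₀ + s := by rw [hs]; ring
    obtain ⟨A, hA⟩ : ∃ A : K, A = 2 * algebraMap F K x₀ + algebraMap F K y₀ +
      t * (algebraMap F K x₀ + 2 * algebraMap F K a * algebraMap F K y₀) := ⟨_, rfl⟩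
    obtain ⟨D, hD⟩ : ∃ D : K, D = 1 + t + algebraMap F K a * t ^ 2 := ⟨_, rfl⟩
    have hrel : A + s * D = 0 := by
      have : s * (A + s * D) = 0 := by
        rw [hA, hD]
        rw [hx, hy] at h
        linear_combination h - h00K
      exact (mul_eq_zero.1 this).resolve_left hs0
    have hD0 : D ≠ 0 := by
      intro h0
      have hA0 : A = 0 := by
        rw [h0, mul_zero, add_zero] at hrel
        exact hrel
      have h1 := hnl (-((2 * x₀ + y₀) * x₀ + (x₀ + 2 * a * y₀) * y₀)) (2 * x₀ + y₀)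
        (x₀ + 2 * a * y₀) (by
          simp only [map_add, map_neg, map_mul, map_ofNat]
          rw [hx, hy]
          rw [hA] at hA0
          linear_combination s * hA0)
      obtain ⟨e1, e2⟩ := h1
      have e3 : (1 - 4 * a) * x₀ = 0 := by linear_combination e2 - 2 * a * e1
      have e4 : x₀ = 0 := (mul_eq_zero.1 e3).resolve_left h4
      rw [e4] at e1
      have e5 : y₀ = 0 := by linear_combination e1
      apply hβ
      rw [← h00, e4, e5]
      ring
    have htm : t ∈ IntermediateField.adjoin F {t} := IntermediateField.mem_adjoin_simple_self F t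
    have h2m : (2 : K) ∈ IntermediateField.adjoin F {t} := ofNat_mem _ 2
    have hsm : s ∈ IntermediateField.adjoin F {t} := by
      have e : s = -A / D := by
        rw [eq_div_iff hD0]
        linear_combination hrel
      rw [e, hA, hD]
      refine div_mem (neg_mem ?_) ?_
      · exact add_mem (add_mem (mul_mem h2m (hF _ t)) (hF _ t))
          (mul_mem htm (add_mem (hF _ t) (mul_mem (mul_mem h2m (hF _ t)) (hF _ t))))
      · exact add_mem (add_mem (one_mem _) htm) (mul_mem (hF _ t) (pow_mem htm 2))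
    refine ⟨t, ?_, ?_⟩
    · rw [hx]
      exact add_mem (hF _ t) hsm
    · rw [hy]
      exact add_mem (hF _ t) (mul_mem htm hsm)

/-- the data of the product of two conics -/
structure Prd (a β a' β' : F) (x y x' y' : K) : Prop where
  hs : IsSurfaceField F K
  e : x ^ 2 + x * y + algebraMap F K a * y ^ 2 = algebraMap F K β
  e' : x' ^ 2 + x' * y' + algebraMap F K a' * y' ^ 2 = algebraMap F K β'
  top : IntermediateField.adjoin F ({x, y, x', y'} : Set K) = ⊤

theorem Prd.swap {a β a' β' : F} {x y x' y' : K} (h : Prd a β a' β' x y x' y') :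
    Prd a' β' a β x' y' x y := by
  refine ⟨h.hs, h.e', h.e, ?_⟩
  rw [← h.top]
  congr 1
  ext z
  simp only [Set.mem_insert_iff, Set.mem_singleton_iff]
  tauto

/-- `y` and `y'` are not algebraic over one element -/
theorem Prd.not_both {a β a' β' : F} {x y x' y' : K} (h : Prd a β a' β' x y x' y') (u : K)
    (h1 : IsAlgebraic (IntermediateField.adjoin F {u}) y)
    (h2 : IsAlgebraic (IntermediateField.adjoin F {u}) y') : False := by
  have hx : x ∈ (AlgebraicIndependent.matroid F K).closure {y} := by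
    rw [mem_cl]
    obtain ⟨p, hp0, _, hp⟩ := alg_quad h.e _ (IntermediateField.mem_adjoin_simple_self F y)
    exact ⟨p, hp0, hp⟩
  have hx' : x' ∈ (AlgebraicIndependent.matroid F K).closure {y'} := by
    rw [mem_cl]
    obtain ⟨p, hp0, _, hp⟩ := alg_quad h.e' _ (IntermediateField.mem_adjoin_simple_self F y')
    exact ⟨p, hp0, hp⟩
  have hy : y ∈ (AlgebraicIndependent.matroid F K).closure {u} := mem_cl.2 h1
  have hy' : y' ∈ (AlgebraicIndependent.matroid F K).closure {u} := mem_cl.2 h2
  have hsub : ∀ z, z ∈ (AlgebraicIndependent.matroid F K).closure {u} →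
      (AlgebraicIndependent.matroid F K).closure {z} ⊆
        (AlgebraicIndependent.matroid F K).closure {u} := by
    intro z hz
    exact (AlgebraicIndependent.matroid F K).closure_subset_closure_of_subset_closure
      (Set.singleton_subset_iff.2 hz)
  have hall : ∀ z ∈ ({x, y, x', y'} : Set K),
      IsAlgebraic (IntermediateField.adjoin F {u}) z := by
    intro z hz
    simp only [Set.mem_insert_iff, Set.mem_singleton_iff] at hz
    rcases hz with rfl | rfl | rfl | rfl
    · exact mem_cl.1 (hsub _ hy hx)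
    · exact h1
    · exact mem_cl.1 (hsub _ hy' hx')
    · exact h2
  have htop : IntermediateField.adjoin (IntermediateField.adjoin F {u})
      ({x, y, x', y'} : Set K) = ⊤ :=
    Tool.adjoin_top _ _ _ h.top fun z hz => IntermediateField.subset_adjoin _ _ hz
  have halg : Algebra.IsAlgebraic (IntermediateField.adjoin F {u}) K := by
    have h3 := IntermediateField.isAlgebraic_adjoin (K := IntermediateField.adjoin F {u})
      (S := ({x, y, x', y'} : Set K)) fun z hz => (hall z hz).isIntegral
    rw [htop] at h3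
    exact (IntermediateField.topEquiv (F := IntermediateField.adjoin F {u})
      (E := K)).isAlgebraic
  have halg2 : Algebra.IsAlgebraic (Algebra.adjoin F {u}) K :=
    ⟨fun z => (IntermediateField.isAlgebraic_adjoin_iff).1 (halg.isAlgebraic z)⟩
  have h4 : Algebra.trdeg F K ≤ Cardinal.mk ({u} : Set K) :=
    Algebra.IsAlgebraic.trdeg_le_cardinalMk F {u}
  rw [h.hs.1, Cardinal.mk_singleton] at h4
  exact absurd h4 (by norm_num)

theorem alg_of_mem {S : Set K} {z : K} (hz : z ∈ IntermediateField.adjoin F S) :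
    IsAlgebraic (IntermediateField.adjoin F S) z :=
  isAlgebraic_algebraMap (⟨z, hz⟩ : IntermediateField.adjoin F S)

theorem Prd.tr {a β a' β' : F} {x y x' y' : K} (h : Prd a β a' β' x y x' y') :
    Transcendental F y := by
  intro h1
  obtain ⟨c, hc⟩ := h.hs.2 y h1
  refine h.not_both y' ?_ (alg_of_mem (IntermediateField.mem_adjoin_simple_self F y'))
  rw [← hc]
  exact alg_of_mem (IntermediateField.algebraMap_mem _ c)

/-- elements which are algebraic over `F(y)` and over `F(y')` -/
theorem Prd.mem_range {a β a' β' : F} {x y x' y' : K} (h : Prd a β a' β' x y x' y') (u : K)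
    (h1 : IsAlgebraic (IntermediateField.adjoin F {y}) u)
    (h2 : IsAlgebraic (IntermediateField.adjoin F {y'}) u) : u ∈ (algebraMap F K).range := by
  by_cases hu : IsAlgebraic F u
  · exact h.hs.2 u hu
  exfalso
  have hu0 : u ∉ (AlgebraicIndependent.matroid F K).closure ∅ := by
    rw [mem_cl]
    intro h3
    apply hu
    rw [IntermediateField.adjoin_empty] at h3
    exact h3.restrictScalars F
  have key : ∀ z : K, IsAlgebraic (IntermediateField.adjoin F {z}) u →
      IsAlgebraic (IntermediateField.adjoin F {u}) z := by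
    intro z hz
    have h3 : u ∈ (AlgebraicIndependent.matroid F K).closure (insert z ∅) := by
      rw [insert_empty_eq]
      exact mem_cl.2 hz
    have h4 := Matroid.mem_closure_insert hu0 h3
    rw [insert_empty_eq] at h4
    exact mem_cl.1 h4
  exact h.not_both u (key y h1) (key y' h2)

/-- linear independence of the coordinates -/
theorem Prd.lin {a β a' β' : F} {x y x' y' : K} (h : Prd a β a' β' x y x' y')
    (h4 : 1 - 4 * a ≠ 0) (hβ : β ≠ 0) (h4' : 1 - 4 * a' ≠ 0) (hβ' : β' ≠ 0)
    {c₀ c₁ c₂ c₃ c₄ : F} (hc : algebraMap F K c₀ + algebraMap F K c₁ * x +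
      algebraMap F K c₂ * y + algebraMap F K c₃ * x' + algebraMap F K c₄ * y' = 0) :
    c₁ = 0 ∧ c₂ = 0 ∧ c₃ = 0 ∧ c₄ = 0 := by
  have hal : ∀ (c : F) (z : K), IsAlgebraic (IntermediateField.adjoin F {z}) (algebraMap F K c) :=
    fun c z => alg_of_mem (IntermediateField.algebraMap_mem _ c)
  have hself : ∀ z : K, IsAlgebraic (IntermediateField.adjoin F {z}) z := fun z =>
    alg_of_mem (IntermediateField.mem_adjoin_simple_self F z)
  have hx : IsAlgebraic (IntermediateField.adjoin F {y}) x := by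
    obtain ⟨p, hp0, _, hp⟩ := alg_quad h.e _ (IntermediateField.mem_adjoin_simple_self F y)
    exact ⟨p, hp0, hp⟩
  have hx' : IsAlgebraic (IntermediateField.adjoin F {y'}) x' := by
    obtain ⟨p, hp0, _, hp⟩ := alg_quad h.e' _ (IntermediateField.mem_adjoin_simple_self F y')
    exact ⟨p, hp0, hp⟩
  obtain ⟨v, hv⟩ := h.mem_range (algebraMap F K c₁ * x + algebraMap F K c₂ * y)
    (((hal c₁ y).mul hx).add ((hal c₂ y).mul (hself y))) (by
      have e : algebraMap F K c₁ * x + algebraMap F K c₂ * y = -(algebraMap F K c₀ +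
        algebraMap F K c₃ * x' + algebraMap F K c₄ * y') := by linear_combination hc
      rw [e]
      exact (((hal c₀ y').add ((hal c₃ y').mul hx')).add ((hal c₄ y').mul (hself y'))).neg)
  obtain ⟨h1, h2⟩ := no_line h4 hβ h.e h.tr (c₀ := -v) (c₁ := c₁) (c₂ := c₂) (by
    rw [map_neg]
    linear_combination -hv)
  obtain ⟨h3, h5⟩ := no_line h4' hβ' h.e' h.swap.tr (c₀ := c₀) (c₁ := c₃) (c₂ := c₄) (by
    rw [h1, h2, map_zero] at hc
    linear_combination hc)
  exact ⟨h1, h2, h3, h5⟩

/-- one of the conics has a point -/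
theorem Prd.one_pt (hUB : S_UB.{u}) {a β a' β' : F} {x y x' y' : K}
    (h : Prd a β a' β' x y x' y')
    (h4 : 1 - 4 * a ≠ 0) (hβ : β ≠ 0) (h4' : 1 - 4 * a' ≠ 0) (hβ' : β' ≠ 0)
    (hP : ConicPt a β F) : ∃ n, n ≤ 2 ∧ HasDeg F K n := by
  obtain ⟨t, hxt, hyt⟩ := par h4 hβ h.e (fun c₀ c₁ c₂ hc => by
    have := h.lin h4 hβ h4' hβ' (c₀ := c₀) (c₁ := c₁) (c₂ := c₂) (c₃ := 0) (c₄ := 0) (by
      rw [map_zero]
      linear_combination hc)
    exact ⟨this.1, this.2.1⟩) hP
  obtain ⟨E, hE⟩ : ∃ E : IntermediateField F K, E = IntermediateField.adjoin F ({t, y'} : Set K) :=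
    ⟨_, rfl⟩
  have hle : IntermediateField.adjoin F {t} ≤ E := by
    rw [hE]
    exact IntermediateField.adjoin.mono _ _ _ (by simp)
  have hy' : y' ∈ E := by
    rw [hE]
    exact IntermediateField.subset_adjoin _ _ (by simp)
  obtain ⟨p, hp0, hp2, hp⟩ := alg_quad h.e' E hy'
  have htop : IntermediateField.adjoin E {x'} = ⊤ := by
    refine Tool.adjoin_top E _ _ h.top ?_
    intro z hz
    simp only [Set.mem_insert_iff, Set.mem_singleton_iff] at hz
    rcases hz with rfl | rfl | rfl | rfl
    · exact Tool.mem_base E _ _ (hle hxt)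
    · exact Tool.mem_base E _ _ (hle hyt)
    · exact IntermediateField.subset_adjoin _ _ (by simp)
    · exact Tool.mem_base E _ _ hy'
  have h1 := Tool.finrank_le x' htop p hp0 2 hp2 hp
  exact Tool.hasDeg_of hUB h.hs t y' 2 (by rw [← hE]; exact h1.1) (by rw [← hE]; exact h1.2)

end

/-- [R8a] -/
theorem R8a (hUB : S_UB.{u}) : S_R8a.{u} := by
  intro F K _ _ _ a β a' β' h4 hβ h4' hβ' hK hP hP'
  obtain ⟨hs, x, y, x', y', hx, hx', htop⟩ := hK
  have h : Prd a β a' β' x y x' y' := ⟨hs, hx, hx', htop⟩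
  obtain ⟨t, hxt, hyt⟩ := par h4 hβ h.e (fun c₀ c₁ c₂ hc => by
    have := h.lin h4 hβ h4' hβ' (c₀ := c₀) (c₁ := c₁) (c₂ := c₂) (c₃ := 0) (c₄ := 0) (by
      rw [map_zero]
      linear_combination hc)
    exact ⟨this.1, this.2.1⟩) hP
  obtain ⟨t', hxt', hyt'⟩ := par h4' hβ' h.e' (fun c₀ c₁ c₂ hc => by
    have := h.lin h4 hβ h4' hβ' (c₀ := c₀) (c₁ := 0) (c₂ := 0) (c₃ := c₁) (c₄ := c₂) (by
      rw [map_zero]
      linear_combination hc)
    exact ⟨this.2.2.1, this.2.2.2⟩) hP'
  have hle : IntermediateField.adjoin F {t} ≤ IntermediateField.adjoin F ({t, t'} : Set K) :=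
    IntermediateField.adjoin.mono _ _ _ (by simp)
  have hle' : IntermediateField.adjoin F {t'} ≤ IntermediateField.adjoin F ({t, t'} : Set K) :=
    IntermediateField.adjoin.mono _ _ _ (by simp)
  have h1 : IntermediateField.adjoin F ({t, t'} : Set K) = ⊤ := by
    rw [eq_top_iff, ← htop, IntermediateField.adjoin_le_iff]
    intro z hz
    simp only [Set.mem_insert_iff, Set.mem_singleton_iff] at hz
    rcases hz with rfl | rfl | rfl | rfl
    · exact hle hxt
    · exact hle hyt
    · exact hle' hxt'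
    · exact hle' hyt'
  have h2 : Module.finrank (IntermediateField.adjoin F ({t, t'} : Set K)) K = 1 := by
    rw [h1]
    exact IntermediateField.finrank_top
  have h3 := hUB F K hs.1 t t' (by rw [h2]; exact one_pos)
  rw [h2] at h3
  obtain ⟨_, s, r, hsr, hf⟩ := h3
  exact ⟨s, r, hsr, IntermediateField.finrank_eq_one_iff_eq_top.1 hf⟩

end Pool.Agent.Helper95K9.IR.EightA
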