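import Pool.Agent.Helper95K9.IR.EightAU

/-!
Degree of irrationality of del Pezzo surfaces: base change of a Weil restriction of a conic from
`F` to `F[ω]`.
-/

set_option autoImplicit false

namespace Pool.Agent.Helper95K9.IR.EightB

universe u

section

variable {F : Type u} [Field F] {A B : F}

/-- `F[ω] → R[ω]` -/
noncomputable def hom (A B : F) (R : Type u) [Field R] [Algebra F R] : QA A B F →+* QA A B R where
  toFun := qa R
  map_one' := QuadraticAlgebra.ext (map_one _) (map_zero _)
  map_zero' := QuadraticAlgebra.ext (map_zero _) (map_zero _)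
  map_mul' u v := by
    ext <;> simp [qa, QuadraticAlgebra.re_mul, QuadraticAlgebra.im_mul]
  map_add' u v := by
    ext <;> simp [qa, QuadraticAlgebra.re_add, QuadraticAlgebra.im_add]

/-- `R[ω]` as an algebra over `F[ω]`. -/
@[reducible] noncomputable def alg (A B : F) (R : Type u) [Field R] [Algebra F R] :
    Algebra (QA A B F) (QA A B R) := (hom A B R).toAlgebra

/-- The equation of `ω` has no root in `K` if it has none in `F`. -/
theorem fact_K {K : Type u} [Field K] [Algebra F K] (hs : IsSurfaceField F K)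
    (hr : ∀ r : F, r ^ 2 ≠ A + B * r) :
    ∀ r : K, r ^ 2 ≠ algebraMap F K A + algebraMap F K B * r := by
  intro r h
  have halg : IsAlgebraic F r := by
    refine ⟨Polynomial.C 1 * Polynomial.X ^ 2 + Polynomial.C (-B) * Polynomial.X +
      Polynomial.C (-A), ?_, ?_⟩
    · intro h0
      have := congrArg (fun p => Polynomial.coeff p 2) h0
      simp at this
    · simp only [map_add, map_mul, map_pow, Polynomial.aeval_C, Polynomial.aeval_X, map_neg,
        map_one]
      linear_combination h
  obtain ⟨c, hc⟩ := hs.2 r halg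
  apply hr c
  apply (algebraMap F K).injective
  rw [map_pow, map_add, map_mul, hc, h]

variable {K : Type u} [Field K] [Algebra F K]

theorem algF (c : F) : algebraMap F (QA A B K) c = ⟨algebraMap F K c, 0⟩ := rfl

theorem two_eq : (2 : QA A B K) = ⟨2, 0⟩ := by
  have h : (2 : QA A B K) = algebraMap K _ 2 := (map_ofNat _ 2).symm
  rw [h]
  rfl

theorem star_qa (v : QA A B F) : star (qa K v) = qa K (star v) := by
  ext <;> simp [qa]

theorem om_sq : (⟨0, 1⟩ : QA A B K) ^ 2 = algebraMap F _ B * ⟨0, 1⟩ + algebraMap F _ A := by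
  rw [algF, algF, pow_two]
  ext
  · simp
  · simp

variable [Fact (∀ r : K, r ^ 2 ≠ algebraMap F K A + algebraMap F K B * r)]

/-- `ω - ω'` is not zero -/
theorem delta_ne (hD : B ^ 2 + 4 * A ≠ 0) :
    2 * (⟨0, 1⟩ : QA A B K) - algebraMap F _ B ≠ 0 := by
  intro h
  rw [two_eq, algF, QuadraticAlgebra.ext_iff] at h
  obtain ⟨h1, h2⟩ := h
  simp only [QuadraticAlgebra.re_sub, QuadraticAlgebra.re_mul, QuadraticAlgebra.im_sub,
    QuadraticAlgebra.im_mul, QuadraticAlgebra.re_zero, QuadraticAlgebra.im_zero] at h1 h2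
  apply hD
  apply (algebraMap F K).injective
  rw [map_add, map_pow, map_mul, map_ofNat, map_zero]
  linear_combination (-algebraMap F K B) * h1 + 2 * algebraMap F K A * h2

/-- the imaginary part -/
theorem im_eq (hD : B ^ 2 + 4 * A ≠ 0) (r : QA A B K) :
    (⟨r.im, 0⟩ : QA A B K) = (r - star r) * (2 * ⟨0, 1⟩ - algebraMap F _ B)⁻¹ := by
  rw [eq_mul_inv_iff_mul_eq₀ (delta_ne hD), two_eq, algF]
  ext
  · simp only [QuadraticAlgebra.re_sub, QuadraticAlgebra.re_mul, QuadraticAlgebra.im_sub,
      QuadraticAlgebra.im_mul, QuadraticAlgebra.re_star]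
    ring
  · simp only [QuadraticAlgebra.re_sub, QuadraticAlgebra.re_mul, QuadraticAlgebra.im_sub,
      QuadraticAlgebra.im_mul, QuadraticAlgebra.im_star]
    ring

omit [Fact (∀ r : K, r ^ 2 ≠ algebraMap F K A + algebraMap F K B * r)] in
/-- the real part -/
theorem re_eq (r : QA A B K) :
    (⟨r.re, 0⟩ : QA A B K) = r - ⟨r.im, 0⟩ * ⟨0, 1⟩ := by
  ext
  · simp
  · simp

/-- The elements of `K[ω]` which are algebraic over `F` lie in `F[ω]`. -/
theorem mem_of_alg (hs : IsSurfaceField F K) (hD : B ^ 2 + 4 * A ≠ 0) (r : QA A B K)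
    (hr : IsAlgebraic F r) : ∃ v : QA A B F, r = qa K v := by
  have hst : IsAlgebraic F (star r) := by
    obtain ⟨p, hp0, hp⟩ := hr
    refine ⟨p, hp0, ?_⟩
    have h1 := congrArg star hp
    rw [star_zero] at h1
    rw [← h1, Polynomial.aeval_eq_sum_range, Polynomial.aeval_eq_sum_range, star_sum]
    apply Finset.sum_congr rfl
    intro i _
    rw [Algebra.smul_def, Algebra.smul_def, star_mul', star_pow]
    congr 1
    rw [algF]
    ext <;> simp
  -- `ω`
  have hω : IsAlgebraic F (⟨0, 1⟩ : QA A B K) := by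
    refine ⟨Polynomial.C 1 * Polynomial.X ^ 2 + Polynomial.C (-B) * Polynomial.X +
      Polynomial.C (-A), ?_, ?_⟩
    · intro h0
      have := congrArg (fun p => Polynomial.coeff p 2) h0
      simp at this
    · simp only [map_add, map_mul, map_pow, Polynomial.aeval_C, Polynomial.aeval_X, map_neg,
        map_one]
      linear_combination (om_sq (A := A) (B := B) (K := K))
  have h2 : IsAlgebraic F (2 : QA A B K) := by
    have h : (2 : QA A B K) = algebraMap F _ 2 := (map_ofNat _ 2).symm
    rw [h]
    exact isAlgebraic_algebraMap _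
  have him : IsAlgebraic F (⟨r.im, 0⟩ : QA A B K) := by
    rw [im_eq hD]
    exact (hr.sub hst).mul (((h2.mul hω).sub (isAlgebraic_algebraMap B)).inv)
  have hre : IsAlgebraic F (⟨r.re, 0⟩ : QA A B K) := by
    rw [re_eq]
    exact hr.sub (him.mul hω)
  have hinj : Function.Injective (algebraMap K (QA A B K)) := (algebraMap K (QA A B K)).injective
  have key : ∀ k : K, IsAlgebraic F (⟨k, 0⟩ : QA A B K) → ∃ c : F, algebraMap F K c = k := by
    intro k hk
    have h3 : IsAlgebraic F k := by
      have h4 : (⟨k, 0⟩ : QA A B K) = algebraMap K (QA A B K) k := rfl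
      rw [h4] at hk
      exact (isAlgebraic_algebraMap_iff hinj).1 hk
    exact hs.2 k h3
  obtain ⟨c, hc⟩ := key _ hre
  obtain ⟨d, hd⟩ := key _ him
  exact ⟨⟨c, d⟩, QuadraticAlgebra.ext hc.symm hd.symm⟩

/-- A subfield of `K[ω]` over `F[ω]` containing `x` and its conjugate contains the real and
imaginary parts of `x`. -/
theorem parts [Fact (∀ r : F, r ^ 2 ≠ algebraMap F F A + algebraMap F F B * r)]
    (hD : B ^ 2 + 4 * A ≠ 0) :
    letI := alg A B K
    ∀ (T : IntermediateField (QA A B F) (QA A B K)) (x : QA A B K), x ∈ T → star x ∈ T →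
      (⟨x.re, 0⟩ : QA A B K) ∈ T ∧ (⟨x.im, 0⟩ : QA A B K) ∈ T := by
  letI := alg A B K
  intro T x hx hx'
  have hF : ∀ v : QA A B F, qa K v ∈ T := fun v => T.algebraMap_mem v
  have hω : (⟨0, 1⟩ : QA A B K) ∈ T := by
    have := hF ⟨0, 1⟩
    have e : qa K (⟨0, 1⟩ : QA A B F) = ⟨0, 1⟩ := QuadraticAlgebra.ext (map_zero _) (map_one _)
    rwa [e] at this
  have hB : algebraMap F (QA A B K) B ∈ T := by
    have := hF ⟨B, 0⟩
    have e : qa K (⟨B, 0⟩ : QA A B F) = algebraMap F (QA A B K) B :=
      QuadraticAlgebra.ext rfl (map_zero _)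
    rwa [e] at this
  have him : (⟨x.im, 0⟩ : QA A B K) ∈ T := by
    rw [im_eq hD]
    exact mul_mem (sub_mem hx hx') (inv_mem (sub_mem (mul_mem (ofNat_mem _ 2) hω) hB))
  refine ⟨?_, him⟩
  rw [re_eq]
  exact sub_mem hx (mul_mem him hω)

/-- Base change to `F[ω]`. -/
theorem surf [Fact (∀ r : F, r ^ 2 ≠ algebraMap F F A + algebraMap F F B * r)]
    (hD : B ^ 2 + 4 * A ≠ 0) (hs : IsSurfaceField F K) :
    letI := alg A B K
    IsSurfaceField (QA A B F) (QA A B K) := by
  letI := alg A B K
  have hst : IsScalarTower F (QA A B F) (QA A B K) :=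
    IsScalarTower.of_algebraMap_eq fun c => QuadraticAlgebra.ext rfl (map_zero _).symm
  constructor
  · have h1 := trdeg_add_eq F K (A := QA A B K)
    have h2 := trdeg_add_eq F (QA A B F) (A := QA A B K)
    have h3 : Algebra.trdeg K (QA A B K) = 0 := trdeg_eq_zero
    have h4 : Algebra.trdeg F (QA A B F) = 0 := by
      have : Algebra.IsAlgebraic F (QuadraticAlgebra F (algebraMap F F A) (algebraMap F F B)) :=
        inferInstance
      exact trdeg_eq_zero
    rw [h3, add_zero, hs.1] at h1
    rw [h4, zero_add, ← h1] at h2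
    exact h2
  · intro r hr
    have h5 : Algebra.IsAlgebraic F (QA A B F) := by
      have : Algebra.IsAlgebraic F (QuadraticAlgebra F (algebraMap F F A) (algebraMap F F B)) :=
        inferInstance
      exact this
    have h6 : IsAlgebraic F r := hr.restrictScalars F
    obtain ⟨v, hv⟩ := mem_of_alg hs hD r h6
    exact ⟨v, hv.symm⟩

/-- The function field of a Weil restriction becomes the function field of a product of conics. -/
theorem bc [Fact (∀ r : F, r ^ 2 ≠ algebraMap F F A + algebraMap F F B * r)]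
    (hD : B ^ 2 + 4 * A ≠ 0) (hs : IsSurfaceField F K) (a β : QA A B F) (x y : QA A B K)
    (hxy : x ^ 2 + x * y + qa K a * y ^ 2 = qa K β)
    (htop : IntermediateField.adjoin F ({x.re, x.im, y.re, y.im} : Set K) = ⊤) :
    letI := alg A B K
    EightA.Prd (F := QA A B F) (K := QA A B K) a β (star a) (star β) x y (star x) (star y) := by
  letI := alg A B K
  refine ⟨surf hD hs, hxy, ?_, ?_⟩
  · have h1 := congrArg star hxy
    rw [star_add, star_add, star_mul', star_mul', star_pow, star_pow, star_qa, star_qa] at h1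
    exact h1
  · rw [eq_top_iff]
    intro r _
    obtain ⟨T, hT⟩ : ∃ T, T = IntermediateField.adjoin (QA A B F)
      ({x, y, star x, star y} : Set (QA A B K)) := ⟨_, rfl⟩
    rw [← hT]
    have hmem : ∀ z ∈ ({x, y, star x, star y} : Set (QA A B K)), z ∈ T := fun z hz => by
      rw [hT]; exact IntermediateField.subset_adjoin _ _ hz
    have hx := parts hD T x (hmem _ (by simp)) (hmem _ (by simp))
    have hy := parts hD T y (hmem _ (by simp)) (hmem _ (by simp))
    -- the elements of `K` in `T`
    have hall : ∀ k : K, algebraMap K (QA A B K) k ∈ T := by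
      intro k
      have hst : IsScalarTower F (QA A B F) (QA A B K) :=
        IsScalarTower.of_algebraMap_eq fun c => QuadraticAlgebra.ext rfl (map_zero _).symm
      let T' : IntermediateField F K :=
        (T.restrictScalars F).comap (IsScalarTower.toAlgHom F K (QA A B K))
      have h1 : IntermediateField.adjoin F ({x.re, x.im, y.re, y.im} : Set K) ≤ T' := by
        rw [IntermediateField.adjoin_le_iff]
        intro z hz
        simp only [Set.mem_insert_iff, Set.mem_singleton_iff] at hz
        rcases hz with rfl | rfl | rfl | rfl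
        · exact hx.1
        · exact hx.2
        · exact hy.1
        · exact hy.2
      rw [htop] at h1
      exact h1 (IntermediateField.mem_top (x := k))
    have hω : (⟨0, 1⟩ : QA A B K) ∈ T := by
      have := T.algebraMap_mem (⟨0, 1⟩ : QA A B F)
      have e : algebraMap (QA A B F) (QA A B K) (⟨0, 1⟩ : QA A B F) = ⟨0, 1⟩ :=
        QuadraticAlgebra.ext (map_zero _) (map_one _)
      rwa [e] at this
    have hr : r = algebraMap K (QA A B K) r.re + algebraMap K (QA A B K) r.im * ⟨0, 1⟩ := by
      ext
      · simp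
      · simp
    rw [hr]
    exact add_mem (hall _) (mul_mem (hall _) hω)

end

end Pool.Agent.Helper95K9.IR.EightB
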