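import Pool.Agent.Helper95K9.IR.EightBU2
import Pool.Agent.Helper95K9.IR.EightBC

/-!
MP_577596_ag, leaf [8bU2], final step.
-/

set_option autoImplicit false

namespace Pool.Agent.Helper95K9.IR.EightBU2

universe u

/-- [8bU2] -/
theorem eightBU2 (hUB : S_UB.{u}) (hYL : S_YL.{u}) : S_8bU2.{u} := by
  intro F K _ _ _ A B a β hD hr h4 hβ hFF hpt hF
  obtain ⟨hK, x, y, hxy, htop⟩ := hFF
  have h1 : Fact (∀ r : F, r ^ 2 ≠ algebraMap F F A + algebraMap F F B * r) := ⟨hr⟩
  have h2 : Fact (∀ r : K, r ^ 2 ≠ algebraMap F K A + algebraMap F K B * r) :=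
    ⟨EightB.fact_K hK hr⟩
  letI := EightB.alg A B K
  have hP := EightB.bc hD hK a β x y hxy htop
  refine main hUB hYL hr h4 hβ hK x y hxy htop (fun e he => lin_of x y ?_ e he) hpt hF
  intro c₀ c₁ c₂ c₃ c₄ hc
  have hs : 1 - 4 * star a = star (1 - 4 * a) := by
    have h4' : star (4 : QA A B F) = 4 := by
      have h : (4 : QA A B F) = algebraMap F _ 4 := (map_ofNat _ 4).symm
      rw [h]
      ext
      · simp
      · simp
    rw [star_sub, star_mul', star_one, h4']
  refine hP.lin h4.ne_zero hβ.ne_zero ?_ ?_ hc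
  · rw [hs]
    intro h0
    exact h4.ne_zero (star_eq_zero.1 h0)
  · intro h0
    exact hβ.ne_zero (star_eq_zero.1 h0)

end Pool.Agent.Helper95K9.IR.EightBU2
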