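import Pool.Agent.Helper95K9.IR.Tool

/-!
Degree of irrationality of del Pezzo surfaces: the leaf [8bU4].
-/

set_option autoImplicit false

namespace Pool.Agent.Helper95K9.IR

universe u

/-- [8bU4] -/
theorem eightBU4 (hUB : S_UB.{u}) (hBZ : S_BZ22.{u}) : S_8bU4.{u} := by
  intro F K _ _ _ A B a β hD hFF
  obtain ⟨hK, x, y, hxy, hgen⟩ := hFF
  rw [QuadraticAlgebra.ext_iff] at hxy
  simp only [qa, pow_two, QuadraticAlgebra.re_add, QuadraticAlgebra.im_add,
    QuadraticAlgebra.re_mul, QuadraticAlgebra.im_mul] at hxy
  obtain ⟨h0, h1⟩ := hxy
  set E : IntermediateField F K := IntermediateField.adjoin F ({y.re, y.im} : Set K) with hE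
  let s : E := ⟨y.re, IntermediateField.subset_adjoin _ _ (by simp)⟩
  let t : E := ⟨y.im, IntermediateField.subset_adjoin _ _ (by simp)⟩
  have htop : IntermediateField.adjoin E ({x.re, x.im} : Set K) = ⊤ := by
    apply Tool.adjoin_top E _ _ hgen
    intro z hz
    simp only [Set.mem_insert_iff, Set.mem_singleton_iff] at hz
    rcases hz with rfl | rfl | rfl | rfl
    · exact IntermediateField.subset_adjoin _ _ (by simp)
    · exact IntermediateField.subset_adjoin _ _ (by simp)
    · exact Tool.mem_base E _ _ s.2
    · exact Tool.mem_base E _ _ t.2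
  have e1 : ∀ c : F, algebraMap E K (algebraMap F E c) = algebraMap F K c := fun c =>
    (IsScalarTower.algebraMap_apply F E K c).symm
  have e2 : algebraMap E K s = y.re := rfl
  have e3 : algebraMap E K t = y.im := rfl
  have hfin := hBZ E K x.re x.im 1 0 (algebraMap F E A) s (algebraMap F E A * t)
    (algebraMap F E a.re * (s * s + algebraMap F E A * (t * t)) +
      algebraMap F E A * algebraMap F E a.im * (s * t + t * s + algebraMap F E B * (t * t)) -
      algebraMap F E β.re)
    0 2 (algebraMap F E B) t (s + algebraMap F E B * t)
    (algebraMap F E a.re * (s * t + t * s + algebraMap F E B * (t * t)) +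
      algebraMap F E a.im * (s * s + algebraMap F E A * (t * t)) +
      algebraMap F E B * algebraMap F E a.im * (s * t + t * s + algebraMap F E B * (t * t)) -
      algebraMap F E β.im)
    htop (by
      simp only [map_add, map_sub, map_mul, map_one, map_zero, e1, e2, e3]
      linear_combination h0) (by
      simp only [map_add, map_sub, map_mul, map_ofNat, map_zero, e1, e2, e3]
      linear_combination h1) (by
      intro h
      apply hD
      apply (algebraMap F E).injective
      rw [map_add, map_pow, map_mul, map_ofNat, map_zero]
      linear_combination h)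
  exact Tool.hasDeg_of hUB hK _ _ 4 hfin.1 hfin.2

end Pool.Agent.Helper95K9.IR
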