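import Pool.Agent.Helper95K9.IR.DefsSB

/-!
The degree of irrationality of del Pezzo surfaces: the assertions, one for every family of models.
-/

set_option autoImplicit false

namespace Pool.Agent.Helper95K9.IR

open MvPolynomial

universe u

/-- Degree one: `w ^ 2 + a₁ z w + a₃ w = z ^ 3 + a₂ z ^ 2 + a₄ z + a₆` in `P(1, 1, 2, 3)`
(smooth or not). -/
def DegreeOne : Prop :=
  ∀ (F K : Type u) [Field F] [Field K] [Algebra F K]
    (a₁ a₂ a₃ a₄ a₆ : MvPolynomial (Fin 2) F), a₁.IsHomogeneous 1 → a₂.IsHomogeneous 2 →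
    a₃.IsHomogeneous 3 → a₄.IsHomogeneous 4 → a₆.IsHomogeneous 6 →
    IsFF1 a₁ a₂ a₃ a₄ a₆ K →
    (Rational F K → irr F K = 1) ∧ (¬ Rational F K → irr F K = 2)

/-- Degree two: `w ^ 2 + a w + b = 0` in `P(1, 1, 1, 2)` (smooth or not). -/
def DegreeTwo : Prop :=
  ∀ (F K : Type u) [Field F] [Field K] [Algebra F K] (a b : MvPolynomial (Fin 3) F),
    a.IsHomogeneous 2 → b.IsHomogeneous 4 → IsFF2 a b K →
    (Rational F K → irr F K = 1) ∧ (¬ Rational F K → irr F K = 2)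

/-- Degree three: smooth cubic surfaces. -/
def DegreeThree : Prop :=
  ∀ (F K : Type u) [Field F] [Field K] [Algebra F K] (f : Fin 1 → MvPolynomial (Fin 4) F),
    (∀ j, (f j).IsHomogeneous 3) → SmoothCI f → IsFF f K →
    (Rational F K → irr F K = 1) ∧ (¬ Rational F K → HasPt f F → irr F K = 2) ∧
      (¬ HasPt f F → irr F K = 3)

/-- Degree four: smooth intersections of two quadrics. -/
def DegreeFour : Prop :=
  ∀ (F K : Type u) [Field F] [Field K] [Algebra F K] (f : Fin 2 → MvPolynomial (Fin 5) F),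
    (∀ j, (f j).IsHomogeneous 2) → SmoothCI f → IsFF f K →
    (Rational F K → irr F K = 1) ∧ (¬ Rational F K → HasPt2 f → irr F K = 2) ∧
      (¬ HasPt2 f → irr F K = 4)

/-- Degree six: the torsors `N(z) = b`, `N(z) = c` for a cubic and a quadratic field. -/
def DegreeSix : Prop :=
  ∀ (F Ω : Type u) [Field F] [Field Ω] [Algebra F Ω] (θ : Fin 3 → Ω) (ω ω' : Ω)
    (b : Fin 3 → Ω) (c₀ c₁ : Ω) (K : IntermediateField F Ω),
    Is6 F θ ω ω' b c₀ c₁ → IsFF6 θ ω ω' b (c₀ + c₁ * ω) K →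
    (NormL F θ ω ω' b → NormK F θ ω (c₀ + c₁ * ω) → irr F K = 1) ∧
    (¬ NormL F θ ω ω' b → NormK F θ ω (c₀ + c₁ * ω) → irr F K = 2) ∧
    (NormL F θ ω ω' b → ¬ NormK F θ ω (c₀ + c₁ * ω) → irr F K = 3) ∧
    (¬ NormL F θ ω ω' b → ¬ NormK F θ ω (c₀ + c₁ * ω) → irr F K = 6)

/-- Degree six with a split quadratic algebra: the norm surfaces `N(x) = a` of cubic fields. -/
def DegreeSixSplit : Prop :=
  ∀ (F Ω : Type u) [Field F] [Field Ω] [Algebra F Ω] (θ : Fin 3 → Ω) (a : F)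
    (K : IntermediateField F Ω), IsCubic F θ → a ≠ 0 → IsFFN θ (algebraMap F Ω a) K →
    ((∃ x : Fin 3 → Ω, InF F x ∧ (∏ i, ev x (θ i)) = algebraMap F Ω a) → irr F K = 1) ∧
    ((¬ ∃ x : Fin 3 → Ω, InF F x ∧ (∏ i, ev x (θ i)) = algebraMap F Ω a) → irr F K = 3)

/-- Degree eight: products of the smooth conics `x ^ 2 + x y + a y ^ 2 = β z ^ 2` and
`x ^ 2 + x y + a' y ^ 2 = β' z ^ 2`. -/
def DegreeEightProduct : Prop :=
  ∀ (F K : Type u) [Field F] [Field K] [Algebra F K] (a β a' β' : F),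
    1 - 4 * a ≠ 0 → β ≠ 0 → 1 - 4 * a' ≠ 0 → β' ≠ 0 → IsFF8a a β a' β' K →
    (ConicPt a β F ∧ ConicPt a' β' F → irr F K = 1) ∧
    (¬ (ConicPt a β F ∧ ConicPt a' β' F) → HasPt8a a β a' β' → irr F K = 2) ∧
    (¬ HasPt8a a β a' β' → irr F K = 4)

/-- Degree eight: Weil restrictions of smooth conics over the separable quadratic field `F[ω]`,
`ω ^ 2 = A + B ω`. -/
def DegreeEightWeil : Prop :=
  ∀ (F K : Type u) [Field F] [Field K] [Algebra F K] (A B : F) (a β : QA A B F),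
    B ^ 2 + 4 * A ≠ 0 → (∀ r : F, r ^ 2 ≠ A + B * r) → IsUnit (1 - 4 * a) → IsUnit β →
    IsFF8b a β K →
    (WPt a β F → irr F K = 1) ∧ (¬ WPt a β F → HasPt8b a β → irr F K = 2) ∧
      (¬ HasPt8b a β → irr F K = 4)

/-- Degree nine: the Severi-Brauer surfaces of central division algebras. -/
def DegreeNine : Prop :=
  ∀ (F D K : Type u) [Field F] [DivisionRing D] [Algebra F D] [Field K] [Algebra F K],
    Algebra.IsCentral F D → Module.finrank F D = 9 → IsFFSB F D K → irr F K = 3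

end Pool.Agent.Helper95K9.IR
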