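import Pool.Agent.Helper95K9.IR.Stm

/-!
Degree of irrationality of del Pezzo surfaces: leaf 4L.
-/

set_option autoImplicit false

namespace Pool.Agent.Helper95K9.IR

universe u

theorem fourL (hPL : S_PL.{u}) (hCUB : S_CUB.{u}) : S_4L.{u} := by
  intro F K _ _ _ f hf hFF n hn hn3
  obtain ⟨hK, P, hP0, hP, hgen⟩ := hFF
  obtain ⟨κ, hκ0, hκn, hκ⟩ := hPL F K n hn
  obtain ⟨p, hp0, hp⟩ := hκ 5 P hP0
  have hfP : ∀ j, MvPolynomial.aeval P (f j) = 0 := fun j =>
    (hP 2 (f j) (hf j)).2 (Ideal.subset_span ⟨j, rfl⟩)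
  have hfp : ∀ j, MvPolynomial.aeval p (f j) = 0 := fun j => hp 2 (f j) (hf j) (hfP j)
  have h123 : Module.finrank F κ = 1 ∨ Module.finrank F κ = 2 ∨ Module.finrank F κ = 3 := by
    omega
  rcases h123 with h1 | h2 | h3
  · exact ⟨κ, Or.inl h1, p, hp0, hfp⟩
  · exact ⟨κ, Or.inr h2, p, hp0, hfp⟩
  · obtain ⟨q, hq0, hq1, hq2⟩ := hCUB F κ h3 5 (f 0) (f 1) (hf 0) (hf 1) p hp0 (hfp 0) (hfp 1)
    refine ⟨⊥, Or.inl IntermediateField.finrank_bot, ?_⟩
    refine ⟨fun i => algebraMap F _ (q i), ?_, ?_⟩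
    · intro h
      apply hq0
      funext i
      have := congrFun h i
      simpa using this
    · intro j
      have h4 : MvPolynomial.aeval (fun i => algebraMap F
          (⊥ : IntermediateField F (AlgebraicClosure F)) (q i)) (f j) =
          algebraMap F _ (MvPolynomial.eval q (f j)) := by
        rw [← MvPolynomial.aeval_eq_eval]
        exact MvPolynomial.aeval_algebraMap_apply _ q (f j)
      rw [h4]
      fin_cases j
      · simp only [Fin.zero_eta, hq1, map_zero]
      · simp only [Fin.mk_one, hq2, map_zero]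

end Pool.Agent.Helper95K9.IR
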