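import Pool.Agent.Helper95K9.IR.Stm

/-!
Degree of irrationality of del Pezzo surfaces: leaf 3L.
-/

set_option autoImplicit false

namespace Pool.Agent.Helper95K9.IR

universe u

namespace ThreeL

open Polynomial in
theorem prod_line {F : Type u} [Field F] {N : ℕ} (a b : Fin N → F) (m : Fin N → ℕ)
    (s : Finset (Fin N)) :
    (∏ i ∈ s, (C (a i) + C (b i) * X : F[X]) ^ m i).natDegree ≤ ∑ i ∈ s, m i ∧
      (∏ i ∈ s, (C (a i) + C (b i) * X : F[X]) ^ m i).coeff (∑ i ∈ s, m i) =
        ∏ i ∈ s, b i ^ m i := by
  classical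
  have h1 : ∀ i, (C (a i) + C (b i) * X : F[X]).natDegree ≤ 1 := by
    intro i
    rw [add_comm]
    exact natDegree_linear_le
  have h2 : ∀ i, ((C (a i) + C (b i) * X : F[X]) ^ m i).natDegree ≤ m i := by
    intro i
    refine le_trans natDegree_pow_le ?_
    calc m i * (C (a i) + C (b i) * X : F[X]).natDegree ≤ m i * 1 :=
          Nat.mul_le_mul_left _ (h1 i)
      _ = m i := mul_one _
  have h3 : ∀ i, ((C (a i) + C (b i) * X : F[X]) ^ m i).coeff (m i) = b i ^ m i := by
    intro i
    have := coeff_pow_of_natDegree_le (m := m i) (h1 i)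
    rw [mul_one] at this
    rw [this]
    simp [coeff_C]
  induction s using Finset.induction_on with
  | empty => simp
  | insert i s hi ih =>
    rw [Finset.prod_insert hi, Finset.sum_insert hi, Finset.prod_insert hi]
    constructor
    · exact le_trans natDegree_mul_le (add_le_add (h2 i) ih.1)
    · rw [coeff_mul_add_eq_of_natDegree_le (h2 i) ih.1, h3 i, ih.2]

open Polynomial in
/-- The restriction of a form of degree `d` to a line. -/
theorem line {F : Type u} [Field F] {N : ℕ} (f : MvPolynomial (Fin N) F) (d : ℕ)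
    (hf : f.IsHomogeneous d) (a b : Fin N → F) :
    (MvPolynomial.aeval (fun i => (C (a i) + C (b i) * X : F[X])) f).natDegree ≤ d ∧
      (MvPolynomial.aeval (fun i => (C (a i) + C (b i) * X : F[X])) f).coeff d =
        MvPolynomial.eval b f := by
  classical
  have key : ∀ m ∈ f.support, ∑ i, m i = d := by
    intro m hm
    have h := hf (MvPolynomial.mem_support_iff.1 hm)
    rw [← h, Finsupp.weight_apply, Finsupp.sum_fintype]
    · simp
    · simp
  rw [MvPolynomial.aeval_def, MvPolynomial.eval₂_eq', MvPolynomial.eval_eq']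
  constructor
  · apply natDegree_sum_le_of_forall_le
    intro m hm
    refine le_trans natDegree_mul_le ?_
    have h1 : (algebraMap F F[X] (MvPolynomial.coeff m f)).natDegree = 0 := natDegree_C _
    rw [h1, zero_add, ← key m hm]
    exact (prod_line a b m _).1
  · rw [finsetSum_coeff]
    apply Finset.sum_congr rfl
    intro m hm
    have h1 : algebraMap F F[X] (MvPolynomial.coeff m f) = C (MvPolynomial.coeff m f) := rfl
    rw [h1, coeff_C_mul, ← key m hm]
    rw [(prod_line a b m _).2]

/-- A field extension of degree two. -/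
theorem quad {F κ : Type u} [Field F] [Field κ] [Algebra F κ] (h : Module.finrank F κ = 2) :
    ∃ η : κ, η ∉ (algebraMap F κ).range ∧
      ∀ x : κ, ∃ a b : F, x = algebraMap F κ a + algebraMap F κ b * η := by
  have hfin : FiniteDimensional F κ := Module.finite_of_finrank_pos (by omega)
  have hex : ∃ η : κ, η ∉ (algebraMap F κ).range := by
    by_contra hcon
    push Not at hcon
    have h1 : Module.finrank F κ ≤ 1 := by
      apply finrank_le_one (1 : κ)
      intro w
      obtain ⟨c, hc⟩ := hcon w
      exact ⟨c, by rw [Algebra.smul_def, mul_one, hc]⟩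
    omega
  obtain ⟨η, hη⟩ := hex
  refine ⟨η, hη, ?_⟩
  have hli : LinearIndependent F ![(1 : κ), η] := by
    rw [LinearIndependent.pair_iff]
    intro s t hst
    have ht : t = 0 := by
      by_contra ht
      apply hη
      refine ⟨-(s / t), ?_⟩
      rw [Algebra.smul_def, Algebra.smul_def, mul_one] at hst
      have ht' : algebraMap F κ t ≠ 0 := by
        rwa [Ne, FaithfulSMul.algebraMap_eq_zero_iff]
      rw [map_neg, map_div₀]
      field_simp
      linear_combination -hst
    subst ht
    refine ⟨?_, rfl⟩
    rw [zero_smul, add_zero, Algebra.smul_def, mul_one, FaithfulSMul.algebraMap_eq_zero_iff] at hst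
    exact hst
  have hspan : Submodule.span F (Set.range ![(1 : κ), η]) = ⊤ :=
    hli.span_eq_top_of_card_eq_finrank' (by simp [h])
  intro x
  have hx : x ∈ Submodule.span F (Set.range ![(1 : κ), η]) := by
    rw [hspan]; trivial
  have hr : Set.range ![(1 : κ), η] = {1, η} := by simp [Set.pair_comm]
  rw [hr, Submodule.mem_span_pair] at hx
  obtain ⟨a, b, hab⟩ := hx
  refine ⟨a, b, ?_⟩
  rw [← hab, Algebra.smul_def, Algebra.smul_def, mul_one]

/-- A cubic form with a zero over a quadratic extension has a zero. -/
theorem cubic_quad {F κ : Type u} [Field F] [Field κ] [Algebra F κ]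
    (h : Module.finrank F κ = 2) {N : ℕ} (f : MvPolynomial (Fin N) F) (hf : f.IsHomogeneous 3)
    (p : Fin N → κ) (hp : p ≠ 0) (hfp : MvPolynomial.aeval p f = 0) :
    ∃ q : Fin N → F, q ≠ 0 ∧ MvPolynomial.eval q f = 0 := by
  have hfin : FiniteDimensional F κ := Module.finite_of_finrank_pos (by omega)
  obtain ⟨η, hη, hab⟩ := quad h
  choose a b hx using fun i => hab (p i)
  have hint : IsIntegral F η := Algebra.IsIntegral.isIntegral η
  by_cases hb : b = 0
  · refine ⟨a, ?_, ?_⟩
    · rintro rfl
      apply hp
      funext i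
      rw [hx i, hb]
      simp
    · have h1 : p = fun i => algebraMap F κ (a i) := by
        funext i
        rw [hx i, hb]
        simp
      rw [h1] at hfp
      have h2 := MvPolynomial.aeval_algebraMap_apply κ a f
      have h3 : algebraMap F κ (MvPolynomial.eval a f) = 0 := by
        rw [← hfp]
        rw [← MvPolynomial.aeval_eq_eval]
        exact h2.symm
      rwa [FaithfulSMul.algebraMap_eq_zero_iff] at h3
  by_cases hfb : MvPolynomial.eval b f = 0
  · exact ⟨b, hb, hfb⟩
  set G : Polynomial F :=
    MvPolynomial.aeval (fun i => (Polynomial.C (a i) + Polynomial.C (b i) * Polynomial.X)) f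
    with hG
  obtain ⟨hG1, hG2⟩ := line f 3 hf a b
  have hG0 : G ≠ 0 := by
    intro h0
    apply hfb
    rw [← hG2, ← hG, h0, Polynomial.coeff_zero]
  have hG3 : G.natDegree = 3 := by
    apply le_antisymm hG1
    apply Polynomial.le_natDegree_of_ne_zero
    rw [hG2]
    exact hfb
  have hev : ∀ (R : Type u) [Field R] [Algebra F R] (l : R), Polynomial.aeval l G =
      MvPolynomial.aeval (fun i => algebraMap F R (a i) + algebraMap F R (b i) * l) f := by
    intro R _ _ l
    rw [hG, ← AlgHom.comp_apply, MvPolynomial.comp_aeval]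
    congr 2
    funext i
    simp
  have hroot : Polynomial.aeval η G = 0 := by
    rw [hev κ η, ← hfp]
    congr 2
    funext i
    rw [hx i]
  obtain ⟨l, hl⟩ := minpoly.dvd F η hroot
  have hm2 : 2 ≤ (minpoly F η).natDegree := (minpoly.two_le_natDegree_iff hint).2 hη
  have hm3 : (minpoly F η).natDegree ≤ 2 := by
    rw [← h]
    exact minpoly.natDegree_le η
  have hl0 : l ≠ 0 := by
    rintro rfl
    apply hG0
    rw [hl, mul_zero]
  have hld : l.natDegree = 1 := by
    have h1 := Polynomial.natDegree_mul (minpoly.ne_zero hint) hl0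
    rw [← hl, hG3] at h1
    omega
  have hld' : l.degree = 1 := by
    rw [Polynomial.degree_eq_natDegree hl0, hld]
    rfl
  obtain ⟨r, hr⟩ := Polynomial.exists_root_of_degree_eq_one hld'
  have hGr : Polynomial.aeval r G = 0 := by
    rw [hl, map_mul, Polynomial.coe_aeval_eq_eval (r := r), hr.eq_zero, mul_zero]
  rw [hev F r] at hGr
  by_cases hq : (fun i => algebraMap F F (a i) + algebraMap F F (b i) * r) = 0
  · exfalso
    have h1 : ∀ i, p i = (η - algebraMap F κ r) * algebraMap F κ (b i) := by
      intro i
      have h2 := congrFun hq i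
      simp only [Algebra.algebraMap_self, RingHom.id_apply, Pi.zero_apply] at h2
      have h3 : a i = - (b i * r) := by linear_combination h2
      rw [hx i, h3, map_neg, map_mul]
      ring
    have h4 : p = (η - algebraMap F κ r) • (fun i => algebraMap F κ (b i)) := by
      funext i
      rw [h1 i]
      rfl
    have h5 : MvPolynomial.aeval p f =
        (η - algebraMap F κ r) ^ 3 * algebraMap F κ (MvPolynomial.eval b f) := by
      have h6 : MvPolynomial.aeval (fun i => algebraMap F κ (b i)) f =
          algebraMap F κ (MvPolynomial.eval b f) := by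
        rw [← MvPolynomial.aeval_eq_eval]
        exact MvPolynomial.aeval_algebraMap_apply κ b f
      rw [h4, ← h6]
      rw [MvPolynomial.aeval_def, MvPolynomial.aeval_def, MvPolynomial.eval₂_eq',
        MvPolynomial.eval₂_eq', Finset.mul_sum]
      apply Finset.sum_congr rfl
      intro m hm
      have h := hf (MvPolynomial.mem_support_iff.1 hm)
      rw [Finsupp.weight_apply, Finsupp.sum_fintype _ _ (by simp)] at h
      simp only [Pi.smul_apply, smul_eq_mul, mul_pow, Finset.prod_mul_distrib]
      rw [Finset.prod_pow_eq_pow_sum]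
      have h7 : ∑ i, m i = 3 := by
        rw [← h]; simp
      rw [h7]
      ring
    rw [h5] at hfp
    rcases mul_eq_zero.1 hfp with h6 | h6
    · apply hη
      refine ⟨r, ?_⟩
      have := pow_eq_zero_iff (three_ne_zero) |>.1 h6
      linear_combination -this
    · rw [FaithfulSMul.algebraMap_eq_zero_iff] at h6
      exact hfb h6
  · exact ⟨_, hq, by rw [← MvPolynomial.aeval_eq_eval]; exact hGr⟩

end ThreeL

/-- A cubic form with a zero over a field of degree at most two over `F(s, t)` has a zero. -/
theorem threeL (hPL : S_PL.{u}) : S_3L.{u} := by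
  intro F K _ _ _ N f hf hP n hn hn2
  obtain ⟨P, hP0, hPf⟩ := hP
  obtain ⟨κ, hκ0, hκn, hκ⟩ := hPL F K n hn
  obtain ⟨p, hp0, hp⟩ := hκ N P hP0
  have hfp : MvPolynomial.aeval p f = 0 := hp 3 f hf hPf
  have h12 : Module.finrank F κ = 1 ∨ Module.finrank F κ = 2 := by omega
  rcases h12 with h1 | h2
  · have hsurj : ∀ x : κ, ∃ a : F, algebraMap F κ a = x := by
      intro x
      obtain ⟨c, hc⟩ := (finrank_eq_one_iff_of_nonzero' (1 : κ) one_ne_zero).1 h1 x
      exact ⟨c, by rw [← hc, Algebra.smul_def, mul_one]⟩
    choose a ha using fun i => hsurj (p i)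
    have hpa : p = fun i => algebraMap F κ (a i) := by
      funext i
      exact (ha i).symm
    refine ⟨a, ?_, ?_⟩
    · rintro rfl
      apply hp0
      rw [hpa]
      funext i
      simp
    · have h3 := MvPolynomial.aeval_algebraMap_apply κ a f
      rw [hpa] at hfp
      have h4 : algebraMap F κ (MvPolynomial.eval a f) = 0 := by
        rw [← hfp, ← MvPolynomial.aeval_eq_eval]
        exact h3.symm
      rwa [FaithfulSMul.algebraMap_eq_zero_iff] at h4
  · exact ThreeL.cubic_quad h2 f hf p hp0 hfp

end Pool.Agent.Helper95K9.IR
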