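import Pool.Agent.Helper95K9.IR.Step
import Pool.Agent.Helper95K9.IR.ThreeL

/-!
MP_577596_ag, leaf [4U2].
-/

set_option autoImplicit false

namespace Pool.Agent.Helper95K9.IR.FourU2

open MvPolynomial Pool.Agent.Helper95K9.IR.Cub Pool.Agent.Helper95K9.IR.Step

universe u

section

variable {k : Type u} [Field k] {N : ℕ}

/-- `S M u` as a linear map. -/
noncomputable def SL (M : Fin N → Fin N → k) {A : Type u} [Field A] [Algebra k A]
    (u : Fin N → A) : (Fin N → A) →ₗ[A] A where
  toFun := S M u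
  map_add' := S_add_right M u
  map_smul' := fun a v => S_smul_right M a u v

theorem SL_apply (M : Fin N → Fin N → k) {A : Type u} [Field A] [Algebra k A]
    (u v : Fin N → A) : SL M u v = S M u v := rfl

/-- The basis vector in the extension. -/
theorem S_single (M : Fin N → Fin N → k) {A : Type u} [Field A] [Algebra k A]
    (u : Fin N → k) (i : Fin N) :
    S M (fun i => algebraMap k A (u i)) (Pi.single i 1) =
      algebraMap k A (S M u (Pi.single i 1)) := by
  have h : (Pi.single i 1 : Fin N → A) =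
      fun j => algebraMap k A ((Pi.single i 1 : Fin N → k) j) := by
    funext j
    by_cases h : j = i
    · subst h; simp
    · simp [h]
  rw [h, S_map']

theorem S_sum (M : Fin N → Fin N → k) {A : Type u} [Field A] [Algebra k A]
    (u w : Fin N → A) : S M u w = ∑ i, S M u (Pi.single i 1) * w i := by
  have h : w = ∑ i, w i • (Pi.single i 1 : Fin N → A) := by
    funext j
    simp [Finset.sum_apply, Pi.single_apply]
  nth_rewrite 1 [h]
  rw [← SL_apply, map_sum]
  refine Finset.sum_congr rfl fun i _ => ?_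
  rw [map_smul, SL_apply, smul_eq_mul, mul_comm]

/-- Partial derivatives. -/
theorem aeval_pderiv (M : Fin N → Fin N → k) {A : Type u} [Field A] [Algebra k A]
    (p : Fin N → A) (l : Fin N) :
    aeval p (pderiv l (∑ i, ∑ j, C (M i j) * X i * X j : MvPolynomial (Fin N) k)) =
      S M p (Pi.single l 1) := by
  simp only [S, B, map_sum, ← Finset.sum_add_distrib]
  have h1 : ∀ i j, aeval p (pderiv l (C (M i j) * X i * X j : MvPolynomial (Fin N) k)) =
      algebraMap k A (M i j) * p i * (Pi.single l 1 : Fin N → A) j +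
        algebraMap k A (M i j) * (Pi.single l 1 : Fin N → A) i * p j := by
    intro i j
    rw [pderiv_mul, pderiv_C_mul, pderiv_X, pderiv_X]
    by_cases hi : i = l
    · by_cases hj : j = l
      · subst hi; subst hj; simp
      · subst hi; simp [hj]
    · by_cases hj : j = l
      · subst hj; simp [hi]
      · simp [hi, hj]
  simp only [h1, Finset.sum_add_distrib]

end

/-- The left kernel of a singular matrix of size two. -/
theorem left_ker {A : Type u} [Field A] (m₁₁ m₁₂ m₂₁ m₂₂ : A) (h : m₁₁ * m₂₂ - m₁₂ * m₂₁ = 0) :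
    ∃ x y : A, ¬ (x = 0 ∧ y = 0) ∧ x * m₁₁ + y * m₂₁ = 0 ∧ x * m₁₂ + y * m₂₂ = 0 := by
  by_cases h1 : m₂₁ = 0 ∧ m₁₁ = 0
  · by_cases h2 : m₂₂ = 0 ∧ m₁₂ = 0
    · exact ⟨1, 0, by simp, by rw [h1.1, h1.2]; ring, by rw [h2.1, h2.2]; ring⟩
    · refine ⟨m₂₂, -m₁₂, fun h' => h2 ⟨h'.1, neg_eq_zero.1 h'.2⟩, ?_, by ring⟩
      rw [h1.1, h1.2]; ring
  · refine ⟨m₂₁, -m₁₁, fun h' => h1 ⟨h'.1, neg_eq_zero.1 h'.2⟩, by ring, ?_⟩
    linear_combination -h

/-- A polynomial `1 + b λ + c λ ^ 2` over an algebraically closed field. -/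
theorem root {A : Type u} [Field A] [IsAlgClosed A] (b c : A) :
    (∃ l : A, 1 + b * l + c * l ^ 2 = 0) ∨ (b = 0 ∧ c = 0) := by
  by_cases h : b = 0 ∧ c = 0
  · exact Or.inr h
  · left
    let f : Polynomial A := Polynomial.C c * Polynomial.X ^ 2 + Polynomial.C b * Polynomial.X +
      Polynomial.C 1
    have hd : f.degree ≠ 0 := by
      intro h0
      have h1 : f.natDegree = 0 := Polynomial.natDegree_eq_of_degree_eq_some h0
      apply h
      constructor
      · have := Polynomial.coeff_eq_zero_of_natDegree_lt (p := f) (n := 1) (by omega)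
        simpa [f, Polynomial.coeff_X, Polynomial.coeff_C, Polynomial.coeff_one] using this
      · have := Polynomial.coeff_eq_zero_of_natDegree_lt (p := f) (n := 2) (by omega)
        simpa [f, Polynomial.coeff_X, Polynomial.coeff_C, Polynomial.coeff_one] using this
    obtain ⟨l, hl⟩ := IsAlgClosed.exists_root f hd
    refine ⟨l, ?_⟩
    have : f.eval l = 0 := hl
    simp only [f, Polynomial.eval_add, Polynomial.eval_mul, Polynomial.eval_C,
      Polynomial.eval_pow, Polynomial.eval_X] at this
    linear_combination this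

section Smooth

variable {F : Type u} [Field F] (M₁ M₂ : Fin 5 → Fin 5 → F)

/-- Smoothness in terms of the bilinear forms. -/
def Sm : Prop := ∀ p : Fin 5 → AlgebraicClosure F, p ≠ 0 → B M₁ p p = 0 → B M₂ p p = 0 →
  ∀ a b : AlgebraicClosure F, (∀ w, a * S M₁ p w + b * S M₂ p w = 0) → a = 0 ∧ b = 0

/-- Smoothness at `F`-points. -/
theorem Sm.pt (hS : Sm M₁ M₂) (p : Fin 5 → F) (hp : p ≠ 0) (h₁ : B M₁ p p = 0)
    (h₂ : B M₂ p p = 0) (a b : F) (h : ∀ w, a * S M₁ p w + b * S M₂ p w = 0) :
    a = 0 ∧ b = 0 := by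
  have hinj := (algebraMap F (AlgebraicClosure F)).injective
  have h0 := hS (fun i => algebraMap F _ (p i)) ?_ ?_ ?_ (algebraMap F _ a) (algebraMap F _ b) ?_
  · exact ⟨(map_eq_zero_iff _ hinj).1 h0.1, (map_eq_zero_iff _ hinj).1 h0.2⟩
  · intro h0; apply hp; funext i
    exact (map_eq_zero_iff _ hinj).1 (congrFun h0 i)
  · rw [B_map, h₁, map_zero]
  · rw [B_map, h₂, map_zero]
  · intro w
    rw [S_sum M₁, S_sum M₂, Finset.mul_sum, Finset.mul_sum, ← Finset.sum_add_distrib]
    apply Finset.sum_eq_zero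
    intro i _
    rw [S_single, S_single]
    have := congrArg (algebraMap F (AlgebraicClosure F)) (h (Pi.single i 1))
    rw [map_add, map_mul, map_mul, map_zero] at this
    linear_combination w i * this

/-- Dual vectors. -/
theorem dual {V : Type u} [AddCommGroup V] [Module F V] (φ₁ φ₂ : V →ₗ[F] F)
    (h : ∀ a b : F, (∀ w, a * φ₁ w + b * φ₂ w = 0) → a = 0 ∧ b = 0) :
    ∃ w₁ w₂ : V, φ₁ w₁ = 1 ∧ φ₂ w₁ = 0 ∧ φ₁ w₂ = 0 ∧ φ₂ w₂ = 1 := by
  obtain ⟨v, hv⟩ : ∃ v, φ₁ v ≠ 0 := by
    by_contra hcon
    push Not at hcon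
    have := h 1 0 (by intro w; rw [hcon w]; ring)
    exact one_ne_zero this.1
  obtain ⟨v', hv1⟩ : ∃ v', φ₁ v' = 1 :=
    ⟨(φ₁ v)⁻¹ • v, by rw [map_smul, smul_eq_mul, inv_mul_cancel₀ hv]⟩
  obtain ⟨w, hw⟩ : ∃ w, φ₂ w - φ₂ v' * φ₁ w ≠ 0 := by
    by_contra hcon
    push Not at hcon
    have := h (-(φ₂ v')) 1 (by intro w; linear_combination hcon w)
    exact one_ne_zero this.2
  set d := φ₂ w - φ₂ v' * φ₁ w with hd
  set w₂ := d⁻¹ • (w - φ₁ w • v') with hw₂
  have h1 : φ₁ w₂ = 0 := by
    rw [hw₂, map_smul, map_sub, map_smul, hv1]; simp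
  have h2 : φ₂ w₂ = 1 := by
    rw [hw₂, map_smul, map_sub, map_smul, smul_eq_mul, smul_eq_mul]
    have : φ₂ w - φ₁ w * φ₂ v' = d := by rw [hd]; ring
    rw [this, inv_mul_cancel₀ hw]
  refine ⟨v' - φ₂ v' • w₂, w₂, ?_, ?_, h1, h2⟩
  · rw [map_sub, map_smul, h1, hv1]; simp
  · rw [map_sub, map_smul, h2]; simp

/-- A tangent direction along which the surface does not contain the tangent line. -/
theorem tangent (hS : Sm M₁ M₂) (p : Fin 5 → F) (hp : p ≠ 0) (h₁ : B M₁ p p = 0)
    (h₂ : B M₂ p p = 0) :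
    ∃ e : Fin 5 → F, S M₁ p e = 0 ∧ S M₂ p e = 0 ∧ ¬ (B M₁ e e = 0 ∧ B M₂ e e = 0) := by
  by_contra hcon
  push Not at hcon
  have hcon1 : ∀ e : Fin 5 → F, S M₁ p e = 0 → S M₂ p e = 0 → B M₁ e e = 0 := by
    intro e he1 he2; exact (hcon e he1 he2).1
  have hcon2 : ∀ e : Fin 5 → F, S M₁ p e = 0 → S M₂ p e = 0 → B M₂ e e = 0 := by
    intro e he1 he2; exact (hcon e he1 he2).2
  obtain ⟨w₁, w₂, e11, e21, e12, e22⟩ := dual (SL M₁ p) (SL M₂ p) (fun a b h => by
    exact hS.pt M₁ M₂ p hp h₁ h₂ a b h)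
  simp only [SL_apply] at e11 e21 e12 e22
  -- a tangent vector
  obtain ⟨e, he1, he2, hep⟩ : ∃ e : Fin 5 → F, S M₁ p e = 0 ∧ S M₂ p e = 0 ∧
      ∀ r : F, e ≠ r • p := by
    let Φ : (Fin 5 → F) →ₗ[F] F × F := (SL M₁ p).prod (SL M₂ p)
    have hr := LinearMap.finrank_range_add_finrank_ker Φ
    have hr2 : Module.finrank F (LinearMap.range Φ) ≤ 2 := by
      have := Submodule.finrank_le (LinearMap.range Φ)
      simpa using this
    have h5 : Module.finrank F (Fin 5 → F) = 5 := by simp
    have hk : ¬ LinearMap.ker Φ ≤ Submodule.span F {p} := by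
      intro hle
      have h1 := Submodule.finrank_mono hle
      have h2 := finrank_span_singleton (K := F) hp
      omega
    obtain ⟨e, he, hne⟩ := SetLike.not_le_iff_exists.1 hk
    have he' : Φ e = 0 := he
    refine ⟨e, (Prod.ext_iff.1 he').1, (Prod.ext_iff.1 he').2, fun r hr => hne ?_⟩
    rw [hr]
    exact Submodule.smul_mem _ r (Submodule.mem_span_singleton_self p)
  have hqe1 := hcon1 e he1 he2
  have hqe2 := hcon2 e he1 he2
  -- the relation between the gradients
  have hrel : ∀ (M : Fin 5 → Fin 5 → F),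
      (∀ t : Fin 5 → F, S M₁ p t = 0 → S M₂ p t = 0 → B M t t = 0) →
      ∀ w : Fin 5 → F, S M e w = S M e w₁ * S M₁ p w + S M e w₂ * S M₂ p w := by
    intro M hM w
    set t := w - (S M₁ p w) • w₁ - (S M₂ p w) • w₂ with ht
    have hw : w = t + (S M₁ p w) • w₁ + (S M₂ p w) • w₂ := by rw [ht]; abel
    have ht1 : S M₁ p t = 0 := by
      rw [ht, ← SL_apply, map_sub, map_sub, map_smul, map_smul, SL_apply, SL_apply, SL_apply,
        e11, e12]
      simp
    have ht2 : S M₂ p t = 0 := by
      rw [ht, ← SL_apply, map_sub, map_sub, map_smul, map_smul, SL_apply, SL_apply, SL_apply,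
        e21, e22]
      simp
    have hst : S M e t = 0 := by
      have h1 := hM (e + t) (by rw [S_add_right, he1, ht1, add_zero])
        (by rw [S_add_right, he2, ht2, add_zero])
      rw [B_add_self, hM e he1 he2, hM t ht1 ht2] at h1
      simpa using h1
    nth_rewrite 1 [hw]
    rw [S_add_right, S_add_right, S_smul_right, S_smul_right, hst]
    ring
  have hrel1 := hrel M₁ hcon1
  have hrel2 := hrel M₂ hcon2
  set a₁ := S M₁ e w₁
  set b₁ := S M₁ e w₂
  set a₂ := S M₂ e w₁
  set b₂ := S M₂ e w₂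
  -- over the closure
  let Fb := AlgebraicClosure F
  let φ : F →+* Fb := algebraMap F Fb
  have hinj : Function.Injective φ := φ.injective
  let pb : Fin 5 → Fb := fun i => φ (p i)
  let eb : Fin 5 → Fb := fun i => φ (e i)
  have hrelb : ∀ (M : Fin 5 → Fin 5 → F) (a b : F),
      (∀ w : Fin 5 → F, S M e w = a * S M₁ p w + b * S M₂ p w) →
      ∀ w : Fin 5 → Fb, S M eb w = φ a * S M₁ pb w + φ b * S M₂ pb w := by
    intro M a b h w
    rw [S_sum M, S_sum M₁, S_sum M₂, Finset.mul_sum, Finset.mul_sum, ← Finset.sum_add_distrib]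
    refine Finset.sum_congr rfl fun i _ => ?_
    have h1 : S M eb (Pi.single i 1) = φ (S M e (Pi.single i 1)) := S_single M e i
    have h2 : S M₁ pb (Pi.single i 1) = φ (S M₁ p (Pi.single i 1)) := S_single M₁ p i
    have h3 : S M₂ pb (Pi.single i 1) = φ (S M₂ p (Pi.single i 1)) := S_single M₂ p i
    rw [h1, h2, h3, h, map_add, map_mul, map_mul]
    ring
  have hb1 := hrelb M₁ a₁ b₁ hrel1
  have hb2 := hrelb M₂ a₂ b₂ hrel2
  have hBp : ∀ M : Fin 5 → Fin 5 → F, B M pb pb = φ (B M p p) := fun M => B_map M p p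
  have hBe : ∀ M : Fin 5 → Fin 5 → F, B M eb eb = φ (B M e e) := fun M => B_map M e e
  have hSpe : ∀ M : Fin 5 → Fin 5 → F, S M pb eb = φ (S M p e) := fun M => by
    unfold S; rw [map_add]; exact congrArg₂ (· + ·) (B_map M p e) (B_map M e p)
  rcases root (φ (a₁ + b₂)) (φ (a₁ * b₂ - a₂ * b₁)) with ⟨l, hl⟩ | ⟨hl1, hl2⟩
  · -- a singular point on the line through `p` and `e`
    obtain ⟨x, y, hxy, hx, hy⟩ := left_ker (1 + l * φ a₁) (l * φ b₁) (l * φ a₂)
      (1 + l * φ b₂) (by
        simp only [map_add, map_sub, map_mul] at hl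
        linear_combination hl)
    apply hxy
    refine hS (pb + l • eb) ?_ ?_ ?_ x y ?_
    · intro h0
      obtain ⟨i, hi⟩ := Function.ne_iff.1 hp
      have hpi : p i ≠ 0 := hi
      have h1 : ∀ j, φ (p j) + l * φ (e j) = 0 := fun j => congrFun h0 j
      apply hep (e i / p i)
      funext j
      have h4 : p j * e i = p i * e j := by
        apply hinj
        rw [map_mul, map_mul]
        linear_combination φ (e i) * h1 j - φ (e j) * h1 i
      rw [Pi.smul_apply, smul_eq_mul, div_mul_eq_mul_div, eq_div_iff hpi]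
      linear_combination -h4
    · rw [B_add_self, S_smul_right, B_smul_left, B_smul_right, hBp, hBe, hSpe, h₁, he1, hqe1]
      simp
    · rw [B_add_self, S_smul_right, B_smul_left, B_smul_right, hBp, hBe, hSpe, h₂, he2, hqe2]
      simp
    · intro w
      rw [S_add_left, S_add_left, S_smul_left, S_smul_left, hb1, hb2]
      linear_combination S M₁ pb w * hx + S M₂ pb w * hy
  · -- `e` is singular
    have hl1' : a₁ + b₂ = 0 := (map_eq_zero_iff _ hinj).1 hl1
    have hl2' : a₁ * b₂ - a₂ * b₁ = 0 := (map_eq_zero_iff _ hinj).1 hl2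
    obtain ⟨x, y, hxy, hx, hy⟩ := left_ker a₁ b₁ a₂ b₂ (by linear_combination hl2')
    apply hxy
    refine hS.pt M₁ M₂ e ?_ hqe1 hqe2 x y ?_
    · intro h0
      apply hep 0
      rw [h0]; simp
    · intro w
      rw [hrel1, hrel2]
      linear_combination S M₁ p w * hx + S M₂ p w * hy

/-- The combination of two forms. -/
theorem B_comb (c₁ c₂ : F) {A : Type u} [Field A] [Algebra F A] (u v : Fin 5 → A) :
    B (fun i j => c₂ * M₁ i j - c₁ * M₂ i j) u v =
      algebraMap F A c₂ * B M₁ u v - algebraMap F A c₁ * B M₂ u v := by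
  simp only [B, Finset.mul_sum, ← Finset.sum_sub_distrib]
  refine Finset.sum_congr rfl fun i _ => Finset.sum_congr rfl fun j _ => ?_
  rw [map_sub, map_mul, map_mul]; ring

theorem S_comb (c₁ c₂ : F) {A : Type u} [Field A] [Algebra F A] (u v : Fin 5 → A) :
    S (fun i j => c₂ * M₁ i j - c₁ * M₂ i j) u v =
      algebraMap F A c₂ * S M₁ u v - algebraMap F A c₁ * S M₂ u v := by
  unfold S; rw [B_comb, B_comb]; ring

/-- The common step for two forms of which one does not vanish on the line. -/
theorem core2 (hUB : S_UB.{u}) (hYL : S_YL.{u}) {K : Type u} [Field K] [Algebra F K]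
    (hK : IsSurfaceField F K) (P : Fin 5 → K)
    (hlin : ∀ c : Fin 5 → F, c ≠ 0 → ∑ i, algebraMap F K (c i) * P i ≠ 0)
    (hM₁ : B M₁ P P = 0) (hM₂ : B M₂ P P = 0)
    (hgen : IntermediateField.adjoin F {z : K | ∃ i j, z = P i / P j} = ⊤)
    (u₀ u₁ : Fin 5 → F) (hu : LinearIndependent F ![u₀, u₁]) (c₁ c₂ α β : F)
    (hc : ¬ (c₁ = 0 ∧ c₂ = 0))
    (h00 : B M₁ u₀ u₀ = -(c₁ * α)) (h01 : S M₁ u₀ u₁ = -(c₁ * β)) (h11 : B M₁ u₁ u₁ = c₁)
    (h00' : B M₂ u₀ u₀ = -(c₂ * α)) (h01' : S M₂ u₀ u₁ = -(c₂ * β)) (h11' : B M₂ u₁ u₁ = c₂)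
    (hN : S (fun i j => c₂ * M₁ i j - c₁ * M₂ i j) (fun i => algebraMap F K (u₀ i)) P ^ 2 +
      algebraMap F K β *
        S (fun i j => c₂ * M₁ i j - c₁ * M₂ i j) (fun i => algebraMap F K (u₀ i)) P *
        S (fun i j => c₂ * M₁ i j - c₁ * M₂ i j) (fun i => algebraMap F K (u₁ i)) P -
      algebraMap F K α *
        S (fun i j => c₂ * M₁ i j - c₁ * M₂ i j) (fun i => algebraMap F K (u₁ i)) P ^ 2 ≠ 0) :
    ∃ n, n ≤ 2 ∧ HasDeg F K n := by
  have hM' : B (fun i j => c₂ * M₁ i j - c₁ * M₂ i j) P P = 0 := by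
    rw [B_comb, hM₁, hM₂]; ring
  have k00 : B (fun i j => c₂ * M₁ i j - c₁ * M₂ i j) u₀ u₀ = 0 := by
    rw [B_comb, h00, h00', Algebra.algebraMap_self_apply, Algebra.algebraMap_self_apply]; ring
  have k01 : S (fun i j => c₂ * M₁ i j - c₁ * M₂ i j) u₀ u₁ = 0 := by
    rw [S_comb, h01, h01', Algebra.algebraMap_self_apply, Algebra.algebraMap_self_apply]; ring
  have k11 : B (fun i j => c₂ * M₁ i j - c₁ * M₂ i j) u₁ u₁ = 0 := by
    rw [B_comb, h11, h11', Algebra.algebraMap_self_apply, Algebra.algebraMap_self_apply]; ring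
  by_cases h1 : c₁ = 0
  · have h2 : c₂ ≠ 0 := fun h => hc ⟨h1, h⟩
    exact core hUB hYL hK M₂ _ P hlin hM₂ hM' hgen u₀ u₁ hu c₂ α β h2 h00' h01' h11' k00 k01
      k11 hN
  · exact core hUB hYL hK M₁ _ P hlin hM₁ hM' hgen u₀ u₁ hu c₁ α β h1 h00 h01 h11 k00 k01
      k11 hN

/-- The case of an `F`-point. -/
theorem case1 (hS : Sm M₁ M₂) (hUB : S_UB.{u}) (hYL : S_YL.{u}) {K : Type u} [Field K]
    [Algebra F K] (hK : IsSurfaceField F K) (P : Fin 5 → K)
    (hlin : ∀ c : Fin 5 → F, c ≠ 0 → ∑ i, algebraMap F K (c i) * P i ≠ 0)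
    (hM₁ : B M₁ P P = 0) (hM₂ : B M₂ P P = 0)
    (hgen : IntermediateField.adjoin F {z : K | ∃ i j, z = P i / P j} = ⊤)
    (p : Fin 5 → F) (hp : p ≠ 0) (h₁ : B M₁ p p = 0) (h₂ : B M₂ p p = 0) :
    ∃ n, n ≤ 2 ∧ HasDeg F K n := by
  obtain ⟨e, he1, he2, hc⟩ := tangent M₁ M₂ hS p hp h₁ h₂
  have hli : LinearIndependent F ![p, e] := by
    rw [LinearIndependent.pair_iff' hp]
    intro r hr
    apply hc
    rw [← hr, B_smul_left, B_smul_right, B_smul_left, B_smul_right, h₁, h₂]
    simp
  refine core2 M₁ M₂ hUB hYL hK P hlin hM₁ hM₂ hgen p e hli (B M₁ e e) (B M₂ e e) 0 0 hc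
    (by rw [h₁]; ring) (by rw [he1]; ring) rfl (by rw [h₂]; ring) (by rw [he2]; ring) rfl ?_
  rw [map_zero, zero_mul, zero_mul, zero_mul, add_zero, sub_zero]
  apply pow_ne_zero
  rw [S_sum]
  simp only [S_single]
  apply hlin
  intro h0
  have h3 : ∀ w : Fin 5 → F, B M₂ e e * S M₁ p w + (-(B M₁ e e)) * S M₂ p w = 0 := by
    intro w
    have h4 : S (fun i j => B M₂ e e * M₁ i j - B M₁ e e * M₂ i j) p w = 0 := by
      rw [S_sum]
      apply Finset.sum_eq_zero
      intro i _
      have := congrFun h0 i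
      simp only [Pi.zero_apply] at this
      rw [this, zero_mul]
    rw [S_comb, Algebra.algebraMap_self_apply, Algebra.algebraMap_self_apply] at h4
    linear_combination h4
  have h5 := hS.pt M₁ M₂ p hp h₁ h₂ _ _ h3
  exact hc ⟨neg_eq_zero.1 h5.2, h5.1⟩

end Smooth

theorem fourU2 (hUB : S_UB.{u}) (hYL : S_YL.{u}) : S_4U2.{u} := by
  intro F K _ _ _ f hf hsm hFF hpt
  obtain ⟨M₁, hf₁⟩ := exists_matrix (f 0) (hf 0)
  obtain ⟨M₂, hf₂⟩ := exists_matrix (f 1) (hf 1)
  obtain ⟨hK, P, hP0, hPid, hgen⟩ := hFF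
  -- smoothness
  have hS : Sm M₁ M₂ := by
    intro p hp hp₁ hp₂ a b hab
    have h1 := hsm p hp (by
      intro j
      fin_cases j
      · change aeval p (f 0) = 0
        rw [hf₁, aeval_eq]; exact hp₁
      · change aeval p (f 1) = 0
        rw [hf₂, aeval_eq]; exact hp₂)
    rw [Fintype.linearIndependent_iff] at h1
    have h2 := h1 ![a, b] (by
      rw [Fin.sum_univ_two]
      funext i
      simp only [Matrix.cons_val_zero, Matrix.cons_val_one, Pi.add_apply, Pi.smul_apply,
        smul_eq_mul, Pi.zero_apply, Matrix.cons_val_fin_one]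
      rw [hf₁, hf₂, aeval_pderiv, aeval_pderiv]
      exact hab _)
    exact ⟨h2 0, h2 1⟩
  -- the generic point
  have hM₁ : B M₁ P P = 0 := by
    rw [← aeval_eq, ← hf₁]
    exact (hPid 2 (f 0) (hf 0)).2 (Ideal.subset_span ⟨0, rfl⟩)
  have hM₂ : B M₂ P P = 0 := by
    rw [← aeval_eq, ← hf₂]
    exact (hPid 2 (f 1) (hf 1)).2 (Ideal.subset_span ⟨1, rfl⟩)
  have hlin : ∀ c : Fin 5 → F, c ≠ 0 → ∑ i, algebraMap F K (c i) * P i ≠ 0 := fun c hc =>
    Tool.lin_ne_zero f 2 (by norm_num) hf P hPid c hc
  obtain ⟨κ, hκ, p, hp, hfp⟩ := hpt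
  have hp₁ : B M₁ p p = 0 := by
    rw [← aeval_eq, ← hf₁]; exact hfp 0
  have hp₂ : B M₂ p p = 0 := by
    rw [← aeval_eq, ← hf₂]; exact hfp 1
  have hinj := (algebraMap F κ).injective
  rcases hκ with hκ | hκ
  · -- degree one
    have hsurj : ∀ x : κ, ∃ a : F, algebraMap F κ a = x := by
      intro x
      obtain ⟨a, ha⟩ := (finrank_eq_one_iff_of_nonzero' (1 : κ) one_ne_zero).1 hκ x
      exact ⟨a, by rw [← ha, Algebra.smul_def, mul_one]⟩
    choose p' hp' using fun i => hsurj (p i)
    have hpe : p = fun i => algebraMap F κ (p' i) := by funext i; exact (hp' i).symm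
    rw [hpe, B_map] at hp₁ hp₂
    exact case1 M₁ M₂ hS hUB hYL hK P hlin hM₁ hM₂ hgen p' (by
      rintro rfl; apply hp; rw [hpe]; funext i; simp) ((map_eq_zero_iff _ hinj).1 hp₁)
      ((map_eq_zero_iff _ hinj).1 hp₂)
  · -- degree two
    obtain ⟨η, hη, hab⟩ := ThreeL.quad hκ
    choose p₀ p₁ hp' using fun i => hab (p i)
    obtain ⟨α, β, hαβ⟩ := hab (η ^ 2)
    have hind : ∀ a b : F, algebraMap F κ a + algebraMap F κ b * η = 0 → a = 0 ∧ b = 0 := by
      intro a b h
      by_cases hb : b = 0
      · rw [hb, map_zero, zero_mul, add_zero] at h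
        exact ⟨(map_eq_zero_iff _ hinj).1 h, hb⟩
      · exfalso
        apply hη
        refine ⟨-a / b, ?_⟩
        have hb' : algebraMap F κ b ≠ 0 := by rwa [Ne, map_eq_zero_iff _ hinj]
        rw [map_div₀, map_neg, div_eq_iff hb']
        linear_combination -h
    have hpe : p = (fun i => algebraMap F κ (p₀ i)) + η • (fun i => algebraMap F κ (p₁ i)) := by
      funext i
      simp only [Pi.add_apply, Pi.smul_apply, smul_eq_mul]
      rw [hp' i]; ring
    have hval : ∀ M : Fin 5 → Fin 5 → F, B M p p = 0 →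
        B M p₀ p₀ = -(B M p₁ p₁ * α) ∧ S M p₀ p₁ = -(B M p₁ p₁ * β) := by
      intro M hM
      rw [hpe, B_add_self, S_smul_right, B_smul_left, B_smul_right, B_map, B_map] at hM
      have h1 : S M (fun i => algebraMap F κ (p₀ i)) (fun i => algebraMap F κ (p₁ i)) =
          algebraMap F κ (S M p₀ p₁) := by
        unfold S; rw [B_map, B_map, map_add]
      rw [h1] at hM
      have h2 := hind (B M p₀ p₀ + B M p₁ p₁ * α) (S M p₀ p₁ + B M p₁ p₁ * β) (by
        rw [map_add, map_add, map_mul, map_mul]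
        linear_combination hM - algebraMap F κ (B M p₁ p₁) * hαβ)
      exact ⟨by linear_combination h2.1, by linear_combination h2.2⟩
    obtain ⟨v00, v01⟩ := hval M₁ hp₁
    obtain ⟨v00', v01'⟩ := hval M₂ hp₂
    -- an `F`-point if the vectors are dependent
    have hdep : ∀ (v : Fin 5 → F) (z : κ), p = z • (fun i => algebraMap F κ (v i)) →
        ∃ n, n ≤ 2 ∧ HasDeg F K n := by
      intro v z hz
      have hz0 : z ≠ 0 := by
        rintro rfl; apply hp; rw [hz, zero_smul]
      have hv0 : v ≠ 0 := by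
        rintro rfl; apply hp; rw [hz]; funext i; simp
      have hBv : ∀ M : Fin 5 → Fin 5 → F, B M p p = 0 → B M v v = 0 := by
        intro M hM
        rw [hz, B_smul_left, B_smul_right, B_map] at hM
        rcases mul_eq_zero.1 hM with h | h
        · exact absurd h hz0
        · rcases mul_eq_zero.1 h with h | h
          · exact absurd h hz0
          · exact (map_eq_zero_iff _ hinj).1 h
      exact case1 M₁ M₂ hS hUB hYL hK P hlin hM₁ hM₂ hgen v hv0 (hBv M₁ hp₁) (hBv M₂ hp₂)
    by_cases hli : LinearIndependent F ![p₀, p₁]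
    · by_cases hc : B M₁ p₁ p₁ = 0 ∧ B M₂ p₁ p₁ = 0
      · -- `p₁` is a point
        refine case1 M₁ M₂ hS hUB hYL hK P hlin hM₁ hM₂ hgen p₁ ?_ hc.1 hc.2
        exact hli.ne_zero 1
      · refine core2 M₁ M₂ hUB hYL hK P hlin hM₁ hM₂ hgen p₀ p₁ hli (B M₁ p₁ p₁)
          (B M₂ p₁ p₁) α β hc v00 v01 rfl v00' v01' rfl ?_
        set Q : Fin 5 → Fin 5 → F :=
          fun i j => B M₂ p₁ p₁ * M₁ i j - B M₁ p₁ p₁ * M₂ i j with hQ
        intro hN
        by_cases h1 : S Q (fun i => algebraMap F K (p₁ i)) P = 0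
        · have h0 : S Q (fun i => algebraMap F K (p₀ i)) P = 0 := by
            rw [h1] at hN
            have : S Q (fun i => algebraMap F K (p₀ i)) P ^ 2 = 0 := by
              linear_combination hN
            exact pow_eq_zero_iff (two_ne_zero) |>.1 this
          -- both linear forms vanish identically
          have hz : ∀ u : Fin 5 → F, S Q (fun i => algebraMap F K (u i)) P = 0 →
              ∀ i, S Q u (Pi.single i 1) = 0 := by
            intro u hu
            rw [S_sum] at hu
            simp only [S_single] at hu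
            by_contra hcon
            push Not at hcon
            obtain ⟨i, hi⟩ := hcon
            refine hlin (fun i => S Q u (Pi.single i 1)) ?_ hu
            intro h
            exact hi (congrFun h i)
          have hz0 := hz p₀ h0
          have hz1 := hz p₁ h1
          -- the point over the closure
          let pb : Fin 5 → AlgebraicClosure F := fun i => algebraMap κ _ (p i)
          have h2 := hS pb (by
            intro h; apply hp; funext i
            have := congrFun h i
            exact (map_eq_zero_iff _ (algebraMap κ (AlgebraicClosure F)).injective).1 this)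
            (by
              have := B_map' M₁ (A := κ) (A' := AlgebraicClosure F) p p
              rw [hp₁, map_zero] at this
              exact this)
            (by
              have := B_map' M₂ (A := κ) (A' := AlgebraicClosure F) p p
              rw [hp₂, map_zero] at this
              exact this)
            (algebraMap F _ (B M₂ p₁ p₁)) (-(algebraMap F _ (B M₁ p₁ p₁))) (by
              intro w
              have h3 : S Q pb w = 0 := by
                have hpb : pb = (fun i => algebraMap F (AlgebraicClosure F) (p₀ i)) +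
                    (algebraMap κ (AlgebraicClosure F) η) •
                      (fun i => algebraMap F (AlgebraicClosure F) (p₁ i)) := by
                  funext i
                  simp only [pb, Pi.add_apply, Pi.smul_apply, smul_eq_mul]
                  rw [hp' i, map_add, map_mul, ← IsScalarTower.algebraMap_apply,
                    ← IsScalarTower.algebraMap_apply]
                  ring
                rw [hpb, S_add_left, S_smul_left, S_sum, S_sum Q _ w]
                have e0 : ∀ i, S Q (fun i => algebraMap F (AlgebraicClosure F) (p₀ i))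
                    (Pi.single i 1) = 0 := fun i => by rw [S_single, hz0 i, map_zero]
                have e1 : ∀ i, S Q (fun i => algebraMap F (AlgebraicClosure F) (p₁ i))
                    (Pi.single i 1) = 0 := fun i => by rw [S_single, hz1 i, map_zero]
                simp only [e0, e1]
                simp
              rw [hQ, S_comb] at h3
              linear_combination h3)
          apply hc
          refine ⟨?_, ?_⟩
          · exact (map_eq_zero_iff _ (algebraMap F (AlgebraicClosure F)).injective).1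
              (neg_eq_zero.1 h2.2)
          · exact (map_eq_zero_iff _ (algebraMap F (AlgebraicClosure F)).injective).1 h2.1
        · -- a root of the minimal polynomial in `K`
          set ρ := -(S Q (fun i => algebraMap F K (p₀ i)) P) /
            S Q (fun i => algebraMap F K (p₁ i)) P with hρ
          have hρ2 : ρ ^ 2 - algebraMap F K β * ρ - algebraMap F K α = 0 := by
            rw [hρ]
            field_simp
            linear_combination hN
          have halg : IsAlgebraic F ρ := by
            refine ⟨Polynomial.X ^ 2 - Polynomial.C β * Polynomial.X - Polynomial.C α, ?_, ?_⟩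
            · intro h
              have := congrArg (fun q => Polynomial.coeff q 2) h
              simp at this
            · simp only [map_sub, map_mul, map_pow, Polynomial.aeval_X, Polynomial.aeval_C]
              exact hρ2
          obtain ⟨r, hr⟩ := hK.2 ρ halg
          have hr2 : r ^ 2 - β * r - α = 0 := by
            apply (algebraMap F K).injective
            rw [map_sub, map_sub, map_mul, map_pow, hr, map_zero]
            exact hρ2
          have h3 : (η - algebraMap F κ r) * (η - algebraMap F κ (β - r)) = 0 := by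
            have h4 := congrArg (algebraMap F κ) hr2
            simp only [map_sub, map_mul, map_pow, map_zero] at h4
            rw [map_sub]
            linear_combination hαβ - h4
          rcases mul_eq_zero.1 h3 with h | h
          · exact hη ⟨r, (sub_eq_zero.1 h).symm⟩
          · exact hη ⟨β - r, (sub_eq_zero.1 h).symm⟩
    · -- dependent
      by_cases hp0 : p₀ = 0
      · exact hdep p₁ η (by rw [hpe, hp0]; funext i; simp)
      · rw [LinearIndependent.pair_iff' hp0] at hli
        push Not at hli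
        obtain ⟨r, hr⟩ := hli
        refine hdep p₀ (1 + η * algebraMap F κ r) ?_
        rw [hpe, ← hr]
        funext i
        simp only [Pi.add_apply, Pi.smul_apply, smul_eq_mul, map_mul]
        ring

end Pool.Agent.Helper95K9.IR.FourU2
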