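import Pool.Agent.Helper95K9.IR.Cubic
import Pool.Agent.Helper95K9.IR.Cub

/-!
Degree of irrationality of del Pezzo surfaces: the leaf [4U4].
-/

set_option autoImplicit false

namespace Pool.Agent.Helper95K9.IR.FourU4

open MvPolynomial Pool.Agent.Helper95K9.IR.Tool

universe u

/-- A binary quadratic form has a zero in degree at most two. -/
theorem one_form {F : Type u} [Field F] (a b c : F) :
    ∃ κ : IntermediateField F (AlgebraicClosure F),
      (Module.finrank F κ = 1 ∨ Module.finrank F κ = 2) ∧ ∃ x y : κ, ¬ (x = 0 ∧ y = 0) ∧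
        algebraMap F κ a * x ^ 2 + algebraMap F κ b * x * y + algebraMap F κ c * y ^ 2 = 0 := by
  by_cases ha : a = 0
  · refine ⟨⊥, Or.inl IntermediateField.finrank_bot, 1, 0, by simp, by simp [ha]⟩
  · obtain ⟨x, hx⟩ := IsAlgClosed.exists_eval₂_eq_zero (algebraMap F (AlgebraicClosure F))
      (Polynomial.C a * Polynomial.X ^ 2 + Polynomial.C b * Polynomial.X + Polynomial.C c) (by
        rw [Polynomial.degree_quadratic ha]; decide)
    have halg : IsIntegral F x := Algebra.IsIntegral.isIntegral x
    have hp : Polynomial.aeval x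
        (Polynomial.C a * Polynomial.X ^ 2 + Polynomial.C b * Polynomial.X + Polynomial.C c) = 0 := by
      rw [Polynomial.aeval_def]; exact hx
    have hne : (Polynomial.C a * Polynomial.X ^ 2 + Polynomial.C b * Polynomial.X +
        Polynomial.C c) ≠ 0 := by
      intro h
      have := congrArg Polynomial.degree h
      rw [Polynomial.degree_quadratic ha] at this
      simp at this
    have hdeg : (minpoly F x).natDegree ≤ 2 := by
      have h1 := Polynomial.natDegree_le_of_dvd (minpoly.dvd F x hp) hne
      rwa [Polynomial.natDegree_quadratic ha] at h1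
    have hpos := minpoly.natDegree_pos halg
    refine ⟨IntermediateField.adjoin F {x}, ?_, ⟨x, IntermediateField.mem_adjoin_simple_self F x⟩,
      1, by simp, ?_⟩
    · rw [IntermediateField.adjoin.finrank halg]
      omega
    · apply Subtype.ext
      simp only [map_add, map_mul, map_pow, Polynomial.aeval_C,
        Polynomial.aeval_X] at hp
      simpa using hp

/-- Two binary quadratic forms with resultant zero. -/
theorem two_forms {F : Type u} [Field F] (a b c a' b' c' : F)
    (h : (a * c' - a' * c) ^ 2 - (a * b' - a' * b) * (b * c' - b' * c) = 0) :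
    ∃ κ : IntermediateField F (AlgebraicClosure F),
      (Module.finrank F κ = 1 ∨ Module.finrank F κ = 2) ∧ ∃ x y : κ, ¬ (x = 0 ∧ y = 0) ∧
        algebraMap F κ a * x ^ 2 + algebraMap F κ b * x * y + algebraMap F κ c * y ^ 2 = 0 ∧
        algebraMap F κ a' * x ^ 2 + algebraMap F κ b' * x * y + algebraMap F κ c' * y ^ 2 = 0 := by
  -- rational zeros
  have hrat : (∃ x y : F, ¬ (x = 0 ∧ y = 0) ∧ a * x ^ 2 + b * x * y + c * y ^ 2 = 0 ∧
      a' * x ^ 2 + b' * x * y + c' * y ^ 2 = 0) → 
      ∃ κ : IntermediateField F (AlgebraicClosure F),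
      (Module.finrank F κ = 1 ∨ Module.finrank F κ = 2) ∧ ∃ x y : κ, ¬ (x = 0 ∧ y = 0) ∧
        algebraMap F κ a * x ^ 2 + algebraMap F κ b * x * y + algebraMap F κ c * y ^ 2 = 0 ∧
        algebraMap F κ a' * x ^ 2 + algebraMap F κ b' * x * y + algebraMap F κ c' * y ^ 2 = 0 := by
    rintro ⟨x, y, hxy, h1, h2⟩
    refine ⟨⊥, Or.inl IntermediateField.finrank_bot, algebraMap F _ x, algebraMap F _ y, ?_, ?_, ?_⟩
    · simpa using hxy
    · have := congrArg (algebraMap F (⊥ : IntermediateField F (AlgebraicClosure F))) h1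
      simpa only [map_add, map_mul, map_pow, map_zero] using this
    · have := congrArg (algebraMap F (⊥ : IntermediateField F (AlgebraicClosure F))) h2
      simpa only [map_add, map_mul, map_pow, map_zero] using this
  by_cases hD1 : a * b' - a' * b = 0
  · have hD2 : a * c' - a' * c = 0 := by
      rw [hD1, zero_mul, sub_zero] at h
      exact pow_eq_zero_iff (two_ne_zero) |>.1 h
    by_cases hD3 : b * c' - b' * c = 0
    · -- proportional
      by_cases hz : a = 0 ∧ b = 0 ∧ c = 0
      · obtain ⟨rfl, rfl, rfl⟩ := hz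
        obtain ⟨κ, hκ, x, y, hxy, hq⟩ := one_form a' b' c'
        exact ⟨κ, hκ, x, y, hxy, by simp, hq⟩
      · obtain ⟨κ, hκ, x, y, hxy, hq⟩ := one_form a b c
        refine ⟨κ, hκ, x, y, hxy, hq, ?_⟩
        -- some coefficient is not zero
        have key : ∀ r r' : F, r ≠ 0 → r * a' = r' * a → r * b' = r' * b → r * c' = r' * c →
            algebraMap F κ a' * x ^ 2 + algebraMap F κ b' * x * y +
              algebraMap F κ c' * y ^ 2 = 0 := by
          intro r r' hr e1 e2 e3
          have hr' : algebraMap F κ r ≠ 0 := by simpa using hr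
          apply mul_left_cancel₀ hr'
          have e1' := congrArg (algebraMap F κ) e1
          have e2' := congrArg (algebraMap F κ) e2
          have e3' := congrArg (algebraMap F κ) e3
          simp only [map_mul] at e1' e2' e3'
          linear_combination x ^ 2 * e1' + x * y * e2' + y ^ 2 * e3' + algebraMap F κ r' * hq
        by_cases ha : a = 0
        · by_cases hb : b = 0
          · have hc : c ≠ 0 := fun hc => hz ⟨ha, hb, hc⟩
            exact key c c' hc (by linear_combination -hD2) (by linear_combination -hD3) (by ring)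
          · exact key b b' hb (by linear_combination -hD1) (by ring) (by linear_combination hD3)
        · exact key a a' ha (by ring) (by linear_combination hD1) (by linear_combination hD2)
    · apply hrat
      refine ⟨1, 0, by simp, ?_, ?_⟩
      · by_contra hne
        have ha : a ≠ 0 := by
          intro ha; apply hne; rw [ha]; ring
        apply hD3
        apply mul_left_cancel₀ ha
        linear_combination (b) * hD2 - c * hD1
      · by_contra hne
        have ha : a' ≠ 0 := by
          intro ha; apply hne; rw [ha]; ring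
        apply hD3
        apply mul_left_cancel₀ ha
        linear_combination (b') * hD2 - c' * hD1
  · apply hrat
    refine ⟨-(a * c' - a' * c), a * b' - a' * b, fun hh => hD1 hh.2, ?_, ?_⟩
    · apply mul_left_cancel₀ hD1
      linear_combination (a * (a * b' - a' * b)) * h
    · apply mul_left_cancel₀ hD1
      linear_combination (a' * (a * b' - a' * b)) * h

/-- [4U4] -/
theorem _root_.Pool.Agent.Helper95K9.IR.fourU4 (hUB : S_UB.{u}) (hBZ : S_BZ22.{u}) :
    S_4U4.{u} := by
  intro F K _ _ _ f hf hFF hno
  obtain ⟨hK, P, hP0, hP, hgen⟩ := hFF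
  obtain ⟨M, hM⟩ := Cub.exists_matrix (f 0) (hf 0)
  obtain ⟨M', hM'⟩ := Cub.exists_matrix (f 1) (hf 1)
  have hres : ((M 0 0) * (M' 1 1) - (M' 0 0) * (M 1 1)) ^ 2 -
      ((M 0 0) * (M' 0 1 + M' 1 0) - (M' 0 0) * (M 0 1 + M 1 0)) *
      ((M 0 1 + M 1 0) * (M' 1 1) - (M' 0 1 + M' 1 0) * (M 1 1)) ≠ 0 := by
    intro h
    obtain ⟨κ, hκ, x, y, hxy, h1, h2⟩ := two_forms _ _ _ _ _ _ h
    apply hno
    refine ⟨κ, hκ, ![x, y, 0, 0, 0], ?_, ?_⟩
    · intro h0
      exact hxy ⟨by simpa using congrFun h0 0, by simpa using congrFun h0 1⟩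
    · intro j
      fin_cases j
      · change aeval _ (f 0) = 0
        rw [hM, Cub.aeval_eq]
        simp only [Cub.B, Fin.sum_univ_five, Matrix.cons_val_zero, Matrix.cons_val_one,
          Matrix.cons_val]
        simp only [map_add] at h1
        linear_combination h1
      · change aeval _ (f 1) = 0
        rw [hM', Cub.aeval_eq]
        simp only [Cub.B, Fin.sum_univ_five, Matrix.cons_val_zero, Matrix.cons_val_one,
          Matrix.cons_val]
        simp only [map_add] at h2
        linear_combination h2
  have h2 : P 2 ≠ 0 := by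
    have := lin_ne_zero f 2 (by norm_num) hf P hP (Pi.single 2 1) (by simp)
    simpa [Pi.single_apply] using this
  set E : IntermediateField F K := IntermediateField.adjoin F ({P 3 / P 2, P 4 / P 2} : Set K)
    with hE
  let s : E := ⟨P 3 / P 2, IntermediateField.subset_adjoin _ _ (by simp)⟩
  let t : E := ⟨P 4 / P 2, IntermediateField.subset_adjoin _ _ (by simp)⟩
  have htop : IntermediateField.adjoin E ({P 0 / P 2, P 1 / P 2} : Set K) = ⊤ := by
    apply adjoin_top E _ _ hgen
    rintro z ⟨i, j, rfl⟩
    have hj : ∀ i, P i / P 2 ∈ IntermediateField.adjoin E ({P 0 / P 2, P 1 / P 2} : Set K) := by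
      intro i
      fin_cases i
      · exact IntermediateField.subset_adjoin _ _ (by simp)
      · exact IntermediateField.subset_adjoin _ _ (by simp)
      · change P 2 / P 2 ∈ _
        rw [div_self h2]; exact one_mem _
      · exact mem_base E _ _ s.2
      · exact mem_base E _ _ t.2
    have : P i / P j = (P i / P 2) / (P j / P 2) := by
      rw [div_div_div_cancel_right₀ h2]
    rw [this]
    exact div_mem (hj i) (hj j)
  have heq : ∀ (N : Fin 5 → Fin 5 → F), Cub.B N P P = 0 →
      algebraMap E K (algebraMap F E (N 0 0)) * (P 0 / P 2) ^ 2 +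
      algebraMap E K (algebraMap F E (N 0 1 + N 1 0)) * (P 0 / P 2) * (P 1 / P 2) +
      algebraMap E K (algebraMap F E (N 1 1)) * (P 1 / P 2) ^ 2 +
      algebraMap E K (algebraMap F E (N 0 2 + N 2 0) + algebraMap F E (N 0 3 + N 3 0) * s +
        algebraMap F E (N 0 4 + N 4 0) * t) * (P 0 / P 2) +
      algebraMap E K (algebraMap F E (N 1 2 + N 2 1) + algebraMap F E (N 1 3 + N 3 1) * s +
        algebraMap F E (N 1 4 + N 4 1) * t) * (P 1 / P 2) +
      algebraMap E K (algebraMap F E (N 2 2) + algebraMap F E (N 2 3 + N 3 2) * s +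
        algebraMap F E (N 2 4 + N 4 2) * t + algebraMap F E (N 3 3) * s ^ 2 +
        algebraMap F E (N 3 4 + N 4 3) * s * t + algebraMap F E (N 4 4) * t ^ 2) = 0 := by
    intro N hN
    have e1 : ∀ c : F, algebraMap E K (algebraMap F E c) = algebraMap F K c := fun c =>
      (IsScalarTower.algebraMap_apply F E K c).symm
    have e2 : algebraMap E K s = P 3 / P 2 := rfl
    have e3 : algebraMap E K t = P 4 / P 2 := rfl
    simp only [map_add, map_mul, map_pow, e1, e2, e3]
    simp only [Cub.B, Fin.sum_univ_five] at hN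
    field_simp
    linear_combination hN
  have hq0 : Cub.B M P P = 0 := by
    rw [← Cub.aeval_eq, ← hM]
    exact (hP 2 (f 0) (hf 0)).2 (Ideal.subset_span ⟨0, rfl⟩)
  have hq1 : Cub.B M' P P = 0 := by
    rw [← Cub.aeval_eq, ← hM']
    exact (hP 2 (f 1) (hf 1)).2 (Ideal.subset_span ⟨1, rfl⟩)
  have hfin := hBZ E K (P 0 / P 2) (P 1 / P 2) _ _ _ _ _ _ _ _ _ _ _ _ htop (heq M hq0)
    (heq M' hq1) (by
      intro h
      apply hres
      apply (algebraMap F E).injective
      simpa only [map_sub, map_mul, map_pow, map_add, map_zero] using h)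
  exact hasDeg_of hUB hK _ _ 4 hfin.1 hfin.2

end Pool.Agent.Helper95K9.IR.FourU4
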