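import Pool.Agent.Helper95K9.IR.Nf

/-!
Degree of irrationality of del Pezzo surfaces: leaves NU and NL (norm surfaces).
-/

set_option autoImplicit false
set_option linter.unusedSimpArgs false

namespace Pool.Agent.Helper95K9.IR.Nf

open MvPolynomial

universe u

/-- The cubic form `N(X) - c W ^ 3`. -/
noncomputable def nform {k : Type u} [Field k] (e₁ e₂ e₃ c : k) : MvPolynomial (Fin 4) k :=
  nf (C e₁) (C e₂) (C e₃) (X 0) (X 1) (X 2) - C c * X 3 ^ 3

theorem hom3 {k : Type u} [Field k] (a : k) (i j l : Fin 4) :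
    (C a * (X i * X j * X l) : MvPolynomial (Fin 4) k).IsHomogeneous 3 := by
  have := (isHomogeneous_C (Fin 4) a).mul
    (((isHomogeneous_X k i).mul (isHomogeneous_X k j)).mul (isHomogeneous_X k l))
  simpa using this

theorem nform_hom {k : Type u} [Field k] (e₁ e₂ e₃ c : k) :
    (nform e₁ e₂ e₃ c).IsHomogeneous 3 := by
  have h : nform e₁ e₂ e₃ c = C 1 * (X 0 * X 0 * X 0) + C e₁ * (X 0 * X 0 * X 1) +
      C (e₁ ^ 2 - 2 * e₂) * (X 0 * X 0 * X 2) + C e₂ * (X 0 * X 1 * X 1) +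
      C (e₁ * e₂ - 3 * e₃) * (X 0 * X 1 * X 2) + C (e₂ ^ 2 - 2 * e₁ * e₃) * (X 0 * X 2 * X 2) +
      C e₃ * (X 1 * X 1 * X 1) + C (e₁ * e₃) * (X 1 * X 1 * X 2) +
      C (e₂ * e₃) * (X 1 * X 2 * X 2) + C (e₃ ^ 2) * (X 2 * X 2 * X 2) +
      C (-c) * (X 3 * X 3 * X 3) := by
    unfold nform nf
    simp only [map_sub, map_mul, map_pow, map_neg, map_one, map_ofNat]
    ring
  rw [h]
  refine IsHomogeneous.add (IsHomogeneous.add (IsHomogeneous.add (IsHomogeneous.add
    (IsHomogeneous.add (IsHomogeneous.add (IsHomogeneous.add (IsHomogeneous.add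
    (IsHomogeneous.add (IsHomogeneous.add ?_ ?_) ?_) ?_) ?_) ?_) ?_) ?_) ?_) ?_) ?_ <;>
    exact hom3 _ _ _ _

theorem nform_aeval {k K : Type u} [Field k] [Field K] [Algebra k K] (e₁ e₂ e₃ c : k)
    (P : Fin 4 → K) : aeval P (nform e₁ e₂ e₃ c) =
      nf (algebraMap k K e₁) (algebraMap k K e₂) (algebraMap k K e₃) (P 0) (P 1) (P 2) -
        algebraMap k K c * P 3 ^ 3 := by
  unfold nform
  rw [map_sub]
  congr 1
  · have := nf_map (aeval P : MvPolynomial (Fin 4) k →ₐ[k] K).toRingHom (C e₁) (C e₂) (C e₃)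
      (X 0) (X 1) (X 2)
    simpa using this
  · simp

theorem top_of {F Ω : Type u} [Field F] [Field Ω] [Algebra F Ω] (K : IntermediateField F Ω)
    (S : Set Ω) (hS : IntermediateField.adjoin F S = K) :
    IntermediateField.adjoin F ((Subtype.val : K → Ω) ⁻¹' S) = ⊤ := by
  have hsub : S ⊆ K := by
    rw [← hS]; exact IntermediateField.subset_adjoin F S
  have h1 : IntermediateField.map K.val
      (IntermediateField.adjoin F ((Subtype.val : K → Ω) ⁻¹' S)) = K := by
    rw [IntermediateField.adjoin_map]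
    have : (K.val '' ((Subtype.val : K → Ω) ⁻¹' S)) = S := by
      ext z
      constructor
      · rintro ⟨w, hw, rfl⟩
        exact hw
      · intro hz
        exact ⟨⟨z, hsub hz⟩, hz, rfl⟩
    rw [this, hS]
  rw [eq_top_iff]
  intro z _
  have h2 : (z : Ω) ∈ IntermediateField.map K.val
      (IntermediateField.adjoin F ((Subtype.val : K → Ω) ⁻¹' S)) := by
    rw [h1]; exact z.2
  obtain ⟨w, hw, hwz⟩ := h2
  have : w = z := Subtype.ext hwz
  rw [← this]
  exact hw

variable {F Ω : Type u} [Field F] [Field Ω] [Algebra F Ω] {θ : Fin 3 → Ω}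

theorem exists_K {a : Ω} {K : IntermediateField F Ω} (h : IsFFN θ a K) :
    ∃ x : Fin 3 → K, (∏ i, ev (fun j => (x j : Ω)) (θ i)) = a ∧
      IntermediateField.adjoin F (Set.range x) = ⊤ := by
  obtain ⟨_, x, hx, hK⟩ := h
  have hmem : ∀ j, x j ∈ K := by
    intro j
    rw [← hK]
    exact IntermediateField.subset_adjoin F _ ⟨j, rfl⟩
  refine ⟨fun j => ⟨x j, hmem j⟩, hx, ?_⟩
  have := top_of K (Set.range x) hK
  rw [← this]
  congr 1
  ext z
  constructor
  · rintro ⟨j, rfl⟩
    exact ⟨j, rfl⟩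
  · rintro ⟨j, hj⟩
    exact ⟨j, Subtype.ext hj⟩

theorem prod_ev (e₁ e₂ e₃ : F) (h₁ : algebraMap F Ω e₁ = θ 0 + θ 1 + θ 2)
    (h₂ : algebraMap F Ω e₂ = θ 0 * θ 1 + θ 0 * θ 2 + θ 1 * θ 2)
    (h₃ : algebraMap F Ω e₃ = θ 0 * θ 1 * θ 2) (x : Fin 3 → Ω) :
    (∏ i, ev x (θ i)) = nf (algebraMap F Ω e₁) (algebraMap F Ω e₂) (algebraMap F Ω e₃)
      (x 0) (x 1) (x 2) := by
  rw [Fin.prod_univ_three, h₁, h₂, h₃, ← nf_prod]
  rfl

theorem cubic_le {E K : Type u} [Field E] [Field K] [Algebra E K] (w : K)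
    (hw : IntermediateField.adjoin E ({w} : Set K) = ⊤) (a b c : E)
    (h : w ^ 3 + algebraMap E K a * w ^ 2 + algebraMap E K b * w + algebraMap E K c = 0) :
    0 < Module.finrank E K ∧ Module.finrank E K ≤ 3 := by
  obtain ⟨p, hp⟩ : ∃ p : Polynomial E, p = Polynomial.X ^ 3 +
      Polynomial.C a * Polynomial.X ^ 2 + Polynomial.C b * Polynomial.X +
      Polynomial.C c := ⟨_, rfl⟩
  have hdeg : p.natDegree ≤ 3 := by
    rw [hp]
    compute_degree
  have hp0 : p ≠ 0 := by
    intro h0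
    have h3 : p.coeff 3 = 1 := by
      rw [hp]
      simp only [Polynomial.coeff_add, Polynomial.coeff_X_pow, Polynomial.coeff_C_mul,
        Polynomial.coeff_X, Polynomial.coeff_C]
      simp
    rw [h0] at h3
    simp at h3
  have hroot : Polynomial.aeval w p = 0 := by
    rw [hp]
    simp only [map_add, map_mul, map_pow, Polynomial.aeval_X, Polynomial.aeval_C]
    exact h
  exact Tool.finrank_le w hw p hp0 3 hdeg hroot

/-- [NU] -/
theorem nu (hub : S_UB.{u}) : S_NU.{u} := by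
  intro F Ω _ _ _ θ a K hc hK
  obtain ⟨e₁, e₂, e₃, h₁, h₂, h₃⟩ := exists_e hc
  obtain ⟨x, hx, htop⟩ := exists_K hK
  obtain ⟨⟨htr, _⟩, _⟩ := hK
  rw [prod_ev e₁ e₂ e₃ h₁ h₂ h₃] at hx
  have hx' : nf (algebraMap F K e₁) (algebraMap F K e₂) (algebraMap F K e₃)
      (x 0) (x 1) (x 2) = algebraMap F K a := by
    apply (algebraMap K Ω).injective
    rw [nf_map]
    exact hx
  set E := IntermediateField.adjoin F ({x 1, x 2} : Set K) with hE
  have m1 : x 1 ∈ E := IntermediateField.subset_adjoin F _ (by simp)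
  have m2 : x 2 ∈ E := IntermediateField.subset_adjoin F _ (by simp)
  set y₁ : E := ⟨x 1, m1⟩ with hy₁
  set y₂ : E := ⟨x 2, m2⟩ with hy₂
  have hgen : IntermediateField.adjoin E ({x 0} : Set K) = ⊤ := by
    apply Tool.adjoin_top E _ _ htop
    rintro z ⟨j, rfl⟩
    fin_cases j
    · exact IntermediateField.subset_adjoin E _ rfl
    · exact Tool.mem_base E _ _ m1
    · exact Tool.mem_base E _ _ m2
  set f₁ : E := algebraMap F E e₁ with hf₁
  set f₂ : E := algebraMap F E e₂ with hf₂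
  set f₃ : E := algebraMap F E e₃ with hf₃
  set f₀ : E := algebraMap F E a with hf₀
  have hroot : x 0 ^ 3 +
      algebraMap E K (f₁ * y₁ + (f₁ ^ 2 - 2 * f₂) * y₂) * x 0 ^ 2 +
      algebraMap E K (f₂ * y₁ ^ 2 + (f₁ * f₂ - 3 * f₃) * y₁ * y₂ +
        (f₂ ^ 2 - 2 * f₁ * f₃) * y₂ ^ 2) * x 0 +
      algebraMap E K (f₃ * y₁ ^ 3 + f₁ * f₃ * y₁ ^ 2 * y₂ + f₂ * f₃ * y₁ * y₂ ^ 2 +
        f₃ ^ 2 * y₂ ^ 3 - f₀) = 0 := by
    simp only [map_add, map_mul, map_pow, map_sub]
    have c1 : algebraMap E K y₁ = x 1 := rfl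
    have c2 : algebraMap E K y₂ = x 2 := rfl
    have d1 : algebraMap E K f₁ = algebraMap F K e₁ := rfl
    have d2 : algebraMap E K f₂ = algebraMap F K e₂ := rfl
    have d3 : algebraMap E K f₃ = algebraMap F K e₃ := rfl
    have d0 : algebraMap E K f₀ = algebraMap F K a := rfl
    rw [c1, c2, d1, d2, d3, d0]
    unfold nf at hx'
    simp only [map_ofNat]
    linear_combination hx'
  have hfr := cubic_le (x 0) hgen _ _ _ hroot
  exact ⟨_, hfr.2, hub F K htr (x 1) (x 2) hfr.1⟩

/-- From a zero of the form to a solution. -/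
theorem sol (e₁ e₂ e₃ : F) (h₁ : algebraMap F Ω e₁ = θ 0 + θ 1 + θ 2)
    (h₂ : algebraMap F Ω e₂ = θ 0 * θ 1 + θ 0 * θ 2 + θ 1 * θ 2)
    (h₃ : algebraMap F Ω e₃ = θ 0 * θ 1 * θ 2) (L : IntermediateField F Ω)
    (hL : ∀ (y : Fin 3 → L) (i : Fin 3), ev (fun j => (y j : Ω)) (θ i) = 0 → y = 0) (c : L)
    (p : Fin 4 → L) (hp : p ≠ 0)
    (hz : eval p (nform (algebraMap F L e₁) (algebraMap F L e₂) (algebraMap F L e₃) c) = 0) :
    ∃ x : Fin 3 → L, (∏ i, ev (fun j => (x j : Ω)) (θ i)) = (c : Ω) := by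
  have hz' : nf (algebraMap F L e₁) (algebraMap F L e₂) (algebraMap F L e₃) (p 0) (p 1) (p 2) =
      c * p 3 ^ 3 := by
    have := nform_aeval (algebraMap F L e₁) (algebraMap F L e₂) (algebraMap F L e₃) c p
    have h0 : aeval p (nform (algebraMap F L e₁) (algebraMap F L e₂) (algebraMap F L e₃) c) =
        (0 : L) := by
      rw [← hz]; rfl
    rw [h0] at this
    simp only [Algebra.algebraMap_self, RingHom.id_apply] at this
    exact (sub_eq_zero.1 this.symm)
  have hprod : ∀ q : Fin 3 → L, (∏ i, ev (fun j => (q j : Ω)) (θ i)) =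
      ((nf (algebraMap F L e₁) (algebraMap F L e₂) (algebraMap F L e₃) (q 0) (q 1) (q 2) : L) :
        Ω) := by
    intro q
    rw [prod_ev e₁ e₂ e₃ h₁ h₂ h₃]
    have := nf_map (algebraMap L Ω) (algebraMap F L e₁) (algebraMap F L e₂) (algebraMap F L e₃)
      (q 0) (q 1) (q 2)
    exact this.symm
  have h3 : p 3 ≠ 0 := by
    intro h0
    have h4 := hprod (fun j => p (Fin.castSucc j))
    have h5 : nf (algebraMap F L e₁) (algebraMap F L e₂) (algebraMap F L e₃)
        (p (Fin.castSucc 0)) (p (Fin.castSucc 1)) (p (Fin.castSucc 2)) = 0 := by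
      have : nf (algebraMap F L e₁) (algebraMap F L e₂) (algebraMap F L e₃) (p 0) (p 1) (p 2) =
        0 := by rw [hz', h0]; ring
      exact this
    rw [h5] at h4
    simp only [ZeroMemClass.coe_zero] at h4
    rw [Finset.prod_eq_zero_iff] at h4
    obtain ⟨i, _, hi⟩ := h4
    have h6 := hL (fun j => p (Fin.castSucc j)) i hi
    apply hp
    funext j
    refine Fin.lastCases ?_ ?_ j
    · exact h0
    · intro j
      exact congrFun h6 j
  refine ⟨fun j => p (Fin.castSucc j) / p 3, ?_⟩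
  rw [hprod]
  congr 1
  have h7 : nf (algebraMap F L e₁) (algebraMap F L e₂) (algebraMap F L e₃)
      (p 0 / p 3) (p 1 / p 3) (p 2 / p 3) = c := by
    have h8 : nf (algebraMap F L e₁) (algebraMap F L e₂) (algebraMap F L e₃)
      (p 0 / p 3) (p 1 / p 3) (p 2 / p 3) =
      nf (algebraMap F L e₁) (algebraMap F L e₂) (algebraMap F L e₃) (p 0) (p 1) (p 2) /
        p 3 ^ 3 := by
      unfold nf
      field_simp
    rw [h8, hz']
    field_simp
  exact h7

/-- [NL] -/
theorem nl (h3L : S_3L.{u}) : S_NL.{u} := by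
  intro F Ω _ _ _ θ a K hc hK n hn hn2
  obtain ⟨e₁, e₂, e₃, h₁, h₂, h₃⟩ := exists_e hc
  obtain ⟨x, hx, -⟩ := exists_K hK
  rw [prod_ev e₁ e₂ e₃ h₁ h₂ h₃] at hx
  have hx' : nf (algebraMap F K e₁) (algebraMap F K e₂) (algebraMap F K e₃)
      (x 0) (x 1) (x 2) = algebraMap F K a := by
    apply (algebraMap K Ω).injective
    rw [nf_map]
    exact hx
  obtain ⟨p, hp, hz⟩ := h3L F K 4 (nform e₁ e₂ e₃ a) (nform_hom e₁ e₂ e₃ a)
    ⟨![x 0, x 1, x 2, 1], by
      intro h0
      have := congrFun h0 3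
      simp at this, by
      rw [nform_aeval]
      simp only [Matrix.cons_val]
      rw [hx']
      ring⟩ n hn hn2
  -- transport to the bottom field
  obtain ⟨y, hy⟩ := sol e₁ e₂ e₃ h₁ h₂ h₃ (⊥ : IntermediateField F Ω) (by
      intro y i hyi
      have hex : ∀ j, ∃ r : F, algebraMap F Ω r = (y j : Ω) := by
        intro j
        have := (y j).2
        rw [IntermediateField.mem_bot] at this
        exact this
      choose r hr using hex
      have h0 : r = 0 := ev_eq_zero hc r i (by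
        rw [← hyi]
        congr 1
        funext j
        exact hr j)
      funext j
      apply Subtype.ext
      rw [← hr j, h0]
      simp) (algebraMap F _ a) (fun j => algebraMap F _ (p j)) (by
      intro h0
      apply hp
      funext j
      have := congrFun h0 j
      have h1 : algebraMap F (⊥ : IntermediateField F Ω) (p j) = algebraMap F _ 0 := by
        simpa using this
      exact (algebraMap F (⊥ : IntermediateField F Ω)).injective h1) (by
      have h4 := nform_aeval (K := (⊥ : IntermediateField F Ω))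
        (algebraMap F (⊥ : IntermediateField F Ω) e₁)
        (algebraMap F (⊥ : IntermediateField F Ω) e₂) (algebraMap F (⊥ : IntermediateField F Ω) e₃)
        (algebraMap F (⊥ : IntermediateField F Ω) a)
        (fun j => algebraMap F (⊥ : IntermediateField F Ω) (p j))
      have h5 := nform_aeval (K := F) e₁ e₂ e₃ a p
      have h6 : aeval p (nform e₁ e₂ e₃ a) = (0 : F) := by
        rw [← hz]; rfl
      rw [h6] at h5
      simp only [Algebra.algebraMap_self, RingHom.id_apply] at h4 h5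
      have h7 := congrArg (algebraMap F (⊥ : IntermediateField F Ω)) h5
      rw [map_sub, nf_map, map_mul, map_pow, map_zero] at h7
      rw [← h7] at h4
      exact h4)
  have hex : ∀ j, ∃ r : F, algebraMap F Ω r = (y j : Ω) := by
    intro j
    have := (y j).2
    rw [IntermediateField.mem_bot] at this
    exact this
  refine ⟨fun j => (y j : Ω), fun j => ?_, ?_⟩
  · obtain ⟨r, hr⟩ := hex j
    exact ⟨r, hr⟩
  · rw [hy]
    rfl

end Pool.Agent.Helper95K9.IR.Nf
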