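import Pool.Agent.Helper95K9.IR.Tool

/-!
Degree of irrationality of del Pezzo surfaces: leaves 1U and 2U.
-/

set_option autoImplicit false

namespace Pool.Agent.Helper95K9.IR

universe u

namespace OneTwo

open Pool.Agent.Helper95K9.IR.Tool

theorem scale {F K : Type u} [Field F] [Field K] [Algebra F K] {N n : ℕ}
    {g : MvPolynomial (Fin N) F} (hg : g.IsHomogeneous n) (P : Fin N → K) (c : K) (hc : c ≠ 0) :
    MvPolynomial.aeval P g = c ^ n * MvPolynomial.aeval (fun i => P i / c) g := by
  rw [← aeval_scale hg c (fun i => P i / c)]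
  congr 2
  funext i
  field_simp

theorem mem {F K : Type u} [Field F] [Field K] [Algebra F K] {N : ℕ} (E : IntermediateField F K)
    (g : MvPolynomial (Fin N) F) (P : Fin N → K) (h : ∀ i, P i ∈ E) :
    MvPolynomial.aeval P g ∈ E := by
  have h1 : P = fun i => ((⟨P i, h i⟩ : E) : K) := rfl
  have h2 : MvPolynomial.aeval P g =
      ((MvPolynomial.aeval (fun i => (⟨P i, h i⟩ : E)) g : E) : K) := by
    induction g using MvPolynomial.induction_on with
    | C c => simp
    | add a b ha hb => simp only [map_add, ha, hb, IntermediateField.coe_add]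
    | mul_X a i ha =>
      rw [map_mul, map_mul, ha, MvPolynomial.aeval_X, MvPolynomial.aeval_X,
        IntermediateField.coe_mul]
  rw [h2]
  exact Subtype.mem _

theorem core (hUB : S_UB.{u}) {F K : Type u} [Field F] [Field K] [Algebra F K]
    (hK : IsSurfaceField F K) (s t W : K) (A B : K)
    (hA : A ∈ IntermediateField.adjoin F ({s, t} : Set K))
    (hB : B ∈ IntermediateField.adjoin F ({s, t} : Set K))
    (hW : W ^ 2 + A * W + B = 0) (S : Set K) (hS : IntermediateField.adjoin F S = ⊤)
    (h : ∀ x ∈ S, x ∈ IntermediateField.adjoin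
      (IntermediateField.adjoin F ({s, t} : Set K)) ({W} : Set K)) :
    ∃ n, n ≤ 2 ∧ HasDeg F K n := by
  set E := IntermediateField.adjoin F ({s, t} : Set K) with hE
  have htop : IntermediateField.adjoin E ({W} : Set K) = ⊤ := adjoin_top E _ _ hS h
  let Ψ : Polynomial E := Polynomial.C 1 * Polynomial.X ^ 2 + Polynomial.C ⟨A, hA⟩ * Polynomial.X +
    Polynomial.C ⟨B, hB⟩
  have hdeg : Ψ.natDegree = 2 := Polynomial.natDegree_quadratic one_ne_zero
  have hΨ0 : Ψ ≠ 0 := by
    intro h0
    rw [h0] at hdeg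
    simp at hdeg
  have hΨr : Polynomial.aeval W Ψ = 0 := by
    simp only [Ψ, map_add, map_mul, map_pow, Polynomial.aeval_C, Polynomial.aeval_X, map_one,
      one_mul]
    exact hW
  have hfin := finrank_le W htop Ψ hΨ0 2 hdeg.le hΨr
  exact hasDeg_of hUB hK s t 2 hfin.1 hfin.2

theorem cov3 : ∀ k : Fin 3, ∃ i j : Fin 3, ∀ l, l = k ∨ l = i ∨ l = j := by decide

theorem cov2 : ∀ k : Fin 2, ∃ i : Fin 2, ∀ l, l = k ∨ l = i := by decide

end OneTwo

open Pool.Agent.Helper95K9.IR.Tool in
theorem twoU (hUB : S_UB.{u}) : S_2U.{u} := by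
  intro F K _ _ _ a b ha hb hFF
  obtain ⟨hK, P, w, hP0, hw, hgen⟩ := hFF
  obtain ⟨k, hk⟩ : ∃ k, P k ≠ 0 := by
    by_contra h
    exact hP0 (funext fun i => not_not.1 fun hi => h ⟨i, hi⟩)
  obtain ⟨i₁, i₂, hcov⟩ := OneTwo.cov3 k
  set s : K := P i₁ / P k with hs
  set t : K := P i₂ / P k with ht
  have hmem : ∀ i, P i / P k ∈ IntermediateField.adjoin F ({s, t} : Set K) := by
    intro i
    rcases hcov i with rfl | rfl | rfl
    · rw [div_self hk]; exact one_mem _
    · exact IntermediateField.subset_adjoin _ _ (by simp [hs])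
    · exact IntermediateField.subset_adjoin _ _ (by simp [ht])
  refine OneTwo.core hUB hK s t (w / P k ^ 2)
    (MvPolynomial.aeval (fun i => P i / P k) a) (MvPolynomial.aeval (fun i => P i / P k) b)
    (OneTwo.mem _ a _ hmem) (OneTwo.mem _ b _ hmem) ?_ _ hgen ?_
  · rw [OneTwo.scale ha P (P k) hk, OneTwo.scale hb P (P k) hk] at hw
    field_simp
    linear_combination hw
  · have hrat : ∀ i j, P i / P j ∈ IntermediateField.adjoin
        (IntermediateField.adjoin F ({s, t} : Set K)) ({w / P k ^ 2} : Set K) := by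
      intro i j
      have h1 : P i / P j = (P i / P k) / (P j / P k) := by
        rw [div_div_div_cancel_right₀ hk]
      rw [h1]
      exact div_mem (mem_base _ _ _ (hmem i)) (mem_base _ _ _ (hmem j))
    rintro x (⟨i, j, rfl⟩ | ⟨j, rfl⟩)
    · exact hrat i j
    · have h1 : w / P j ^ 2 = (w / P k ^ 2) * (P k / P j) ^ 2 := by
        by_cases hj : P j = 0
        · rw [hj]
          simp
        · field_simp
      rw [h1]
      exact mul_mem (IntermediateField.subset_adjoin _ _ rfl) (pow_mem (hrat k j) 2)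

open Pool.Agent.Helper95K9.IR.Tool in
theorem oneU (hUB : S_UB.{u}) : S_1U.{u} := by
  intro F K _ _ _ a₁ a₂ a₃ a₄ a₆ h₁ h₂ h₃ h₄ h₆ hFF
  obtain ⟨hK, P, z, w, hP0, hw, hgen⟩ := hFF
  obtain ⟨k, hk⟩ : ∃ k, P k ≠ 0 := by
    by_contra h
    exact hP0 (funext fun i => not_not.1 fun hi => h ⟨i, hi⟩)
  obtain ⟨i₁, hcov⟩ := OneTwo.cov2 k
  set s : K := P i₁ / P k with hs
  set t : K := z / P k ^ 2 with ht
  have htm : t ∈ IntermediateField.adjoin F ({s, t} : Set K) :=
    IntermediateField.subset_adjoin _ _ (by simp)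
  have hmem : ∀ i, P i / P k ∈ IntermediateField.adjoin F ({s, t} : Set K) := by
    intro i
    rcases hcov i with rfl | rfl
    · rw [div_self hk]; exact one_mem _
    · exact IntermediateField.subset_adjoin _ _ (by simp [hs])
  have hm : ∀ g : MvPolynomial (Fin 2) F, MvPolynomial.aeval (fun i => P i / P k) g ∈
      IntermediateField.adjoin F ({s, t} : Set K) := fun g => OneTwo.mem _ g _ hmem
  refine OneTwo.core hUB hK s t (w / P k ^ 3)
    (MvPolynomial.aeval (fun i => P i / P k) a₁ * t + MvPolynomial.aeval (fun i => P i / P k) a₃)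
    (-(t ^ 3 + MvPolynomial.aeval (fun i => P i / P k) a₂ * t ^ 2 +
      MvPolynomial.aeval (fun i => P i / P k) a₄ * t +
      MvPolynomial.aeval (fun i => P i / P k) a₆))
    (add_mem (mul_mem (hm a₁) htm) (hm a₃)) (neg_mem (add_mem (add_mem (add_mem (pow_mem htm 3)
      (mul_mem (hm a₂) (pow_mem htm 2))) (mul_mem (hm a₄) htm)) (hm a₆))) ?_ _ hgen ?_
  · unfold Weier at hw
    rw [OneTwo.scale h₁ P (P k) hk, OneTwo.scale h₂ P (P k) hk, OneTwo.scale h₃ P (P k) hk,
      OneTwo.scale h₄ P (P k) hk, OneTwo.scale h₆ P (P k) hk] at hw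
    rw [ht]
    field_simp
    linear_combination hw
  · have hrat : ∀ i j, P i / P j ∈ IntermediateField.adjoin
        (IntermediateField.adjoin F ({s, t} : Set K)) ({w / P k ^ 3} : Set K) := by
      intro i j
      have h1 : P i / P j = (P i / P k) / (P j / P k) := by
        rw [div_div_div_cancel_right₀ hk]
      rw [h1]
      exact div_mem (mem_base _ _ _ (hmem i)) (mem_base _ _ _ (hmem j))
    rintro x ((⟨i, j, rfl⟩ | ⟨j, rfl⟩) | ⟨j, rfl⟩)
    · exact hrat i j
    · have h1 : z / P j ^ 2 = t * (P k / P j) ^ 2 := by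
        by_cases hj : P j = 0
        · rw [hj]
          simp
        · rw [ht]
          field_simp
      rw [h1]
      exact mul_mem (mem_base _ _ _ htm) (pow_mem (hrat k j) 2)
    · have h1 : w / P j ^ 3 = (w / P k ^ 3) * (P k / P j) ^ 3 := by
        by_cases hj : P j = 0
        · rw [hj]
          simp
        · field_simp
      rw [h1]
      exact mul_mem (IntermediateField.subset_adjoin _ _ rfl) (pow_mem (hrat k j) 3)

end Pool.Agent.Helper95K9.IR
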