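import Pool.Agent.Helper95K9.IR.Stm

/-!
Degree of irrationality of del Pezzo surfaces: the leaf PL (places).
-/

set_option autoImplicit false

namespace Pool.Agent.Helper95K9.IR.Pl

open MvPolynomial

universe u

/-- Specialisation of all homogeneous relations. -/
def Spec (k M κ : Type u) [Field k] [Field M] [Field κ] [Algebra k M] [Algebra k κ] : Prop :=
  ∀ (N : ℕ) (P : Fin N → M), P ≠ 0 → ∃ p : Fin N → κ, p ≠ 0 ∧
    ∀ (d : ℕ) (g : MvPolynomial (Fin N) k), g.IsHomogeneous d → aeval P g = 0 → aeval p g = 0

theorem scale {k M : Type u} [Field k] [Field M] [Algebra k M] {N : ℕ} (P : Fin N → M) (c : M)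
    (d : ℕ) (g : MvPolynomial (Fin N) k) (hg : g.IsHomogeneous d) :
    aeval (fun i => c * P i) g = c ^ d * aeval P g := by
  classical
  rw [aeval_def, aeval_def, eval₂_eq', eval₂_eq', Finset.mul_sum]
  apply Finset.sum_congr rfl
  intro e he
  have h1 : ∑ i, e i = d := by
    have := hg (mem_support_iff.1 he)
    rw [Finsupp.weight_apply, Finsupp.sum_fintype _ _ (by simp)] at this
    simpa using this
  simp only [mul_pow]
  rw [Finset.prod_mul_distrib, Finset.prod_pow_eq_pow_sum, h1]
  ring

/-- The residue field of a valuation ring. -/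
theorem spec_of_val {k M : Type u} [Field k] [Field M] [Algebra k M] (B : ValuationSubring M)
    [Algebra k B] (hB : ∀ x : k, ((algebraMap k B x : B) : M) = algebraMap k M x) :
    Spec k M (IsLocalRing.ResidueField B) := by
  classical
  intro N P hP
  have hne : (Finset.univ : Finset (Fin N)).Nonempty := by
    by_contra h
    apply hP
    funext i
    exact absurd ⟨i, Finset.mem_univ i⟩ h
  obtain ⟨j, -, hj⟩ := Finset.exists_max_image Finset.univ (fun i => B.valuation (P i)) hne
  have hPj : P j ≠ 0 := by
    intro h
    apply hP
    funext i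
    have := hj i (Finset.mem_univ i)
    rw [h, map_zero] at this
    simpa using this
  have hmem : ∀ i, (P j)⁻¹ * P i ∈ B := by
    intro i
    rw [← B.valuation_le_one_iff, map_mul, map_inv₀]
    have h1 := hj i (Finset.mem_univ i)
    have h2 : B.valuation (P j) ≠ 0 := by simpa using hPj
    exact inv_mul_le_one_of_le₀ h1 zero_le
  let a : Fin N → B := fun i => ⟨(P j)⁻¹ * P i, hmem i⟩
  refine ⟨fun i => IsLocalRing.residue B (a i), ?_, ?_⟩
  · intro h
    have h1 := congrFun h j
    have h2 : a j = 1 := by
      apply Subtype.ext
      show (P j)⁻¹ * P j = 1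
      exact inv_mul_cancel₀ hPj
    rw [h2] at h1
    simp at h1
  · intro d g hg h0
    have h1 : aeval (fun i => (P j)⁻¹ * P i) g = 0 := by
      rw [scale P _ d g hg, h0, mul_zero]
    have h2 : aeval a g = 0 := by
      apply Subtype.ext
      have h3 : (B.subtype (aeval a g) : M) = aeval (fun i => (P j)⁻¹ * P i) g := by
        rw [aeval_def, aeval_def, hom_eval₂]
        congr 1
        ext x
        exact hB x
      rw [h1] at h3
      exact h3
    have h4 : aeval (fun i => IsLocalRing.residue B (a i)) g
        = IsLocalRing.residue B (aeval a g) := by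
      rw [aeval_def, aeval_def, hom_eval₂]
      rfl
    rw [h4, h2, map_zero]

theorem spec_trans {k M κ₁ κ₂ : Type u} [Field k] [Field M] [Field κ₁] [Field κ₂]
    [Algebra k M] [Algebra k κ₁] [Algebra k κ₂] (h1 : Spec k M κ₁) (h2 : Spec k κ₁ κ₂) :
    Spec k M κ₂ := by
  intro N P hP
  obtain ⟨p, hp, hp'⟩ := h1 N P hP
  obtain ⟨q, hq, hq'⟩ := h2 N p hp
  exact ⟨q, hq, fun d g hg h => hq' d g hg (hp' d g hg h)⟩

theorem spec_base {F k M κ : Type u} [Field F] [Field k] [Field M] [Field κ]
    [Algebra F k] [Algebra k M] [Algebra k κ] [Algebra F M] [Algebra F κ]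
    [IsScalarTower F k M] [IsScalarTower F k κ] (h : Spec k M κ) : Spec F M κ := by
  intro N P hP
  obtain ⟨p, hp, hp'⟩ := h N P hP
  refine ⟨p, hp, fun d g hg h0 => ?_⟩
  have h1 := hp' d (map (algebraMap F k) g) (hg.map _) (by rw [aeval_map_algebraMap]; exact h0)
  rwa [aeval_map_algebraMap] at h1

/-- Independence lifts. -/
theorem indep {k M : Type u} [Field k] [Field M] [Algebra k M] (B : ValuationSubring M)
    [Algebra k B] (t : B) (ht0 : t ≠ 0) (ht : IsLocalRing.residue B t = 0)
    (m : ℕ) (u : Fin m → B)
    (hu : LinearIndependent k (fun i => IsLocalRing.residue B (u i))) :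
    ∀ (n : ℕ) (f : Fin m → Polynomial k), (∀ i, (f i).degree < n) →
      ∑ i, Polynomial.aeval t (f i) * u i = 0 → ∀ i, f i = 0 := by
  intro n
  induction n with
  | zero =>
    intro f hf _ i
    have := hf i
    rw [← Polynomial.degree_eq_bot]
    simpa using this
  | succ n ih =>
    intro f hf hsum
    have h1 : ∀ i, (f i).coeff 0 = 0 := by
      have h2 := congrArg (IsLocalRing.residue B) hsum
      rw [map_sum, map_zero] at h2
      have h3 : ∀ i, IsLocalRing.residue B (Polynomial.aeval t (f i) * u i)
          = (f i).coeff 0 • IsLocalRing.residue B (u i) := by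
        intro i
        rw [map_mul]
        have h4 : IsLocalRing.residue B (Polynomial.aeval t (f i))
            = algebraMap k _ ((f i).coeff 0) := by
          have h5 : IsLocalRing.residue B (Polynomial.aeval t (f i))
              = Polynomial.aeval (IsLocalRing.residue B t) (f i) := by
            rw [Polynomial.aeval_def, Polynomial.aeval_def, Polynomial.hom_eval₂]
            rfl
          rw [h5, ht, Polynomial.coeff_zero_eq_aeval_zero' ]
        rw [h4, Algebra.smul_def]
      rw [Finset.sum_congr rfl (fun i _ => h3 i)] at h2
      exact fun i => (Fintype.linearIndependent_iff.1 hu) _ h2 i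
    have h2 : ∀ i, f i = Polynomial.X * (f i).divX := by
      intro i
      have := Polynomial.divX_mul_X_add (f i)
      rw [h1 i, Polynomial.C_0, add_zero] at this
      rw [mul_comm]
      exact this.symm
    have h3 : ∀ i, (f i).divX = 0 := by
      apply ih
      · intro i
        by_cases h : (f i).divX = 0
        · rw [h, Polynomial.degree_zero]
          exact WithBot.bot_lt_coe _
        · have h4 := hf i
          rw [h2 i, Polynomial.degree_mul, Polynomial.degree_X,
            Polynomial.degree_eq_natDegree h] at h4
          rw [Polynomial.degree_eq_natDegree h]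
          have h5 : (1 + (f i).divX.natDegree : ℕ) < n + 1 := by exact_mod_cast h4
          have h6 : (f i).divX.natDegree < n := by omega
          exact_mod_cast h6
      · have h4 : t * ∑ i, Polynomial.aeval t ((f i).divX) * u i = 0 := by
          rw [Finset.mul_sum, ← hsum]
          apply Finset.sum_congr rfl
          intro i _
          conv_rhs => rw [h2 i]
          rw [map_mul, Polynomial.aeval_X]
          ring
        rcases mul_eq_zero.1 h4 with h | h
        · exact absurd h ht0
        · exact h
    intro i
    rw [h2 i, h3 i, mul_zero]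

/-- The valuation ring at `t = 0`. -/
theorem exists_val {k L M : Type u} [Field k] [Field L] [Field M] [Algebra k L] [Algebra L M]
    [Algebra k M] [IsScalarTower k L M] (t : L) (ht : Transcendental k t)
    (hL : ∀ x : L, ∃ f g : Polynomial k, Polynomial.aeval t g ≠ 0 ∧
      x * Polynomial.aeval t g = Polynomial.aeval t f)
    (hfin : 0 < Module.finrank L M) :
    ∃ (κ : Type u) (_ : Field κ) (_ : Algebra k κ),
      0 < Module.finrank k κ ∧ Module.finrank k κ ≤ Module.finrank L M ∧ Spec k M κ := by
  classical
  let T : M := algebraMap L M t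
  have hT : Transcendental k T := by
    intro h
    apply ht
    obtain ⟨p, hp, hp'⟩ := h
    refine ⟨p, hp, ?_⟩
    apply (algebraMap L M).injective
    rw [map_zero, ← hp', Polynomial.aeval_algebraMap_apply]
  let A : Subalgebra k M := Algebra.adjoin k {T}
  have hTA : T ∈ A := Algebra.subset_adjoin rfl
  let I : Ideal A.toSubring := Ideal.span {⟨T, hTA⟩}
  have hI : I ≠ ⊤ := by
    intro h
    rw [Ideal.eq_top_iff_one, Ideal.mem_span_singleton'] at h
    obtain ⟨a, ha⟩ := h
    have ha1 : (a : M) ∈ Algebra.adjoin k {T} := a.2
    rw [Algebra.adjoin_singleton_eq_range_aeval] at ha1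
    obtain ⟨f, hf⟩ := ha1
    have h1 : Polynomial.aeval T (f * Polynomial.X - 1) = 0 := by
      rw [map_sub, map_mul, Polynomial.aeval_X, map_one]
      have h2 := congrArg Subtype.val ha
      change (a : M) * T = 1 at h2
      have h3 : Polynomial.aeval T f = (a : M) := hf
      rw [h3, h2, sub_self]
    have h2 : f * Polynomial.X - 1 = 0 := by
      by_contra h3
      exact hT ⟨_, h3, h1⟩
    have h3 := congrArg (fun q => Polynomial.coeff q 0) h2
    simp at h3
  obtain ⟨B, hAB, hIB⟩ := Ideal.image_subset_nonunits_valuationSubring I hI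
  have hk : ∀ x : k, algebraMap k M x ∈ B := fun x => hAB (A.algebraMap_mem x)
  let _ : Algebra k B := ((algebraMap k M).codRestrict B.toSubring hk).toAlgebra
  have hB : ∀ x : k, ((algebraMap k B x : B) : M) = algebraMap k M x := fun x => rfl
  have hTB : T ∈ B := hAB hTA
  let tB : B := ⟨T, hTB⟩
  have htB0 : tB ≠ 0 := by
    intro h
    have h1 : T = 0 := congrArg Subtype.val h
    apply hT
    refine ⟨Polynomial.X, Polynomial.X_ne_zero, ?_⟩
    rw [Polynomial.aeval_X, h1]
  have htB : IsLocalRing.residue B tB = 0 := by
    rw [IsLocalRing.residue_eq_zero_iff]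
    have h1 : T ∈ B.nonunits := hIB ⟨⟨T, hTA⟩, Ideal.mem_span_singleton_self _, rfl⟩
    have h2 : T ∈ (B.nonunits : Set M) := h1
    rw [← B.image_maximalIdeal] at h2
    obtain ⟨x, hx, hx'⟩ := h2
    have : tB = x := Subtype.ext hx'.symm
    rw [this]
    exact hx
  have hmf : Module.Finite L M := Module.finite_of_finrank_pos hfin
  have hrank : Module.rank k (IsLocalRing.ResidueField B) ≤ (Module.finrank L M : ℕ) := by
    apply rank_le
    intro S hS
    have hex : ∀ x : IsLocalRing.ResidueField B, ∃ b : B, IsLocalRing.residue B b = x :=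
      IsLocalRing.residue_surjective
    choose lift hlift using hex
    let e : Fin S.card ≃ S := S.equivFin.symm
    have hu : LinearIndependent k
        (fun i : Fin S.card => IsLocalRing.residue B (lift (e i : IsLocalRing.ResidueField B))) := by
      have h1 := hS.comp e e.injective
      have h2 : (fun i : Fin S.card =>
          IsLocalRing.residue B (lift (e i : IsLocalRing.ResidueField B)))
          = (fun i : S => (i : IsLocalRing.ResidueField B)) ∘ e := by
        funext i
        exact hlift _
      rw [h2]
      exact h1
    have hL' : LinearIndependent L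
        (fun i : Fin S.card => ((lift (e i : IsLocalRing.ResidueField B) : B) : M)) := by
      rw [Fintype.linearIndependent_iff]
      intro c hc i
      choose f g hg hfg using fun i => hL (c i)
      have hg0 : ∀ i, g i ≠ 0 := by
        intro i h
        apply hg i
        rw [h, map_zero]
      have key := indep B tB htB0 htB S.card
        (fun i => lift (e i : IsLocalRing.ResidueField B)) hu
        ((Finset.univ.sup fun i => (f i * ∏ j ∈ Finset.univ.erase i, g j).natDegree) + 1)
        (fun i => f i * ∏ j ∈ Finset.univ.erase i, g j) ?_ ?_ i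
      · have h1 : f i = 0 := by
          rcases mul_eq_zero.1 key with h | h
          · exact h
          · rw [Finset.prod_eq_zero_iff] at h
            obtain ⟨j, -, hj⟩ := h
            exact absurd hj (hg0 j)
        have h2 := hfg i
        rw [h1, map_zero] at h2
        rcases mul_eq_zero.1 h2 with h | h
        · exact h
        · exact absurd h (hg i)
      · intro i
        refine lt_of_le_of_lt Polynomial.degree_le_natDegree ?_
        have := Finset.le_sup (f := fun i => (f i * ∏ j ∈ Finset.univ.erase i, g j).natDegree)
          (Finset.mem_univ i)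
        exact_mod_cast Nat.lt_succ_of_le this
      · apply Subtype.ext
        have haev : ∀ q : Polynomial k, ((Polynomial.aeval tB q : B) : M)
            = algebraMap L M (Polynomial.aeval t q) := by
          intro q
          have h1 : ((Polynomial.aeval tB q : B) : M) = Polynomial.aeval T q := by
            change B.subtype (Polynomial.aeval tB q) = _
            rw [Polynomial.aeval_def, Polynomial.aeval_def, Polynomial.hom_eval₂]
            rfl
          rw [h1]
          exact Polynomial.aeval_algebraMap_apply M t q
        have hsum : ((∑ i, Polynomial.aeval tB (f i * ∏ j ∈ Finset.univ.erase i, g j) *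
            lift (e i : IsLocalRing.ResidueField B) : B) : M)
            = ∑ i, ((Polynomial.aeval tB (f i * ∏ j ∈ Finset.univ.erase i, g j) : B) : M) *
              ((lift (e i : IsLocalRing.ResidueField B) : B) : M) := by
          change B.subtype (∑ i, Polynomial.aeval tB (f i * ∏ j ∈ Finset.univ.erase i, g j) *
            lift (e i : IsLocalRing.ResidueField B)) = _
          rw [map_sum]
          rfl
        rw [hsum]
        have h2 : ∀ i, ((Polynomial.aeval tB (f i * ∏ j ∈ Finset.univ.erase i, g j) : B) : M) *
              ((lift (e i : IsLocalRing.ResidueField B) : B) : M)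
            = algebraMap L M (∏ j, Polynomial.aeval t (g j)) *
              (c i • ((lift (e i : IsLocalRing.ResidueField B) : B) : M)) := by
          intro i
          rw [haev, map_mul, ← hfg i, map_prod, Algebra.smul_def,
            ← Finset.mul_prod_erase Finset.univ (fun j => Polynomial.aeval t (g j))
              (Finset.mem_univ i), map_mul, map_mul, map_mul]
          ring
        rw [Finset.sum_congr rfl (fun i _ => h2 i), ← Finset.mul_sum, hc, mul_zero]
        rfl
    have := hL'.fintype_card_le_finrank
    simpa using this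
  have hf : Module.Finite k (IsLocalRing.ResidueField B) := by
    rw [← Module.rank_lt_aleph0_iff]
    exact lt_of_le_of_lt hrank (Cardinal.natCast_lt_aleph0)
  exact ⟨IsLocalRing.ResidueField B, inferInstance, inferInstance, Module.finrank_pos,
    Module.finrank_le_of_rank_le hrank, spec_of_val B hB⟩

open scoped IntermediateField.algebraAdjoinAdjoin in
theorem trans_adjoin {F K : Type u} [Field F] [Field K] [Algebra F K] (s t : K)
    (h : AlgebraicIndependent F ![s, t]) :
    Transcendental (IntermediateField.adjoin F ({s} : Set K)) t := by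
  have h1 := h.transcendental_adjoin (s := {0}) (i := 1) (by simp)
  have h2 : (![s, t] '' {0} : Set K) = {s} := by simp
  rw [h2] at h1
  have h3 : Transcendental (Algebra.adjoin F ({s} : Set K)) t := h1
  intro h4
  apply h3
  exact (IsFractionRing.isAlgebraic_iff (Algebra.adjoin F ({s} : Set K))
    (IntermediateField.adjoin F ({s} : Set K)) K).2 h4

theorem quot (E : Type u) {K : Type u} [Field E] [Field K] [Algebra E K] (t : K)
    (x : IntermediateField.adjoin E ({t} : Set K)) :
    ∃ f g : Polynomial E,
      Polynomial.aeval (⟨t, IntermediateField.mem_adjoin_simple_self E t⟩ :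
        IntermediateField.adjoin E ({t} : Set K)) g ≠ 0 ∧
      x * Polynomial.aeval (⟨t, IntermediateField.mem_adjoin_simple_self E t⟩ :
        IntermediateField.adjoin E ({t} : Set K)) g
        = Polynomial.aeval (⟨t, IntermediateField.mem_adjoin_simple_self E t⟩ :
        IntermediateField.adjoin E ({t} : Set K)) f := by
  obtain ⟨f, g, hfg⟩ := (IntermediateField.mem_adjoin_simple_iff E (x : K)).1 x.2
  have hev : ∀ q : Polynomial E,
      ((Polynomial.aeval (⟨t, IntermediateField.mem_adjoin_simple_self E t⟩ :
        IntermediateField.adjoin E ({t} : Set K)) q : IntermediateField.adjoin E ({t} : Set K)) : K)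
        = Polynomial.aeval t q := by
    intro q
    exact (Polynomial.aeval_algebraMap_apply K (⟨t, IntermediateField.mem_adjoin_simple_self E t⟩ :
        IntermediateField.adjoin E ({t} : Set K)) q).symm
  by_cases hg : Polynomial.aeval t g = 0
  · refine ⟨0, 1, by simp, ?_⟩
    have hx : x = 0 := by
      apply Subtype.ext
      rw [hfg, hg, div_zero]
      rfl
    rw [hx]
    simp
  · refine ⟨f, g, ?_, ?_⟩
    · intro h
      apply hg
      rw [← hev, h]
      rfl
    · apply Subtype.ext
      have h1 : (x : K) * Polynomial.aeval t g = Polynomial.aeval t f := by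
        rw [hfg, div_mul_cancel₀ _ hg]
      rw [hev f, ← h1, ← hev g]
      rfl

theorem pl : S_PL.{u} := by
  intro F K _ _ _ n hn
  obtain ⟨hn0, s, t, hst, hfin⟩ := hn
  have hs : Transcendental F s := hst.transcendental 0
  have ht := trans_adjoin s t hst
  let E : IntermediateField F K := IntermediateField.adjoin F ({s} : Set K)
  let L : IntermediateField E K := IntermediateField.adjoin E ({t} : Set K)
  have hLn : Module.finrank L K = n := by
    have h1 : L.restrictScalars F = IntermediateField.adjoin F ({s, t} : Set K) := by
      have := IntermediateField.adjoin_adjoin_left F ({s} : Set K) ({t} : Set K)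
      rw [show ({s, t} : Set K) = {s} ∪ {t} from rfl]
      exact this
    rw [← hfin, ← h1]
    rfl
  have htL : t ∈ L := IntermediateField.mem_adjoin_simple_self E t
  have htL' : Transcendental E (⟨t, htL⟩ : L) := by
    intro h
    apply ht
    obtain ⟨p, hp, hp'⟩ := h
    refine ⟨p, hp, ?_⟩
    have h1 := Polynomial.aeval_algebraMap_apply K (⟨t, htL⟩ : L) p
    rw [hp', map_zero] at h1
    exact h1
  obtain ⟨κ₁, _, _, h10, h1n, hsp1⟩ := exists_val (k := E) (L := L) (M := K) ⟨t, htL⟩ htL'
    (quot E t) (by omega)
  let _ : Algebra F κ₁ := ((algebraMap E κ₁).comp (algebraMap F E)).toAlgebra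
  have : IsScalarTower F E κ₁ := IsScalarTower.of_algebraMap_eq fun x => rfl
  have hsE : s ∈ E := IntermediateField.mem_adjoin_simple_self F s
  have hsE' : Transcendental F (⟨s, hsE⟩ : E) := by
    intro h
    apply hs
    obtain ⟨p, hp, hp'⟩ := h
    refine ⟨p, hp, ?_⟩
    have h1 := Polynomial.aeval_algebraMap_apply K (⟨s, hsE⟩ : E) p
    rw [hp', map_zero] at h1
    exact h1
  obtain ⟨κ₂, _, _, h20, h2n, hsp2⟩ := exists_val (k := F) (L := E) (M := κ₁) ⟨s, hsE⟩ hsE'
    (quot F s) h10
  have : Module.Finite F κ₂ := Module.finite_of_finrank_pos h20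
  have : Algebra.IsAlgebraic F κ₂ := Algebra.IsAlgebraic.of_finite F κ₂
  let φ : κ₂ →ₐ[F] AlgebraicClosure F := IsAlgClosed.lift
  let e : κ₂ ≃ₐ[F] φ.fieldRange := AlgEquiv.ofInjectiveField φ
  have he : Module.finrank F φ.fieldRange = Module.finrank F κ₂ :=
    (LinearEquiv.finrank_eq e.toLinearEquiv).symm
  refine ⟨φ.fieldRange, by rw [he]; exact h20, by rw [he]; omega, ?_⟩
  have hsp : Spec F K κ₂ := spec_trans (spec_base hsp1) hsp2
  intro N P hP
  obtain ⟨p, hp, hp'⟩ := hsp N P hP
  refine ⟨fun i => e (p i), ?_, ?_⟩
  · intro h
    apply hp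
    funext i
    have h1 := congrFun h i
    have h2 : e (p i) = e 0 := by rw [map_zero]; exact h1
    exact e.injective h2
  · intro d g hg h0
    have h1 := hp' d g hg h0
    have h2 : aeval (fun i => e (p i)) g = e (aeval p g) := by
      exact (MvPolynomial.comp_aeval_apply p (e : κ₂ →ₐ[F] φ.fieldRange) g).symm
    rw [h2, h1, map_zero]

end Pool.Agent.Helper95K9.IR.Pl
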