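import Pool.Agent.Helper95K9.IR.C6U2

/-!
Degree of irrationality of del Pezzo surfaces: the leaves [R6] and [RN].
-/

set_option autoImplicit false

namespace Pool.Agent.Helper95K9.IR.Six

open Polynomial IntermediateField

universe u

variable {F Ω : Type u} [Field F] [Field Ω] [Algebra F Ω]

/-- The function field of a surface is not algebraic over the field generated by one element. -/
theorem no_curve {K : IntermediateField F Ω} (hK : IsSurfaceField F K) (g : Ω)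
    (h : ∀ z ∈ K, IsAlgebraic (adjoin F ({g} : Set Ω)) z) : False := by
  obtain ⟨s, hs⟩ := exists_isTranscendenceBasis F K
  have hcard : Cardinal.mk s = 2 := by rw [hs.cardinalMk_eq_trdeg, hK.1]
  have hind : AlgebraicIndependent F (fun x : s => ((x : K) : Ω)) :=
    hs.1.map' (f := K.val) K.val.injective
  have hI : (AlgebraicIndependent.matroid F Ω).Indep ((fun x : K => (x : Ω)) '' s) := by
    rw [AlgebraicIndependent.matroid_indep_iff]
    exact hind.image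
  have hsub : ((fun x : K => (x : Ω)) '' s) ⊆ (AlgebraicIndependent.matroid F Ω).closure {g} := by
    rintro _ ⟨x, hx, rfl⟩
    rw [AlgebraicIndependent.matroid_closure_eq, SetLike.mem_coe, Subalgebra.mem_algebraicClosure,
      ← IntermediateField.isAlgebraic_adjoin_iff]
    exact h _ x.2
  have h1 := (AlgebraicIndependent.matroid F Ω).eRk_mono hsub
  rw [Matroid.eRk_closure_eq, hI.eRk_eq_encard, Set.InjOn.encard_image
    (fun x _ y _ hxy => Subtype.ext hxy)] at h1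
  have h2 := h1.trans ((AlgebraicIndependent.matroid F Ω).eRk_le_encard {g})
  rw [Set.encard_singleton] at h2
  have h3 : s.encard = 2 := by
    rw [Set.encard, ENat.card, hcard]
    simp
  rw [h3] at h2
  exact absurd h2 (by norm_num)

/-- Roots of quadratic equations over a relatively algebraically closed field. -/
theorem mem_of_quad (E : IntermediateField F Ω) (δ k₂ k₁ k₀ : Ω)
    (h2 : IsAlgebraic E k₂) (h1 : IsAlgebraic E k₁) (h0 : IsAlgebraic E k₀) (hne : k₂ ≠ 0)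
    (h : k₂ * δ ^ 2 + k₁ * δ + k₀ = 0) : IsAlgebraic E δ := by
  have m2 := (mem_algebraicClosure_iff (F := E)).2 h2
  have m1 := (mem_algebraicClosure_iff (F := E)).2 h1
  have m0 := (mem_algebraicClosure_iff (F := E)).2 h0
  have : IsAlgebraic (algebraicClosure E Ω) δ := by
    refine ⟨C ⟨k₂, m2⟩ * X ^ 2 + C ⟨k₁, m1⟩ * X + C ⟨k₀, m0⟩, ?_, ?_⟩
    · intro hp
      have c2 := congrArg (fun p => p.coeff 2) hp
      simp only [coeff_add, coeff_C_mul, coeff_X_pow, coeff_X, coeff_C, coeff_zero] at c2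
      norm_num at c2
      exact hne (congrArg Subtype.val c2)
    · simp only [map_add, map_mul, map_pow, aeval_C, aeval_X]
      exact h
  exact this.restrictScalars E

/-- The quadric `e₂(u) + B e₁(u) + C = 0`. -/
theorem quadric (hUB : S_UB.{u}) (hD : S_DESC.{u}) {θ : Fin 3 → Ω} (hθ : IsCubic F θ)
    (K G : IntermediateField F Ω) (hK : IsSurfaceField F K)
    (hG : IsGalois F G ∧ FiniteDimensional F G) (gθ : ∀ i, θ i ∈ G) (x : Fin 3 → Ω)
    (hxK : ∀ j, x j ∈ K)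
    (hM : ∀ M : IntermediateField F Ω, G ≤ M → (∀ i, ev x (θ i) ∈ M) → K ≤ M) (B C : Ω)
    (hB : B ∈ G) (hC : C ∈ G)
    (hQ : ev x (θ 0) * ev x (θ 1) + ev x (θ 0) * ev x (θ 2) + ev x (θ 1) * ev x (θ 2) +
      B * (ev x (θ 0) + ev x (θ 1) + ev x (θ 2)) + C = 0) : Rational F K := by
  have halgK := alg_of_surface hK
  -- an element of trace zero
  obtain ⟨s₁, s₂, s₃, hs1, hs2, hs3⟩ := sym θ hθ
  obtain ⟨T, hTF, hT0, hTs⟩ : ∃ T : Fin 3 → Ω, (∀ j, T j ∈ (⊥ : IntermediateField F Ω)) ∧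
      T ≠ 0 ∧ ev T (θ 0) + ev T (θ 1) + ev T (θ 2) = 0 := by
    by_cases h3 : (3 : F) = 0
    · have h3' : (3 : Ω) = 0 := by
        rw [← map_ofNat (algebraMap F Ω) 3, h3, map_zero]
      refine ⟨![1, 0, 0], ?_, ?_, ?_⟩
      · intro j
        fin_cases j
        · exact IntermediateField.one_mem _
        · exact IntermediateField.zero_mem _
        · exact IntermediateField.zero_mem _
      · intro h
        have := congrFun h 0
        simp at this
      · simp [ev]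
        linear_combination h3'
    · refine ⟨![-algebraMap F Ω s₁, algebraMap F Ω 3, 0], ?_, ?_, ?_⟩
      · intro j
        fin_cases j
        · exact IntermediateField.neg_mem _ (IntermediateField.algebraMap_mem _ _)
        · exact IntermediateField.algebraMap_mem _ _
        · exact IntermediateField.zero_mem _
      · intro h
        have := congrFun h 1
        simp only [Matrix.cons_val_one, Matrix.cons_val_zero, Pi.zero_apply] at this
        exact h3 ((map_eq_zero _).1 this)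
      · simp only [ev, Matrix.cons_val_zero, Matrix.cons_val_one, Matrix.cons_val, map_ofNat]
        linear_combination 3 * hs1
  obtain ⟨t, ht⟩ : ∃ t : Fin 3 → Ω, ∀ i, t i = ev T (θ i) := ⟨_, fun _ => rfl⟩
  have ht0 : ∀ i, t i ≠ 0 := fun i => by
    rw [ht i]
    exact ev_ne_zero (K := K) hθ halgK T (fun j => (bot_le : ⊥ ≤ K) (hTF j)) hT0 i
  have hts : t 2 = - t 0 - t 1 := by
    rw [ht 0, ht 1, ht 2]
    linear_combination hTs
  have htG : ∀ i, t i ∈ G := fun i => by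
    rw [ht i]
    exact ev_mem T (fun j => (bot_le : ⊥ ≤ G) (hTF j)) gθ i
  have ct : Co (⊥ : IntermediateField F Ω) θ t := ⟨T, hTF, ht⟩
  obtain ⟨D, hDF, hd⟩ := ct.adj hθ
  have hd0 : ev D (θ 0) = t 1 * t 2 := (hd 0).symm
  have hd1 : ev D (θ 1) = t 0 * t 2 := by rw [← hd 1]; show t 2 * t 0 = _; ring
  have hd2 : ev D (θ 2) = t 0 * t 1 := (hd 2).symm
  obtain ⟨k, hk⟩ : ∃ k, D k ≠ 0 := by
    by_contra hcon
    push Not at hcon
    have : ev D (θ 0) = 0 := by simp only [ev, hcon]; ring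
    rw [hd0] at this
    exact mul_ne_zero (ht0 1) (ht0 2) this
  obtain ⟨lam, hlam⟩ : ∃ lam : Ω, lam = x k / D k := ⟨_, rfl⟩
  have hDM : ∀ (M : IntermediateField F Ω) j, D j ∈ M := fun M j => (bot_le : ⊥ ≤ M) (hDF j)
  have hlamK : lam ∈ K := by rw [hlam]; exact K.div_mem (hxK k) (hDM K k)
  obtain ⟨V, hV⟩ : ∃ V : Fin 3 → Ω, ∀ j, V j = x j - lam * D j := ⟨_, fun _ => rfl⟩
  have hVK : ∀ j, V j ∈ K := fun j => by
    rw [hV j]; exact K.sub_mem (hxK j) (K.mul_mem hlamK (hDM K j))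
  have hVk : V k = 0 := by rw [hV k, hlam, div_mul_cancel₀ _ hk, sub_self]
  have hxv : ∀ i, ev x (θ i) = ev V (θ i) + lam * ev D (θ i) := fun i => by
    simp only [ev, hV]; ring
  apply rational_of_hasDeg
  apply hasDeg_of_sup hUB hD hK hG (V (k + 1)) (V (k + 2)) (hVK _) (hVK _) 1
  set E := adjoin F ({V (k + 1), V (k + 2)} : Set Ω) with hE
  have hEK : E ≤ K := by
    rw [hE, adjoin_le_iff]
    rintro z (rfl | rfl)
    · exact hVK _
    · exact hVK _
  have hVE : ∀ j, V j ∈ E := by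
    intro j
    rcases fin3 j k with rfl | rfl | rfl
    · rw [hVk]; exact E.zero_mem
    · exact subset_adjoin F _ (by simp)
    · exact subset_adjoin F _ (by simp)
  set A := E ⊔ G with hA
  have hGA : G ≤ A := le_sup_right
  have hEA : E ≤ A := le_sup_left
  have hvA : ∀ i, ev V (θ i) ∈ A := ev_mem V (fun j => hEA (hVE j)) (fun i => hGA (gθ i))
  obtain ⟨v, hv⟩ : ∃ v : Fin 3 → Ω, ∀ i, v i = ev V (θ i) := ⟨_, fun _ => rfl⟩
  have hv' : ∀ i, v i ∈ A := fun i => by rw [hv i]; exact hvA i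
  obtain ⟨Dn, hDn⟩ : ∃ Dn : Ω, Dn = B * (t 0 * t 1 + t 0 * t 2 + t 1 * t 2) -
    (v 0 * t 0 ^ 2 + v 1 * t 1 ^ 2 + v 2 * t 2 ^ 2) := ⟨_, rfl⟩
  have hDnA : Dn ∈ A := by
    rw [hDn]
    exact A.sub_mem (A.mul_mem (hGA hB) (A.add_mem (A.add_mem (A.mul_mem (hGA (htG 0))
      (hGA (htG 1))) (A.mul_mem (hGA (htG 0)) (hGA (htG 2)))) (A.mul_mem (hGA (htG 1))
      (hGA (htG 2))))) (A.add_mem (A.add_mem (A.mul_mem (hv' 0) (pow_mem (hGA (htG 0)) 2))
      (A.mul_mem (hv' 1) (pow_mem (hGA (htG 1)) 2))) (A.mul_mem (hv' 2) (pow_mem (hGA (htG 2)) 2)))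
  have hlin : lam * Dn = -(v 0 * v 1 + v 0 * v 2 + v 1 * v 2 + B * (v 0 + v 1 + v 2) + C) := by
    rw [hxv 0, hxv 1, hxv 2, hd0, hd1, hd2, ← hv 0, ← hv 1, ← hv 2, hts] at hQ
    rw [hDn, hts]
    linear_combination hQ
  by_cases hDn0 : Dn = 0
  · -- degenerate case
    exfalso
    obtain ⟨w, hw⟩ : ∃ w : Fin 3 → Ω, ∀ i, w i = t i * ev x (θ i) := ⟨_, fun _ => rfl⟩
    obtain ⟨c, hc⟩ : ∃ c : Ω, c = B * (t 0 * t 1 + t 0 * t 2 + t 1 * t 2) := ⟨_, rfl⟩
    have hcG : c ∈ G := by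
      rw [hc]
      exact G.mul_mem hB (G.add_mem (G.add_mem (G.mul_mem (htG 0)
        (htG 1)) (G.mul_mem (htG 0) (htG 2))) (G.mul_mem (htG 1) (htG 2)))
    have hsum : t 0 * w 0 + t 1 * w 1 + t 2 * w 2 = c := by
      rw [hw 0, hw 1, hw 2, hxv 0, hxv 1, hxv 2, hd0, hd1, hd2, ← hv 0, ← hv 1, ← hv 2, hc]
      rw [hDn0] at hDn
      have h3 : t 0 + t 1 + t 2 = 0 := by rw [hts]; ring
      linear_combination hDn + lam * t 0 * t 1 * t 2 * h3
    have hQw : t 2 * (w 0 * w 1) + t 1 * (w 0 * w 2) + t 0 * (w 1 * w 2) +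
        B * (t 1 * t 2 * w 0 + t 0 * t 2 * w 1 + t 0 * t 1 * w 2) + C * (t 0 * t 1 * t 2) = 0 := by
      rw [hw 0, hw 1, hw 2]
      linear_combination (t 0 * t 1 * t 2) * hQ
    obtain ⟨δ, hδ⟩ : ∃ δ : Ω, δ = w 0 - w 1 := ⟨_, rfl⟩
    have hw1 : t 2 * w 1 = t 2 * w 2 + (t 0 * δ - c) := by
      rw [hδ, ← hsum, hts]; ring
    have hw0 : t 2 * w 0 = t 2 * w 2 - (t 1 * δ + c) := by
      rw [hδ, ← hsum, hts]; ring
    have hδeq : (-(t 0 * t 1)) * δ ^ 2 + (t 1 * c - t 0 * c + B * (t 2 * (t 0 ^ 2 - t 1 ^ 2))) * δ +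
        (c ^ 2 - B * (t 2 * ((t 0 + t 1) * c)) + C * (t 0 * t 1 * t 2 ^ 2)) = 0 := by
      have h1 : (t 2 * w 0) * (t 2 * w 1) + t 1 * (t 2 * w 0) * w 2 + t 0 * (t 2 * w 1) * w 2 +
          B * (t 1 * t 2 * (t 2 * w 0) + t 0 * t 2 * (t 2 * w 1) + t 0 * t 1 * t 2 * w 2) +
          C * (t 0 * t 1 * t 2 ^ 2) = 0 := by
        linear_combination (t 2) * hQw
      rw [hw0, hw1, hc, hts] at h1
      rw [hc, hts]
      linear_combination h1
    set g := ev x (θ 2) with hg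
    set E' := adjoin F ({g} : Set Ω) with hE'
    set M : IntermediateField F Ω := (algebraicClosure E' Ω).restrictScalars F with hMdef
    have memM : ∀ z, z ∈ M ↔ IsAlgebraic E' z := by
      intro z
      rw [hMdef, mem_restrictScalars, mem_algebraicClosure_iff]
    have hGM : G ≤ M := by
      intro z hz
      rw [memM]
      have := hG.2
      have halg : IsAlgebraic F (⟨z, hz⟩ : G) := Algebra.IsAlgebraic.isAlgebraic _
      have halg' : IsAlgebraic F z := halg.algebraMap (A := Ω)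
      exact halg'.tower_top E'
    have hgM : g ∈ M := by
      rw [memM]
      exact isAlgebraic_algebraMap (⟨g, mem_adjoin_simple_self F g⟩ : E')
    have hδM : δ ∈ M := by
      rw [memM]
      refine mem_of_quad E' δ _ _ _ ?_ ?_ ?_ (neg_ne_zero.2 (mul_ne_zero (ht0 0) (ht0 1))) hδeq
      · rw [← memM]
        exact hGM (G.neg_mem (G.mul_mem (htG 0) (htG 1)))
      · rw [← memM]
        exact hGM (G.add_mem (G.sub_mem (G.mul_mem (htG 1) hcG) (G.mul_mem (htG 0) hcG))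
          (G.mul_mem hB (G.mul_mem (htG 2) (G.sub_mem (pow_mem (htG 0) 2) (pow_mem (htG 1) 2)))))
      · rw [← memM]
        exact hGM (G.add_mem (G.sub_mem (pow_mem hcG 2) (G.mul_mem hB (G.mul_mem (htG 2)
          (G.mul_mem (G.add_mem (htG 0) (htG 1)) hcG)))) (G.mul_mem hC (G.mul_mem (G.mul_mem (htG 0)
          (htG 1)) (pow_mem (htG 2) 2))))
    have hw2M : w 2 ∈ M := by
      rw [hw 2]; exact M.mul_mem (hGM (htG 2)) hgM
    have hw0M : w 0 ∈ M := by
      have : w 0 = (t 2 * w 2 - (t 1 * δ + c)) / t 2 := by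
        rw [eq_div_iff (ht0 2), ← hw0]; ring
      rw [this]
      exact M.div_mem (M.sub_mem (M.mul_mem (hGM (htG 2)) hw2M)
        (M.add_mem (M.mul_mem (hGM (htG 1)) hδM) (hGM hcG))) (hGM (htG 2))
    have hw1M : w 1 ∈ M := by
      have : w 1 = (t 2 * w 2 + (t 0 * δ - c)) / t 2 := by
        rw [eq_div_iff (ht0 2), ← hw1]; ring
      rw [this]
      exact M.div_mem (M.add_mem (M.mul_mem (hGM (htG 2)) hw2M)
        (M.sub_mem (M.mul_mem (hGM (htG 0)) hδM) (hGM hcG))) (hGM (htG 2))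
    have hwM : ∀ i, w i ∈ M := by
      intro i
      fin_cases i
      · exact hw0M
      · exact hw1M
      · exact hw2M
    have hxM : ∀ i, ev x (θ i) ∈ M := by
      intro i
      have : ev x (θ i) = w i / t i := by
        rw [eq_div_iff (ht0 i), hw i]; ring
      rw [this]
      exact M.div_mem (hwM i) (hGM (htG i))
    exact no_curve hK g (fun z hz => (memM z).1 (hM M hGM hxM hz))
  · have hlamA : lam ∈ A := by
      have : lam = -(v 0 * v 1 + v 0 * v 2 + v 1 * v 2 + B * (v 0 + v 1 + v 2) + C) / Dn := by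
        rw [eq_div_iff hDn0, hlin]
      rw [this]
      exact A.div_mem (A.neg_mem (A.add_mem (A.add_mem (A.add_mem (A.add_mem (A.mul_mem (hv' 0)
        (hv' 1)) (A.mul_mem (hv' 0) (hv' 2))) (A.mul_mem (hv' 1) (hv' 2))) (A.mul_mem (hGA hB)
        (A.add_mem (A.add_mem (hv' 0) (hv' 1)) (hv' 2)))) (hGA hC))) hDnA
    have hKA : K ⊔ G ≤ A := by
      apply sup_le _ hGA
      apply hM A hGA
      intro i
      rw [hxv i]
      exact A.add_mem (hvA i) (A.mul_mem hlamA (ev_mem D (hDM A) (fun i => hGA (gθ i)) i))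
    rw [relfinrank_eq_one_of_le hKA]
    norm_num

/-- Families of values of `x + ω y` and `x + ω' y`, with `x` and `y` with coordinates in `K`. -/
def Co2 (K : IntermediateField F Ω) (θ : Fin 3 → Ω) (ω ω' : Ω) (z z' : Fin 3 → Ω) : Prop :=
  ∃ a e : Fin 3 → Ω, Co K θ a ∧ Co K θ e ∧ (∀ i, z i = a i + ω * e i) ∧
    ∀ i, z' i = a i + ω' * e i

section Co2Lemmas

variable {K : IntermediateField F Ω} {θ : Fin 3 → Ω} {ω ω' : Ω}

theorem Co2.of (X Y : Fin 3 → Ω) (hX : InF F X) (hY : InF F Y) :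
    Co2 K θ ω ω' (zz θ ω X Y) (zz θ ω' X Y) :=
  ⟨_, _, Co.ofF X hX, Co.ofF Y hY, fun _ => rfl, fun _ => rfl⟩

theorem Co2.const (s t : Ω) (hs : s ∈ K) (ht : t ∈ K) :
    Co2 K θ ω ω' (fun _ => s + t * ω) (fun _ => s + t * ω') :=
  ⟨_, _, Co.const s hs, Co.const t ht, fun _ => by ring, fun _ => by ring⟩

theorem Co2.congr {z z' w w' : Fin 3 → Ω} (h : Co2 K θ ω ω' z z') (h1 : ∀ i, w i = z i)
    (h2 : ∀ i, w' i = z' i) : Co2 K θ ω ω' w w' := by
  obtain ⟨a, e, ha, he, hz, hz'⟩ := h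
  exact ⟨a, e, ha, he, fun i => by rw [h1 i, hz i], fun i => by rw [h2 i, hz' i]⟩

theorem Co2.mul (hθ : IsCubic F θ) (hω : IsQuad F ω ω') {z z' w w' : Fin 3 → Ω}
    (h : Co2 K θ ω ω' z z') (h' : Co2 K θ ω ω' w w') :
    Co2 K θ ω ω' (fun i => z i * w i) (fun i => z' i * w' i) := by
  obtain ⟨A, B, hB, hA⟩ := quad hω
  obtain ⟨a, e, ha, he, hz, hz'⟩ := h
  obtain ⟨a₂, e₂, ha₂, he₂, hw, hw'⟩ := h'
  have cA : Co K θ (fun _ => algebraMap F Ω A) := Co.constF A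
  have cB : Co K θ (fun _ => algebraMap F Ω B) := Co.constF B
  have hA' : algebraMap F Ω A = - (ω * ω') := by rw [hA]; ring
  refine ⟨_, _, (ha.mul hθ ha₂).add ((cA.mul hθ he).mul hθ he₂),
    ((ha.mul hθ he₂).add (ha₂.mul hθ he)).add ((cB.mul hθ he).mul hθ he₂), ?_, ?_⟩
  · intro i
    simp only [hz i, hw i]
    rw [hA', ← hB]
    ring
  · intro i
    simp only [hz' i, hw' i]
    rw [hA', ← hB]
    ring

theorem Co2.swap (hθ : IsCubic F θ) (hω : IsQuad F ω ω') {z z' : Fin 3 → Ω}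
    (h : Co2 K θ ω ω' z z') : Co2 K θ ω ω' z' z := by
  obtain ⟨A, B, hB, hA⟩ := quad hω
  obtain ⟨a, e, ha, he, hz, hz'⟩ := h
  have cB : Co K θ (fun _ => algebraMap F Ω B) := Co.constF B
  refine ⟨_, _, ha.add (cB.mul hθ he), he.neg, ?_, ?_⟩
  · intro i
    simp only [hz' i]
    rw [← hB]
    ring
  · intro i
    simp only [hz i]
    rw [← hB]
    ring

theorem Co2.inv (hθ : IsCubic F θ) (hω : IsQuad F ω ω') {z z' : Fin 3 → Ω}
    (h : Co2 K θ ω ω' z z') (h0 : ∀ i, z i ≠ 0) (h0' : ∀ i, z' i ≠ 0) :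
    Co2 K θ ω ω' (fun i => (z i)⁻¹) (fun i => (z' i)⁻¹) := by
  obtain ⟨a, e, ha, he, hz, hz'⟩ := h
  obtain ⟨A, B, hB, hA⟩ := quad hω
  have cA : Co K θ (fun _ => algebraMap F Ω A) := Co.constF A
  have cB : Co K θ (fun _ => algebraMap F Ω B) := Co.constF B
  have hA' : algebraMap F Ω A = - (ω * ω') := by rw [hA]; ring
  have cn : Co K θ (fun i => z i * z' i) := by
    refine (((ha.mul hθ ha).add ((cB.mul hθ ha).mul hθ he)).sub
      ((cA.mul hθ he).mul hθ he)).congr ?_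
    intro i
    simp only [hz i, hz' i]
    rw [hA', ← hB]
    ring
  have cni := cn.inv hθ (fun i => mul_ne_zero (h0 i) (h0' i))
  have c0 : Co K θ (fun _ => (0 : Ω)) := Co.const 0 K.zero_mem
  have c1 : Co2 K θ ω ω' (fun i => (z i * z' i)⁻¹) (fun i => (z i * z' i)⁻¹) :=
    ⟨_, _, cni, c0, fun i => by ring, fun i => by ring⟩
  have c2 : Co2 K θ ω ω' z z' := ⟨a, e, ha, he, hz, hz'⟩
  refine ((c2.swap hθ hω).mul hθ hω c1).congr ?_ ?_
  · intro i
    have := h0 i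
    have := h0' i
    field_simp
  · intro i
    have := h0 i
    have := h0' i
    field_simp

theorem Co2.coords {z z' : Fin 3 → Ω} (h : Co2 (⊥ : IntermediateField F Ω) θ ω ω' z z') :
    ∃ X Y : Fin 3 → Ω, InF F X ∧ InF F Y ∧ (∀ i, zz θ ω X Y i = z i) ∧
      ∀ i, zz θ ω' X Y i = z' i := by
  obtain ⟨a, e, ⟨X, hX, hX'⟩, ⟨Y, hY, hY'⟩, hz, hz'⟩ := h
  refine ⟨X, Y, ?_, ?_, ?_, ?_⟩
  · intro j
    have := hX j
    rw [mem_bot] at this
    exact this
  · intro j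
    have := hY j
    rw [mem_bot] at this
    exact this
  · intro i
    rw [hz i, hX' i, hY' i]
    rfl
  · intro i
    rw [hz' i, hX' i, hY' i]
    rfl

end Co2Lemmas

/-- [R6] -/
theorem t6R (hUB : S_UB.{u}) (hD : S_DESC.{u}) : S_R6.{u} := by
  intro F Ω _ _ _ θ ω ω' b c₀ c₁ K h6 hFF hNL hNK
  obtain ⟨hθ, hω, hb, hc0, hc1, hN, hne0⟩ := h6
  obtain ⟨hK, x₀, y₀, ⟨hT1, hT2⟩, hxy₀⟩ := hFF
  obtain ⟨X, Y, hX, hY, hm⟩ := hNL
  obtain ⟨X₂, Y₂, hX₂, hY₂, hn⟩ := hNK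
  have hne : ω - ω' ≠ 0 := sub_ne_zero.2 hω.1
  have halgK := alg_of_surface hK
  have rM : ∀ (M : IntermediateField F Ω) (z : Ω), z ∈ (algebraMap F Ω).range → z ∈ M := by
    rintro M z ⟨a, rfl⟩
    exact M.algebraMap_mem a
  have halgB : ∀ z ∈ (⊥ : IntermediateField F Ω), IsAlgebraic F z →
      z ∈ (algebraMap F Ω).range := by
    intro z hz _
    rw [mem_bot] at hz
    exact hz
  have hb0 : ∀ i, ev b (θ i) ≠ 0 := by
    have : (∏ i, ev b (θ i)) ≠ 0 := by rw [hN]; exact hne0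
    rw [Finset.prod_ne_zero_iff] at this
    exact fun i => this i (Finset.mem_univ i)
  have hc_ne := left_ne_zero_of_mul hne0
  have hc_ne' := right_ne_zero_of_mul hne0
  have hmm : ∀ i, zz θ ω X Y i * zz θ ω' X Y i ≠ 0 := fun i => by rw [hm i]; exact hb0 i
  have hm0 : ∀ i, zz θ ω X Y i ≠ 0 := fun i => left_ne_zero_of_mul (hmm i)
  have hm0' : ∀ i, zz θ ω' X Y i ≠ 0 := fun i => right_ne_zero_of_mul (hmm i)
  -- products over the conjugates
  obtain ⟨s, t, hs, ht, hM1, hM2⟩ := prod_conj hθ hω (K := (⊥ : IntermediateField F Ω)) X Y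
    (fun j => rM _ _ (hX j)) (fun j => rM _ _ (hY j))
  obtain ⟨s', t', hs', ht', hN1, hN2⟩ := prod_conj hθ hω (K := (⊥ : IntermediateField F Ω)) X₂ Y₂
    (fun j => rM _ _ (hX₂ j)) (fun j => rM _ _ (hY₂ j))
  have hst : s' = c₀ ∧ t' = c₁ := by
    have := lin2 hω halgB (s' - c₀) (t' - c₁) (IntermediateField.sub_mem _ hs' (rM _ _ hc0))
      (IntermediateField.sub_mem _ ht' (rM _ _ hc1)) (by
        rw [hN1] at hn
        linear_combination hn)
    exact ⟨sub_eq_zero.1 this.1, sub_eq_zero.1 this.2⟩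
  rw [hst.1, hst.2] at hN1 hN2
  have hn0 : ∀ i, zz θ ω X₂ Y₂ i ≠ 0 := by
    have : (∏ i, zz θ ω X₂ Y₂ i) ≠ 0 := by rw [hn]; exact hc_ne
    rw [Finset.prod_ne_zero_iff] at this
    exact fun i => this i (Finset.mem_univ i)
  have hn0' : ∀ i, zz θ ω' X₂ Y₂ i ≠ 0 := by
    have : (∏ i, zz θ ω' X₂ Y₂ i) ≠ 0 := by
      rw [hN2]; exact hc_ne'
    rw [Finset.prod_ne_zero_iff] at this
    exact fun i => this i (Finset.mem_univ i)
  have hMne : (s + t * ω) ≠ 0 := by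
    rw [← hM1]; exact Finset.prod_ne_zero_iff.2 (fun i _ => hm0 i)
  have hMne' : (s + t * ω') ≠ 0 := by
    rw [← hM2]; exact Finset.prod_ne_zero_iff.2 (fun i _ => hm0' i)
  have hMM : (s + t * ω) * (s + t * ω') = (c₀ + c₁ * ω) * (c₀ + c₁ * ω') := by
    rw [← hM1, ← hM2, ← hN, ← Finset.prod_mul_distrib]
    exact Finset.prod_congr rfl (fun i _ => hm i)
  set m := zz θ ω X Y with hmd
  set m' := zz θ ω' X Y with hmd'
  set n := zz θ ω X₂ Y₂ with hnd
  set n' := zz θ ω' X₂ Y₂ with hnd'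
  have cm : Co2 (⊥ : IntermediateField F Ω) θ ω ω' m m' := Co2.of X Y hX hY
  have cn : Co2 (⊥ : IntermediateField F Ω) θ ω ω' n n' := Co2.of X₂ Y₂ hX₂ hY₂
  have cc : Co2 (⊥ : IntermediateField F Ω) θ ω ω' (fun _ => c₀ + c₁ * ω)
      (fun _ => c₀ + c₁ * ω') := Co2.const _ _ (rM _ _ hc0) (rM _ _ hc1)
  have cM : Co2 (⊥ : IntermediateField F Ω) θ ω ω' (fun _ => s + t * ω)
      (fun _ => s + t * ω') := Co2.const _ _ hs ht
  have cP := ((((cm.mul hθ hω cm).mul hθ hω (cn.swap hθ hω)).mul hθ hω cc).mul hθ hω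
    (((cm.swap hθ hω).inv hθ hω hm0' hm0).mul hθ hω (cn.inv hθ hω hn0 hn0'))).mul hθ hω
    (cM.inv hθ hω (fun _ => hMne) (fun _ => hMne'))
  obtain ⟨X₃, Y₃, hX₃, hY₃, hP, hP'⟩ := cP.coords
  set c := c₀ + c₁ * ω with hcd
  set c' := c₀ + c₁ * ω' with hcd'
  set μ := s + t * ω with hμd
  set μ' := s + t * ω' with hμd'
  have hPP : ∀ i, zz θ ω X₃ Y₃ i * zz θ ω' X₃ Y₃ i = ev b (θ i) := by
    intro i
    rw [hP i, hP' i, ← hm i]
    have a1 := hm0 i
    have a2 := hm0' i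
    have a3 := hn0 i
    have a4 := hn0' i
    have e : (m i * m i * n' i * c * ((m' i)⁻¹ * (n i)⁻¹) * μ⁻¹) *
        (m' i * m' i * n i * c' * ((m i)⁻¹ * (n' i)⁻¹) * μ'⁻¹) =
        m i * m' i * ((c * c') / (μ * μ')) := by
      field_simp
    rw [e, ← hMM, div_self (mul_ne_zero hMne hMne'), mul_one]
  have hPc : (∏ i, zz θ ω X₃ Y₃ i) = c := by
    have e : (∏ i, zz θ ω X₃ Y₃ i) = (∏ i, m i) ^ 2 * (∏ i, n' i) * c ^ 3 /
        ((∏ i, m' i) * (∏ i, n i) * μ ^ 3) := by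
      rw [Fin.prod_univ_three, Fin.prod_univ_three, Fin.prod_univ_three, Fin.prod_univ_three,
        Fin.prod_univ_three, hP 0, hP 1, hP 2]
      have a1 := hm0' 0
      have a2 := hm0' 1
      have a3 := hm0' 2
      have a4 := hn0 0
      have a5 := hn0 1
      have a6 := hn0 2
      field_simp
    rw [e, hM1, hM2, hN1, hN2]
    rw [div_eq_iff (mul_ne_zero (mul_ne_zero hMne' hc_ne) (pow_ne_zero 3 hMne))]
    have : μ ^ 2 * c' * c ^ 3 = μ ^ 2 * c ^ 2 * (c * c') := by ring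
    rw [this, ← hMM]
    ring
  obtain ⟨x, y, hxy, e1, e2⟩ := twist hθ hω K x₀ y₀ hxy₀ X₃ Y₃ hX₃ hY₃
    (fun i => by rw [hPP i]; exact hb0 i)
  have hz1 : ∀ i, zz θ ω x y i * zz θ ω' x y i = 1 := by
    intro i
    have h1 := hT1 i
    rw [e1 i, e2 i] at h1
    apply mul_right_cancel₀ (hb0 i)
    rw [one_mul]
    calc zz θ ω x y i * zz θ ω' x y i * ev b (θ i) =
        zz θ ω x y i * zz θ ω' x y i * (zz θ ω X₃ Y₃ i * zz θ ω' X₃ Y₃ i) := by rw [hPP]
      _ = ev b (θ i) := by rw [← h1]; ring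
  have hz2 : (∏ i, zz θ ω x y i) = 1 := by
    apply mul_right_cancel₀ hc_ne
    rw [one_mul]
    calc (∏ i, zz θ ω x y i) * c =
        (∏ i, zz θ ω x y i) * (∏ i, zz θ ω X₃ Y₃ i) := by rw [hPc]
      _ = ∏ i, zz θ ω x₀ y₀ i := by
        rw [← Finset.prod_mul_distrib]
        exact Finset.prod_congr rfl (fun i _ => (e1 i).symm)
      _ = c := hT2
  obtain ⟨u, huK, hd, hz, hM⟩ := hilbert90 hθ hω K hK x y hxy hz1
  have hprod : (ev u (θ 0) + ω) * (ev u (θ 1) + ω) * (ev u (θ 2) + ω) =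
      ((ev u (θ 0) + ω') * (ev u (θ 1) + ω') * (ev u (θ 2) + ω')) := by
    rw [Fin.prod_univ_three] at hz2
    rw [← hz 0, ← hz 1, ← hz 2]
    linear_combination ((ev u (θ 0) + ω') * (ev u (θ 1) + ω') * (ev u (θ 2) + ω')) * hz2
  have gω : ω ∈ adjoin F (Set.range θ ∪ {ω, ω'}) := subset_adjoin F _ (Or.inr (by simp))
  have gω' : ω' ∈ adjoin F (Set.range θ ∪ {ω, ω'}) := subset_adjoin F _ (Or.inr (by simp))
  have gθ : ∀ i, θ i ∈ adjoin F (Set.range θ ∪ {ω, ω'}) :=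
    fun i => subset_adjoin F _ (Or.inl ⟨i, rfl⟩)
  refine quadric hUB hD hθ K (adjoin F (Set.range θ ∪ {ω, ω'})) hK (gal6 hθ hω) gθ u huK
    (fun M hGM hvM => hM M (fun i => hGM (gθ i)) (hGM gω) (hGM gω') hvM)
    (ω + ω') ((ω + ω') ^ 2 - ω * ω') (IntermediateField.add_mem _ gω gω')
    (IntermediateField.sub_mem _ (pow_mem (IntermediateField.add_mem _ gω gω') 2)
      (IntermediateField.mul_mem _ gω gω')) ?_
  apply mul_left_cancel₀ hne
  linear_combination hprod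

/-- [RN] -/
theorem tRN (hUB : S_UB.{u}) (hD : S_DESC.{u}) : S_RN.{u} := by
  intro F Ω _ _ _ θ a K hθ ha hFF hX
  obtain ⟨hK, x, hx, hxy⟩ := hFF
  obtain ⟨X, hXF, hXa⟩ := hX
  have halgK := alg_of_surface hK
  have rM : ∀ (M : IntermediateField F Ω) (z : Ω), z ∈ (algebraMap F Ω).range → z ∈ M := by
    rintro M z ⟨a, rfl⟩
    exact M.algebraMap_mem a
  have hxK : ∀ j, x j ∈ K := fun j => hxy ▸ subset_adjoin F _ ⟨j, rfl⟩
  have ha' : algebraMap F Ω a ≠ 0 := by rwa [Ne, map_eq_zero]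
  have hX0 : ∀ i, ev X (θ i) ≠ 0 := by
    have : (∏ i, ev X (θ i)) ≠ 0 := by rw [hXa]; exact ha'
    rw [Finset.prod_ne_zero_iff] at this
    exact fun i => this i (Finset.mem_univ i)
  have cx := Co.of (K := K) (θ := θ) x hxK
  have cX := Co.ofF (K := K) (θ := θ) X hXF
  have cd := cx.sub cX
  have hd0 : ∀ i, ev x (θ i) - ev X (θ i) ≠ 0 := by
    apply cd.ne_zero hθ halgK
    intro h0
    have h1 : x = X := uniq θ hθ.1 x X (fun i => sub_eq_zero.1 (congrFun h0 i))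
    apply not_alg_of_surface hK
    intro z hz
    rw [← hxy, h1] at hz
    have h2 : adjoin F (Set.range X) ≤ ⊥ := by
      rw [adjoin_le_iff]
      rintro _ ⟨j, rfl⟩
      exact rM ⊥ _ (hXF j)
    have h3 := h2 hz
    rw [mem_bot] at h3
    obtain ⟨r, rfl⟩ := h3
    exact isAlgebraic_algebraMap r
  obtain ⟨u, huK, hu⟩ := cX.div hθ cd hd0
  have hu0 : ∀ i, ev u (θ i) ≠ 0 := fun i => by
    rw [← hu i]; exact div_ne_zero (hX0 i) (hd0 i)
  have hux : ∀ i, ev x (θ i) * ev u (θ i) = ev X (θ i) * (ev u (θ i) + 1) := by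
    intro i
    have h1 : ev u (θ i) * (ev x (θ i) - ev X (θ i)) = ev X (θ i) := by
      rw [← hu i]
      exact div_mul_cancel₀ _ (hd0 i)
    linear_combination h1
  have hprod : (ev u (θ 0) + 1) * (ev u (θ 1) + 1) * (ev u (θ 2) + 1) =
      ev u (θ 0) * ev u (θ 1) * ev u (θ 2) := by
    rw [Fin.prod_univ_three] at hx hXa
    apply mul_left_cancel₀ ha'
    calc algebraMap F Ω a * ((ev u (θ 0) + 1) * (ev u (θ 1) + 1) * (ev u (θ 2) + 1)) =
        (ev X (θ 0) * (ev u (θ 0) + 1)) * (ev X (θ 1) * (ev u (θ 1) + 1)) *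
          (ev X (θ 2) * (ev u (θ 2) + 1)) := by rw [← hXa]; ring
      _ = (ev x (θ 0) * ev u (θ 0)) * (ev x (θ 1) * ev u (θ 1)) * (ev x (θ 2) * ev u (θ 2)) := by
        rw [hux, hux, hux]
      _ = _ := by rw [← hx]; ring
  have gθ : ∀ i, θ i ∈ adjoin F (Set.range θ) := fun i => subset_adjoin F _ ⟨i, rfl⟩
  refine quadric hUB hD hθ K (adjoin F (Set.range θ)) hK (gal3 hθ) gθ u huK ?_ 1 1
    (IntermediateField.one_mem _) (IntermediateField.one_mem _) ?_
  · intro M hGM hvM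
    rw [← hxy, adjoin_le_iff]
    rintro _ ⟨j, rfl⟩
    refine coord_mem θ hθ.1 x M (fun i => hGM (gθ i)) (fun i => ?_) j
    have : ev x (θ i) = ev X (θ i) * (ev u (θ i) + 1) / ev u (θ i) := by
      rw [eq_div_iff (hu0 i)]
      exact hux i
    rw [this]
    exact M.div_mem (M.mul_mem (ev_mem X (fun j => rM M _ (hXF j)) (fun i => hGM (gθ i)) i)
      (M.add_mem (hvM i) M.one_mem)) (hvM i)
  · linear_combination hprod

end Pool.Agent.Helper95K9.IR.Six
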