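import Pool.Agent.Helper95K9.IR.EightBC

/-!
Degree of irrationality of del Pezzo surfaces: Weil restrictions of conics with a point.
-/

set_option autoImplicit false

namespace Pool.Agent.Helper95K9.IR.EightB

universe u

section
variable {F : Type u} [Field F] {A B : F} {K : Type u} [Field K] [Algebra F K]

/-- The elements of `K[ω]` with both parts in `E`, as a subfield over `F[ω]`. -/
noncomputable def sub [Fact (∀ r : F, r ^ 2 ≠ algebraMap F F A + algebraMap F F B * r)]
    [Fact (∀ r : K, r ^ 2 ≠ algebraMap F K A + algebraMap F K B * r)]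
    (E : IntermediateField F K) :
    letI := alg A B K
    IntermediateField (QA A B F) (QA A B K) :=
  letI := alg A B K
  { carrier := {r | r.re ∈ E ∧ r.im ∈ E}
    mul_mem' := by
      rintro u v ⟨hu, hu'⟩ ⟨hv, hv'⟩
      refine ⟨?_, ?_⟩
      · rw [QuadraticAlgebra.re_mul]
        exact add_mem (mul_mem hu hv) (mul_mem (mul_mem (E.algebraMap_mem _) hu') hv')
      · rw [QuadraticAlgebra.im_mul]
        exact add_mem (add_mem (mul_mem hu hv') (mul_mem hu' hv))
          (mul_mem (mul_mem (E.algebraMap_mem _) hu') hv')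
    add_mem' := by
      rintro u v ⟨hu, hu'⟩ ⟨hv, hv'⟩
      exact ⟨add_mem hu hv, add_mem hu' hv'⟩
    algebraMap_mem' := fun v => ⟨E.algebraMap_mem _, E.algebraMap_mem _⟩
    inv_mem' := by
      rintro v ⟨hv, hv'⟩
      have hn : QuadraticAlgebra.norm v ∈ E := by
        rw [QuadraticAlgebra.norm_def]
        exact sub_mem (add_mem (mul_mem hv hv) (mul_mem (mul_mem (E.algebraMap_mem _) hv) hv'))
          (mul_mem (mul_mem (E.algebraMap_mem _) hv') hv')
      rw [QuadraticAlgebra.inv_def]
      refine ⟨?_, ?_⟩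
      · rw [QuadraticAlgebra.re_smul, QuadraticAlgebra.re_star, smul_eq_mul]
        exact mul_mem (inv_mem hn) (add_mem hv (mul_mem (E.algebraMap_mem _) hv'))
      · rw [QuadraticAlgebra.im_smul, QuadraticAlgebra.im_star, smul_eq_mul]
        exact mul_mem (inv_mem hn) (neg_mem hv') }

end

/-- [R8b] -/
theorem R8b (hUB : S_UB.{u}) : S_R8b.{u} := by
  intro F K _ _ _ A B a β hD hr h4 hβ hFF hpt
  obtain ⟨hK, x, y, hxy, htop⟩ := hFF
  have h1 : Fact (∀ r : F, r ^ 2 ≠ algebraMap F F A + algebraMap F F B * r) := ⟨hr⟩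
  have h2 : Fact (∀ r : K, r ^ 2 ≠ algebraMap F K A + algebraMap F K B * r) :=
    ⟨fact_K hK hr⟩
  letI := alg A B K
  have hP := bc hD hK a β x y hxy htop
  have hs : 1 - 4 * star a = star (1 - 4 * a) := by
    have h4' : star (4 : QA A B F) = 4 := by
      have h : (4 : QA A B F) = algebraMap F _ 4 := (map_ofNat _ 4).symm
      rw [h]
      ext
      · simp
      · simp
    rw [star_sub, star_mul', star_one, h4']
  have hcon : ConicPt a β (QA A B F) := by
    obtain ⟨p, q, r, ⟨l, m, n, h3⟩, h5⟩ := hpt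
    refine ⟨p, q, r, ?_, ?_⟩
    · rintro ⟨rfl, rfl, rfl⟩
      rw [mul_zero, mul_zero, mul_zero, add_zero, add_zero] at h3
      exact zero_ne_one h3
    · exact h5
  obtain ⟨t, hxt, hyt⟩ := EightA.par h4.ne_zero hβ.ne_zero hP.e (fun c₀ c₁ c₂ hc => by
    have := hP.lin h4.ne_zero hβ.ne_zero (by
      rw [hs]
      intro h0
      exact h4.ne_zero (star_eq_zero.1 h0)) (by
      intro h0
      exact hβ.ne_zero (star_eq_zero.1 h0)) (c₀ := c₀) (c₁ := c₁) (c₂ := c₂) (c₃ := 0)
      (c₄ := 0) (by
        rw [map_zero]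
        linear_combination hc)
    exact ⟨this.1, this.2.1⟩) hcon
  obtain ⟨E, hE⟩ : ∃ E : IntermediateField F K, E = IntermediateField.adjoin F
    ({t.re, t.im} : Set K) := ⟨_, rfl⟩
  have hle : IntermediateField.adjoin (QA A B F) {t} ≤ sub E := by
    rw [IntermediateField.adjoin_le_iff]
    intro z hz
    rw [Set.mem_singleton_iff.1 hz]
    refine ⟨?_, ?_⟩
    · rw [hE]
      exact IntermediateField.subset_adjoin _ _ (by simp)
    · rw [hE]
      exact IntermediateField.subset_adjoin _ _ (by simp)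
  have hx : x.re ∈ E ∧ x.im ∈ E := hle hxt
  have hy : y.re ∈ E ∧ y.im ∈ E := hle hyt
  have hEt : IntermediateField.adjoin F ({t.re, t.im} : Set K) = ⊤ := by
    rw [← hE, eq_top_iff, ← htop, IntermediateField.adjoin_le_iff]
    intro z hz
    simp only [Set.mem_insert_iff, Set.mem_singleton_iff] at hz
    rcases hz with rfl | rfl | rfl | rfl
    · exact hx.1
    · exact hx.2
    · exact hy.1
    · exact hy.2
  have h5 : Module.finrank (IntermediateField.adjoin F ({t.re, t.im} : Set K)) K = 1 := by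
    rw [hEt]
    exact IntermediateField.finrank_top
  have h6 := hUB F K hK.1 t.re t.im (by rw [h5]; exact one_pos)
  rw [h5] at h6
  obtain ⟨_, s, r, hsr, hf⟩ := h6
  exact ⟨s, r, hsr, IntermediateField.finrank_eq_one_iff_eq_top.1 hf⟩

end Pool.Agent.Helper95K9.IR.EightB
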