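import Pool.Agent.Helper95K9.IR.Defs

/-!
Degree of irrationality of del Pezzo surfaces (MP_577596_ag): the leaf statements.
-/

set_option autoImplicit false

namespace Pool.Agent.Helper95K9.IR

open MvPolynomial

universe u

/-! ### General lemmas -/

/-- [UB] A finite subextension generated by two elements is purely transcendental. -/
def S_UB : Prop :=
  ∀ (F K : Type u) [Field F] [Field K] [Algebra F K], Algebra.trdeg F K = 2 →
    ∀ s t : K, 0 < Module.finrank (IntermediateField.adjoin F ({s, t} : Set K)) K →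
      HasDeg F K (Module.finrank (IntermediateField.adjoin F ({s, t} : Set K)) K)

/-- [PL] Places: specialisation of all points with values in `K` to one extension of degree at
most `n` of `F`. -/
def S_PL : Prop :=
  ∀ (F K : Type u) [Field F] [Field K] [Algebra F K] (n : ℕ), HasDeg F K n →
    ∃ κ : IntermediateField F (AlgebraicClosure F),
      0 < Module.finrank F κ ∧ Module.finrank F κ ≤ n ∧
      ∀ (N : ℕ) (P : Fin N → K), P ≠ 0 → ∃ p : Fin N → κ, p ≠ 0 ∧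
        ∀ (d : ℕ) (g : MvPolynomial (Fin N) F), g.IsHomogeneous d →
          aeval P g = 0 → aeval p g = 0

/-- [CUB] Two quadrics with a common zero over a cubic extension have a common zero. -/
def S_CUB : Prop :=
  ∀ (k k' : Type u) [Field k] [Field k'] [Algebra k k'], Module.finrank k k' = 3 →
    ∀ (N : ℕ) (q₁ q₂ : MvPolynomial (Fin N) k), q₁.IsHomogeneous 2 → q₂.IsHomogeneous 2 →
      ∀ P : Fin N → k', P ≠ 0 → aeval P q₁ = 0 → aeval P q₂ = 0 →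
        ∃ p : Fin N → k, p ≠ 0 ∧ eval p q₁ = 0 ∧ eval p q₂ = 0

/-- [YL] A line and a conic. -/
def S_YL : Prop :=
  ∀ (E K : Type u) [Field E] [Field K] [Algebra E K] (X Y : K)
    (l₀ l₁ c n₀ n₁ n₂ m₀ m₁ d : E),
    IntermediateField.adjoin E ({X, Y} : Set K) = ⊤ →
    algebraMap E K l₀ * X + algebraMap E K l₁ * Y + algebraMap E K c = 0 →
    algebraMap E K n₀ * X ^ 2 + algebraMap E K n₁ * X * Y + algebraMap E K n₂ * Y ^ 2 +
      algebraMap E K m₀ * X + algebraMap E K m₁ * Y + algebraMap E K d = 0 →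
    n₀ * l₁ ^ 2 - n₁ * l₀ * l₁ + n₂ * l₀ ^ 2 ≠ 0 →
    0 < Module.finrank E K ∧ Module.finrank E K ≤ 2

/-- [BZ22] Two conics without a common point at infinity. -/
def S_BZ22 : Prop :=
  ∀ (E K : Type u) [Field E] [Field K] [Algebra E K] (X Y : K) (a b c d e f : E)
    (a' b' c' d' e' f' : E),
    IntermediateField.adjoin E ({X, Y} : Set K) = ⊤ →
    algebraMap E K a * X ^ 2 + algebraMap E K b * X * Y + algebraMap E K c * Y ^ 2 +
      algebraMap E K d * X + algebraMap E K e * Y + algebraMap E K f = 0 →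
    algebraMap E K a' * X ^ 2 + algebraMap E K b' * X * Y + algebraMap E K c' * Y ^ 2 +
      algebraMap E K d' * X + algebraMap E K e' * Y + algebraMap E K f' = 0 →
    (a * c' - a' * c) ^ 2 - (a * b' - a' * b) * (b * c' - b' * c) ≠ 0 →
    0 < Module.finrank E K ∧ Module.finrank E K ≤ 4

/-- [BZ23] A conic and a cubic without a common point at infinity. -/
def S_BZ23 : Prop :=
  ∀ (E K : Type u) [Field E] [Field K] [Algebra E K] (X Y : K) (a b c d e f : E)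
    (p q r s g₀ g₁ g₂ g₃ g₄ g₅ : E),
    IntermediateField.adjoin E ({X, Y} : Set K) = ⊤ →
    algebraMap E K a * X ^ 2 + algebraMap E K b * X * Y + algebraMap E K c * Y ^ 2 +
      algebraMap E K d * X + algebraMap E K e * Y + algebraMap E K f = 0 →
    algebraMap E K p * X ^ 3 + algebraMap E K q * X ^ 2 * Y + algebraMap E K r * X * Y ^ 2 +
      algebraMap E K s * Y ^ 3 + algebraMap E K g₀ * X ^ 2 + algebraMap E K g₁ * X * Y +
      algebraMap E K g₂ * Y ^ 2 + algebraMap E K g₃ * X + algebraMap E K g₄ * Y +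
      algebraMap E K g₅ = 0 →
    (∀ (Ω : Type u) [Field Ω] [Algebra E Ω] (x y : Ω),
      algebraMap E Ω a * x ^ 2 + algebraMap E Ω b * x * y + algebraMap E Ω c * y ^ 2 = 0 →
      algebraMap E Ω p * x ^ 3 + algebraMap E Ω q * x ^ 2 * y + algebraMap E Ω r * x * y ^ 2 +
        algebraMap E Ω s * y ^ 3 = 0 → x = 0 ∧ y = 0) →
    0 < Module.finrank E K ∧ Module.finrank E K ≤ 6

/-- [DESC] Descent of a degree bound from a finite Galois extension of the constants. -/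
def S_DESC : Prop :=
  ∀ (F Ω : Type u) [Field F] [Field Ω] [Algebra F Ω] (E K G : IntermediateField F Ω) (n : ℕ),
    E ≤ K → IsGalois F G → FiniteDimensional F G → K ⊓ G = ⊥ →
    0 < IntermediateField.relfinrank (E ⊔ G) (K ⊔ G) →
    IntermediateField.relfinrank (E ⊔ G) (K ⊔ G) ≤ n →
    0 < IntermediateField.relfinrank E K ∧ IntermediateField.relfinrank E K ≤ n

/-! ### Degree three: smooth cubic surfaces -/

/-- [3U3] -/
def S_3U3 : Prop :=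
  ∀ (F K : Type u) [Field F] [Field K] [Algebra F K] (f : Fin 1 → MvPolynomial (Fin 4) F),
    (∀ j, (f j).IsHomogeneous 3) → IsFF f K → ¬ HasPt f F → ∃ n, n ≤ 3 ∧ HasDeg F K n

/-- [3U2] -/
def S_3U2 : Prop :=
  ∀ (F K : Type u) [Field F] [Field K] [Algebra F K] (f : Fin 1 → MvPolynomial (Fin 4) F),
    (∀ j, (f j).IsHomogeneous 3) → SmoothCI f → IsFF f K → HasPt f F →
      ∃ n, n ≤ 2 ∧ HasDeg F K n

/-- [3L] (any number of variables, no smoothness) -/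
def S_3L : Prop :=
  ∀ (F K : Type u) [Field F] [Field K] [Algebra F K] (N : ℕ) (f : MvPolynomial (Fin N) F),
    f.IsHomogeneous 3 → (∃ P : Fin N → K, P ≠ 0 ∧ aeval P f = 0) →
    ∀ n, HasDeg F K n → n ≤ 2 → ∃ p : Fin N → F, p ≠ 0 ∧ eval p f = 0

/-! ### Degree four: smooth intersections of two quadrics -/

/-- [4U4] -/
def S_4U4 : Prop :=
  ∀ (F K : Type u) [Field F] [Field K] [Algebra F K] (f : Fin 2 → MvPolynomial (Fin 5) F),
    (∀ j, (f j).IsHomogeneous 2) → IsFF f K → ¬ HasPt2 f → ∃ n, n ≤ 4 ∧ HasDeg F K n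

/-- [4U2] -/
def S_4U2 : Prop :=
  ∀ (F K : Type u) [Field F] [Field K] [Algebra F K] (f : Fin 2 → MvPolynomial (Fin 5) F),
    (∀ j, (f j).IsHomogeneous 2) → SmoothCI f → IsFF f K → HasPt2 f →
      ∃ n, n ≤ 2 ∧ HasDeg F K n

/-- [4L] -/
def S_4L : Prop :=
  ∀ (F K : Type u) [Field F] [Field K] [Algebra F K] (f : Fin 2 → MvPolynomial (Fin 5) F),
    (∀ j, (f j).IsHomogeneous 2) → IsFF f K → ∀ n, HasDeg F K n → n ≤ 3 → HasPt2 f

/-! ### Degrees one and two -/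

/-- [2U] -/
def S_2U : Prop :=
  ∀ (F K : Type u) [Field F] [Field K] [Algebra F K] (a b : MvPolynomial (Fin 3) F),
    a.IsHomogeneous 2 → b.IsHomogeneous 4 → IsFF2 a b K → ∃ n, n ≤ 2 ∧ HasDeg F K n

/-- [1U] -/
def S_1U : Prop :=
  ∀ (F K : Type u) [Field F] [Field K] [Algebra F K] (a₁ a₂ a₃ a₄ a₆ : MvPolynomial (Fin 2) F),
    a₁.IsHomogeneous 1 → a₂.IsHomogeneous 2 → a₃.IsHomogeneous 3 → a₄.IsHomogeneous 4 →
    a₆.IsHomogeneous 6 → IsFF1 a₁ a₂ a₃ a₄ a₆ K → ∃ n, n ≤ 2 ∧ HasDeg F K n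

/-! ### Degree eight -/

/-- [8aU4] -/
def S_8aU4 : Prop :=
  ∀ (F K : Type u) [Field F] [Field K] [Algebra F K] (a β a' β' : F),
    IsFF8a a β a' β' K → ∃ n, n ≤ 4 ∧ HasDeg F K n

/-- [8aU2] -/
def S_8aU2 : Prop :=
  ∀ (F K : Type u) [Field F] [Field K] [Algebra F K] (a β a' β' : F),
    1 - 4 * a ≠ 0 → β ≠ 0 → 1 - 4 * a' ≠ 0 → β' ≠ 0 →
    IsFF8a a β a' β' K → HasPt8a a β a' β' → ∃ n, n ≤ 2 ∧ HasDeg F K n

/-- [8aL] -/
def S_8aL : Prop :=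
  ∀ (F K : Type u) [Field F] [Field K] [Algebra F K] (a β a' β' : F),
    IsFF8a a β a' β' K → ∀ n, HasDeg F K n → n ≤ 3 → HasPt8a a β a' β'

/-- [8aL1] -/
def S_8aL1 : Prop :=
  ∀ (F K : Type u) [Field F] [Field K] [Algebra F K] (a β a' β' : F),
    IsFF8a a β a' β' K → HasDeg F K 1 → ConicPt a β F ∧ ConicPt a' β' F

/-- [8bU4] -/
def S_8bU4 : Prop :=
  ∀ (F K : Type u) [Field F] [Field K] [Algebra F K] (A B : F) (a β : QA A B F),
    B ^ 2 + 4 * A ≠ 0 → IsFF8b a β K → ∃ n, n ≤ 4 ∧ HasDeg F K n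

/-- [8bU2] -/
def S_8bU2 : Prop :=
  ∀ (F K : Type u) [Field F] [Field K] [Algebra F K] (A B : F) (a β : QA A B F),
    B ^ 2 + 4 * A ≠ 0 → (∀ r : F, r ^ 2 ≠ A + B * r) → IsUnit (1 - 4 * a) → IsUnit β →
    IsFF8b a β K → HasPt8b a β → ¬ WPt a β F → ∃ n, n ≤ 2 ∧ HasDeg F K n

/-- [8bL] -/
def S_8bL : Prop :=
  ∀ (F K : Type u) [Field F] [Field K] [Algebra F K] (A B : F) (a β : QA A B F),
    B ^ 2 + 4 * A ≠ 0 → (∀ r : F, r ^ 2 ≠ A + B * r) →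
    IsFF8b a β K → ∀ n, HasDeg F K n → n ≤ 3 → HasPt8b a β

/-- [8bL1] -/
def S_8bL1 : Prop :=
  ∀ (F K : Type u) [Field F] [Field K] [Algebra F K] (A B : F) (a β : QA A B F),
    B ^ 2 + 4 * A ≠ 0 → (∀ r : F, r ^ 2 ≠ A + B * r) →
    IsFF8b a β K → HasDeg F K 1 → WPt a β F

/-! ### Norm surfaces -/

/-- [NU] -/
def S_NU : Prop :=
  ∀ (F Ω : Type u) [Field F] [Field Ω] [Algebra F Ω] (θ : Fin 3 → Ω) (a : F)
    (K : IntermediateField F Ω), IsCubic F θ → IsFFN θ (algebraMap F Ω a) K →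
    ∃ n, n ≤ 3 ∧ HasDeg F K n

/-- [NL] -/
def S_NL : Prop :=
  ∀ (F Ω : Type u) [Field F] [Field Ω] [Algebra F Ω] (θ : Fin 3 → Ω) (a : F)
    (K : IntermediateField F Ω), IsCubic F θ → IsFFN θ (algebraMap F Ω a) K →
    ∀ n, HasDeg F K n → n ≤ 2 →
      ∃ x : Fin 3 → Ω, InF F x ∧ (∏ i, ev x (θ i)) = algebraMap F Ω a

/-! ### Degree six -/

/-- [6U6] -/
def S_6U6 : Prop :=
  ∀ (F Ω : Type u) [Field F] [Field Ω] [Algebra F Ω] (θ : Fin 3 → Ω) (ω ω' : Ω)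
    (b : Fin 3 → Ω) (c₀ c₁ : Ω) (K : IntermediateField F Ω),
    Is6 F θ ω ω' b c₀ c₁ → IsFF6 θ ω ω' b (c₀ + c₁ * ω) K → ∃ n, n ≤ 6 ∧ HasDeg F K n

/-- [6U3] -/
def S_6U3 : Prop :=
  ∀ (F Ω : Type u) [Field F] [Field Ω] [Algebra F Ω] (θ : Fin 3 → Ω) (ω ω' : Ω)
    (b : Fin 3 → Ω) (c₀ c₁ : Ω) (K : IntermediateField F Ω),
    Is6 F θ ω ω' b c₀ c₁ → IsFF6 θ ω ω' b (c₀ + c₁ * ω) K →
    NormL F θ ω ω' b → ¬ NormK F θ ω (c₀ + c₁ * ω) → ∃ n, n ≤ 3 ∧ HasDeg F K n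

/-- [6U2] -/
def S_6U2 : Prop :=
  ∀ (F Ω : Type u) [Field F] [Field Ω] [Algebra F Ω] (θ : Fin 3 → Ω) (ω ω' : Ω)
    (b : Fin 3 → Ω) (c₀ c₁ : Ω) (K : IntermediateField F Ω),
    Is6 F θ ω ω' b c₀ c₁ → IsFF6 θ ω ω' b (c₀ + c₁ * ω) K →
    NormK F θ ω (c₀ + c₁ * ω) → ∃ n, n ≤ 2 ∧ HasDeg F K n

/-- [6L2] -/
def S_6L2 : Prop :=
  ∀ (F Ω : Type u) [Field F] [Field Ω] [Algebra F Ω] (θ : Fin 3 → Ω) (ω ω' : Ω)
    (b : Fin 3 → Ω) (c₀ c₁ : Ω) (K : IntermediateField F Ω),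
    Is6 F θ ω ω' b c₀ c₁ → IsFF6 θ ω ω' b (c₀ + c₁ * ω) K →
    ∀ n, HasDeg F K n → ¬ 2 ∣ n → NormL F θ ω ω' b

/-- [6L3] -/
def S_6L3 : Prop :=
  ∀ (F Ω : Type u) [Field F] [Field Ω] [Algebra F Ω] (θ : Fin 3 → Ω) (ω ω' : Ω)
    (b : Fin 3 → Ω) (c₀ c₁ : Ω) (K : IntermediateField F Ω),
    Is6 F θ ω ω' b c₀ c₁ → IsFF6 θ ω ω' b (c₀ + c₁ * ω) K →
    ∀ n, HasDeg F K n → ¬ 3 ∣ n → NormK F θ ω (c₀ + c₁ * ω)

/-! ### Rational cases -/

/-- [R6] -/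
def S_R6 : Prop :=
  ∀ (F Ω : Type u) [Field F] [Field Ω] [Algebra F Ω] (θ : Fin 3 → Ω) (ω ω' : Ω)
    (b : Fin 3 → Ω) (c₀ c₁ : Ω) (K : IntermediateField F Ω),
    Is6 F θ ω ω' b c₀ c₁ → IsFF6 θ ω ω' b (c₀ + c₁ * ω) K →
    NormL F θ ω ω' b → NormK F θ ω (c₀ + c₁ * ω) → Rational F K

/-- [RN] -/
def S_RN : Prop :=
  ∀ (F Ω : Type u) [Field F] [Field Ω] [Algebra F Ω] (θ : Fin 3 → Ω) (a : F)
    (K : IntermediateField F Ω), IsCubic F θ → a ≠ 0 → IsFFN θ (algebraMap F Ω a) K →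
    (∃ x : Fin 3 → Ω, InF F x ∧ (∏ i, ev x (θ i)) = algebraMap F Ω a) → Rational F K

/-- [R8a] -/
def S_R8a : Prop :=
  ∀ (F K : Type u) [Field F] [Field K] [Algebra F K] (a β a' β' : F),
    1 - 4 * a ≠ 0 → β ≠ 0 → 1 - 4 * a' ≠ 0 → β' ≠ 0 →
    IsFF8a a β a' β' K → ConicPt a β F → ConicPt a' β' F → Rational F K

/-- [R8b] -/
def S_R8b : Prop :=
  ∀ (F K : Type u) [Field F] [Field K] [Algebra F K] (A B : F) (a β : QA A B F),
    B ^ 2 + 4 * A ≠ 0 → (∀ r : F, r ^ 2 ≠ A + B * r) → IsUnit (1 - 4 * a) → IsUnit β →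
    IsFF8b a β K → WPt a β F → Rational F K

end Pool.Agent.Helper95K9.IR
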