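import Pool.Agent.Helper95K9.IR.DefsSB
import Pool.Agent.Helper95K9.IR.Stm

/-!
Degree of irrationality of del Pezzo surfaces: the leaf SBL (lower bound for Severi-Brauer
surfaces).
-/

set_option autoImplicit false

namespace Pool.Agent.Helper95K9.IR

open MvPolynomial TensorProduct

universe u

namespace Sb

section NormForm

variable {F D : Type u} [Field F] [Ring D] [Algebra F D] (b : Module.Basis (Fin 9) F D)

/-- The matrix of the left multiplication by the generic element. -/
noncomputable def Mp : Matrix (Fin 9) (Fin 9) (MvPolynomial (Fin 9) F) :=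
  Matrix.of fun k j => ∑ i, X i * C (Algebra.leftMulMatrix b (b i) k j)

/-- The norm form. -/
noncomputable def Np : MvPolynomial (Fin 9) F := (Mp b).det

theorem Np_hom : (Np b).IsHomogeneous 9 := by
  unfold Np
  rw [Matrix.det_apply]
  refine IsHomogeneous.sum _ _ _ fun σ _ => ?_
  have h1 : (∏ i, Mp b (σ i) i).IsHomogeneous (∑ _i : Fin 9, 1) := by
    refine IsHomogeneous.prod _ _ _ fun i _ => ?_
    unfold Mp
    rw [Matrix.of_apply]
    refine IsHomogeneous.sum _ _ _ fun k _ => ?_
    have := (isHomogeneous_X F k).mul (isHomogeneous_C (Fin 9) (Algebra.leftMulMatrix b (b k) (σ i) i))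
    simpa using this
  have h2 : (∑ _i : Fin 9, 1) = 9 := by simp
  rw [h2] at h1
  rcases Int.units_eq_one_or (Equiv.Perm.sign σ) with h | h
  · rw [h, one_smul]
    exact h1
  · rw [h]
    have : ((-1 : ℤˣ) • ∏ i, Mp b (σ i) i) = - ∏ i, Mp b (σ i) i := by
      rw [Units.neg_smul, one_smul]
    rw [this]
    exact h1.neg

theorem mat_eq {M : Type u} [Field M] [Algebra F M] (d : D) (k j : Fin 9) :
    Algebra.leftMulMatrix (Algebra.TensorProduct.basis M b) ((1 : M) ⊗ₜ[F] d) k j =
      algebraMap F M (Algebra.leftMulMatrix b d k j) := by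
  rw [Algebra.leftMulMatrix_eq_repr_mul, Algebra.leftMulMatrix_eq_repr_mul,
    Algebra.TensorProduct.basis_apply, Algebra.TensorProduct.tmul_mul_tmul, one_mul,
    Algebra.TensorProduct.basis_repr_tmul, one_smul, Finsupp.mapRange_apply]

/-- The element with the coordinates `a`. -/
noncomputable def el {M : Type u} [Field M] [Algebra F M] (a : Fin 9 → M) : M ⊗[F] D :=
  ∑ i, a i • ((1 : M) ⊗ₜ[F] b i)

theorem Np_aeval {M : Type u} [Field M] [Algebra F M] (a : Fin 9 → M) :
    aeval a (Np b) =
      (Algebra.leftMulMatrix (Algebra.TensorProduct.basis M b) (el b a)).det := by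
  unfold Np
  rw [AlgHom.map_det]
  congr 1
  ext k j
  rw [AlgHom.mapMatrix_apply, Matrix.map_apply]
  unfold Mp el
  rw [Matrix.of_apply, map_sum, map_sum, Matrix.sum_apply]
  refine Finset.sum_congr rfl fun i _ => ?_
  rw [map_mul, aeval_X, map_smul, Matrix.smul_apply, mat_eq, aeval_C, smul_eq_mul]

theorem reg_of_ne {M : Type u} [Field M] [Algebra F M] (x y : M ⊗[F] D)
    (h : (Algebra.leftMulMatrix (Algebra.TensorProduct.basis M b) x).det ≠ 0)
    (hxy : x * y = 0) : y = 0 := by
  have h1 := Algebra.leftMulMatrix_mulVec_repr (Algebra.TensorProduct.basis M b) x y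
  rw [hxy, map_zero] at h1
  have h2 := Matrix.eq_zero_of_mulVec_eq_zero h h1
  have h3 : (Algebra.TensorProduct.basis M b).repr y = 0 := DFunLike.coe_injective h2
  exact (Algebra.TensorProduct.basis M b).repr.map_eq_zero_iff.1 h3

theorem el_repr {M : Type u} [Field M] [Algebra F M] (x : M ⊗[F] D) :
    el b ((Algebra.TensorProduct.basis M b).repr x) = x := by
  unfold el
  conv_rhs => rw [← (Algebra.TensorProduct.basis M b).sum_repr x]
  refine Finset.sum_congr rfl fun i _ => ?_
  rw [Algebra.TensorProduct.basis_apply]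

end NormForm

/-- The norm form is anisotropic. -/
theorem aniso {F D : Type u} [Field F] [DivisionRing D] [Algebra F D]
    (b : Module.Basis (Fin 9) F D) (a : Fin 9 → F) (h : aeval a (Np b) = 0) : a = 0 := by
  by_contra ha
  have hx : (∑ i, a i • b i) ≠ 0 := by
    intro h0
    apply ha
    funext i
    exact (Fintype.linearIndependent_iff.1 b.linearIndependent) a h0 i
  have h1 : aeval a (Np b) = (Algebra.leftMulMatrix b (∑ i, a i • b i)).det := by
    unfold Np
    rw [AlgHom.map_det]
    congr 1
    ext k j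
    rw [AlgHom.mapMatrix_apply, Matrix.map_apply]
    unfold Mp
    rw [Matrix.of_apply, map_sum, map_sum, Matrix.sum_apply]
    refine Finset.sum_congr rfl fun i _ => ?_
    rw [map_mul, aeval_X, map_smul, Matrix.smul_apply, aeval_C, smul_eq_mul]
    rfl
  rw [h1] at h
  have h2 : (Algebra.leftMulMatrix b (∑ i, a i • b i)) *
      (Algebra.leftMulMatrix b ((∑ i, a i • b i)⁻¹)) = 1 := by
    rw [← map_mul, mul_inv_cancel₀ hx, map_one]
  have h3 := congrArg Matrix.det h2
  rw [Matrix.det_mul, h, zero_mul, Matrix.det_one] at h3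
  exact zero_ne_one h3

/-- Base change to a purely transcendental extension has no zero divisors. -/
theorem domain (pl : S_PL.{u}) {F D E : Type u} [Field F] [DivisionRing D] [Algebra F D] [Field E]
    [Algebra F E] (b : Module.Basis (Fin 9) F D) (hE : HasDeg F E 1) (x y : E ⊗[F] D)
    (hx : x ≠ 0) (hxy : x * y = 0) : y = 0 := by
  refine reg_of_ne b x y (fun h => hx ?_) hxy
  set a : Fin 9 → E := ⇑((Algebra.TensorProduct.basis E b).repr x) with ha
  have h1 : aeval a (Np b) = 0 := by
    rw [Np_aeval, ha, el_repr]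
    exact h
  by_contra hx0
  have ha0 : a ≠ 0 := by
    intro h0
    apply hx0
    rw [← el_repr b x, ← ha, h0]
    unfold el
    simp
  obtain ⟨κ, hκ0, hκ1, hκ⟩ := pl F E 1 hE
  obtain ⟨p, hp, hp1⟩ := hκ 9 a ha0
  have h2 := hp1 9 (Np b) (Np_hom b) h1
  have hκ2 : Module.finrank F κ = 1 := by omega
  have hκ3 : κ = ⊥ := IntermediateField.finrank_eq_one_iff.1 hκ2
  have hmem : ∀ i, ∃ c : F, algebraMap F κ c = p i := by
    intro i
    have h3 : ((p i : κ) : AlgebraicClosure F) ∈ (⊥ : IntermediateField F (AlgebraicClosure F)) := by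
      rw [← hκ3]
      exact (p i).2
    obtain ⟨c, hc⟩ := IntermediateField.mem_bot.1 h3
    exact ⟨c, Subtype.ext hc⟩
  choose c hc using hmem
  have h4 : aeval c (Np b) = 0 := by
    apply (algebraMap F κ).injective
    rw [map_zero, ← h2]
    have h5 : p = fun i => algebraMap F κ (c i) := funext fun i => (hc i).symm
    rw [h5]
    exact (aeval_algebraMap_apply κ c (Np b)).symm
  have h6 := aniso b c h4
  apply hp
  funext i
  rw [← hc i, h6]
  simp

/-- The dimension of a right ideal. -/
theorem dvd {E D K : Type u} {F : Type u} [Field F] [DivisionRing D] [Algebra F D] [Field E]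
    [Algebra F E] [Field K] [Algebra F K] [Algebra E K] [IsScalarTower F E K]
    (b : Module.Basis (Fin 9) F D)
    (hdom : ∀ x y : E ⊗[F] D, x ≠ 0 → x * y = 0 → y = 0)
    (I : Submodule K (K ⊗[F] D)) (hI : ∀ x ∈ I, ∀ r : K ⊗[F] D, x * r ∈ I) :
    9 ∣ Module.finrank E I := by
  classical
  have hnt : Nontrivial (E ⊗[F] D) := by
    refine ⟨⟨(Algebra.TensorProduct.basis E b) 0, 0, ?_⟩⟩
    exact (Algebra.TensorProduct.basis E b).ne_zero 0
  have hnz : NoZeroDivisors (E ⊗[F] D) := ⟨fun {x y} h => by
    by_cases hx : x = 0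
    · exact Or.inl hx
    · exact Or.inr (hdom x y hx h)⟩
  have hid : IsDomain (E ⊗[F] D) := NoZeroDivisors.to_isDomain _
  have hfin : Module.Finite E (E ⊗[F] D) := Module.Finite.of_basis (Algebra.TensorProduct.basis E b)
  letI : DivisionRing (E ⊗[F] D) := divisionRingOfFiniteDimensional E (E ⊗[F] D)
  let φ : E ⊗[F] D →ₐ[F] K ⊗[F] D :=
    Algebra.TensorProduct.map (IsScalarTower.toAlgHom F E K) (AlgHom.id F D)
  have hφ : ∀ (e : E) (z : E ⊗[F] D), φ (e • z) = e • φ z := by
    intro e z
    induction z using TensorProduct.induction_on with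
    | zero => rw [smul_zero, map_zero, smul_zero]
    | tmul a d =>
      rw [TensorProduct.smul_tmul', Algebra.TensorProduct.map_tmul, Algebra.TensorProduct.map_tmul,
        TensorProduct.smul_tmul']
      congr 1
      rw [smul_eq_mul, map_mul, Algebra.smul_def]
      rfl
    | add a c ha hc => rw [smul_add, map_add, ha, hc, map_add, smul_add]
  letI mod : Module (E ⊗[F] D)ᵐᵒᵖ I :=
    { smul := fun r x => ⟨x.1 * φ r.unop, hI _ x.2 _⟩
      one_smul := fun x => Subtype.ext (by
        show x.1 * φ (MulOpposite.unop 1) = x.1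
        rw [MulOpposite.unop_one, map_one, mul_one])
      mul_smul := fun r s x => Subtype.ext (by
        show x.1 * φ (MulOpposite.unop (r * s)) = x.1 * φ s.unop * φ r.unop
        rw [MulOpposite.unop_mul, map_mul, mul_assoc])
      smul_zero := fun r => Subtype.ext (by
        show (0 : K ⊗[F] D) * φ r.unop = 0
        rw [zero_mul])
      smul_add := fun r x y => Subtype.ext (by
        show (x.1 + y.1) * φ r.unop = x.1 * φ r.unop + y.1 * φ r.unop
        rw [add_mul])
      add_smul := fun r s x => Subtype.ext (by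
        show x.1 * φ (MulOpposite.unop (r + s)) = x.1 * φ r.unop + x.1 * φ s.unop
        rw [MulOpposite.unop_add, map_add, mul_add])
      zero_smul := fun x => Subtype.ext (by
        show x.1 * φ (MulOpposite.unop 0) = 0
        rw [MulOpposite.unop_zero, map_zero, mul_zero]) }
  have tow : IsScalarTower E (E ⊗[F] D)ᵐᵒᵖ I := ⟨fun e r x => Subtype.ext (by
    show x.1 * φ (MulOpposite.unop (e • r)) = e • (x.1 * φ r.unop)
    rw [MulOpposite.unop_smul, hφ, mul_smul_comm])⟩
  have h1 := Module.finrank_mul_finrank E (E ⊗[F] D)ᵐᵒᵖ I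
  have h2 : Module.finrank E (E ⊗[F] D)ᵐᵒᵖ = 9 := by
    rw [← LinearEquiv.finrank_eq (MulOpposite.opLinearEquiv E),
      Module.finrank_eq_card_basis (Algebra.TensorProduct.basis E b), Fintype.card_fin]
  rw [h2] at h1
  exact ⟨_, h1.symm⟩

end Sb

open Sb

theorem sbl (pl : S_PL.{u}) : S_SBL.{u} := by
  intro F D K _ _ _ _ _ hcen hD hK n hn
  obtain ⟨-, I, hI3, hIr, -⟩ := hK
  obtain ⟨hn0, s, t, hst, hfr⟩ := hn
  have hfin : Module.Finite F D := Module.finite_of_finrank_pos (by rw [hD]; norm_num)
  let b : Module.Basis (Fin 9) F D := Module.finBasisOfFinrankEq F D hD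
  let E : IntermediateField F K := IntermediateField.adjoin F ({s, t} : Set K)
  have hs : s ∈ E := IntermediateField.subset_adjoin F _ (by simp)
  have ht : t ∈ E := IntermediateField.subset_adjoin F _ (by simp)
  have hE : HasDeg F E 1 := by
    refine ⟨one_pos, ⟨s, hs⟩, ⟨t, ht⟩, ?_, ?_⟩
    · apply AlgebraicIndependent.of_comp E.val
      have : (E.val ∘ ![(⟨s, hs⟩ : E), ⟨t, ht⟩]) = ![s, t] := by
        funext i
        fin_cases i <;> rfl
      rw [this]
      exact hst
    · have htop : IntermediateField.adjoin F ({⟨s, hs⟩, ⟨t, ht⟩} : Set E) = ⊤ := by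
        apply IntermediateField.map_injective E.val
        rw [IntermediateField.adjoin_map, Set.image_pair]
        have h1 : IntermediateField.map E.val ⊤ = E := by
          rw [← AlgHom.fieldRange_eq_map, IntermediateField.fieldRange_val]
        rw [h1]
        rfl
      rw [htop]
      exact IntermediateField.finrank_top
  have h9 : 9 ∣ Module.finrank E I :=
    dvd b (fun x y hx hxy => domain pl b hE x y hx hxy) I hIr
  have h3 : Module.finrank E K * Module.finrank K I = Module.finrank E I :=
    Module.finrank_mul_finrank E K I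
  have hfr' : Module.finrank E K = n := hfr
  rw [hI3, hfr'] at h3
  rw [← h3] at h9
  omega

end Pool.Agent.Helper95K9.IR
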