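import Pool.Agent.Helper95K9.IR.Stm

/-!
Degree of irrationality of del Pezzo surfaces: leaf UB.
-/

set_option autoImplicit false

namespace Pool.Agent.Helper95K9.IR

universe u

namespace UB

open scoped IntermediateField.algebraAdjoinAdjoin in
theorem alg_of {F K : Type u} [Field F] [Field K] [Algebra F K] (S : Set K)
    [Algebra.IsAlgebraic (IntermediateField.adjoin F S) K] :
    Algebra.IsAlgebraic (Algebra.adjoin F S) K :=
  (IsFractionRing.comap_isAlgebraic_iff (A := Algebra.adjoin F S)
    (K := IntermediateField.adjoin F S) (C := K)).mpr inferInstance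

end UB

/-- A finite subextension generated by two elements is purely transcendental. -/
theorem ub : S_UB.{u} := by
  intro F K _ _ _ htr s t hpos
  refine ⟨hpos, s, t, ?_, rfl⟩
  have hfin : FiniteDimensional (IntermediateField.adjoin F ({s, t} : Set K)) K :=
    Module.finite_of_finrank_pos hpos
  have halg : Algebra.IsAlgebraic (IntermediateField.adjoin F ({s, t} : Set K)) K :=
    Algebra.IsAlgebraic.of_finite _ _
  have h1 : Algebra.IsAlgebraic (Algebra.adjoin F ({s, t} : Set K)) K := UB.alg_of _
  have hr : Set.range ![s, t] = ({s, t} : Set K) := by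
    simp [Set.pair_comm]
  have h2 : Algebra.IsAlgebraic (Algebra.adjoin F (Set.range ![s, t])) K := by
    rw [hr]
    exact h1
  have h3 : IsTranscendenceBasis F ![s, t] := by
    apply Algebra.IsAlgebraic.isTranscendenceBasis_of_lift_le_trdeg_of_finite F ![s, t]
    rw [htr]
    simp
  exact h3.1

end Pool.Agent.Helper95K9.IR
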