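import Pool.Agent.Helper95K9.IR.Sbu7
import Pool.Agent.Helper95K9.IR.UB

/-!
Degree of irrationality of del Pezzo surfaces: the leaf SBU (upper bound for Severi-Brauer
surfaces).
-/

set_option autoImplicit false

namespace Pool.Agent.Helper95K9.IR

open Polynomial TensorProduct

universe u

namespace Sbu

variable {F D K : Type u} [Field F] [DivisionRing D] [Algebra F D] [Field K] [Algebra F K]

theorem poly_map (E : IntermediateField F K) (z : E ⊗[F] D) (P : E[X]) :
    aeval (Algebra.TensorProduct.map E.val (AlgHom.id F D) z) (P.map (algebraMap E K)) =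
      Algebra.TensorProduct.map E.val (AlgHom.id F D) (aeval z P) := by
  have hφ : ∀ (e : E) (t : E ⊗[F] D), Algebra.TensorProduct.map E.val (AlgHom.id F D) (e • t) =
      (e : K) • Algebra.TensorProduct.map E.val (AlgHom.id F D) t := by
    intro e t
    induction t using TensorProduct.induction_on with
    | zero => rw [smul_zero, map_zero, smul_zero]
    | tmul a d =>
      rw [TensorProduct.smul_tmul', Algebra.TensorProduct.map_tmul, Algebra.TensorProduct.map_tmul,
        TensorProduct.smul_tmul']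
      rfl
    | add a b ha hb => rw [smul_add, map_add, ha, hb, map_add, smul_add]
  rw [aeval_eq_sum_range, aeval_eq_sum_range, natDegree_map, map_sum]
  refine Finset.sum_congr rfl fun i _ => ?_
  rw [hφ, map_pow, coeff_map]
  rfl

theorem alg_indep {s t : K} (htr : Algebra.trdeg F K = 2)
    (hpos : 0 < Module.finrank (IntermediateField.adjoin F ({s, t} : Set K)) K) :
    AlgebraicIndependent F ![s, t] := by
  have hfin : FiniteDimensional (IntermediateField.adjoin F ({s, t} : Set K)) K :=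
    Module.finite_of_finrank_pos hpos
  have halg : Algebra.IsAlgebraic (IntermediateField.adjoin F ({s, t} : Set K)) K :=
    Algebra.IsAlgebraic.of_finite _ _
  have h1 : Algebra.IsAlgebraic (Algebra.adjoin F ({s, t} : Set K)) K := UB.alg_of _
  have hr : Set.range ![s, t] = ({s, t} : Set K) := by
    simp [Set.pair_comm]
  have h2 : Algebra.IsAlgebraic (Algebra.adjoin F (Set.range ![s, t])) K := by
    rw [hr]
    exact h1
  have h3 : IsTranscendenceBasis F ![s, t] := by
    apply Algebra.IsAlgebraic.isTranscendenceBasis_of_lift_le_trdeg_of_finite F ![s, t]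
    rw [htr]
    simp
  exact h3.1

theorem hasDeg_one {s t : K} (hst : AlgebraicIndependent F ![s, t]) :
    HasDeg F (IntermediateField.adjoin F ({s, t} : Set K)) 1 := by
  have hs : s ∈ IntermediateField.adjoin F ({s, t} : Set K) :=
    IntermediateField.subset_adjoin F _ (by simp)
  have ht : t ∈ IntermediateField.adjoin F ({s, t} : Set K) :=
    IntermediateField.subset_adjoin F _ (by simp)
  refine ⟨one_pos, ⟨s, hs⟩, ⟨t, ht⟩, ?_, ?_⟩
  · apply AlgebraicIndependent.of_comp (IntermediateField.adjoin F ({s, t} : Set K)).val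
    have : ((IntermediateField.adjoin F ({s, t} : Set K)).val ∘
        ![(⟨s, hs⟩ : IntermediateField.adjoin F ({s, t} : Set K)), ⟨t, ht⟩]) = ![s, t] := by
      funext i
      fin_cases i <;> rfl
    rw [this]
    exact hst
  · have htop : IntermediateField.adjoin F
        ({⟨s, hs⟩, ⟨t, ht⟩} : Set (IntermediateField.adjoin F ({s, t} : Set K))) = ⊤ := by
      apply IntermediateField.map_injective (IntermediateField.adjoin F ({s, t} : Set K)).val
      rw [IntermediateField.adjoin_map, Set.image_pair]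
      have h1 : IntermediateField.map (IntermediateField.adjoin F ({s, t} : Set K)).val ⊤ =
          IntermediateField.adjoin F ({s, t} : Set K) := by
        rw [← AlgHom.fieldRange_eq_map, IntermediateField.fieldRange_val]
      rw [h1]
      rfl
    rw [htop]
    exact IntermediateField.finrank_top

theorem map_elt (E : IntermediateField F K) (s t : E) (x y : D) :
    Algebra.TensorProduct.map E.val (AlgHom.id F D) ((1 : E) ⊗ₜ[F] y - s ⊗ₜ[F] x -
      t ⊗ₜ[F] (x ^ 2)) = (1 : K) ⊗ₜ[F] y - (s : K) ⊗ₜ[F] x - (t : K) ⊗ₜ[F] (x ^ 2) := by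
  have h : ∀ (e : E) (d : D), Algebra.TensorProduct.map E.val (AlgHom.id F D) (e ⊗ₜ[F] d) =
      (e : K) ⊗ₜ[F] d := fun e d => Algebra.TensorProduct.map_tmul _ _ _ _
  rw [map_sub, map_sub, h, h, h]
  rfl

theorem ker_elt {x : D} {c : K ⊗[F] D →ₗ[K] (Fin 3 → K)} (hd : Dat x c) (y : D)
    (α : Fin 3 → K) (hα : α = c ((1 : K) ⊗ₜ[F] y)) :
    c ((1 : K) ⊗ₜ[F] y - α 1 ⊗ₜ[F] x - α 2 ⊗ₜ[F] (x ^ 2) - α 0 • (1 : K ⊗[F] D)) = 0 := by
  have h4 := hd.sub ((1 : K) ⊗ₜ[F] y)
  rw [← hα] at h4
  rw [← h4]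
  congr 1
  have e0 : x ^ ((0 : Fin 3) : ℕ) = 1 := pow_zero x
  have e1 : x ^ ((1 : Fin 3) : ℕ) = x := pow_one x
  have e2 : x ^ ((2 : Fin 3) : ℕ) = x ^ 2 := rfl
  have h : ∀ (k : K) (d : D), k • ((1 : K) ⊗ₜ[F] d) = k ⊗ₜ[F] d := by
    intro k d
    rw [TensorProduct.smul_tmul', smul_eq_mul, mul_one]
  rw [g_apply, Fin.sum_univ_three, pow_tmul, pow_tmul, pow_tmul, e0, e1, e2,
    Algebra.TensorProduct.one_def]
  simp only [h]
  abel

theorem tensor_poly0 {E : Type u} [Field E] [Algebra F E] (b : Module.Basis (Fin 9) F D)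
    (z : E ⊗[F] D) : ∃ P : E[X], P ≠ 0 ∧ aeval z P = 0 := by
  have hfinE : Module.Finite E (E ⊗[F] D) :=
    Module.Finite.of_basis (Algebra.TensorProduct.basis E b)
  have hint : IsIntegral E z := IsIntegral.of_finite E z
  exact ⟨minpoly E z, minpoly.ne_zero hint, minpoly.aeval E z⟩

theorem tensor_poly (pl : S_PL.{u}) {E : Type u} [Field E] [Algebra F E]
    (b : Module.Basis (Fin 9) F D) (hnc : ∃ a b : D, a * b ≠ b * a) (hE1 : HasDeg F E 1)
    (z : E ⊗[F] D) : ∃ P : E[X], P ≠ 0 ∧ P.natDegree ≤ 3 ∧ aeval z P = 0 := by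
  have hfinE : Module.Finite E (E ⊗[F] D) :=
    Module.Finite.of_basis (Algebra.TensorProduct.basis E b)
  have h9E : Module.finrank E (E ⊗[F] D) = 9 := by
    rw [Module.finrank_eq_card_basis (Algebra.TensorProduct.basis E b), Fintype.card_fin]
  have hnt : Nontrivial (E ⊗[F] D) :=
    ⟨⟨(Algebra.TensorProduct.basis E b) 0, 0, (Algebra.TensorProduct.basis E b).ne_zero 0⟩⟩
  have hnz : NoZeroDivisors (E ⊗[F] D) := ⟨fun {x y} h => by
    by_cases hx : x = 0
    · exact Or.inl hx
    · exact Or.inr (Sb.domain pl b hE1 x y hx h)⟩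
  have hid : IsDomain (E ⊗[F] D) := NoZeroDivisors.to_isDomain _
  have hncE : ∃ a b : E ⊗[F] D, a * b ≠ b * a := by
    obtain ⟨a, a', haa⟩ := hnc
    refine ⟨(1 : E) ⊗ₜ[F] a, (1 : E) ⊗ₜ[F] a', ?_⟩
    rw [Algebra.TensorProduct.tmul_mul_tmul, Algebra.TensorProduct.tmul_mul_tmul, one_mul]
    intro h
    apply haa
    exact Algebra.TensorProduct.includeRight_injective (A := E) (B := D)
      (algebraMap F E).injective h
  exact exists_poly h9E hncE z

end Sbu

open Sbu

/-- [SBU] -/
theorem sbu (pl : S_PL.{u}) (hUB : S_UB.{u}) : S_SBU.{u} := by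
  intro F D K _ _ _ _ _ hcen h9 hFF
  have hsurf := hFF.1
  have hfin : Module.Finite F D := Module.finite_of_finrank_pos (by rw [h9]; norm_num)
  have hnc : ∃ a b : D, a * b ≠ b * a := by
    by_contra hcon
    push Not at hcon
    have h1 : (⊥ : Subalgebra F D) = ⊤ := by
      rw [eq_top_iff]
      intro a _
      apply hcen.out
      rw [Subalgebra.mem_center_iff]
      intro b
      exact hcon b a
    have h2 := Subalgebra.bot_eq_top_iff_finrank_eq_one.1 h1
    omega
  obtain ⟨x, hx⟩ : ∃ x : D, x ∉ (algebraMap F D).range := by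
    by_contra hcon
    push Not at hcon
    have h1 : (⊥ : Subalgebra F D) = ⊤ := by
      rw [eq_top_iff]
      intro a _
      obtain ⟨t, ht⟩ := hcon a
      exact ⟨t, ht⟩
    have h2 := Subalgebra.bot_eq_top_iff_finrank_eq_one.1 h1
    omega
  have h3 := minpoly_three h9 hnc x hx
  have hp : Irreducible (minpoly F x) := minpoly.irreducible (IsIntegral.of_finite F x)
  obtain ⟨y, hy0⟩ : ∃ y : D, ∀ v, g0 F x v ≠ y := by
    by_contra hcon
    push Not at hcon
    have h1 := LinearMap.finrank_le_finrank_of_surjective (f := g0 F x) hcon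
    rw [h9] at h1
    simp at h1
  obtain ⟨c, hd⟩ := exists_dat hFF h9 hp h3
  obtain ⟨α, hα⟩ : ∃ α, α = c ((1 : K) ⊗ₜ[F] y) := ⟨_, rfl⟩
  have htop : IntermediateField.adjoin F ({α 0, α 1, α 2} : Set K) = ⊤ := by
    apply top_of hd h9 hnc hp h3 hsurf.2 hy0
    intro j
    rw [← hα]
    apply IntermediateField.subset_adjoin
    fin_cases j <;> simp
  obtain ⟨E, hE⟩ : ∃ E : IntermediateField F K,
    E = IntermediateField.adjoin F ({α 1, α 2} : Set K) := ⟨_, rfl⟩
  have h1E : α 1 ∈ E := by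
    rw [hE]
    exact IntermediateField.subset_adjoin F _ (by simp)
  have h2E : α 2 ∈ E := by
    rw [hE]
    exact IntermediateField.subset_adjoin F _ (by simp)
  have hgen : IntermediateField.adjoin E ({α 0} : Set K) = ⊤ := by
    refine Tool.adjoin_top E _ _ htop ?_
    intro z hz
    simp only [Set.mem_insert_iff, Set.mem_singleton_iff] at hz
    rcases hz with rfl | rfl | rfl
    · exact IntermediateField.subset_adjoin _ _ (by simp)
    · exact Tool.mem_base E _ _ h1E
    · exact Tool.mem_base E _ _ h2E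
  obtain ⟨z, hz⟩ : ∃ z : E ⊗[F] D, z = (1 : E) ⊗ₜ[F] y - (⟨α 1, h1E⟩ : E) ⊗ₜ[F] x -
    (⟨α 2, h2E⟩ : E) ⊗ₜ[F] (x ^ 2) := ⟨_, rfl⟩
  have hker : c (Algebra.TensorProduct.map E.val (AlgHom.id F D) z - α 0 • (1 : K ⊗[F] D)) = 0 := by
    rw [hz, map_elt]
    exact ker_elt hd y α hα
  have hroot : ∀ P : E[X], aeval z P = 0 → aeval (α 0) P = 0 := by
    intro P hP
    have h4 := eig hd _ _ hker (P.map (algebraMap E K)) (by rw [poly_map, hP, map_zero])
    rwa [eval_map_algebraMap] at h4
  let b : Module.Basis (Fin 9) F D := Module.finBasisOfFinrankEq F D h9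
  obtain ⟨P₀, hP₀, hP₀'⟩ := tensor_poly0 b z
  have hpos : 0 < Module.finrank E K :=
    (Tool.finrank_le (α 0) hgen P₀ hP₀ _ le_rfl (hroot _ hP₀')).1
  have hind : AlgebraicIndependent F ![α 1, α 2] := by
    apply alg_indep hsurf.1
    rw [← hE]
    exact hpos
  have hE1 : HasDeg F E 1 := by
    rw [hE]
    exact hasDeg_one hind
  obtain ⟨P, hP0, hP3, hP⟩ := tensor_poly pl b hnc hE1 z
  have hfr := Tool.finrank_le (α 0) hgen P hP0 3 hP3 (hroot P hP)
  exact Tool.hasDeg_of hUB hsurf (α 1) (α 2) 3 (by rw [← hE]; exact hfr.1)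
    (by rw [← hE]; exact hfr.2)

end Pool.Agent.Helper95K9.IR
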