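import Pool.Agent.Helper95K9.IR.SixL3

/-!
Degree of irrationality of del Pezzo surfaces: leaf 6L3, conclusion.
-/

set_option autoImplicit false
set_option linter.unusedSimpArgs false
set_option linter.unusedSectionVars false

namespace Pool.Agent.Helper95K9.IR.SixL

open MvPolynomial
open scoped TensorProduct

universe u

variable {F Ω : Type u} [Field F] [Field Ω] [Algebra F Ω]

/-- The norm of a relation over `L(θ)` from `K` to `F(s, t)`. -/
theorem norm3 (K L : IntermediateField F Ω) (s t : K) (n : ℕ)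
    (hfr : Module.finrank (IntermediateField.adjoin F ({s, t} : Set K)) K = n) (hn : 0 < n)
    {ω : Ω} (ωk : kk K L s t) (hωk : (ωk : Ω) = ω) {θ : Fin 3 → Ω} (g : Polynomial F)
    (hg : g.map (algebraMap F Ω) = ∏ i, (Polynomial.X - Polynomial.C (θ i)))
    (x y : Fin 3 → K) (c : Ω)
    (key : (∏ i, (Nd.Phi (IntermediateField.adjoin F ({s, t} : Set K)) ω (lT (x 0) (y 0)) +
      (θ i ⊗ₜ (1 : K)) * Nd.Phi (IntermediateField.adjoin F ({s, t} : Set K)) ω
        (lT (x 1) (y 1)) +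
      ((θ i ⊗ₜ (1 : K)) ^ 2) * Nd.Phi (IntermediateField.adjoin F ({s, t} : Set K)) ω
        (lT (x 2) (y 2)))) = c ⊗ₜ (1 : K)) :
    ∃ r : Polynomial (kk K L s t), (∏ i, Polynomial.aeval (θ i) r) = c ^ n := by
  have hmon := Nf.g_monic hg
  have hdeg := Nf.g_degree hg
  let : Algebra (IntermediateField.adjoin F ({s, t} : Set K)) (kk K L s t) :=
    (jj K L s t).toAlgebra
  have : IsScalarTower (IntermediateField.adjoin F ({s, t} : Set K)) (kk K L s t) Ω :=
    IsScalarTower.of_algebraMap_eq (fun _ => rfl)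
  have : Module.Finite (IntermediateField.adjoin F ({s, t} : Set K)) K :=
    Module.finite_of_finrank_pos (by rw [hfr]; exact hn)
  let b := Module.finBasisOfFinrankEq (IntermediateField.adjoin F ({s, t} : Set K)) K hfr
  let z : Polynomial (kk K L s t) ⊗[IntermediateField.adjoin F ({s, t} : Set K)] K :=
    (1 ⊗ₜ x 0 + Polynomial.C ωk ⊗ₜ y 0) + (Polynomial.X ⊗ₜ (1 : K)) *
        (1 ⊗ₜ x 1 + Polynomial.C ωk ⊗ₜ y 1) + ((Polynomial.X ^ 2) ⊗ₜ (1 : K)) *
        (1 ⊗ₜ x 2 + Polynomial.C ωk ⊗ₜ y 2)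
  have hF : (algebraMap F Ω) = (algebraMap (kk K L s t) Ω).comp (algebraMap F (kk K L s t)) := rfl
  obtain ⟨r, hr, hrw⟩ := Nd.Nm_mod (Ω := Ω) b z (g.map (algebraMap F (kk K L s t)))
    (hmon.map _) (by
      intro h1
      have h2 : (g.map (algebraMap F (kk K L s t))).natDegree = 3 := by
        rw [Polynomial.natDegree_map, hdeg]
      rw [h1] at h2
      simp at h2)
  have hroot : ∀ w : Ω, Polynomial.eval w (g.map (algebraMap F Ω)) = 0 →
      Polynomial.aeval w (g.map (algebraMap F (kk K L s t))) = 0 := by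
    intro w hw
    rw [← Polynomial.eval_map_algebraMap, Polynomial.map_map, ← hF]
    exact hw
  have hPhi : ∀ a b : K, Nd.Phi (IntermediateField.adjoin F ({s, t} : Set K)) ω (lT a b) =
      (1 : Ω) ⊗ₜ a + ω ⊗ₜ b := by
    intro a b
    unfold lT
    rw [map_add, map_mul, Nd.Phi_C, Nd.Phi_C, Nd.Phi_X, Algebra.TensorProduct.tmul_mul_tmul,
      one_mul, mul_one]
  have hz : ∀ w : Ω, Algebra.TensorProduct.map
        ((Polynomial.aeval w : Polynomial (kk K L s t) →ₐ[kk K L s t] Ω).restrictScalars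
          (IntermediateField.adjoin F ({s, t} : Set K)))
        (AlgHom.id (IntermediateField.adjoin F ({s, t} : Set K)) K) z =
      Nd.Phi (IntermediateField.adjoin F ({s, t} : Set K)) ω (lT (x 0) (y 0)) +
      (w ⊗ₜ (1 : K)) * Nd.Phi (IntermediateField.adjoin F ({s, t} : Set K)) ω
        (lT (x 1) (y 1)) +
      ((w ⊗ₜ (1 : K)) ^ 2) * Nd.Phi (IntermediateField.adjoin F ({s, t} : Set K)) ω
        (lT (x 2) (y 2)) := by
    intro w
    rw [hPhi, hPhi, hPhi]
    simp only [z, map_add, map_mul, Algebra.TensorProduct.map_tmul, AlgHom.coe_id, id_eq,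
      AlgHom.restrictScalars_apply, Polynomial.aeval_X, Polynomial.aeval_C, map_one, map_pow,
      Algebra.TensorProduct.tmul_pow, one_pow]
    rw [← hωk]
    rfl
  refine ⟨r, ?_⟩
  have h3 : ∀ i, Polynomial.aeval (θ i) r = Nd.Nm b Ω
      (Nd.Phi (IntermediateField.adjoin F ({s, t} : Set K)) ω (lT (x 0) (y 0)) +
      ((θ i) ⊗ₜ (1 : K)) * Nd.Phi (IntermediateField.adjoin F ({s, t} : Set K)) ω
        (lT (x 1) (y 1)) +
      (((θ i) ⊗ₜ (1 : K)) ^ 2) * Nd.Phi (IntermediateField.adjoin F ({s, t} : Set K)) ω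
        (lT (x 2) (y 2))) := by
    intro i
    rw [hrw (θ i) (hroot _ (by
      rw [hg, Polynomial.eval_prod]
      exact Finset.prod_eq_zero (Finset.mem_univ i) (by simp))), hz]
  rw [Fin.prod_univ_three] at key ⊢
  rw [h3, h3, h3, ← Nd.Nm_mul, ← Nd.Nm_mul, key, Nd.Nm_base]
  simp

/-- `1, θ, θ ^ 2` are independent over `F(ω)`. -/
theorem indep_quad {θ : Fin 3 → Ω} {ω ω' : Ω} (hc : IsCubic F θ) (hq : IsQuad F ω ω')
    (L : IntermediateField F Ω) (hL : L = IntermediateField.adjoin F ({ω} : Set Ω))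
    (y : Fin 3 → L) (i : Fin 3) (h : ev (fun j => (y j : Ω)) (θ i) = 0) : y = 0 := by
  have hex : ∀ j, ∃ a b : F, (y j : Ω) = algebraMap F Ω a + ω * algebraMap F Ω b :=
    fun j => Nf.mem_quad hq _ (hL ▸ (y j).2)
  choose a b hab using hex
  have h1 : ev (fun j => algebraMap F Ω (a j)) (θ i) +
      ω * ev (fun j => algebraMap F Ω (b j)) (θ i) = 0 := by
    rw [← h]
    unfold ev
    simp only [hab]
    ring
  have hmem : ∀ a : Fin 3 → F, ev (fun j => algebraMap F Ω (a j)) (θ i) ∈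
      IntermediateField.adjoin F ({θ i} : Set Ω) := by
    intro a
    have h1 : θ i ∈ IntermediateField.adjoin F ({θ i} : Set Ω) :=
      IntermediateField.subset_adjoin F _ rfl
    unfold ev
    exact add_mem (add_mem (IntermediateField.algebraMap_mem _ _)
      (mul_mem (IntermediateField.algebraMap_mem _ _) h1))
      (mul_mem (IntermediateField.algebraMap_mem _ _) (pow_mem h1 2))
  by_cases hb : ev (fun j => algebraMap F Ω (b j)) (θ i) = 0
  · have hb0 := Nf.ev_eq_zero hc b i hb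
    rw [hb, mul_zero, add_zero] at h1
    have ha0 := Nf.ev_eq_zero hc a i h1
    funext j
    apply Subtype.ext
    rw [hab, ha0, hb0]
    simp
  · exfalso
    apply Nf.quad_notMem hc hq i
    have : ω = - ev (fun j => algebraMap F Ω (a j)) (θ i) /
        ev (fun j => algebraMap F Ω (b j)) (θ i) := by
      field_simp
      linear_combination h1
    rw [this]
    exact div_mem (neg_mem (hmem a)) (hmem b)

/-- [6L3] -/
theorem sixL3 (hpl : S_PL.{u}) : S_6L3.{u} := by
  intro F Ω _ _ _ θ ω ω' b c₀ c₁ K h6 hK n hn hn3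
  obtain ⟨hcub, hquad, hbF, hc0F, hc1F, hNb, hN0⟩ := h6
  obtain ⟨x, y, hT, hTc⟩ := exists_K6 hK
  obtain ⟨hn0, s, t, hAI, hfr⟩ := hn
  obtain ⟨e₁, e₂, e₃, h₁, h₂, h₃⟩ := Nf.exists_e hcub
  obtain ⟨d₀, rfl⟩ := hc0F
  obtain ⟨d₁, rfl⟩ := hc1F
  have hc0 : algebraMap F Ω d₀ + algebraMap F Ω d₁ * ω ≠ 0 := fun h0 => hN0 (by rw [h0, zero_mul])
  have hTc' : (∏ i, zz θ ω' (fun j => (x j : Ω)) (fun j => (y j : Ω)) i) =
      algebraMap F Ω d₀ + algebraMap F Ω d₁ * ω' := by
    have h1 : (∏ i, zz θ ω (fun j => (x j : Ω)) (fun j => (y j : Ω)) i) *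
        (∏ i, zz θ ω' (fun j => (x j : Ω)) (fun j => (y j : Ω)) i) =
        (algebraMap F Ω d₀ + algebraMap F Ω d₁ * ω) *
          (algebraMap F Ω d₀ + algebraMap F Ω d₁ * ω') := by
      rw [← Finset.prod_mul_distrib, ← hNb]
      exact Finset.prod_congr rfl (fun i _ => hT i)
    rw [hTc] at h1
    exact mul_left_cancel₀ hc0 h1
  obtain ⟨L, hL⟩ : ∃ L : IntermediateField F Ω, L = IntermediateField.adjoin F ({ω} : Set Ω) :=
    ⟨_, rfl⟩
  have hωL : ω ∈ L := by
    rw [hL]
    exact IntermediateField.subset_adjoin F _ rfl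
  have hLalg : Algebra.IsAlgebraic F L := by
    have : FiniteDimensional F L := by
      apply Module.finite_of_finrank_pos
      rw [hL, (Nf.finrank_quad hquad).1]
      norm_num
    infer_instance
  have hωk : ω ∈ kk K L s t := (kk K L s t).algebraMap_mem (⟨ω, hωL⟩ : L)
  obtain ⟨hinj, g, hgi, hg⟩ := id hcub
  obtain ⟨r, hr⟩ := norm3 K L s t n hfr hn0 ⟨ω, hωk⟩ rfl g hg x y
    (algebraMap F Ω d₀ + algebraMap F Ω d₁ * ω)
    (key3 K _ hquad e₁ e₂ e₃ h₁ h₂ h₃ d₀ d₁ x y hTc hTc')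
  have hcL : algebraMap F Ω d₀ + algebraMap F Ω d₁ * ω ∈ L :=
    add_mem (IntermediateField.algebraMap_mem _ _)
      (mul_mem (IntermediateField.algebraMap_mem _ _) hωL)
  obtain ⟨c, hc⟩ : ∃ c : L, (c : Ω) = algebraMap F Ω d₀ + algebraMap F Ω d₁ * ω :=
    ⟨⟨_, hcL⟩, rfl⟩
  rw [← hc] at hr
  have hcne : c ≠ 0 := by
    intro h0
    apply hc0
    rw [← hc, h0]
    rfl
  -- a solution with exponent one modulo three
  obtain ⟨r', m, hr'⟩ : ∃ (r' : Polynomial (kk K L s t)) (m : ℕ),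
      (∏ i, Polynomial.aeval (θ i) r') = (c : Ω) * ((c : Ω) ^ m) ^ 3 := by
    have : n % 3 = 1 ∨ n % 3 = 2 := by omega
    rcases this with h | h
    · refine ⟨r, n / 3, ?_⟩
      rw [hr, ← pow_mul, ← pow_succ']
      congr 1
      omega
    · refine ⟨r * r, (2 * n) / 3, ?_⟩
      simp only [map_mul, Finset.prod_mul_distrib]
      rw [hr, ← pow_add, ← pow_mul, ← pow_succ']
      congr 1
      omega
  -- reduce modulo g
  obtain ⟨d, hd⟩ : ∃ d : Fin 3 → kk K L s t, ∀ i, ev (fun j => (d j : Ω)) (θ i) =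
      Polynomial.aeval (θ i) r' := by
    have hmon : (g.map (algebraMap F (kk K L s t))).Monic := (Nf.g_monic hg).map _
    have hdeg : (g.map (algebraMap F (kk K L s t))).natDegree = 3 := by
      rw [Polynomial.natDegree_map, Nf.g_degree hg]
    have hlt : (r' %ₘ g.map (algebraMap F (kk K L s t))).natDegree < 3 := by
      rw [← hdeg]
      apply Polynomial.natDegree_modByMonic_lt _ hmon
      intro h1
      rw [h1] at hdeg
      simp at hdeg
    refine ⟨fun j => (r' %ₘ g.map (algebraMap F (kk K L s t))).coeff j, ?_⟩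
    intro i
    have hroot : Polynomial.aeval (θ i) (g.map (algebraMap F (kk K L s t))) = 0 := by
      have hF : (algebraMap F Ω) = (algebraMap (kk K L s t) Ω).comp
        (algebraMap F (kk K L s t)) := rfl
      rw [← Polynomial.eval_map_algebraMap, Polynomial.map_map, ← hF, hg, Polynomial.eval_prod]
      exact Finset.prod_eq_zero (Finset.mem_univ i) (by simp)
    have h1 : Polynomial.aeval (θ i) r' =
        Polynomial.aeval (θ i) (r' %ₘ g.map (algebraMap F (kk K L s t))) := by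
      conv_lhs => rw [← Polynomial.modByMonic_add_div r' (g.map (algebraMap F (kk K L s t)))]
      rw [map_add, map_mul, hroot, zero_mul, add_zero]
    rw [h1, Polynomial.aeval_eq_sum_range' hlt]
    simp only [Finset.sum_range_succ, Finset.sum_range_zero, zero_add, pow_zero, pow_one,
      Algebra.smul_def, mul_one]
    rfl
  have hprod : (∏ i, ev (fun j => (d j : Ω)) (θ i)) = (c : Ω) * ((c : Ω) ^ m) ^ 3 := by
    rw [← hr']
    exact Finset.prod_congr rfl (fun i _ => hd i)
  rw [Nf.prod_ev e₁ e₂ e₃ h₁ h₂ h₃] at hprod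
  obtain ⟨p, hp, hz⟩ := spec hpl K L s t hAI 4
    ![d 0, d 1, d 2, algebraMap L (kk K L s t) (c ^ m)] (by
    intro h0
    have := congrFun h0 3
    simp only [Matrix.cons_val, Pi.zero_apply, map_pow] at this
    have h2 : algebraMap L (kk K L s t) c = 0 := by
      by_contra hne
      exact (pow_ne_zero m hne) this
    exact hcne ((map_eq_zero_iff _ (algebraMap L (kk K L s t)).injective).1 h2))
  have h4 := hz 3 (Nf.nform (algebraMap F L e₁) (algebraMap F L e₂) (algebraMap F L e₃) c)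
    (Nf.nform_hom _ _ _ _) (by
    rw [Nf.nform_aeval]
    simp only [Matrix.cons_val]
    apply (algebraMap (kk K L s t) Ω).injective
    rw [map_sub, Nf.nf_map, map_zero, map_mul, map_pow, map_pow]
    rw [map_pow]
    exact sub_eq_zero.2 hprod)
  obtain ⟨z, hz⟩ := Nf.sol e₁ e₂ e₃ h₁ h₂ h₃ L (indep_quad hcub hquad L hL) c p hp h4
  have hex : ∀ j, ∃ a b : F, (z j : Ω) = algebraMap F Ω a + ω * algebraMap F Ω b :=
    fun j => Nf.mem_quad hquad _ (hL ▸ (z j).2)
  choose a b hab using hex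
  refine ⟨fun j => algebraMap F Ω (a j), fun j => algebraMap F Ω (b j), fun j => ⟨a j, rfl⟩,
    fun j => ⟨b j, rfl⟩, ?_⟩
  rw [← hc, ← hz]
  apply Finset.prod_congr rfl
  intro i _
  unfold zz ev
  simp only [hab]
  ring

end Pool.Agent.Helper95K9.IR.SixL
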