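import Pool.Agent.Helper95K9.IR.Tool

/-!
Degree of irrationality of del Pezzo surfaces: the leaf YL (a line and a conic).
-/

set_option autoImplicit false

namespace Pool.Agent.Helper95K9.IR.Yl

universe u

theorem quad_ne {E : Type u} [Field E] {a b c : E} (h : a ≠ 0) :
    Polynomial.C a * Polynomial.X ^ 2 + Polynomial.C b * Polynomial.X + Polynomial.C c ≠ 0 := by
  intro h1
  have := congrArg (fun q => Polynomial.coeff q 2) h1
  simp at this
  exact h this

theorem aux (E K : Type u) [Field E] [Field K] [Algebra E K] (X Y : K)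
    (l₀ l₁ c n₀ n₁ n₂ m₀ m₁ d : E)
    (hXY : IntermediateField.adjoin E ({X, Y} : Set K) = ⊤)
    (h1 : algebraMap E K l₀ * X + algebraMap E K l₁ * Y + algebraMap E K c = 0)
    (h2 : algebraMap E K n₀ * X ^ 2 + algebraMap E K n₁ * X * Y + algebraMap E K n₂ * Y ^ 2 +
      algebraMap E K m₀ * X + algebraMap E K m₁ * Y + algebraMap E K d = 0)
    (h3 : n₀ * l₁ ^ 2 - n₁ * l₀ * l₁ + n₂ * l₀ ^ 2 ≠ 0) (hl : l₁ ≠ 0) :
    0 < Module.finrank E K ∧ Module.finrank E K ≤ 2 := by
  have hl' : algebraMap E K l₁ ≠ 0 := by simpa using hl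
  have hY : Y = algebraMap E K (-l₀ / l₁) * X + algebraMap E K (-c / l₁) := by
    rw [map_div₀, map_div₀, map_neg, map_neg]
    field_simp
    linear_combination h1
  have hX : IntermediateField.adjoin E ({X} : Set K) = ⊤ := by
    rw [eq_top_iff, ← hXY, IntermediateField.adjoin_le_iff]
    intro z hz
    have hX' : X ∈ IntermediateField.adjoin E ({X} : Set K) :=
      IntermediateField.mem_adjoin_simple_self E X
    rcases hz with rfl | hz
    · exact hX'
    · rw [Set.mem_singleton_iff] at hz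
      rw [hz, hY]
      exact add_mem (mul_mem (IntermediateField.algebraMap_mem _ _) hX')
        (IntermediateField.algebraMap_mem _ _)
  refine Tool.finrank_le X hX
    (Polynomial.C (n₀ * l₁ ^ 2 - n₁ * l₀ * l₁ + n₂ * l₀ ^ 2) * Polynomial.X ^ 2 +
      Polynomial.C (-n₁ * l₁ * c + 2 * n₂ * l₀ * c + m₀ * l₁ ^ 2 - m₁ * l₁ * l₀) * Polynomial.X +
      Polynomial.C (n₂ * c ^ 2 - m₁ * l₁ * c + d * l₁ ^ 2)) ?_ 2
      Polynomial.natDegree_quadratic_le ?_
  · exact quad_ne h3
  · simp only [map_add, map_mul, map_sub, map_pow, map_neg, Polynomial.aeval_C,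
      Polynomial.aeval_X, map_ofNat]
    linear_combination (algebraMap E K l₁) ^ 2 * h2 - (algebraMap E K n₁ * algebraMap E K l₁ * X
      + algebraMap E K n₂ * (algebraMap E K l₁ * Y - algebraMap E K l₀ * X - algebraMap E K c)
      + algebraMap E K m₁ * algebraMap E K l₁) * h1

theorem yl : S_YL.{u} := by
  intro E K _ _ _ X Y l₀ l₁ c n₀ n₁ n₂ m₀ m₁ d hXY h1 h2 h3
  by_cases hl : l₁ = 0
  · have hl0 : l₀ ≠ 0 := by
      intro h
      apply h3
      rw [h, hl]
      ring
    refine aux E K Y X l₁ l₀ c n₂ n₁ n₀ m₁ m₀ d ?_ ?_ ?_ ?_ hl0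
    · rw [Set.pair_comm]
      exact hXY
    · linear_combination h1
    · linear_combination h2
    · intro h
      apply h3
      linear_combination h
  · exact aux E K X Y l₀ l₁ c n₀ n₁ n₂ m₀ m₁ d hXY h1 h2 h3 hl

end Pool.Agent.Helper95K9.IR.Yl
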