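import Pool.Agent.Helper95K9.IR.Main
import Pool.Agent.Helper95K9.IR.Fam
import Pool.Agent.Helper95K9.IR.BZ23
import Pool.Agent.Helper95K9.IR.Bz22
import Pool.Agent.Helper95K9.IR.C6U2
import Pool.Agent.Helper95K9.IR.C6U3
import Pool.Agent.Helper95K9.IR.C6U6
import Pool.Agent.Helper95K9.IR.Cub
import Pool.Agent.Helper95K9.IR.Cubic
import Pool.Agent.Helper95K9.IR.Desc
import Pool.Agent.Helper95K9.IR.EightAL
import Pool.Agent.Helper95K9.IR.EightAT
import Pool.Agent.Helper95K9.IR.EightAU
import Pool.Agent.Helper95K9.IR.EightBL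
import Pool.Agent.Helper95K9.IR.EightBU2F
import Pool.Agent.Helper95K9.IR.EightBU4
import Pool.Agent.Helper95K9.IR.FourL
import Pool.Agent.Helper95K9.IR.FourU2
import Pool.Agent.Helper95K9.IR.FourU4
import Pool.Agent.Helper95K9.IR.Nu
import Pool.Agent.Helper95K9.IR.OneTwo
import Pool.Agent.Helper95K9.IR.Pl
import Pool.Agent.Helper95K9.IR.R6
import Pool.Agent.Helper95K9.IR.R8b
import Pool.Agent.Helper95K9.IR.Sbl
import Pool.Agent.Helper95K9.IR.Sbu
import Pool.Agent.Helper95K9.IR.SixL2b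
import Pool.Agent.Helper95K9.IR.SixL3b
import Pool.Agent.Helper95K9.IR.ThreeL
import Pool.Agent.Helper95K9.IR.UB
import Pool.Agent.Helper95K9.IR.Yl

/-!
The degree of irrationality of all del Pezzo surfaces over all fields.
-/

set_option autoImplicit false

namespace Pool.Agent.Helper95K9.IR.All

open MvPolynomial Pool.Agent.Helper95K9.IR

universe u

/-- **The degree of irrationality of every del Pezzo surface over every field.** The surfaces are
given by their classical models, one family for every assertion (`Pool.Agent.Helper95K9.IR.Fam`);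
the remaining del Pezzo surfaces (degree five and seven, the plane and its blow-ups, and the
surfaces of degree six whose cubic algebra is not a field) are rational or birational to surfaces
of degree eight of the list. -/
theorem result :
    DegreeOne.{u} ∧ DegreeTwo.{u} ∧ DegreeThree.{u} ∧ DegreeFour.{u} ∧
    DegreeSix.{u} ∧ DegreeSixSplit.{u} ∧ DegreeEightProduct.{u} ∧ DegreeEightWeil.{u} ∧
    DegreeNine.{u} := by
  have hUB : S_UB.{u} := ub
  have hPL : S_PL.{u} := Pl.pl
  have hYL : S_YL.{u} := Yl.yl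
  have hBZ2 : S_BZ22.{u} := Bz22.bz22
  have hBZ3 : S_BZ23.{u} := bz23
  have hC : S_CUB.{u} := Cub.cub
  have hD : S_DESC.{u} := Desc.desc
  have h3L : S_3L.{u} := threeL hPL
  refine ⟨?_, ?_, ?_, ?_, ?_, ?_, ?_, ?_, ?_⟩
  · exact main1 (oneU hUB)
  · exact main2 (twoU hUB)
  · exact main3 (threeU3 hUB) (threeU2 hUB) h3L
  · exact main4 (fourU4 hUB hBZ2) (FourU2.fourU2 hUB hYL) (fourL hPL hC)
  · exact main6 (Six.t6U6 hUB hBZ3 hD) (Six.t6U3 hUB hD) (Six.t6U2 hUB hYL hD) (SixL.sixL2 hPL)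
      (SixL.sixL3 hPL)
      (Six.t6R hUB hD)
  · exact mainN (Nf.nu hUB) (Nf.nl h3L) (Six.tRN hUB hD)
  · exact main8a (EightA.aU4 hUB hBZ2) (EightA.aU2 hUB hYL) (EightA.aL hPL hC) (EightA.aL1 hPL)
      (EightA.R8a hUB)
  · exact main8b (eightBU4 hUB hBZ2) (EightBU2.eightBU2 hUB hYL) (eightBL hPL hC)
      (eightBL1 hPL) (EightB.R8b hUB)
  · intro F D K _ _ _ _ _ hc h9 hK
    refine irr_eq (sbu hPL hUB F D K hc h9 hK) fun n hn => Nat.le_of_dvd hn.1 ?_
    exact sbl hPL F D K hc h9 hK n hn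

end Pool.Agent.Helper95K9.IR.All
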