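import Mathlib

/-!
Degree of irrationality of del Pezzo surfaces (MP_577596_ag): the definitions.
-/

set_option autoImplicit false

namespace Pool.Agent.Helper95K9.IR

open MvPolynomial

universe u

/-! ### The degree of irrationality of a function field -/

section Field

variable (F : Type u) (K : Type u) [Field F] [Field K] [Algebra F K]

/-- `K` has degree `n` over a purely transcendental subfield `F(s, t)`. -/
def HasDeg (n : ℕ) : Prop :=
  0 < n ∧ ∃ s t : K, AlgebraicIndependent F ![s, t] ∧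
    Module.finrank (IntermediateField.adjoin F ({s, t} : Set K)) K = n

/-- The degree of irrationality of a surface over `F` with function field `K`. -/
noncomputable def irr : ℕ := sInf {n | HasDeg F K n}

/-- The surface is rational: its function field is `F(s, t)`. -/
def Rational : Prop :=
  ∃ s t : K, AlgebraicIndependent F ![s, t] ∧
    IntermediateField.adjoin F ({s, t} : Set K) = ⊤

/-- `K` has transcendence degree two over `F`, and `F` is algebraically closed in `K`
(function fields of geometrically integral surfaces). -/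
def IsSurfaceField : Prop :=
  Algebra.trdeg F K = 2 ∧ ∀ x : K, IsAlgebraic F x → x ∈ (algebraMap F K).range

end Field

/-! ### Projective varieties -/

section Proj

variable {F : Type u} [Field F] {N r : ℕ}

/-- The forms `f j` have a common nontrivial zero over `κ`. -/
def HasPt (f : Fin r → MvPolynomial (Fin N) F) (κ : Type u) [Field κ] [Algebra F κ] : Prop :=
  ∃ p : Fin N → κ, p ≠ 0 ∧ ∀ j, aeval p (f j) = 0

/-- There is a point of degree one or two. -/
def HasPt2 (f : Fin r → MvPolynomial (Fin N) F) : Prop :=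
  ∃ κ : IntermediateField F (AlgebraicClosure F),
    (Module.finrank F κ = 1 ∨ Module.finrank F κ = 2) ∧ HasPt f κ

/-- Jacobian criterion for a smooth complete intersection over the algebraic closure. -/
def SmoothCI (f : Fin r → MvPolynomial (Fin N) F) : Prop :=
  ∀ p : Fin N → AlgebraicClosure F, p ≠ 0 → (∀ j, aeval p (f j) = 0) →
    LinearIndependent (AlgebraicClosure F)
      (fun (j : Fin r) (i : Fin N) => aeval p (pderiv i (f j)))

/-- `K` is the function field of the projective variety given by the forms `f j`: there is a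
homogeneous generic point `P` with homogeneous ideal `(f j)` and `K = F(P i / P j)`. -/
def IsFF (f : Fin r → MvPolynomial (Fin N) F) (K : Type u) [Field K] [Algebra F K] : Prop :=
  IsSurfaceField F K ∧ ∃ P : Fin N → K, P ≠ 0 ∧
    (∀ (d : ℕ) (g : MvPolynomial (Fin N) F), g.IsHomogeneous d →
      (aeval P g = 0 ↔ g ∈ Ideal.span (Set.range f))) ∧
    IntermediateField.adjoin F {z : K | ∃ i j, z = P i / P j} = ⊤

end Proj

/-! ### Degrees one and two -/

section Weighted

variable {F : Type u} [Field F]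

/-- `w ^ 2 + a w + b = 0` is smooth in `P(1, 1, 1, 2)`. -/
def Smooth2 (a b : MvPolynomial (Fin 3) F) : Prop :=
  ∀ (p : Fin 3 → AlgebraicClosure F) (w : AlgebraicClosure F), p ≠ 0 →
    w ^ 2 + aeval p a * w + aeval p b = 0 →
    2 * w + aeval p a ≠ 0 ∨ ∃ i, aeval p (pderiv i a) * w + aeval p (pderiv i b) ≠ 0

/-- `K` is the function field of `w ^ 2 + a w + b = 0` in `P(1, 1, 1, 2)`. -/
def IsFF2 (a b : MvPolynomial (Fin 3) F) (K : Type u) [Field K] [Algebra F K] : Prop :=
  IsSurfaceField F K ∧ ∃ (P : Fin 3 → K) (w : K), P ≠ 0 ∧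
    w ^ 2 + aeval P a * w + aeval P b = 0 ∧
    IntermediateField.adjoin F
      ({z : K | ∃ i j, z = P i / P j} ∪ {z : K | ∃ j, z = w / P j ^ 2}) = ⊤

/-- The Weierstrass equation `w ^ 2 + a₁ z w + a₃ w = z ^ 3 + a₂ z ^ 2 + a₄ z + a₆`. -/
def Weier {R : Type u} [CommRing R] (a₁ a₂ a₃ a₄ a₆ z w : R) : Prop :=
  w ^ 2 + a₁ * z * w + a₃ * w = z ^ 3 + a₂ * z ^ 2 + a₄ * z + a₆

/-- The sextic in `P(1, 1, 2, 3)` is smooth. -/
def Smooth1 (a₁ a₂ a₃ a₄ a₆ : MvPolynomial (Fin 2) F) : Prop :=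
  ∀ (p : Fin 2 → AlgebraicClosure F) (z w : AlgebraicClosure F), p ≠ 0 →
    Weier (aeval p a₁) (aeval p a₂) (aeval p a₃) (aeval p a₄) (aeval p a₆) z w →
    2 * w + aeval p a₁ * z + aeval p a₃ ≠ 0 ∨
    aeval p a₁ * w - (3 * z ^ 2 + 2 * aeval p a₂ * z + aeval p a₄) ≠ 0 ∨
    ∃ i, aeval p (pderiv i a₁) * z * w + aeval p (pderiv i a₃) * w -
      (aeval p (pderiv i a₂) * z ^ 2 + aeval p (pderiv i a₄) * z + aeval p (pderiv i a₆)) ≠ 0

/-- `K` is the function field of the sextic in `P(1, 1, 2, 3)`. -/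
def IsFF1 (a₁ a₂ a₃ a₄ a₆ : MvPolynomial (Fin 2) F) (K : Type u) [Field K] [Algebra F K] :
    Prop :=
  IsSurfaceField F K ∧ ∃ (P : Fin 2 → K) (z w : K), P ≠ 0 ∧
    Weier (aeval P a₁) (aeval P a₂) (aeval P a₃) (aeval P a₄) (aeval P a₆) z w ∧
    IntermediateField.adjoin F
      ({x : K | ∃ i j, x = P i / P j} ∪ {x : K | ∃ j, x = z / P j ^ 2} ∪
        {x : K | ∃ j, x = w / P j ^ 3}) = ⊤

end Weighted

/-! ### Degree eight -/

section Eight

variable {F : Type u} [Field F]

/-- The conic `x ^ 2 + x y + a y ^ 2 = β z ^ 2` has a point over `κ`. -/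
def ConicPt (a β : F) (κ : Type u) [Field κ] [Algebra F κ] : Prop :=
  ∃ x y z : κ, ¬ (x = 0 ∧ y = 0 ∧ z = 0) ∧
    x ^ 2 + x * y + algebraMap F κ a * y ^ 2 = algebraMap F κ β * z ^ 2

/-- `K` is the function field of the product of the conics `x ^ 2 + x y + a y ^ 2 = β z ^ 2`
and `x ^ 2 + x y + a' y ^ 2 = β' z ^ 2`. -/
def IsFF8a (a β a' β' : F) (K : Type u) [Field K] [Algebra F K] : Prop :=
  IsSurfaceField F K ∧ ∃ x y x' y' : K,
    x ^ 2 + x * y + algebraMap F K a * y ^ 2 = algebraMap F K β ∧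
    x' ^ 2 + x' * y' + algebraMap F K a' * y' ^ 2 = algebraMap F K β' ∧
    IntermediateField.adjoin F ({x, y, x', y'} : Set K) = ⊤

/-- Both conics have a point over one extension of degree at most two. -/
def HasPt8a (a β a' β' : F) : Prop :=
  ∃ κ : IntermediateField F (AlgebraicClosure F),
    (Module.finrank F κ = 1 ∨ Module.finrank F κ = 2) ∧ ConicPt a β κ ∧ ConicPt a' β' κ

/-- `R[ω]`, `ω ^ 2 = A + B ω`, for a field `R` containing `F`. -/
abbrev QA (A B : F) (R : Type u) [Field R] [Algebra F R] : Type u :=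
  QuadraticAlgebra R (algebraMap F R A) (algebraMap F R B)

/-- The image of an element of `F[ω]` in `R[ω]`. -/
def qa {A B : F} (R : Type u) [Field R] [Algebra F R] (v : QA A B F) : QA A B R :=
  ⟨algebraMap F R v.re, algebraMap F R v.im⟩

/-- The Weil restriction of the conic `x ^ 2 + x y + a y ^ 2 = β z ^ 2` over `F[ω]` has a point
over `κ`: there is a unimodular solution over `κ[ω]`. -/
def WPt {A B : F} (a β : QA A B F) (κ : Type u) [Field κ] [Algebra F κ] : Prop :=
  ∃ x y z : QA A B κ, (∃ l m n : QA A B κ, l * x + m * y + n * z = 1) ∧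
    x ^ 2 + x * y + qa κ a * y ^ 2 = qa κ β * z ^ 2

/-- There is a point of degree at most two. -/
def HasPt8b {A B : F} (a β : QA A B F) : Prop :=
  ∃ κ : IntermediateField F (AlgebraicClosure F),
    (Module.finrank F κ = 1 ∨ Module.finrank F κ = 2) ∧ WPt a β κ

/-- `K` is the function field of the Weil restriction from `F[ω]` to `F` of the conic
`x ^ 2 + x y + a y ^ 2 = β z ^ 2`. -/
def IsFF8b {A B : F} (a β : QA A B F) (K : Type u) [Field K] [Algebra F K] : Prop :=
  IsSurfaceField F K ∧ ∃ x y : QA A B K,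
    x ^ 2 + x * y + qa K a * y ^ 2 = qa K β ∧
    IntermediateField.adjoin F ({x.re, x.im, y.re, y.im} : Set K) = ⊤

end Eight

/-! ### Degree six and norm surfaces -/

section Six

variable {F Ω : Type u} [Field F] [Field Ω] [Algebra F Ω]

/-- The conjugate at `t` of the element `x 0 + x 1 θ + x 2 θ ^ 2`. -/
def ev (x : Fin 3 → Ω) (t : Ω) : Ω := x 0 + x 1 * t + x 2 * t ^ 2

/-- The coordinates lie in `F`. -/
def InF (F : Type u) {Ω : Type u} [Field F] [Field Ω] [Algebra F Ω] (x : Fin 3 → Ω) : Prop :=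
  ∀ j, x j ∈ (algebraMap F Ω).range

/-- A separable cubic field `L = F(θ)` given by its conjugates `θ i`. -/
def IsCubic (F : Type u) {Ω : Type u} [Field F] [Field Ω] [Algebra F Ω] (θ : Fin 3 → Ω) : Prop :=
  Function.Injective θ ∧ ∃ g : Polynomial F, Irreducible g ∧
    g.map (algebraMap F Ω) = ∏ i, (Polynomial.X - Polynomial.C (θ i))

/-- A separable quadratic field `F(ω)` with conjugate `ω'`. -/
def IsQuad (F : Type u) {Ω : Type u} [Field F] [Field Ω] [Algebra F Ω] (ω ω' : Ω) : Prop :=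
  ω ≠ ω' ∧ ∃ h : Polynomial F, Irreducible h ∧
    h.map (algebraMap F Ω) = (Polynomial.X - Polynomial.C ω) * (Polynomial.X - Polynomial.C ω')

/-- The norm surface `N(x) = a` of the cubic field `F(θ)`; `K` is its function field. -/
def IsFFN (θ : Fin 3 → Ω) (a : Ω) (K : IntermediateField F Ω) : Prop :=
  IsSurfaceField F K ∧ ∃ x : Fin 3 → Ω, (∏ i, ev x (θ i)) = a ∧
    IntermediateField.adjoin F (Set.range x) = K

/-- The conjugates of `x + ω y`, where `x` and `y` are elements of `F(θ)` (with coefficients in a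
larger field). -/
def zz (θ : Fin 3 → Ω) (ω : Ω) (x y : Fin 3 → Ω) (i : Fin 3) : Ω := ev x (θ i) + ω * ev y (θ i)

/-- The del Pezzo surface of degree six given by `L = F(θ)`, `F(ω)`, `b` in `L` and `c` in `F(ω)`
with `N(b) = N(c)`, not zero. -/
def Is6 (F : Type u) {Ω : Type u} [Field F] [Field Ω] [Algebra F Ω] (θ : Fin 3 → Ω) (ω ω' : Ω)
    (b : Fin 3 → Ω) (c₀ c₁ : Ω) : Prop :=
  IsCubic F θ ∧ IsQuad F ω ω' ∧ InF F b ∧
    c₀ ∈ (algebraMap F Ω).range ∧ c₁ ∈ (algebraMap F Ω).range ∧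
    (∏ i, ev b (θ i)) = (c₀ + c₁ * ω) * (c₀ + c₁ * ω') ∧
    (c₀ + c₁ * ω) * (c₀ + c₁ * ω') ≠ 0

/-- The torsor `N(z) = b`, `N(z) = c` for the norms from `L(ω)` to `L` and to `F(ω)`. -/
def OnT (θ : Fin 3 → Ω) (ω ω' : Ω) (b : Fin 3 → Ω) (c : Ω) (x y : Fin 3 → Ω) : Prop :=
  (∀ i, zz θ ω x y i * zz θ ω' x y i = ev b (θ i)) ∧ (∏ i, zz θ ω x y i) = c

/-- `b` is a norm from `L(ω)` to `L`. -/
def NormL (F : Type u) {Ω : Type u} [Field F] [Field Ω] [Algebra F Ω] (θ : Fin 3 → Ω)
    (ω ω' : Ω) (b : Fin 3 → Ω) : Prop :=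
  ∃ x y : Fin 3 → Ω, InF F x ∧ InF F y ∧ ∀ i, zz θ ω x y i * zz θ ω' x y i = ev b (θ i)

/-- `c` is a norm from `L(ω)` to `F(ω)`. -/
def NormK (F : Type u) {Ω : Type u} [Field F] [Field Ω] [Algebra F Ω] (θ : Fin 3 → Ω)
    (ω : Ω) (c : Ω) : Prop :=
  ∃ x y : Fin 3 → Ω, InF F x ∧ InF F y ∧ (∏ i, zz θ ω x y i) = c

/-- `K` is the function field of the torsor, hence of its smooth compactification. -/
def IsFF6 (θ : Fin 3 → Ω) (ω ω' : Ω) (b : Fin 3 → Ω) (c : Ω) (K : IntermediateField F Ω) :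
    Prop :=
  IsSurfaceField F K ∧ ∃ x y : Fin 3 → Ω, OnT θ ω ω' b c x y ∧
    IntermediateField.adjoin F (Set.range x ∪ Set.range y) = K

end Six

end Pool.Agent.Helper95K9.IR
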