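import Pool.Agent.Helper95K9.IR.Defs

/-!
Degree of irrationality of del Pezzo surfaces: Severi-Brauer surfaces (degree nine).
-/

set_option autoImplicit false

namespace Pool.Agent.Helper95K9.IR

open TensorProduct

universe u

/-- `K` is the function field of the Severi-Brauer surface of the central division algebra `D` of
dimension nine over `F`: there is a right ideal `I` of dimension three of `K ⊗ D` (a `K`-point of
the surface) which is not defined over any proper subfield of `K` containing `F`. -/
def IsFFSB (F D K : Type u) [Field F] [DivisionRing D] [Algebra F D] [Field K] [Algebra F K] :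
    Prop :=
  IsSurfaceField F K ∧ ∃ I : Submodule K (K ⊗[F] D), Module.finrank K I = 3 ∧
    (∀ x ∈ I, ∀ r : K ⊗[F] D, x * r ∈ I) ∧
    ∀ E : IntermediateField F K,
      I = Submodule.span K {x : K ⊗[F] D | x ∈ I ∧
        x ∈ Set.range (Algebra.TensorProduct.map E.val (AlgHom.id F D))} → E = ⊤

/-- [SBU] -/
def S_SBU : Prop :=
  ∀ (F D K : Type u) [Field F] [DivisionRing D] [Algebra F D] [Field K] [Algebra F K],
    Algebra.IsCentral F D → Module.finrank F D = 9 → IsFFSB F D K → ∃ n, n ≤ 3 ∧ HasDeg F K n

/-- [SBL] -/
def S_SBL : Prop :=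
  ∀ (F D K : Type u) [Field F] [DivisionRing D] [Algebra F D] [Field K] [Algebra F K],
    Algebra.IsCentral F D → Module.finrank F D = 9 → IsFFSB F D K →
    ∀ n, HasDeg F K n → 3 ∣ n

end Pool.Agent.Helper95K9.IR
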