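import Pool.Agent.Helper95K9.IR.Tool

/-!
Degree of irrationality of del Pezzo surfaces: Weil restrictions of conics, the leaves [8bL1],
[8bL].
-/

set_option autoImplicit false

namespace Pool.Agent.Helper95K9.IR.EightBL

open MvPolynomial

universe u

section

variable {F : Type u} [Field F]

/-- Real part of the equation. -/
noncomputable def q0 (A B a0 a1 b0 b1 : F) : MvPolynomial (Fin 6) F :=
  C 1 * X 0 * X 0 + C A * X 1 * X 1 + C 1 * X 0 * X 2 + C A * X 1 * X 3 +
    C a0 * X 2 * X 2 + C (A * a0 + A * B * a1) * X 3 * X 3 + C (2 * A * a1) * X 2 * X 3 +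
    C (-b0) * X 4 * X 4 + C (-(A * b0 + A * B * b1)) * X 5 * X 5 + C (-(2 * A * b1)) * X 4 * X 5

/-- Imaginary part of the equation. -/
noncomputable def q1 (A B a0 a1 b0 b1 : F) : MvPolynomial (Fin 6) F :=
  C 2 * X 0 * X 1 + C B * X 1 * X 1 + C 1 * X 0 * X 3 + C 1 * X 1 * X 2 + C B * X 1 * X 3 +
    C a1 * X 2 * X 2 + C (B * a0 + A * a1 + B * B * a1) * X 3 * X 3 +
    C (2 * a0 + 2 * B * a1) * X 2 * X 3 +
    C (-b1) * X 4 * X 4 + C (-(B * b0 + A * b1 + B * B * b1)) * X 5 * X 5 +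
    C (-(2 * b0 + 2 * B * b1)) * X 4 * X 5

theorem mon (c : F) (i j : Fin 6) : (C c * X i * X j : MvPolynomial (Fin 6) F).IsHomogeneous 2 := by
  have h1 := (isHomogeneous_C (Fin 6) c).mul (isHomogeneous_X F i)
  simpa using h1.mul (isHomogeneous_X F j)

theorem q0_hom (A B a0 a1 b0 b1 : F) : (q0 A B a0 a1 b0 b1).IsHomogeneous 2 := by
  unfold q0
  exact (((((((((mon _ _ _).add (mon _ _ _)).add (mon _ _ _)).add (mon _ _ _)).add
    (mon _ _ _)).add (mon _ _ _)).add (mon _ _ _)).add (mon _ _ _)).add (mon _ _ _)).add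
    (mon _ _ _)

theorem q1_hom (A B a0 a1 b0 b1 : F) : (q1 A B a0 a1 b0 b1).IsHomogeneous 2 := by
  unfold q1
  exact ((((((((((mon _ _ _).add (mon _ _ _)).add (mon _ _ _)).add (mon _ _ _)).add
    (mon _ _ _)).add (mon _ _ _)).add (mon _ _ _)).add (mon _ _ _)).add (mon _ _ _)).add
    (mon _ _ _)).add (mon _ _ _)

variable {A B : F} (a β : QA A B F) (R : Type u) [Field R] [Algebra F R]

/-- The equation of the conic over `R[ω]`. -/
def Eqn (x y z : QA A B R) : Prop := x ^ 2 + x * y + qa R a * y ^ 2 = qa R β * z ^ 2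

theorem eqn_iff (v : Fin 6 → R) :
    Eqn a β R ⟨v 0, v 1⟩ ⟨v 2, v 3⟩ ⟨v 4, v 5⟩ ↔
      aeval v (q0 A B a.re a.im β.re β.im) = 0 ∧ aeval v (q1 A B a.re a.im β.re β.im) = 0 := by
  unfold Eqn q0 q1 qa
  simp only [map_add, map_mul, map_neg, map_one, map_ofNat, aeval_X, aeval_C, pow_two]
  rw [QuadraticAlgebra.ext_iff]
  simp only [QuadraticAlgebra.re_add, QuadraticAlgebra.im_add, QuadraticAlgebra.re_mul,
    QuadraticAlgebra.im_mul]
  constructor
  · rintro ⟨h1, h2⟩
    exact ⟨by linear_combination h1, by linear_combination h2⟩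
  · rintro ⟨h1, h2⟩
    exact ⟨by linear_combination h1, by linear_combination h2⟩

/-- Nonzero vectors over the field `R[ω]` are unimodular. -/
theorem unimod (hr : ∀ r : R, r ^ 2 ≠ algebraMap F R A + algebraMap F R B * r)
    (x y z : QA A B R) (h : ¬ (x = 0 ∧ y = 0 ∧ z = 0)) :
    ∃ l m n : QA A B R, l * x + m * y + n * z = 1 := by
  have : Fact (∀ r : R, r ^ 2 ≠ algebraMap F R A + algebraMap F R B * r) := ⟨hr⟩
  by_cases hx : x = 0
  · by_cases hy : y = 0
    · have hz : z ≠ 0 := fun hz => h ⟨hx, hy, hz⟩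
      exact ⟨0, 0, z⁻¹, by rw [zero_mul, zero_mul, zero_add, zero_add, inv_mul_cancel₀ hz]⟩
    · exact ⟨0, y⁻¹, 0, by rw [zero_mul, zero_mul, zero_add, add_zero, inv_mul_cancel₀ hy]⟩
  · exact ⟨x⁻¹, 0, 0, by rw [zero_mul, zero_mul, add_zero, add_zero, inv_mul_cancel₀ hx]⟩

/-- A nonzero common zero of the two forms gives a point when `R[ω]` is a field. -/
theorem wpt_of (hr : ∀ r : R, r ^ 2 ≠ algebraMap F R A + algebraMap F R B * r)
    (v : Fin 6 → R) (hv : v ≠ 0) (h0 : aeval v (q0 A B a.re a.im β.re β.im) = 0)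
    (h1 : aeval v (q1 A B a.re a.im β.re β.im) = 0) : WPt a β R := by
  refine ⟨⟨v 0, v 1⟩, ⟨v 2, v 3⟩, ⟨v 4, v 5⟩, unimod R hr _ _ _ ?_, (eqn_iff a β R v).2 ⟨h0, h1⟩⟩
  rintro ⟨e1, e2, e3⟩
  apply hv
  rw [QuadraticAlgebra.ext_iff] at e1 e2 e3
  funext i
  fin_cases i
  · exact e1.1
  · exact e1.2
  · exact e2.1
  · exact e2.2
  · exact e3.1
  · exact e3.2

/-- Images of common zeros. -/
theorem map_zero' {R' : Type u} [Field R'] [Algebra F R'] {R : Type u} [Field R] [Algebra F R]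
    (φ : R →ₐ[F] R') {N : ℕ} (v : Fin N → R) (g : MvPolynomial (Fin N) F) (h : aeval v g = 0) :
    aeval (fun i => φ (v i)) g = 0 := by
  have h1 : aeval (fun i => φ (v i)) g = φ (aeval v g) := by
    rw [← MvPolynomial.comp_aeval_apply]
  rw [h1, h, _root_.map_zero]

end

/-- If a field `κ` of degree two over `F` contains a root `s` of the equation of `ω`, then a
nonzero solution over `κ`, with `ω` replaced by `s`, gives a solution over `F[ω]`. -/
theorem split_case {F : Type u} [Field F] {A B : F} (a β : QA A B F)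
    (hr : ∀ r : F, r ^ 2 ≠ A + B * r) (κ : Type u) [Field κ] [Algebra F κ]
    (h2 : Module.finrank F κ = 2) (s : κ) (hs : s ^ 2 = algebraMap F κ A + algebraMap F κ B * s)
    (x y z : κ) (h0 : ¬ (x = 0 ∧ y = 0 ∧ z = 0))
    (h : x ^ 2 + x * y + (algebraMap F κ a.re + algebraMap F κ a.im * s) * y ^ 2 =
      (algebraMap F κ β.re + algebraMap F κ β.im * s) * z ^ 2) : WPt a β F := by
  have : FiniteDimensional F κ := Module.finite_of_finrank_pos (by omega)
  -- `1, s` is a basis
  have hsF : ∀ c : F, algebraMap F κ c ≠ s := by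
    intro c hc
    apply hr c
    apply (algebraMap F κ).injective
    rw [map_pow, map_add, map_mul, hc, hs]
  have hind : LinearIndependent F ![(1 : κ), s] := by
    rw [LinearIndependent.pair_iff]
    intro c d hcd
    have hd : d = 0 := by
      by_contra hd
      have hd' : algebraMap F κ d ≠ 0 := by simpa using hd
      apply hsF (-c / d)
      rw [map_div₀, map_neg]
      rw [Algebra.smul_def, Algebra.smul_def, mul_one] at hcd
      field_simp
      linear_combination -hcd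
    subst hd
    rw [zero_smul, add_zero, Algebra.smul_def, mul_one] at hcd
    exact ⟨by simpa using hcd, rfl⟩
  have hspan : ∀ t : κ, ∃ c d : F, t = algebraMap F κ c + algebraMap F κ d * s := by
    intro t
    have hb := hind.span_eq_top_of_card_eq_finrank (by simp [h2])
    have ht : t ∈ Submodule.span F (Set.range ![(1 : κ), s]) := by rw [hb]; trivial
    rw [Matrix.range_cons, Matrix.range_cons, Matrix.range_empty, Set.union_empty] at ht
    have ht' : t ∈ Submodule.span F ({(1 : κ), s} : Set κ) := ht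
    rw [Submodule.mem_span_pair] at ht'
    obtain ⟨c, d, hcd⟩ := ht'
    refine ⟨c, d, ?_⟩
    rw [← hcd, Algebra.smul_def, Algebra.smul_def, mul_one]
  obtain ⟨x0, x1, rfl⟩ := hspan x
  obtain ⟨y0, y1, rfl⟩ := hspan y
  obtain ⟨z0, z1, rfl⟩ := hspan z
  have hr' : ∀ r : F, r ^ 2 ≠ algebraMap F F A + algebraMap F F B * r := hr
  have h0' : ¬ ((⟨x0, x1⟩ : QA A B F) = 0 ∧ (⟨y0, y1⟩ : QA A B F) = 0 ∧
      (⟨z0, z1⟩ : QA A B F) = 0) := by
    rintro ⟨e1, e2, e3⟩
    rw [QuadraticAlgebra.ext_iff] at e1 e2 e3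
    apply h0
    obtain ⟨e1a, e1b⟩ := e1
    obtain ⟨e2a, e2b⟩ := e2
    obtain ⟨e3a, e3b⟩ := e3
    simp only [QuadraticAlgebra.re_zero, QuadraticAlgebra.im_zero] at e1a e1b e2a e2b e3a e3b
    subst e1a e1b e2a e2b e3a e3b
    simp
  -- coordinates of the equation
  have hcomp : ∀ c d : F, algebraMap F κ c + algebraMap F κ d * s = 0 → c = 0 ∧ d = 0 := by
    intro c d hcd
    rw [LinearIndependent.pair_iff] at hind
    apply hind c d
    rw [Algebra.smul_def, Algebra.smul_def, mul_one]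
    exact hcd
  refine ⟨⟨x0, x1⟩, ⟨y0, y1⟩, ⟨z0, z1⟩, unimod F hr' _ _ _ h0', ?_⟩
  have key := hcomp
    ((x0 ^ 2 + A * x1 ^ 2) + (x0 * y0 + A * x1 * y1) + (a.re * (y0 ^ 2 + A * y1 ^ 2) +
      A * a.im * (2 * y0 * y1 + B * y1 ^ 2)) - (β.re * (z0 ^ 2 + A * z1 ^ 2) +
      A * β.im * (2 * z0 * z1 + B * z1 ^ 2)))
    ((2 * x0 * x1 + B * x1 ^ 2) + (x0 * y1 + x1 * y0 + B * x1 * y1) +
      (a.re * (2 * y0 * y1 + B * y1 ^ 2) + a.im * (y0 ^ 2 + A * y1 ^ 2) +
      B * a.im * (2 * y0 * y1 + B * y1 ^ 2)) - (β.re * (2 * z0 * z1 + B * z1 ^ 2) +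
      β.im * (z0 ^ 2 + A * z1 ^ 2) + B * β.im * (2 * z0 * z1 + B * z1 ^ 2))) (by
    simp only [map_add, map_sub, map_mul, map_pow, map_ofNat]
    linear_combination h - (algebraMap F κ x1 ^ 2 + algebraMap F κ x1 * algebraMap F κ y1 +
      (algebraMap F κ a.re + algebraMap F κ a.im * s) * algebraMap F κ y1 ^ 2 +
      algebraMap F κ a.im * (2 * algebraMap F κ y0 * algebraMap F κ y1 +
        algebraMap F κ B * algebraMap F κ y1 ^ 2) -
      ((algebraMap F κ β.re + algebraMap F κ β.im * s) * algebraMap F κ z1 ^ 2 +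
      algebraMap F κ β.im * (2 * algebraMap F κ z0 * algebraMap F κ z1 +
        algebraMap F κ B * algebraMap F κ z1 ^ 2))) * hs)
  obtain ⟨k1, k2⟩ := key
  rw [QuadraticAlgebra.ext_iff]
  simp only [qa, pow_two, QuadraticAlgebra.re_add, QuadraticAlgebra.im_add,
    QuadraticAlgebra.re_mul, QuadraticAlgebra.im_mul, Algebra.algebraMap_self, RingHom.id_apply]
  constructor
  · linear_combination k1
  · linear_combination k2

/-- A common zero over a field of degree two gives a point of degree at most two. -/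
theorem deg_two {F : Type u} [Field F] {A B : F} (a β : QA A B F) (hD : B ^ 2 + 4 * A ≠ 0)
    (hr : ∀ r : F, r ^ 2 ≠ A + B * r) (κ : Type u) [Field κ] [Algebra F κ]
    (h2 : Module.finrank F κ = 2) (v : Fin 6 → κ) (hv : v ≠ 0)
    (h0 : aeval v (q0 A B a.re a.im β.re β.im) = 0)
    (h1 : aeval v (q1 A B a.re a.im β.re β.im) = 0) : WPt a β κ ∨ WPt a β F := by
  by_cases hκ : ∀ r : κ, r ^ 2 ≠ algebraMap F κ A + algebraMap F κ B * r
  · exact Or.inl (wpt_of a β κ hκ v hv h0 h1)
  · right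
    obtain ⟨s, hs⟩ := not_forall.1 hκ
    have hs : s ^ 2 = algebraMap F κ A + algebraMap F κ B * s := not_not.1 hs
    have hs' : (algebraMap F κ B - s) ^ 2 =
        algebraMap F κ A + algebraMap F κ B * (algebraMap F κ B - s) := by
      linear_combination hs
    have hne : algebraMap F κ B - s ≠ s := by
      intro h
      apply hD
      apply (algebraMap F κ).injective
      rw [map_zero, map_add, map_pow, map_mul, map_ofNat]
      linear_combination (algebraMap F κ B - 2 * s) * h - 4 * hs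
    -- the equation at `s`
    unfold q0 at h0
    unfold q1 at h1
    simp only [map_add, map_mul, map_neg, map_one, map_ofNat, aeval_X, aeval_C] at h0 h1
    have key : ∀ t : κ, t ^ 2 = algebraMap F κ A + algebraMap F κ B * t →
        (v 0 + v 1 * t) ^ 2 + (v 0 + v 1 * t) * (v 2 + v 3 * t) +
          (algebraMap F κ a.re + algebraMap F κ a.im * t) * (v 2 + v 3 * t) ^ 2 =
        (algebraMap F κ β.re + algebraMap F κ β.im * t) * (v 4 + v 5 * t) ^ 2 := by
      intro t ht
      linear_combination h0 + t * h1 + (v 1 ^ 2 + v 1 * v 3 +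
        (algebraMap F κ a.re + algebraMap F κ a.im * t) * v 3 ^ 2 +
        algebraMap F κ a.im * (2 * v 2 * v 3 + algebraMap F κ B * v 3 ^ 2) -
        ((algebraMap F κ β.re + algebraMap F κ β.im * t) * v 5 ^ 2 +
        algebraMap F κ β.im * (2 * v 4 * v 5 + algebraMap F κ B * v 5 ^ 2))) * ht
    by_cases hz : v 0 + v 1 * s = 0 ∧ v 2 + v 3 * s = 0 ∧ v 4 + v 5 * s = 0
    · refine split_case a β hr κ h2 _ hs' _ _ _ ?_ (key _ hs')
      rintro ⟨e1, e2, e3⟩
      apply hv
      have hcancel : ∀ p q : κ, p + q * s = 0 → p + q * (algebraMap F κ B - s) = 0 →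
          p = 0 ∧ q = 0 := by
        intro p q hp hq
        have hq0 : q * (algebraMap F κ B - s - s) = 0 := by linear_combination hq - hp
        have hq1 : q = 0 := (mul_eq_zero.1 hq0).resolve_right (sub_ne_zero.2 hne)
        subst hq1
        exact ⟨by simpa using hp, rfl⟩
      funext i
      fin_cases i
      · exact (hcancel _ _ hz.1 e1).1
      · exact (hcancel _ _ hz.1 e1).2
      · exact (hcancel _ _ hz.2.1 e2).1
      · exact (hcancel _ _ hz.2.1 e2).2
      · exact (hcancel _ _ hz.2.2 e3).1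
      · exact (hcancel _ _ hz.2.2 e3).2
    · exact split_case a β hr κ h2 s hs _ _ _ hz (key s hs)

/-- Points over `F` are points over `⊥`. -/
theorem wpt_map {F : Type u} [Field F] {A B : F} {a β : QA A B F} (R : Type u) [Field R]
    [Algebra F R] (h : WPt a β F) : WPt a β R := by
  obtain ⟨x, y, z, ⟨l, m, n, h1⟩, h2⟩ := h
  refine ⟨qa R x, qa R y, qa R z, ⟨qa R l, qa R m, qa R n, ?_⟩, ?_⟩
  · rw [QuadraticAlgebra.ext_iff] at h1 ⊢
    simp only [qa, QuadraticAlgebra.re_add, QuadraticAlgebra.im_add,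
      QuadraticAlgebra.re_mul, QuadraticAlgebra.im_mul, QuadraticAlgebra.re_one,
      QuadraticAlgebra.im_one, Algebra.algebraMap_self, RingHom.id_apply] at h1 ⊢
    constructor
    · have := congrArg (algebraMap F R) h1.1
      simpa only [map_add, map_mul, map_one] using this
    · have := congrArg (algebraMap F R) h1.2
      simpa only [map_add, map_mul, map_zero] using this
  · rw [QuadraticAlgebra.ext_iff] at h2 ⊢
    simp only [qa, pow_two, QuadraticAlgebra.re_add, QuadraticAlgebra.im_add,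
      QuadraticAlgebra.re_mul, QuadraticAlgebra.im_mul, Algebra.algebraMap_self,
      RingHom.id_apply] at h2 ⊢
    constructor
    · have := congrArg (algebraMap F R) h2.1
      simpa only [map_add, map_mul] using this
    · have := congrArg (algebraMap F R) h2.2
      simpa only [map_add, map_mul] using this

/-- The specialised point. -/
theorem pts_of_PL (hPL : S_PL.{u}) {F K : Type u} [Field F] [Field K] [Algebra F K] {A B : F}
    {a β : QA A B F} (hK : IsFF8b a β K) {n : ℕ} (hn : HasDeg F K n) :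
    ∃ κ : IntermediateField F (AlgebraicClosure F),
      0 < Module.finrank F κ ∧ Module.finrank F κ ≤ n ∧ ∃ v : Fin 6 → κ, v ≠ 0 ∧
        aeval v (q0 A B a.re a.im β.re β.im) = 0 ∧
        aeval v (q1 A B a.re a.im β.re β.im) = 0 := by
  obtain ⟨κ, h0, h1, hp⟩ := hPL F K n hn
  obtain ⟨_, x, y, hxy, _⟩ := hK
  obtain ⟨v, hv, hv'⟩ := hp 6 ![x.re, x.im, y.re, y.im, 1, 0] (by
    intro h
    exact one_ne_zero (congrFun h 4))
  have heq : Eqn a β K (⟨x.re, x.im⟩ : QA A B K) ⟨y.re, y.im⟩ ⟨1, 0⟩ := by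
    unfold Eqn
    have h1 : (⟨1, 0⟩ : QA A B K) = 1 := rfl
    rw [h1, one_pow, mul_one]
    exact hxy
  have h2 := (eqn_iff a β K ![x.re, x.im, y.re, y.im, 1, 0]).1 heq
  exact ⟨κ, h0, h1, v, hv, hv' 2 _ (q0_hom _ _ _ _ _ _) h2.1, hv' 2 _ (q1_hom _ _ _ _ _ _) h2.2⟩

/-- [8bL1] -/
theorem _root_.Pool.Agent.Helper95K9.IR.eightBL1 (hPL : S_PL.{u}) : S_8bL1.{u} := by
  intro F K _ _ _ A B a β hD hr hK hn
  obtain ⟨κ, h0, h1, v, hv, hq0, hq1⟩ := pts_of_PL hPL hK hn
  have hb : κ = ⊥ := by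
    rw [← IntermediateField.finrank_eq_one_iff]
    omega
  subst hb
  let φ := (IntermediateField.botEquiv F (AlgebraicClosure F)).toAlgHom
  refine wpt_of a β F hr (fun i => φ (v i)) ?_ (map_zero' φ v _ hq0) (map_zero' φ v _ hq1)
  intro h
  apply hv
  funext i
  have := congrFun h i
  exact (map_eq_zero φ).1 this

/-- [8bL] -/
theorem _root_.Pool.Agent.Helper95K9.IR.eightBL (hPL : S_PL.{u}) (hC : S_CUB.{u}) :
    S_8bL.{u} := by
  intro F K _ _ _ A B a β hD hr hK n hn hn3
  obtain ⟨κ, h0, h1, v, hv, hq0, hq1⟩ := pts_of_PL hPL hK hn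
  have hbot : WPt a β F → HasPt8b a β := fun h =>
    ⟨⊥, Or.inl IntermediateField.finrank_bot, wpt_map _ h⟩
  have hF : (∃ w : Fin 6 → F, w ≠ 0 ∧ aeval w (q0 A B a.re a.im β.re β.im) = 0 ∧
      aeval w (q1 A B a.re a.im β.re β.im) = 0) → WPt a β F := by
    rintro ⟨w, hw, e0, e1⟩
    exact wpt_of a β F hr w hw e0 e1
  have hκ : Module.finrank F κ = 1 ∨ Module.finrank F κ = 2 ∨ Module.finrank F κ = 3 := by omega
  rcases hκ with h | h | h
  · apply hbot
    have hb : κ = ⊥ := by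
      rw [← IntermediateField.finrank_eq_one_iff]
      omega
    subst hb
    let φ := (IntermediateField.botEquiv F (AlgebraicClosure F)).toAlgHom
    refine hF ⟨fun i => φ (v i), ?_, map_zero' φ v _ hq0, map_zero' φ v _ hq1⟩
    intro h
    apply hv
    funext i
    have := congrFun h i
    exact (map_eq_zero φ).1 this
  · rcases deg_two a β hD hr κ h v hv hq0 hq1 with h2 | h2
    · exact ⟨κ, Or.inr h, h2⟩
    · exact hbot h2
  · obtain ⟨w, hw, e0, e1⟩ := hC F κ h 6 _ _ (q0_hom A B a.re a.im β.re β.im)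
      (q1_hom A B a.re a.im β.re β.im) v hv hq0 hq1
    apply hbot
    apply hF
    refine ⟨w, hw, ?_, ?_⟩
    · rw [← e0, ← coe_aeval_eq_eval]; rfl
    · rw [← e1, ← coe_aeval_eq_eval]; rfl

end Pool.Agent.Helper95K9.IR.EightBL
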