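import Pool.Agent.Helper95K9.IR.FourU2
import Pool.Agent.Helper95K9.IR.EightAT
import Pool.Agent.Helper95K9.IR.EightBL

/-!
MP_577596_ag, leaf [8bU2].
-/

set_option autoImplicit false

namespace Pool.Agent.Helper95K9.IR.EightBU2

open Pool.Agent.Helper95K9.IR.Cub Pool.Agent.Helper95K9.IR.Step
open Pool.Agent.Helper95K9.IR.FourU2

universe u

section

variable {F : Type u} [Field F] {A B : F} (a β : QA A B F)

/-- Real part of the form. -/
def Mre : Fin 5 → Fin 5 → F :=
  ![![-β.re, 0, 0, 0, 0], ![0, 1, 0, 1, 0], ![0, 0, A, 0, A], ![0, 0, 0, a.re, 2 * A * a.im],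
    ![0, 0, 0, 0, A * a.re + A * B * a.im]]

/-- Imaginary part of the form. -/
def Mim : Fin 5 → Fin 5 → F :=
  ![![-β.im, 0, 0, 0, 0], ![0, 0, 2, 0, 1], ![0, 0, B, 1, B],
    ![0, 0, 0, a.im, 2 * a.re + 2 * B * a.im],
    ![0, 0, 0, 0, B * a.re + A * a.im + B * B * a.im]]

variable {R : Type u} [Field R] [Algebra F R]

theorem Bre (u v : Fin 5 → R) : Cub.B (Mre a β) u v =
    -algebraMap F R β.re * u 0 * v 0 + u 1 * v 1 + u 1 * v 3 + algebraMap F R A * u 2 * v 2 +
      algebraMap F R A * u 2 * v 4 + algebraMap F R a.re * u 3 * v 3 +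
      2 * algebraMap F R A * algebraMap F R a.im * u 3 * v 4 +
      (algebraMap F R A * algebraMap F R a.re + algebraMap F R A * algebraMap F R B *
        algebraMap F R a.im) * u 4 * v 4 := by
  unfold Mre
  simp [Cub.B, Fin.sum_univ_five, map_ofNat (algebraMap F R) 2]
  ring

theorem Bim (u v : Fin 5 → R) : Cub.B (Mim a β) u v =
    -algebraMap F R β.im * u 0 * v 0 + 2 * u 1 * v 2 + u 1 * v 4 + algebraMap F R B * u 2 * v 2 +
      u 2 * v 3 + algebraMap F R B * u 2 * v 4 + algebraMap F R a.im * u 3 * v 3 +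
      (2 * algebraMap F R a.re + 2 * algebraMap F R B * algebraMap F R a.im) * u 3 * v 4 +
      (algebraMap F R B * algebraMap F R a.re + algebraMap F R A * algebraMap F R a.im +
        algebraMap F R B * algebraMap F R B * algebraMap F R a.im) * u 4 * v 4 := by
  unfold Mim
  simp [Cub.B, Fin.sum_univ_five, map_ofNat (algebraMap F R) 2]
  ring

/-- The equation of the conic in coordinates. -/
theorem eq_iff (u : Fin 5 → R) :
    (⟨u 1, u 2⟩ : QA A B R) ^ 2 + ⟨u 1, u 2⟩ * ⟨u 3, u 4⟩ + qa R a * ⟨u 3, u 4⟩ ^ 2 =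
      qa R β * ⟨u 0, 0⟩ ^ 2 ↔ Cub.B (Mre a β) u u = 0 ∧ Cub.B (Mim a β) u u = 0 := by
  rw [Bre, Bim, QuadraticAlgebra.ext_iff]
  simp only [qa, pow_two, QuadraticAlgebra.re_add, QuadraticAlgebra.im_add,
    QuadraticAlgebra.re_mul, QuadraticAlgebra.im_mul]
  constructor
  · rintro ⟨h1, h2⟩
    exact ⟨by linear_combination h1, by linear_combination h2⟩
  · rintro ⟨h1, h2⟩
    exact ⟨by linear_combination h1, by linear_combination h2⟩

/-- The gradient. -/
theorem S_eq (u : Fin 5 → R) (X Y : QA A B R) :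
    Step.S (Mre a β) u ![0, X.re, X.im, Y.re, Y.im] =
      ((2 * ⟨u 1, u 2⟩ + ⟨u 3, u 4⟩) * X + (⟨u 1, u 2⟩ + 2 * qa R a * ⟨u 3, u 4⟩) * Y).re ∧
    Step.S (Mim a β) u ![0, X.re, X.im, Y.re, Y.im] =
      ((2 * ⟨u 1, u 2⟩ + ⟨u 3, u 4⟩) * X + (⟨u 1, u 2⟩ + 2 * qa R a * ⟨u 3, u 4⟩) * Y).im := by
  have h2 : (2 : QA A B R) = ⟨2, 0⟩ := by
    rw [QuadraticAlgebra.ext_iff]
    exact ⟨rfl, rfl⟩
  unfold Step.S
  rw [Bre, Bre, Bim, Bim, h2]
  simp only [qa, QuadraticAlgebra.re_add, QuadraticAlgebra.im_add,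
    QuadraticAlgebra.re_mul, QuadraticAlgebra.im_mul]
  simp
  constructor
  · ring
  · ring

end

section

variable {F : Type u} [Field F] {A B : F} {a β : QA A B F}

/-- Points along homomorphisms. -/
theorem wpt_hom {R R' : Type u} [Field R] [Algebra F R] [Field R'] [Algebra F R']
    (φ : R →ₐ[F] R') (h : WPt a β R) : WPt a β R' := by
  obtain ⟨x, y, z, ⟨l, m, n, h1⟩, h2⟩ := h
  let ψ : QA A B R → QA A B R' := fun w => ⟨φ w.re, φ w.im⟩
  refine ⟨ψ x, ψ y, ψ z, ⟨ψ l, ψ m, ψ n, ?_⟩, ?_⟩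
  · rw [QuadraticAlgebra.ext_iff] at h1 ⊢
    simp only [ψ, QuadraticAlgebra.re_add, QuadraticAlgebra.im_add,
      QuadraticAlgebra.re_mul, QuadraticAlgebra.im_mul, QuadraticAlgebra.re_one,
      QuadraticAlgebra.im_one] at h1 ⊢
    constructor
    · have := congrArg φ h1.1
      simpa only [map_add, map_mul, map_one, AlgHom.commutes] using this
    · have := congrArg φ h1.2
      simpa only [map_add, map_mul, map_zero, AlgHom.commutes] using this
  · rw [QuadraticAlgebra.ext_iff] at h2 ⊢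
    simp only [ψ, qa, pow_two, QuadraticAlgebra.re_add, QuadraticAlgebra.im_add,
      QuadraticAlgebra.re_mul, QuadraticAlgebra.im_mul] at h2 ⊢
    constructor
    · have := congrArg φ h2.1
      simpa only [map_add, map_mul, AlgHom.commutes] using this
    · have := congrArg φ h2.2
      simpa only [map_add, map_mul, AlgHom.commutes] using this

/-- Units of `F[ω]` stay units. -/
theorem qa_ne {R : Type u} [Field R] [Algebra F R] {v : QA A B F} (hv : IsUnit v) :
    qa R v ≠ 0 := by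
  obtain ⟨w, hw⟩ := hv.exists_right_inv
  intro h0
  have h1 : qa R v * qa R w = 1 := by
    rw [QuadraticAlgebra.ext_iff] at hw ⊢
    simp only [qa, QuadraticAlgebra.re_mul, QuadraticAlgebra.im_mul, QuadraticAlgebra.re_one,
      QuadraticAlgebra.im_one, Algebra.algebraMap_self, RingHom.id_apply] at hw ⊢
    constructor
    · have := congrArg (algebraMap F R) hw.1
      simpa only [map_add, map_mul, map_one] using this
    · have := congrArg (algebraMap F R) hw.2
      simpa only [map_add, map_mul, map_zero] using this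
  rw [h0, zero_mul] at h1
  exact zero_ne_one h1

theorem qa_four {R : Type u} [Field R] [Algebra F R] (v : QA A B F) :
    qa R (1 - 4 * v) = 1 - 4 * qa R v := by
  have h4 : (4 : QA A B F) = ⟨4, 0⟩ := by
    rw [QuadraticAlgebra.ext_iff]
    exact ⟨rfl, rfl⟩
  have h4' : (4 : QA A B R) = ⟨4, 0⟩ := by
    rw [QuadraticAlgebra.ext_iff]
    exact ⟨rfl, rfl⟩
  have h1 : (1 : QA A B F) = ⟨1, 0⟩ := rfl
  have h1' : (1 : QA A B R) = ⟨1, 0⟩ := rfl
  rw [h4, h4', h1, h1', QuadraticAlgebra.ext_iff]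
  simp only [qa, QuadraticAlgebra.re_sub, QuadraticAlgebra.im_sub, QuadraticAlgebra.re_mul,
    QuadraticAlgebra.im_mul, map_sub, map_add, map_mul, map_one, map_zero,
    map_ofNat (algebraMap F R) 4, Algebra.algebraMap_self, RingHom.id_apply]
  trivial

/-- If `κ` contains a root of the equation of `ω`, points over `κ` give points over `F`. -/
theorem split (hr : ∀ r : F, r ^ 2 ≠ A + B * r) {κ : Type u} [Field κ] [Algebra F κ]
    (h2 : Module.finrank F κ = 2) (s : κ)
    (hs : s ^ 2 = algebraMap F κ A + algebraMap F κ B * s) (h : WPt a β κ) : WPt a β F := by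
  obtain ⟨x, y, z, ⟨l, m, n, h1⟩, h2'⟩ := h
  rw [QuadraticAlgebra.ext_iff] at h1 h2'
  simp only [qa, pow_two, QuadraticAlgebra.re_add, QuadraticAlgebra.im_add,
    QuadraticAlgebra.re_mul, QuadraticAlgebra.im_mul, QuadraticAlgebra.re_one,
    QuadraticAlgebra.im_one] at h1 h2'
  obtain ⟨h1a, h1b⟩ := h1
  obtain ⟨h2a, h2b⟩ := h2'
  refine EightBL.split_case a β hr κ h2 s hs (x.re + x.im * s) (y.re + y.im * s)
    (z.re + z.im * s) ?_ ?_
  · rintro ⟨e1, e2, e3⟩
    have : (1 : κ) = 0 := by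
      linear_combination -h1a - s * h1b - (l.im * x.im + m.im * y.im + n.im * z.im) * hs +
        (l.re + l.im * s) * e1 + (m.re + m.im * s) * e2 + (n.re + n.im * s) * e3
    exact one_ne_zero this
  · linear_combination h2a + s * h2b + (x.im ^ 2 + x.im * y.im +
      (algebraMap F κ a.re + algebraMap F κ a.im * s) * y.im ^ 2 +
      algebraMap F κ a.im * (2 * y.re * y.im + algebraMap F κ B * y.im ^ 2) -
      ((algebraMap F κ β.re + algebraMap F κ β.im * s) * z.im ^ 2 +
      algebraMap F κ β.im * (2 * z.re * z.im + algebraMap F κ B * z.im ^ 2))) * hs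

/-- Affine points. -/
theorem affine {κ : Type u} [Field κ] [Algebra F κ]
    (hκ : ∀ r : κ, r ^ 2 ≠ algebraMap F κ A + algebraMap F κ B * r)
    (h4 : IsUnit (1 - 4 * a)) (h : WPt a β κ) :
    ∃ x y : QA A B κ, x ^ 2 + x * y + qa κ a * y ^ 2 = qa κ β := by
  have : Fact (∀ r : κ, r ^ 2 ≠ algebraMap F κ A + algebraMap F κ B * r) := ⟨hκ⟩
  obtain ⟨x, y, z, ⟨l, m, n, h1⟩, h2⟩ := h
  by_cases hz : z = 0
  · have hy : y ≠ 0 := by
      rintro rfl
      rw [hz] at h2 h1
      have h3 : x ^ 2 = 0 := by linear_combination h2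
      have h4 : x = 0 := pow_eq_zero_iff (two_ne_zero) |>.1 h3
      rw [h4] at h1
      simp at h1
    obtain ⟨ρ, hρ⟩ : ∃ ρ : QA A B κ, ρ * y = x := ⟨x / y, div_mul_cancel₀ _ hy⟩
    have hρ2 : ρ ^ 2 + ρ + qa κ a = 0 := by
      have h3 : y ^ 2 * (ρ ^ 2 + ρ + qa κ a) = 0 := by
        rw [hz, ← hρ] at h2
        linear_combination h2
      exact (mul_eq_zero.1 h3).resolve_left (pow_ne_zero 2 hy)
    have h4κ : 1 - 4 * qa κ a ≠ 0 := by
      rw [← qa_four]
      exact qa_ne h4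
    have h5 : 1 + 2 * ρ ≠ 0 := by
      intro h0
      apply h4κ
      linear_combination (1 + 2 * ρ) * h0 - 4 * hρ2
    obtain ⟨w, hw⟩ : ∃ w : QA A B κ, w * (1 + 2 * ρ) = qa κ β - 1 :=
      ⟨(qa κ β - 1) / (1 + 2 * ρ), div_mul_cancel₀ _ h5⟩
    exact ⟨1 + ρ * w, w, by linear_combination hw + w ^ 2 * hρ2⟩
  · refine ⟨x * z⁻¹, y * z⁻¹, ?_⟩
    have hzi : z * z⁻¹ = 1 := mul_inv_cancel₀ hz
    linear_combination (z⁻¹) ^ 2 * h2 + qa κ β * (z * z⁻¹ + 1) * hzi

/-- The main step, given the linear independence of the coordinates. -/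
theorem main (hUB : S_UB.{u}) (hYL : S_YL.{u}) {K : Type u} [Field K] [Algebra F K]
    (hr : ∀ r : F, r ^ 2 ≠ A + B * r) (h4 : IsUnit (1 - 4 * a)) (hβ : IsUnit β)
    (hK : IsSurfaceField F K) (x y : QA A B K)
    (hxy : x ^ 2 + x * y + qa K a * y ^ 2 = qa K β)
    (htop : IntermediateField.adjoin F ({x.re, x.im, y.re, y.im} : Set K) = ⊤)
    (hlin : ∀ e : Fin 5 → F, e ≠ 0 →
      ∑ i, algebraMap F K (e i) * (![1, x.re, x.im, y.re, y.im] : Fin 5 → K) i ≠ 0)
    (hpt : HasPt8b a β) (hF : ¬ WPt a β F) : ∃ n, n ≤ 2 ∧ HasDeg F K n := by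
  obtain ⟨κ, hκ, hp⟩ := hpt
  have hr' : ∀ r : F, r ^ 2 ≠ algebraMap F F A + algebraMap F F B * r := hr
  rcases hκ with hκ | hκ
  · exfalso
    apply hF
    have hb : κ = ⊥ := IntermediateField.finrank_eq_one_iff.1 hκ
    subst hb
    exact wpt_hom (IntermediateField.botEquiv F (AlgebraicClosure F)).toAlgHom hp
  have hroot : ∀ r : κ, r ^ 2 ≠ algebraMap F κ A + algebraMap F κ B * r := by
    intro s hs
    exact hF (split hr hκ s hs hp)
  have hfact : Fact (∀ r : κ, r ^ 2 ≠ algebraMap F κ A + algebraMap F κ B * r) := ⟨hroot⟩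
  obtain ⟨X, Y, hXY⟩ := affine hroot h4 hp
  obtain ⟨η, τ, ν, hall, hind, hη, hirr⟩ := EightA.quad_basis hκ
  -- the point
  obtain ⟨p, hpdef⟩ : ∃ p : Fin 5 → κ, p = ![1, X.re, X.im, Y.re, Y.im] := ⟨_, rfl⟩
  have hX : (⟨p 1, p 2⟩ : QA A B κ) = X := by rw [hpdef]; rfl
  have hY : (⟨p 3, p 4⟩ : QA A B κ) = Y := by rw [hpdef]; rfl
  have hone : (⟨p 0, 0⟩ : QA A B κ) = 1 := by rw [hpdef]; rfl
  obtain ⟨hp₁, hp₂⟩ := (eq_iff a β p).1 (by rw [hX, hY, hone, one_pow, mul_one]; exact hXY)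
  choose p₀ p₁ hp' using fun i => hall (p i)
  have hpe : p = (fun i => algebraMap F κ (p₀ i)) + η • (fun i => algebraMap F κ (p₁ i)) := by
    funext i
    simp only [Pi.add_apply, Pi.smul_apply, smul_eq_mul]
    rw [hp' i]; ring
  have h00 : p₀ 0 = 1 ∧ p₁ 0 = 0 := by
    have h1 : p 0 = 1 := by rw [hpdef]; rfl
    have h2 := hind (p₀ 0 - 1) (p₁ 0) (by
      rw [map_sub, map_one]
      linear_combination h1 - hp' 0)
    exact ⟨sub_eq_zero.1 h2.1, h2.2⟩
  have hval : ∀ M : Fin 5 → Fin 5 → F, Cub.B M p p = 0 →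
      Cub.B M p₀ p₀ = -(Cub.B M p₁ p₁ * (-ν)) ∧ Step.S M p₀ p₁ = -(Cub.B M p₁ p₁ * τ) := by
    intro M hM
    rw [hpe, B_add_self, S_smul_right, B_smul_left, B_smul_right, B_map, B_map] at hM
    have h1 : Step.S M (fun i => algebraMap F κ (p₀ i)) (fun i => algebraMap F κ (p₁ i)) =
        algebraMap F κ (Step.S M p₀ p₁) := by
      unfold Step.S; rw [B_map, B_map, map_add]
    rw [h1] at hM
    have h2 := hind (Cub.B M p₀ p₀ - Cub.B M p₁ p₁ * ν) (Step.S M p₀ p₁ + Cub.B M p₁ p₁ * τ) (by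
      rw [map_add, map_sub, map_mul, map_mul]
      linear_combination hM - algebraMap F κ (Cub.B M p₁ p₁) * hη)
    exact ⟨by linear_combination h2.1, by linear_combination h2.2⟩
  obtain ⟨v00, v01⟩ := hval _ hp₁
  obtain ⟨v00', v01'⟩ := hval _ hp₂
  obtain ⟨c₁, hc₁⟩ : ∃ c, c = Cub.B (Mre a β) p₁ p₁ := ⟨_, rfl⟩
  obtain ⟨c₂, hc₂⟩ : ∃ c, c = Cub.B (Mim a β) p₁ p₁ := ⟨_, rfl⟩
  rw [← hc₁] at v00 v01
  rw [← hc₂] at v00' v01'
  have hc : ¬ (c₁ = 0 ∧ c₂ = 0) := by
    rintro ⟨e1, e2⟩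
    apply hF
    rw [e1, zero_mul, neg_zero] at v00
    rw [e2, zero_mul, neg_zero] at v00'
    have h1 := (eq_iff a β p₀).2 ⟨v00, v00'⟩
    refine ⟨⟨p₀ 1, p₀ 2⟩, ⟨p₀ 3, p₀ 4⟩, ⟨p₀ 0, 0⟩, ⟨0, 0, 1, ?_⟩, h1⟩
    rw [h00.1]
    rw [zero_mul, zero_mul, zero_add, zero_add, one_mul]
    rfl
  have hp10 : p₁ ≠ 0 := by
    rintro h0
    apply hc
    rw [hc₁, hc₂, h0]
    constructor
    · rw [Bre]; simp
    · rw [Bim]; simp
  have hli : LinearIndependent F ![p₀, p₁] := by
    rw [LinearIndependent.pair_iff]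
    intro s t hst
    have s0 : s = 0 := by
      have := congrFun hst 0
      simp only [Pi.add_apply, Pi.smul_apply, smul_eq_mul, h00.1, h00.2, Pi.zero_apply] at this
      linear_combination this
    refine ⟨s0, ?_⟩
    rw [s0, zero_smul, zero_add] at hst
    exact (smul_eq_zero.1 hst).resolve_right hp10
  obtain ⟨P, hP⟩ : ∃ P : Fin 5 → K, P = ![1, x.re, x.im, y.re, y.im] := ⟨_, rfl⟩
  rw [← hP] at hlin
  have hPx : (⟨P 1, P 2⟩ : QA A B K) = x := by rw [hP]; rfl
  have hPy : (⟨P 3, P 4⟩ : QA A B K) = y := by rw [hP]; rfl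
  have hP1 : (⟨P 0, 0⟩ : QA A B K) = 1 := by rw [hP]; rfl
  obtain ⟨hM₁, hM₂⟩ := (eq_iff a β P).1 (by rw [hPx, hPy, hP1, one_pow, mul_one]; exact hxy)
  refine core2 (Mre a β) (Mim a β) hUB hYL hK P hlin hM₁ hM₂ ?_ p₀ p₁ hli c₁ c₂ (-ν) τ hc
    v00 v01 hc₁.symm v00' v01' hc₂.symm ?_
  · rw [eq_top_iff, ← htop]
    apply IntermediateField.adjoin.mono
    intro z hz
    have hP0' : P 0 = 1 := by rw [hP]; rfl
    simp only [Set.mem_insert_iff, Set.mem_singleton_iff] at hz
    rcases hz with rfl | rfl | rfl | rfl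
    · exact ⟨1, 0, by rw [hP0', hP, div_one]; rfl⟩
    · exact ⟨2, 0, by rw [hP0', hP, div_one]; rfl⟩
    · exact ⟨3, 0, by rw [hP0', hP, div_one]; rfl⟩
    · exact ⟨4, 0, by rw [hP0', hP, div_one]; rfl⟩
  · obtain ⟨Q, hQ⟩ : ∃ Q : Fin 5 → Fin 5 → F,
      Q = fun i j => c₂ * (Mre a β) i j - c₁ * (Mim a β) i j := ⟨_, rfl⟩
    rw [← hQ]
    intro hN
    obtain ⟨l₀, hl₀⟩ : ∃ l, l = Step.S Q (fun i => algebraMap F K (p₀ i)) P := ⟨_, rfl⟩
    obtain ⟨l₁, hl₁⟩ : ∃ l, l = Step.S Q (fun i => algebraMap F K (p₁ i)) P := ⟨_, rfl⟩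
    rw [← hl₀, ← hl₁, map_neg] at hN
    by_cases h1 : l₁ = 0
    · have h0 : l₀ = 0 := by
        rw [h1] at hN
        have : l₀ ^ 2 = 0 := by linear_combination hN
        exact pow_eq_zero_iff (two_ne_zero) |>.1 this
      have hz : ∀ u : Fin 5 → F, Step.S Q (fun i => algebraMap F K (u i)) P = 0 →
          ∀ i, Step.S Q u (Pi.single i 1) = 0 := by
        intro u hu
        rw [S_sum] at hu
        simp only [S_single] at hu
        by_contra hcon
        push Not at hcon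
        obtain ⟨i, hi⟩ := hcon
        refine hlin (fun i => Step.S Q u (Pi.single i 1)) ?_ hu
        intro h
        exact hi (congrFun h i)
      have hz0 := hz p₀ (by rw [← hl₀, h0])
      have hz1 := hz p₁ (by rw [← hl₁, h1])
      have hzp : ∀ w : Fin 5 → κ, Step.S Q p w = 0 := by
        intro w
        rw [hpe, S_add_left, S_smul_left, S_sum, S_sum Q _ w]
        have e0 : ∀ i, Step.S Q (fun i => algebraMap F κ (p₀ i)) (Pi.single i 1) = 0 :=
          fun i => by rw [S_single, hz0 i, map_zero]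
        have e1 : ∀ i, Step.S Q (fun i => algebraMap F κ (p₁ i)) (Pi.single i 1) = 0 :=
          fun i => by rw [S_single, hz1 i, map_zero]
        simp only [e0, e1]
        simp
      -- the gradient of the conic is not zero
      have hgr : ∀ V W : QA A B κ,
          algebraMap F κ c₂ * ((2 * X + Y) * V + (X + 2 * qa κ a * Y) * W).re =
          algebraMap F κ c₁ * ((2 * X + Y) * V + (X + 2 * qa κ a * Y) * W).im := by
        intro V W
        have h2 := hzp ![0, V.re, V.im, W.re, W.im]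
        obtain ⟨e1, e2⟩ := S_eq a β p V W
        rw [hQ, S_comb, e1, e2, hX, hY] at h2
        exact sub_eq_zero.1 h2
      have hsurj : ∀ T : QA A B κ, algebraMap F κ c₂ * T.re = algebraMap F κ c₁ * T.im := by
        intro T
        by_cases g1 : 2 * X + Y = 0
        · by_cases g2 : X + 2 * qa κ a * Y = 0
          · exfalso
            have h4κ : 1 - 4 * qa κ a ≠ 0 := by
              rw [← qa_four]
              exact qa_ne h4
            have hX0 : X = 0 := by
              have : (1 - 4 * qa κ a) * X = 0 := by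
                linear_combination g2 - 2 * qa κ a * g1
              exact (mul_eq_zero.1 this).resolve_left h4κ
            have hY0 : Y = 0 := by
              rw [hX0] at g1
              linear_combination g1
            rw [hX0, hY0] at hXY
            apply qa_ne (R := κ) hβ
            rw [← hXY]; ring
          · have h2 := hgr 0 ((X + 2 * qa κ a * Y)⁻¹ * T)
            rwa [mul_zero, zero_add, ← mul_assoc, mul_inv_cancel₀ g2, one_mul] at h2
        · have h2 := hgr ((2 * X + Y)⁻¹ * T) 0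
          rwa [mul_zero, add_zero, ← mul_assoc, mul_inv_cancel₀ g1, one_mul] at h2
      apply hc
      constructor
      · have h2 := hsurj ⟨0, 1⟩
        simp only [mul_zero, mul_one] at h2
        exact (map_eq_zero _).1 h2.symm
      · have h2 := hsurj ⟨1, 0⟩
        simp only [mul_zero, mul_one] at h2
        exact (map_eq_zero _).1 h2
    · have hr2 : (-l₀ / l₁) ^ 2 - algebraMap F K τ * (-l₀ / l₁) + algebraMap F K ν = 0 := by
        field_simp
        linear_combination hN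
      have halg : IsAlgebraic F (-l₀ / l₁) := by
        refine ⟨Polynomial.C 1 * Polynomial.X ^ 2 + Polynomial.C (-τ) * Polynomial.X +
          Polynomial.C ν, ?_, ?_⟩
        · intro h1
          have := congrArg (fun p => Polynomial.coeff p 2) h1
          simp at this
        · simp only [map_add, map_mul, map_pow, Polynomial.aeval_C, Polynomial.aeval_X, map_one,
            map_neg]
          linear_combination hr2
      obtain ⟨r, hr'⟩ := hK.2 _ halg
      rw [← hr'] at hr2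
      apply hirr r
      apply (algebraMap F K).injective
      rw [map_zero]
      simp only [map_add, map_sub, map_mul, map_pow]
      exact hr2

/-- Linear independence over `F` of the coordinates from linear independence over `F[ω]` of
`1, x, y` and the conjugates. -/
theorem lin_of {K : Type u} [Field K] [Algebra F K] (x y : QA A B K)
    (h : ∀ c₀ c₁ c₂ c₃ c₄ : QA A B F, qa K c₀ + qa K c₁ * x + qa K c₂ * y + qa K c₃ * star x +
      qa K c₄ * star y = 0 → c₁ = 0 ∧ c₂ = 0 ∧ c₃ = 0 ∧ c₄ = 0)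
    (e : Fin 5 → F) (he : e ≠ 0) :
    ∑ i, algebraMap F K (e i) * (![1, x.re, x.im, y.re, y.im] : Fin 5 → K) i ≠ 0 := by
  intro h0
  have h1 : algebraMap F K (e 0) + algebraMap F K (e 1) * x.re + algebraMap F K (e 2) * x.im +
      algebraMap F K (e 3) * y.re + algebraMap F K (e 4) * y.im = 0 := by
    rw [Fin.sum_univ_five] at h0
    simpa using h0
  obtain ⟨_, _, h3, h4⟩ := h ⟨-B * e 0, 2 * e 0⟩ ⟨e 2 - e 1 * B, e 1⟩ ⟨e 4 - e 3 * B, e 3⟩
    ⟨-e 2, e 1⟩ ⟨-e 4, e 3⟩ (by
      rw [QuadraticAlgebra.ext_iff]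
      simp only [qa, QuadraticAlgebra.re_add, QuadraticAlgebra.im_add, QuadraticAlgebra.re_mul,
        QuadraticAlgebra.im_mul, QuadraticAlgebra.re_star, QuadraticAlgebra.im_star,
        QuadraticAlgebra.re_zero, QuadraticAlgebra.im_zero, map_mul, map_neg, map_sub,
        map_ofNat (algebraMap F K) 2]
      constructor
      · linear_combination -(algebraMap F K B) * h1
      · linear_combination 2 * h1)
  rw [QuadraticAlgebra.ext_iff] at h3 h4
  have e1 : e 1 = 0 := h3.2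
  have e2 : e 2 = 0 := neg_eq_zero.1 h3.1
  have e3 : e 3 = 0 := h4.2
  have e4 : e 4 = 0 := neg_eq_zero.1 h4.1
  rw [e1, e2, e3, e4] at h1
  simp only [map_zero, zero_mul, add_zero] at h1
  apply he
  funext i
  fin_cases i
  · exact (map_eq_zero _).1 h1
  · exact e1
  · exact e2
  · exact e3
  · exact e4

end

end Pool.Agent.Helper95K9.IR.EightBU2
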