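import Pool.Agent.Helper95K9.IR.Stm

/-!
Degree of irrationality of del Pezzo surfaces (MP_577596_ag): the assembly.
-/

set_option autoImplicit false

namespace Pool.Agent.Helper95K9.IR

open MvPolynomial

universe u

/-! ### The value of the minimum -/

section

variable {F K : Type u} [Field F] [Field K] [Algebra F K]

theorem irr_eq {m : ℕ} (hU : ∃ n, n ≤ m ∧ HasDeg F K n) (hL : ∀ n, HasDeg F K n → m ≤ n) :
    irr F K = m := by
  obtain ⟨n, hn, h⟩ := hU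
  have h1 : n = m := le_antisymm hn (hL n h)
  subst h1
  apply le_antisymm
  · exact Nat.sInf_le h
  · apply le_csInf ⟨n, h⟩
    intro k hk
    exact hL k hk

theorem hasDeg_one : HasDeg F K 1 ↔ Rational F K := by
  constructor
  · rintro ⟨_, s, t, h1, h2⟩
    refine ⟨s, t, h1, ?_⟩
    rw [IntermediateField.finrank_eq_one_iff_eq_top] at h2
    exact h2
  · rintro ⟨s, t, h1, h2⟩
    refine ⟨one_pos, s, t, h1, ?_⟩
    rw [IntermediateField.finrank_eq_one_iff_eq_top]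
    exact h2

theorem irr_one (h : Rational F K) : irr F K = 1 :=
  irr_eq ⟨1, le_refl _, hasDeg_one.2 h⟩ fun _ hn => hn.1

theorem two_le (h : ¬ Rational F K) {n : ℕ} (hn : HasDeg F K n) : 2 ≤ n := by
  have h0 := hn.1
  by_contra h2
  have : n = 1 := by omega
  subst this
  exact h (hasDeg_one.1 hn)

end

/-- Degrees one and two. -/
theorem main2 (hU : S_2U.{u}) (F K : Type u) [Field F] [Field K] [Algebra F K]
    (a b : MvPolynomial (Fin 3) F) (ha : a.IsHomogeneous 2) (hb : b.IsHomogeneous 4)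
    (hK : IsFF2 a b K) :
    (Rational F K → irr F K = 1) ∧ (¬ Rational F K → irr F K = 2) :=
  ⟨irr_one, fun h => irr_eq (hU F K a b ha hb hK) fun _ => two_le h⟩

theorem main1 (hU : S_1U.{u}) (F K : Type u) [Field F] [Field K] [Algebra F K]
    (a₁ a₂ a₃ a₄ a₆ : MvPolynomial (Fin 2) F) (h₁ : a₁.IsHomogeneous 1) (h₂ : a₂.IsHomogeneous 2)
    (h₃ : a₃.IsHomogeneous 3) (h₄ : a₄.IsHomogeneous 4) (h₆ : a₆.IsHomogeneous 6)
    (hK : IsFF1 a₁ a₂ a₃ a₄ a₆ K) :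
    (Rational F K → irr F K = 1) ∧ (¬ Rational F K → irr F K = 2) :=
  ⟨irr_one, fun h => irr_eq (hU F K _ _ _ _ _ h₁ h₂ h₃ h₄ h₆ hK) fun _ => two_le h⟩

theorem aeval_self' {F : Type u} [Field F] {N : ℕ} (p : Fin N → F) (g : MvPolynomial (Fin N) F) :
    aeval p g = eval p g := by
  rw [← coe_aeval_eq_eval]
  rfl

/-- Degree three. -/
theorem main3 (h3 : S_3U3.{u}) (h2 : S_3U2.{u}) (hL : S_3L.{u}) (F K : Type u) [Field F]
    [Field K] [Algebra F K] (f : Fin 1 → MvPolynomial (Fin 4) F)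
    (hf : ∀ j, (f j).IsHomogeneous 3) (hs : SmoothCI f) (hK : IsFF f K) :
    (Rational F K → irr F K = 1) ∧ (¬ Rational F K → HasPt f F → irr F K = 2) ∧
      (¬ HasPt f F → irr F K = 3) := by
  refine ⟨irr_one, fun h hp => irr_eq (h2 F K f hf hs hK hp) fun _ => two_le h, fun hp => ?_⟩
  refine irr_eq (h3 F K f hf hK hp) fun n hn => ?_
  by_contra hlt
  apply hp
  obtain ⟨_, P, hP0, hP, _⟩ := hK
  obtain ⟨p, hp0, hp1⟩ := hL F K 4 (f 0) (hf 0)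
    ⟨P, hP0, (hP 3 (f 0) (hf 0)).2 (Ideal.subset_span ⟨0, rfl⟩)⟩ n hn (by omega)
  refine ⟨p, hp0, fun j => ?_⟩
  have : j = 0 := Subsingleton.elim _ _
  rw [this, aeval_self', hp1]

/-- Degree four. -/
theorem main4 (h4 : S_4U4.{u}) (h2 : S_4U2.{u}) (hL : S_4L.{u}) (F K : Type u) [Field F]
    [Field K] [Algebra F K] (f : Fin 2 → MvPolynomial (Fin 5) F)
    (hf : ∀ j, (f j).IsHomogeneous 2) (hs : SmoothCI f) (hK : IsFF f K) :
    (Rational F K → irr F K = 1) ∧ (¬ Rational F K → HasPt2 f → irr F K = 2) ∧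
      (¬ HasPt2 f → irr F K = 4) := by
  refine ⟨irr_one, fun h hp => irr_eq (h2 F K f hf hs hK hp) fun _ => two_le h, fun hp => ?_⟩
  refine irr_eq (h4 F K f hf hK hp) fun n hn => ?_
  by_contra hlt
  exact hp (hL F K f hf hK n hn (by omega))

/-- Degree eight, products of two conics. -/
theorem main8a (h4 : S_8aU4.{u}) (h2 : S_8aU2.{u}) (hL : S_8aL.{u}) (hL1 : S_8aL1.{u})
    (hR : S_R8a.{u}) (F K : Type u) [Field F] [Field K] [Algebra F K] (a β a' β' : F)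
    (h1 : 1 - 4 * a ≠ 0) (hβ : β ≠ 0) (h1' : 1 - 4 * a' ≠ 0) (hβ' : β' ≠ 0)
    (hK : IsFF8a a β a' β' K) :
    (ConicPt a β F ∧ ConicPt a' β' F → irr F K = 1) ∧
    (¬ (ConicPt a β F ∧ ConicPt a' β' F) → HasPt8a a β a' β' → irr F K = 2) ∧
    (¬ HasPt8a a β a' β' → irr F K = 4) := by
  refine ⟨fun h => irr_one (hR F K a β a' β' h1 hβ h1' hβ' hK h.1 h.2), fun h hp => ?_,
    fun hp => ?_⟩
  · refine irr_eq (h2 F K a β a' β' h1 hβ h1' hβ' hK hp) fun _ hn => ?_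
    apply two_le _ hn
    intro hr
    exact h (hL1 F K a β a' β' hK (hasDeg_one.2 hr))
  · refine irr_eq (h4 F K a β a' β' hK) fun n hn => ?_
    by_contra hlt
    exact hp (hL F K a β a' β' hK n hn (by omega))

/-- Degree eight, Weil restrictions of conics. -/
theorem main8b (h4 : S_8bU4.{u}) (h2 : S_8bU2.{u}) (hL : S_8bL.{u}) (hL1 : S_8bL1.{u})
    (hR : S_R8b.{u}) (F K : Type u) [Field F] [Field K] [Algebra F K] (A B : F)
    (a β : QA A B F) (hD : B ^ 2 + 4 * A ≠ 0) (hr : ∀ r : F, r ^ 2 ≠ A + B * r)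
    (h1 : IsUnit (1 - 4 * a)) (hβ : IsUnit β) (hK : IsFF8b a β K) :
    (WPt a β F → irr F K = 1) ∧ (¬ WPt a β F → HasPt8b a β → irr F K = 2) ∧
      (¬ HasPt8b a β → irr F K = 4) := by
  refine ⟨fun h => irr_one (hR F K A B a β hD hr h1 hβ hK h), fun h hp => ?_, fun hp => ?_⟩
  · refine irr_eq (h2 F K A B a β hD hr h1 hβ hK hp h) fun _ hn => ?_
    apply two_le _ hn
    intro hra
    exact h (hL1 F K A B a β hD hr hK (hasDeg_one.2 hra))
  · refine irr_eq (h4 F K A B a β hD hK) fun n hn => ?_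
    by_contra hlt
    exact hp (hL F K A B a β hD hr hK n hn (by omega))

/-- Norm surfaces. -/
theorem mainN (hU : S_NU.{u}) (hL : S_NL.{u}) (hR : S_RN.{u}) (F Ω : Type u) [Field F]
    [Field Ω] [Algebra F Ω] (θ : Fin 3 → Ω) (a : F) (K : IntermediateField F Ω)
    (hθ : IsCubic F θ) (ha : a ≠ 0) (hK : IsFFN θ (algebraMap F Ω a) K) :
    ((∃ x : Fin 3 → Ω, InF F x ∧ (∏ i, ev x (θ i)) = algebraMap F Ω a) → irr F K = 1) ∧
    ((¬ ∃ x : Fin 3 → Ω, InF F x ∧ (∏ i, ev x (θ i)) = algebraMap F Ω a) → irr F K = 3) := by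
  refine ⟨fun h => irr_one (hR F Ω θ a K hθ ha hK h), fun h => ?_⟩
  refine irr_eq (hU F Ω θ a K hθ hK) fun n hn => ?_
  by_contra hlt
  exact h (hL F Ω θ a K hθ hK n hn (by omega))

/-- Degree six. -/
theorem main6 (h6 : S_6U6.{u}) (h3 : S_6U3.{u}) (h2 : S_6U2.{u}) (hL2 : S_6L2.{u})
    (hL3 : S_6L3.{u}) (hR : S_R6.{u}) (F Ω : Type u) [Field F] [Field Ω] [Algebra F Ω]
    (θ : Fin 3 → Ω) (ω ω' : Ω) (b : Fin 3 → Ω) (c₀ c₁ : Ω) (K : IntermediateField F Ω)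
    (hD : Is6 F θ ω ω' b c₀ c₁) (hK : IsFF6 θ ω ω' b (c₀ + c₁ * ω) K) :
    (NormL F θ ω ω' b → NormK F θ ω (c₀ + c₁ * ω) → irr F K = 1) ∧
    (¬ NormL F θ ω ω' b → NormK F θ ω (c₀ + c₁ * ω) → irr F K = 2) ∧
    (NormL F θ ω ω' b → ¬ NormK F θ ω (c₀ + c₁ * ω) → irr F K = 3) ∧
    (¬ NormL F θ ω ω' b → ¬ NormK F θ ω (c₀ + c₁ * ω) → irr F K = 6) := by
  have d2 : ¬ NormL F θ ω ω' b → ∀ n, HasDeg F K n → 2 ∣ n := by
    intro h n hn
    by_contra h'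
    exact h (hL2 F Ω θ ω ω' b c₀ c₁ K hD hK n hn h')
  have d3 : ¬ NormK F θ ω (c₀ + c₁ * ω) → ∀ n, HasDeg F K n → 3 ∣ n := by
    intro h n hn
    by_contra h'
    exact h (hL3 F Ω θ ω ω' b c₀ c₁ K hD hK n hn h')
  refine ⟨fun h h' => irr_one (hR F Ω θ ω ω' b c₀ c₁ K hD hK h h'), fun h h' => ?_,
    fun h h' => ?_, fun h h' => ?_⟩
  · exact irr_eq (h2 F Ω θ ω ω' b c₀ c₁ K hD hK h') fun n hn => Nat.le_of_dvd hn.1 (d2 h n hn)
  · exact irr_eq (h3 F Ω θ ω ω' b c₀ c₁ K hD hK h h') fun n hn =>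
      Nat.le_of_dvd hn.1 (d3 h' n hn)
  · refine irr_eq (h6 F Ω θ ω ω' b c₀ c₁ K hD hK) fun n hn => Nat.le_of_dvd hn.1 ?_
    exact Nat.Coprime.mul_dvd_of_dvd_of_dvd (by norm_num) (d2 h n hn) (d3 h' n hn)

end Pool.Agent.Helper95K9.IR
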