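import Pool.Agent.Helper95K9.IR.Nu

/-!
Degree of irrationality of del Pezzo surfaces: norms of base changes.
-/

set_option autoImplicit false
set_option linter.unusedSimpArgs false

namespace Pool.Agent.Helper95K9.IR.Nd

open scoped TensorProduct

universe u

section Norm

variable {E K : Type u} [Field E] [Field K] [Algebra E K] {ι : Type} [Fintype ι] [DecidableEq ι]
  (b : Module.Basis ι E K)

/-- The norm of the base change. -/
noncomputable def Nm (R : Type u) [CommRing R] [Algebra E R] (z : R ⊗[E] K) : R :=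
  (Algebra.leftMulMatrix (b.baseChange R) z).det

theorem Nm_mul (R : Type u) [CommRing R] [Algebra E R] (z w : R ⊗[E] K) :
    Nm b R (z * w) = Nm b R z * Nm b R w := by
  unfold Nm
  rw [map_mul, Matrix.det_mul]

theorem Nm_base (R : Type u) [CommRing R] [Algebra E R] (r : R) :
    Nm b R (r ⊗ₜ (1 : K)) = r ^ (Fintype.card ι) := by
  unfold Nm
  have h : (r ⊗ₜ (1 : K) : R ⊗[E] K) = algebraMap R (R ⊗[E] K) r := by
    rw [Algebra.TensorProduct.algebraMap_apply]
    simp
  rw [h, AlgHom.commutes, Matrix.algebraMap_eq_diagonal, Matrix.det_diagonal]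
  simp

theorem Nm_map {R S : Type u} [CommRing R] [Algebra E R] [CommRing S] [Algebra E S]
    (f : R →ₐ[E] S) (z : R ⊗[E] K) :
    Nm b S (Algebra.TensorProduct.map f (AlgHom.id E K) z) = f (Nm b R z) := by
  unfold Nm
  have h : Algebra.leftMulMatrix (b.baseChange S) (Algebra.TensorProduct.map f (AlgHom.id E K) z) =
      (f : R →+* S).mapMatrix (Algebra.leftMulMatrix (b.baseChange R) z) := by
    induction z using TensorProduct.induction_on with
    | zero => simp
    | tmul r a =>
      ext i j
      simp only [Algebra.TensorProduct.map_tmul, AlgHom.coe_id, id_eq,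
        Algebra.leftMulMatrix_eq_repr_mul, RingHom.mapMatrix_apply, Matrix.map_apply]
      simp [Module.Basis.baseChange_apply, Module.Basis.baseChange_repr_tmul]
    | add z w hz hw =>
      rw [map_add, map_add, map_add, map_add, hz, hw]
  rw [h, ← RingHom.map_det]
  rfl

end Norm

section Phi

variable {F E K k Ω : Type u} [Field F] [Field E] [Field K] [Field k] [Field Ω]
  [Algebra F E] [Algebra F K] [Algebra F Ω] [Algebra E K] [Algebra E Ω] [Algebra K Ω]
  [IsScalarTower F E K] [IsScalarTower F E Ω] [IsScalarTower E K Ω] [IsScalarTower F K Ω]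

/-- `K[T] → Ω ⊗ K`, `T ↦ t ⊗ 1`. -/
noncomputable def Phi (E : Type u) {K Ω : Type u} [Field E] [Field K] [Field Ω]
    [Algebra E K] [Algebra E Ω] (t : Ω) : Polynomial K →+* Ω ⊗[E] K :=
  Polynomial.eval₂RingHom (Algebra.TensorProduct.includeRight : K →ₐ[E] Ω ⊗[E] K).toRingHom
    (t ⊗ₜ 1)

theorem Phi_C (t : Ω) (a : K) : Phi E t (Polynomial.C a) = (1 : Ω) ⊗ₜ[E] a := by
  unfold Phi
  simp

theorem Phi_X (t : Ω) : Phi E t (Polynomial.X : Polynomial K) = t ⊗ₜ[E] (1 : K) := by
  unfold Phi
  simp

include F in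
theorem Phi_CF (t : Ω) (a : F) : Phi E t (Polynomial.C (algebraMap F K a)) =
    (algebraMap F Ω a) ⊗ₜ[E] (1 : K) := by
  rw [Phi_C, IsScalarTower.algebraMap_apply F E K, IsScalarTower.algebraMap_apply F E Ω,
    Algebra.algebraMap_eq_smul_one, Algebra.algebraMap_eq_smul_one (A := Ω),
    TensorProduct.tmul_smul, TensorProduct.smul_tmul']

/-- A polynomial which vanishes at all conjugates of `t` is mapped to zero. -/
theorem Phi_zero {n : ℕ} (τ : Fin n → Ω) (hτ : Function.Injective τ) (q : Polynomial F)
    (hq : q.map (algebraMap F Ω) = ∏ i, (Polynomial.X - Polynomial.C (τ i)))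
    (P : Polynomial K) (hP : ∀ i, Polynomial.aeval (τ i) P = 0) (i : Fin n) :
    Phi E (τ i) P = 0 := by
  have hmon : q.Monic := by
    have h1 : (q.map (algebraMap F Ω)).Monic := by
      rw [hq]
      exact Polynomial.monic_prod_of_monic _ _ (fun i _ => Polynomial.monic_X_sub_C _)
    exact Polynomial.monic_of_injective (algebraMap F Ω).injective h1
  have hdvd : q.map (algebraMap F K) ∣ P := by
    rw [← Polynomial.map_dvd_map (algebraMap K Ω) (algebraMap K Ω).injective (hmon.map _),
      Polynomial.map_map, ← IsScalarTower.algebraMap_eq F K Ω, hq]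
    apply Finset.prod_dvd_of_coprime
    · intro a _ b _ hab
      exact Polynomial.pairwise_coprime_X_sub_C hτ hab
    · intro a _
      rw [Polynomial.dvd_iff_isRoot, Polynomial.IsRoot, Polynomial.eval_map_algebraMap]
      exact hP a
  obtain ⟨Q, rfl⟩ := hdvd
  rw [map_mul]
  have h0 : Phi E (τ i) (q.map (algebraMap F K)) = 0 := by
    have h1 : (Phi E (τ i)).comp (Polynomial.mapRingHom (algebraMap F K)) =
        (Algebra.TensorProduct.includeLeft : Ω →ₐ[E] Ω ⊗[E] K).toRingHom.comp
          (Polynomial.eval₂RingHom (algebraMap F Ω) (τ i)) := by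
      apply Polynomial.ringHom_ext
      · intro a
        simp only [RingHom.comp_apply, Polynomial.coe_mapRingHom, Polynomial.map_C,
          Polynomial.coe_eval₂RingHom, Polynomial.eval₂_C]
        rw [Phi_CF]
        rfl
      · simp only [RingHom.comp_apply, Polynomial.coe_mapRingHom, Polynomial.map_X,
          Polynomial.coe_eval₂RingHom, Polynomial.eval₂_X]
        rw [Phi_X]
        rfl
    have h2 := congrArg (fun f => f q) h1
    simp only [RingHom.comp_apply, Polynomial.coe_mapRingHom, Polynomial.coe_eval₂RingHom] at h2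
    rw [h2]
    have h3 : Polynomial.eval₂ (algebraMap F Ω) (τ i) q = 0 := by
      rw [← Polynomial.eval_map, hq, Polynomial.eval_prod]
      exact Finset.prod_eq_zero (Finset.mem_univ i) (by simp)
    rw [h3, map_zero]
  rw [h0, zero_mul]

end Phi

section Mod

variable {E K k Ω : Type u} [Field E] [Field K] [Field k] [Field Ω]
  [Algebra E K] [Algebra E k] [Algebra E Ω] [Algebra k Ω] [IsScalarTower E k Ω]
  {ι : Type} [Fintype ι] [DecidableEq ι] (b : Module.Basis ι E K)

theorem Nm_mod (z : Polynomial k ⊗[E] K) (p : Polynomial k) (hp : p.Monic)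
    (hp1 : p ≠ 1) :
    ∃ r : Polynomial k, r.natDegree < p.natDegree ∧ ∀ w : Ω, Polynomial.aeval w p = 0 →
      Polynomial.aeval w r = Nm b Ω (Algebra.TensorProduct.map
        ((Polynomial.aeval w : Polynomial k →ₐ[k] Ω).restrictScalars E) (AlgHom.id E K) z) := by
  refine ⟨Nm b (Polynomial k) z %ₘ p, Polynomial.natDegree_modByMonic_lt _ hp hp1, ?_⟩
  intro w hw
  rw [Nm_map]
  show _ = Polynomial.aeval w (Nm b (Polynomial k) z)
  conv_rhs => rw [← Polynomial.modByMonic_add_div (Nm b (Polynomial k) z) p]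
  rw [map_add, map_mul, hw, zero_mul, add_zero]

end Mod

end Pool.Agent.Helper95K9.IR.Nd
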