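import Pool.Agent.Helper95K9.IR.Tool

/-!
Degree of irrationality of del Pezzo surfaces: the cubic norm form and small facts on
cubic and quadratic fields.
-/

set_option autoImplicit false
set_option linter.unusedSimpArgs false

namespace Pool.Agent.Helper95K9.IR.Nf

open MvPolynomial

universe u

/-- The norm of `y₀ + y₁ θ + y₂ θ ^ 2` in terms of the elementary symmetric functions. -/
def nf {R : Type*} [CommRing R] (e₁ e₂ e₃ y₀ y₁ y₂ : R) : R :=
  y₀ ^ 3 + e₁ * y₀ ^ 2 * y₁ + (e₁ ^ 2 - 2 * e₂) * y₀ ^ 2 * y₂ + e₂ * y₀ * y₁ ^ 2 +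
    (e₁ * e₂ - 3 * e₃) * y₀ * y₁ * y₂ + (e₂ ^ 2 - 2 * e₁ * e₃) * y₀ * y₂ ^ 2 +
    e₃ * y₁ ^ 3 + e₁ * e₃ * y₁ ^ 2 * y₂ + e₂ * e₃ * y₁ * y₂ ^ 2 + e₃ ^ 2 * y₂ ^ 3

theorem nf_prod {R : Type*} [CommRing R] (t₀ t₁ t₂ y₀ y₁ y₂ : R) :
    (y₀ + y₁ * t₀ + y₂ * t₀ ^ 2) * (y₀ + y₁ * t₁ + y₂ * t₁ ^ 2) * (y₀ + y₁ * t₂ + y₂ * t₂ ^ 2) =
      nf (t₀ + t₁ + t₂) (t₀ * t₁ + t₀ * t₂ + t₁ * t₂) (t₀ * t₁ * t₂) y₀ y₁ y₂ := by
  unfold nf
  ring

theorem nf_map {R S : Type*} [CommRing R] [CommRing S] (f : R →+* S) (e₁ e₂ e₃ y₀ y₁ y₂ : R) :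
    f (nf e₁ e₂ e₃ y₀ y₁ y₂) = nf (f e₁) (f e₂) (f e₃) (f y₀) (f y₁) (f y₂) := by
  unfold nf
  simp only [map_add, map_mul, map_pow, map_sub, map_ofNat]

section Cubic

variable {F Ω : Type u} [Field F] [Field Ω] [Algebra F Ω] {θ : Fin 3 → Ω}

/-- The data of a cubic field. -/
theorem exists_e (h : IsCubic F θ) : ∃ e₁ e₂ e₃ : F,
    algebraMap F Ω e₁ = θ 0 + θ 1 + θ 2 ∧
    algebraMap F Ω e₂ = θ 0 * θ 1 + θ 0 * θ 2 + θ 1 * θ 2 ∧
    algebraMap F Ω e₃ = θ 0 * θ 1 * θ 2 := by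
  obtain ⟨_, g, _, hg⟩ := h
  obtain ⟨s₁, hs₁⟩ : ∃ s, s = θ 0 + θ 1 + θ 2 := ⟨_, rfl⟩
  obtain ⟨s₂, hs₂⟩ : ∃ s, s = θ 0 * θ 1 + θ 0 * θ 2 + θ 1 * θ 2 := ⟨_, rfl⟩
  obtain ⟨s₃, hs₃⟩ : ∃ s, s = θ 0 * θ 1 * θ 2 := ⟨_, rfl⟩
  have hc : ∀ k, algebraMap F Ω (g.coeff k) = (Polynomial.X ^ 3 -
      Polynomial.C s₁ * Polynomial.X ^ 2 +
      Polynomial.C s₂ * Polynomial.X - Polynomial.C s₃).coeff k := by
    intro k
    rw [← Polynomial.coeff_map, hg, Fin.prod_univ_three, hs₁, hs₂, hs₃]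
    congr 1
    simp only [map_add, map_mul]
    ring
  refine ⟨-g.coeff 2, g.coeff 1, -g.coeff 0, ?_, ?_, ?_⟩
  · rw [map_neg, hc 2, ← hs₁]
    simp [Polynomial.coeff_X, Polynomial.coeff_C, Polynomial.coeff_X_pow]
  · rw [hc 1, ← hs₂]
    simp [Polynomial.coeff_X, Polynomial.coeff_C, Polynomial.coeff_X_pow]
  · rw [map_neg, hc 0, ← hs₃]
    simp [Polynomial.coeff_X, Polynomial.coeff_C, Polynomial.coeff_X_pow]

theorem g_monic {g : Polynomial F}
    (hg : g.map (algebraMap F Ω) = ∏ i, (Polynomial.X - Polynomial.C (θ i))) : g.Monic := by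
  have h1 : (g.map (algebraMap F Ω)).Monic := by
    rw [hg]
    exact Polynomial.monic_prod_of_monic _ _ (fun i _ => Polynomial.monic_X_sub_C _)
  exact Polynomial.monic_of_injective (algebraMap F Ω).injective h1

theorem g_degree {g : Polynomial F}
    (hg : g.map (algebraMap F Ω) = ∏ i, (Polynomial.X - Polynomial.C (θ i))) :
    g.natDegree = 3 := by
  rw [← Polynomial.natDegree_map (algebraMap F Ω), hg,
    Polynomial.natDegree_prod_of_monic _ _ (fun i _ => Polynomial.monic_X_sub_C _)]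
  simp

theorem g_root {g : Polynomial F}
    (hg : g.map (algebraMap F Ω) = ∏ i, (Polynomial.X - Polynomial.C (θ i))) (i : Fin 3) :
    Polynomial.aeval (θ i) g = 0 := by
  rw [← Polynomial.eval_map_algebraMap, hg, Polynomial.eval_prod]
  exact Finset.prod_eq_zero (Finset.mem_univ i) (by simp)

theorem minpoly_eq {g : Polynomial F} (hgi : Irreducible g)
    (hg : g.map (algebraMap F Ω) = ∏ i, (Polynomial.X - Polynomial.C (θ i))) (i : Fin 3) :
    minpoly F (θ i) = g :=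
  (minpoly.eq_of_irreducible_of_monic hgi (g_root hg i) (g_monic hg)).symm

theorem integral (h : IsCubic F θ) (i : Fin 3) : IsIntegral F (θ i) := by
  obtain ⟨_, g, _, hg⟩ := h
  exact ⟨g, g_monic hg, by simpa [Polynomial.aeval_def] using g_root hg i⟩

theorem finrank_cubic (h : IsCubic F θ) (i : Fin 3) :
    Module.finrank F (IntermediateField.adjoin F ({θ i} : Set Ω)) = 3 := by
  rw [IntermediateField.adjoin.finrank (integral h i)]
  obtain ⟨_, g, hgi, hg⟩ := h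
  rw [minpoly_eq hgi hg i, g_degree hg]

/-- The elements `1, θ, θ ^ 2` are independent over `F`. -/
theorem ev_eq_zero (h : IsCubic F θ) (y : Fin 3 → F) (i : Fin 3)
    (hy : ev (fun j => algebraMap F Ω (y j)) (θ i) = 0) : y = 0 := by
  obtain ⟨_, g, hgi, hg⟩ := h
  have h1 : Polynomial.aeval (θ i) (Polynomial.C (y 0) + Polynomial.C (y 1) * Polynomial.X +
      Polynomial.C (y 2) * Polynomial.X ^ 2) = 0 := by
    simpa [ev] using hy
  have h2 := minpoly.dvd F (θ i) h1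
  rw [minpoly_eq hgi hg i] at h2
  have h3 : Polynomial.C (y 0) + Polynomial.C (y 1) * Polynomial.X +
      Polynomial.C (y 2) * Polynomial.X ^ 2 = 0 := by
    apply Polynomial.eq_zero_of_dvd_of_natDegree_lt h2
    rw [g_degree hg]
    refine lt_of_le_of_lt (?_ : _ ≤ 2) (by norm_num)
    compute_degree
  funext j
  have h4 : ∀ k, (Polynomial.C (y 0) + Polynomial.C (y 1) * Polynomial.X +
      Polynomial.C (y 2) * Polynomial.X ^ 2).coeff k = 0 := by
    intro k; rw [h3]; simp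
  fin_cases j
  · simpa [Polynomial.coeff_X, Polynomial.coeff_C, Polynomial.coeff_X_pow] using h4 0
  · simpa [Polynomial.coeff_X, Polynomial.coeff_C, Polynomial.coeff_X_pow] using h4 1
  · simpa [Polynomial.coeff_X, Polynomial.coeff_C, Polynomial.coeff_X_pow] using h4 2

theorem mem_cubic (h : IsCubic F θ) (i : Fin 3) (z : Ω)
    (hz : z ∈ IntermediateField.adjoin F ({θ i} : Set Ω)) :
    ∃ y : Fin 3 → F, z = ev (fun j => algebraMap F Ω (y j)) (θ i) := by
  have hint := integral h i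
  obtain ⟨_, g, hgi, hg⟩ := h
  have h1 : z ∈ Algebra.adjoin F ({θ i} : Set Ω) := by
    rw [← IntermediateField.adjoin_simple_toSubalgebra_of_isAlgebraic hint.isAlgebraic]
    exact hz
  rw [Algebra.adjoin_singleton_eq_range_aeval] at h1
  obtain ⟨p, rfl⟩ := h1
  refine ⟨fun j => (p %ₘ g).coeff j, ?_⟩
  have h2 : Polynomial.aeval (θ i) p = Polynomial.aeval (θ i) (p %ₘ g) := by
    conv_lhs => rw [← Polynomial.modByMonic_add_div p g]
    simp [g_root hg i]
  have h3 : (p %ₘ g).natDegree < 3 := by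
    have := Polynomial.natDegree_modByMonic_lt p (g_monic hg) (by
      intro h0; rw [h0] at hgi; exact not_irreducible_one hgi)
    rwa [g_degree hg] at this
  show Polynomial.aeval (θ i) p = _
  rw [h2, Polynomial.aeval_eq_sum_range' h3]
  simp [Finset.sum_range_succ, ev, Algebra.smul_def]

theorem finrank_quad {ω ω' : Ω} (h : IsQuad F ω ω') :
    Module.finrank F (IntermediateField.adjoin F ({ω} : Set Ω)) = 2 ∧ IsIntegral F ω := by
  obtain ⟨_, g, hgi, hg⟩ := h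
  have hm : g.Monic := by
    have h1 : (g.map (algebraMap F Ω)).Monic := by
      rw [hg]
      exact (Polynomial.monic_X_sub_C _).mul (Polynomial.monic_X_sub_C _)
    exact Polynomial.monic_of_injective (algebraMap F Ω).injective h1
  have hd : g.natDegree = 2 := by
    rw [← Polynomial.natDegree_map (algebraMap F Ω), hg,
      (Polynomial.monic_X_sub_C _).natDegree_mul (Polynomial.monic_X_sub_C _)]
    simp
  have hr : Polynomial.aeval ω g = 0 := by
    rw [← Polynomial.eval_map_algebraMap, hg]; simp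
  have hi : IsIntegral F ω := ⟨g, hm, by simpa [Polynomial.aeval_def] using hr⟩
  refine ⟨?_, hi⟩
  rw [IntermediateField.adjoin.finrank hi,
    (minpoly.eq_of_irreducible_of_monic hgi hr hm).symm, hd]

theorem quad_symm {ω ω' : Ω} (h : IsQuad F ω ω') : IsQuad F ω' ω := by
  obtain ⟨h1, g, hgi, hg⟩ := h
  exact ⟨h1.symm, g, hgi, by rw [hg]; ring⟩

/-- The coefficients of the quadratic field. -/
theorem exists_AB {ω ω' : Ω} (h : IsQuad F ω ω') : ∃ A B : F,
    algebraMap F Ω B = ω + ω' ∧ algebraMap F Ω A = - (ω * ω') := by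
  obtain ⟨_, g, _, hg⟩ := h
  obtain ⟨s₁, hs₁⟩ : ∃ s, s = ω + ω' := ⟨_, rfl⟩
  obtain ⟨s₂, hs₂⟩ : ∃ s, s = ω * ω' := ⟨_, rfl⟩
  have hc : ∀ k, algebraMap F Ω (g.coeff k) = (Polynomial.X ^ 2 -
      Polynomial.C s₁ * Polynomial.X + Polynomial.C s₂).coeff k := by
    intro k
    rw [← Polynomial.coeff_map, hg, hs₁, hs₂]
    congr 1
    simp only [map_add, map_mul]
    ring
  refine ⟨-g.coeff 0, -g.coeff 1, ?_, ?_⟩
  · rw [map_neg, hc 1, ← hs₁]
    simp [Polynomial.coeff_X, Polynomial.coeff_C, Polynomial.coeff_X_pow]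
  · rw [map_neg, hc 0, ← hs₂]
    simp [Polynomial.coeff_X, Polynomial.coeff_C, Polynomial.coeff_X_pow]

/-- A quadratic element is not in a cubic field. -/
theorem quad_notMem {ω ω' : Ω} (h : IsCubic F θ) (hq : IsQuad F ω ω') (i : Fin 3) :
    ω ∉ IntermediateField.adjoin F ({θ i} : Set Ω) := by
  intro hm
  have h1 := finrank_cubic h i
  have h2 := (finrank_quad hq).1
  have hle : IntermediateField.adjoin F ({ω} : Set Ω) ≤
      IntermediateField.adjoin F ({θ i} : Set Ω) := by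
    rw [IntermediateField.adjoin_le_iff]
    rintro x rfl
    exact hm
  have h3 : Module.finrank F (IntermediateField.adjoin F ({ω} : Set Ω)) ∣
      Module.finrank F (IntermediateField.adjoin F ({θ i} : Set Ω)) :=
    IntermediateField.finrank_dvd_of_le_right hle
  rw [h1, h2] at h3
  omega

theorem mem_quad {ω ω' : Ω} (hq : IsQuad F ω ω') (z : Ω)
    (hz : z ∈ IntermediateField.adjoin F ({ω} : Set Ω)) :
    ∃ a b : F, z = algebraMap F Ω a + ω * algebraMap F Ω b := by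
  have hint := (finrank_quad hq).2
  obtain ⟨A, B, hB, hA⟩ := exists_AB hq
  have h1 : z ∈ Algebra.adjoin F ({ω} : Set Ω) := by
    rw [← IntermediateField.adjoin_simple_toSubalgebra_of_isAlgebraic hint.isAlgebraic]
    exact hz
  have hsq : ω * ω = algebraMap F Ω A + ω * algebraMap F Ω B := by
    rw [hA, hB]; ring
  clear hz
  induction h1 using Algebra.adjoin_induction with
  | mem x hx =>
    rw [Set.mem_singleton_iff] at hx
    exact ⟨0, 1, by simp [hx]⟩
  | algebraMap r => exact ⟨r, 0, by simp⟩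
  | add x y _ _ hx hy =>
    obtain ⟨a, b, rfl⟩ := hx
    obtain ⟨c, d, rfl⟩ := hy
    exact ⟨a + c, b + d, by simp only [map_add]; ring⟩
  | mul x y _ _ hx hy =>
    obtain ⟨a, b, rfl⟩ := hx
    obtain ⟨c, d, rfl⟩ := hy
    refine ⟨a * c + A * b * d, a * d + b * c + B * b * d, ?_⟩
    simp only [map_add, map_mul]
    linear_combination (algebraMap F Ω b * algebraMap F Ω d) * hsq

end Cubic

end Pool.Agent.Helper95K9.IR.Nf
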