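import Pool.Agent.Helper95K9.IR.Sbl
import Pool.Agent.Helper95K9.IR.Tool

/-!
Degree of irrationality of del Pezzo surfaces: the leaf SBU, part one (algebras of dimension nine
without zero divisors).
-/

set_option autoImplicit false

namespace Pool.Agent.Helper95K9.IR.Sbu

open Polynomial

universe u v

section general
variable {E : Type u} {R : Type v} [Field E] [Ring R] [Algebra E R] [IsDomain R]
  [Module.Finite E R]

/-- Dimensions of subalgebras divide. -/
theorem sub_dvd (S : Subalgebra E R) : Module.finrank E S ∣ Module.finrank E R := by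
  have hfin : Module.Finite E S := inferInstance
  let _ : DivisionRing S := divisionRingOfFiniteDimensional E S
  have h1 := Module.finrank_mul_finrank E S R
  exact ⟨_, h1.symm⟩

/-- Every element has degree at most three. -/
theorem deg_le (h9 : Module.finrank E R = 9) (hnc : ∃ a b : R, a * b ≠ b * a) (z : R) :
    Module.finrank E (Algebra.adjoin E {z}) = 1 ∨ Module.finrank E (Algebra.adjoin E {z}) = 3 := by
  have h1 := sub_dvd (Algebra.adjoin E {z})
  rw [h9] at h1
  have h2 : Module.finrank E (Algebra.adjoin E {z}) ≠ 9 := by
    intro h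
    have h3 : Subalgebra.toSubmodule (Algebra.adjoin E {z}) = ⊤ := by
      apply Submodule.eq_top_of_finrank_eq
      rw [h9]
      exact h
    obtain ⟨a, b, hab⟩ := hnc
    apply hab
    have hmem : ∀ c : R, c ∈ Algebra.adjoin E {z} := by
      intro c
      have : c ∈ Subalgebra.toSubmodule (Algebra.adjoin E {z}) := by rw [h3]; trivial
      exact this
    have hc : ∀ c : R, ∃ q : E[X], aeval z q = c := by
      intro c
      have := hmem c
      rw [Algebra.adjoin_singleton_eq_range_aeval] at this
      exact this
    obtain ⟨p, rfl⟩ := hc a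
    obtain ⟨q, rfl⟩ := hc b
    rw [← map_mul, ← map_mul, mul_comm]
  have h4 : Module.finrank E (Algebra.adjoin E {z}) ∣ 3 ^ 2 := h1
  obtain ⟨k, hk, hk2⟩ := (Nat.dvd_prime_pow Nat.prime_three).1 h4
  interval_cases k
  · left; simpa using hk2
  · right; simpa using hk2
  · exact absurd hk2 h2

/-- A polynomial of degree at most three. -/
theorem exists_poly (h9 : Module.finrank E R = 9) (hnc : ∃ a b : R, a * b ≠ b * a) (z : R) :
    ∃ P : E[X], P ≠ 0 ∧ P.natDegree ≤ 3 ∧ aeval z P = 0 := by
  have hle : Module.finrank E (Algebra.adjoin E {z}) < Fintype.card (Fin 4) := by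
    rw [Fintype.card_fin]
    rcases deg_le h9 hnc z with h | h <;> omega
  have hz : z ∈ Algebra.adjoin E {z} := Algebra.self_mem_adjoin_singleton E z
  have hni : ¬ LinearIndependent E (fun i : Fin 4 => (⟨z, hz⟩ : Algebra.adjoin E {z}) ^ (i : ℕ)) := by
    intro h
    have := h.fintype_card_le_finrank
    omega
  rw [Fintype.not_linearIndependent_iff] at hni
  obtain ⟨g, hg, i, hi⟩ := hni
  refine ⟨∑ j : Fin 4, C (g j) * X ^ (j : ℕ), ?_, ?_, ?_⟩
  · intro h0
    apply hi
    have := congrArg (fun p => Polynomial.coeff p i) h0
    simp only [finsetSum_coeff, coeff_C_mul, coeff_X_pow, coeff_zero] at this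
    rw [Finset.sum_eq_single i] at this
    · simpa using this
    · intro j _ hj
      rw [if_neg, mul_zero]
      intro h
      exact hj (Fin.ext h.symm)
    · intro h
      exact absurd (Finset.mem_univ _) h
  · refine natDegree_sum_le_of_forall_le _ _ ?_
    intro j _
    refine (natDegree_C_mul_X_pow_le _ _).trans ?_
    omega
  · have h1 := congrArg (fun s : Algebra.adjoin E {z} => (s : R)) hg
    simp only [AddSubmonoidClass.coe_finsetSum] at h1
    rw [map_sum]
    simp only [map_mul, map_pow, aeval_C, aeval_X]
    rw [← Subalgebra.coe_zero (Algebra.adjoin E {z}), ← h1]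
    refine Finset.sum_congr rfl fun j _ => ?_
    rw [Subalgebra.coe_smul, Subalgebra.coe_pow, Algebra.smul_def]

/-- The degree of a proper element is three. -/
theorem minpoly_three (h9 : Module.finrank E R = 9) (hnc : ∃ a b : R, a * b ≠ b * a) (z : R)
    (hz : z ∉ (algebraMap E R).range) : (minpoly E z).natDegree = 3 := by
  have hint : IsIntegral E z := IsIntegral.of_finite E z
  apply le_antisymm
  · obtain ⟨P, hP0, hP3, hP⟩ := exists_poly h9 hnc z
    have := minpoly.degree_le_of_ne_zero E z hP0 hP
    exact (natDegree_le_natDegree this).trans hP3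
  · have hle : Module.finrank E (Algebra.adjoin E {z}) ≤ (minpoly E z).natDegree := by
      have h1 : Subalgebra.toSubmodule (Algebra.adjoin E {z}) ≤
          Submodule.span E (Set.range fun i : Fin (minpoly E z).natDegree => z ^ (i : ℕ)) := by
        intro w hw
        have hw' : w ∈ Algebra.adjoin E {z} := hw
        rw [Algebra.adjoin_singleton_eq_range_aeval] at hw'
        obtain ⟨q, rfl⟩ := hw'
        have h2 : aeval z q = aeval z (q %ₘ minpoly E z) := by
          conv_lhs => rw [← modByMonic_add_div q (minpoly E z)]
          rw [map_add, map_mul, minpoly.aeval, zero_mul, add_zero]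
        change aeval z q ∈ _
        rw [h2, aeval_eq_sum_range' (n := (minpoly E z).natDegree)]
        · refine Submodule.sum_mem _ fun i hi => Submodule.smul_mem _ _ ?_
          exact Submodule.subset_span ⟨⟨i, Finset.mem_range.1 hi⟩, rfl⟩
        · apply natDegree_modByMonic_lt _ (minpoly.monic hint)
          intro h1
          have := minpoly.aeval E z
          rw [h1, map_one] at this
          exact one_ne_zero this
      have h2 := Submodule.finrank_mono h1
      refine h2.trans ?_
      refine (finrank_range_le_card _).trans ?_
      rw [Fintype.card_fin]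
    rcases deg_le h9 hnc z with h | h
    · exfalso
      apply hz
      rw [Subalgebra.finrank_eq_one_iff] at h
      have : z ∈ (⊥ : Subalgebra E R) := by
        rw [← h]
        exact Algebra.self_mem_adjoin_singleton E z
      exact this
    · omega

end general

end Pool.Agent.Helper95K9.IR.Sbu
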