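import Pool.Agent.Helper95K9.IR.Sbu1

/-!
Degree of irrationality of del Pezzo surfaces: the leaf SBU, part two (the coordinates of the
generic point).
-/

set_option autoImplicit false

namespace Pool.Agent.Helper95K9.IR.Sbu

open Polynomial TensorProduct

universe u

section cop

/-- An irreducible cubic stays irreducible. -/
theorem coprime {F K : Type u} [Field F] [Field K] [Algebra F K] (p : F[X]) (hp : Irreducible p)
    (h3 : p.natDegree = 3) (hK : ∀ z : K, IsAlgebraic F z → z ∈ (algebraMap F K).range)
    {E : Type u} [Field E] [Algebra F E] [Algebra E K] [IsScalarTower F E K]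
    (q : E[X]) (hq : q ≠ 0) (hd : q.natDegree < 3) : IsCoprime q (p.map (algebraMap F E)) := by
  have h3' : (p.map (algebraMap F E)).natDegree = 3 := by
    rw [natDegree_map]
    exact h3
  have hirr : Irreducible (p.map (algebraMap F E)) := by
    apply irreducible_of_degree_le_three_of_not_isRoot
    · rw [h3']
      decide
    · intro e he
      have h1 : aeval e p = 0 := by
        rw [IsRoot.def, eval_map_algebraMap] at he
        exact he
      have h2 : IsAlgebraic F (algebraMap E K e) := by
        have : IsAlgebraic F e := ⟨p, hp.ne_zero, h1⟩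
        exact this.algebraMap
      obtain ⟨f, hf⟩ := hK _ h2
      rw [IsScalarTower.algebraMap_apply F E K] at hf
      have hf' : algebraMap F E f = e := (algebraMap E K).injective hf
      rw [← hf', aeval_algebraMap_apply, map_eq_zero] at h1
      have h4 := degree_eq_one_of_irreducible_of_root hp (x := f) (by
        rw [IsRoot.def, ← coe_aeval_eq_eval]
        exact h1)
      have h5 : p.natDegree = 1 := natDegree_eq_of_degree_eq_some (by rw [h4]; rfl)
      omega
  rw [isCoprime_comm, hirr.coprime_iff_not_dvd]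
  intro h
  have := natDegree_le_of_dvd h hq
  omega

end cop

section form
variable {F D K : Type u} [Field F] [DivisionRing D] [Algebra F D] [Field K] [Algebra F K]
  (b : Module.Basis (Fin 9) F D)

/-- Dual basis. -/
theorem exists_dual : ∃ bs : Fin 9 → D, ∀ i j, b.coord 0 (b j * bs i) = b.coord i (b j) := by
  have hfin : Module.Finite F D := Module.Finite.of_basis b
  obtain ⟨T, hT⟩ : ∃ T : D →ₗ[F] Module.Dual F D, ∀ d' d, T d' d = b.coord 0 (d * d') :=
    ⟨((LinearMap.mul F D).flip).compr₂ (b.coord 0), fun d' d => rfl⟩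
  have hinj : Function.Injective T := by
    rw [← LinearMap.ker_eq_bot, LinearMap.ker_eq_bot']
    intro d' hd'
    by_contra h0
    have h1 := congrArg (fun f => f (b 0 * d'⁻¹)) hd'
    simp only [hT, LinearMap.zero_apply] at h1
    rw [inv_mul_cancel_right₀ h0] at h1
    simp at h1
  have hsurj : Function.Surjective T := by
    rwa [← LinearMap.injective_iff_surjective_of_finrank_eq_finrank]
    exact Subspace.dual_finrank_eq.symm
  choose bs hbs using fun i => hsurj (b.coord i)
  refine ⟨bs, fun i j => ?_⟩
  rw [← hT, hbs]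

/-- Coordinates by the form. -/
theorem repr_eq (bs : Fin 9 → D) (hbs : ∀ i j, b.coord 0 (b j * bs i) = b.coord i (b j))
    (r : K ⊗[F] D) (i : Fin 9) : (Algebra.TensorProduct.basis K b).repr r i =
      (Algebra.TensorProduct.basis K b).coord 0 (r * ((1 : K) ⊗ₜ[F] bs i)) := by
  have h1 : (Algebra.TensorProduct.basis K b).coord i =
      ((Algebra.TensorProduct.basis K b).coord 0) ∘ₗ
        (LinearMap.mulRight K ((1 : K) ⊗ₜ[F] bs i)) := by
    apply (Algebra.TensorProduct.basis K b).ext
    intro j
    rw [LinearMap.comp_apply, LinearMap.mulRight_apply, Algebra.TensorProduct.basis_apply,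
      Algebra.TensorProduct.tmul_mul_tmul, one_mul, Module.Basis.coord_apply,
      Module.Basis.coord_apply, Algebra.TensorProduct.basis_repr_tmul,
      Algebra.TensorProduct.basis_repr_tmul, one_smul, one_smul, Finsupp.mapRange_apply,
      Finsupp.mapRange_apply, ← Module.Basis.coord_apply, ← Module.Basis.coord_apply, hbs]
  exact congrArg (fun f => f r) h1

/-- The functional given by an element. -/
noncomputable def pi (I : Submodule K (K ⊗[F] D)) : K ⊗[F] D →ₗ[K] Module.Dual K I where
  toFun a := ((Algebra.TensorProduct.basis K b).coord 0) ∘ₗ (LinearMap.mulRight K a) ∘ₗ I.subtype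
  map_add' a a' := by
    ext r
    simp [mul_add]
  map_smul' k a := by
    ext r
    simp

theorem pi_apply (I : Submodule K (K ⊗[F] D)) (a : K ⊗[F] D) (r : I) :
    pi b I a r = (Algebra.TensorProduct.basis K b).coord 0 (r.1 * a) := rfl

variable {b} {I : Submodule K (K ⊗[F] D)} (hI : ∀ x ∈ I, ∀ r : K ⊗[F] D, x * r ∈ I)

include hI in
theorem pi_mul (a a' : K ⊗[F] D) (h : pi b I a = 0) : pi b I (a' * a) = 0 := by
  ext r
  rw [pi_apply, ← mul_assoc]
  have := congrArg (fun f => f ⟨r.1 * a', hI _ r.2 _⟩) h
  exact this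

theorem eq_zero (r : I) (h : ∀ a, pi b I a r = 0) : r = 0 := by
  obtain ⟨bs, hbs⟩ := exists_dual b
  apply Subtype.ext
  apply (Algebra.TensorProduct.basis K b).repr.injective
  ext i
  rw [repr_eq b bs hbs]
  have := h ((1 : K) ⊗ₜ[F] bs i)
  rw [pi_apply] at this
  rw [this]
  simp

include hI in
theorem pi_one (h3 : Module.finrank K I = 3) : pi b I 1 ≠ 0 := by
  intro h
  have h1 : ∀ r : I, r = 0 := by
    intro r
    apply eq_zero r (b := b)
    intro a
    have := pi_mul hI 1 a h
    rw [mul_one] at this
    rw [this]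
    rfl
  have h2 : Subsingleton I := ⟨fun r s => by rw [h1 r, h1 s]⟩
  rw [Module.finrank_zero_of_subsingleton] at h3
  omega

/-- The element with the coordinates `v` in the powers of `x`. -/
noncomputable def g (K : Type u) [Field K] [Algebra F K] (x : D) :
    (Fin 3 → K) →ₗ[K] K ⊗[F] D :=
  Fintype.linearCombination K (fun j : Fin 3 => ((1 : K) ⊗ₜ[F] x) ^ (j : ℕ))

theorem g_apply (x : D) (v : Fin 3 → K) :
    g K x v = ∑ j : Fin 3, v j • ((1 : K) ⊗ₜ[F] x) ^ (j : ℕ) := rfl

/-- The polynomial with the coefficients `v`. -/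
noncomputable def po {E : Type u} [Field E] (v : Fin 3 → E) : E[X] :=
  ∑ j : Fin 3, C (v j) * X ^ (j : ℕ)

theorem po_coeff {E : Type u} [Field E] (v : Fin 3 → E) (i : Fin 3) :
    (po v).coeff (i : ℕ) = v i := by
  unfold po
  simp only [finsetSum_coeff, coeff_C_mul, coeff_X_pow]
  rw [Finset.sum_eq_single i]
  · simp
  · intro j _ hj
    rw [if_neg, mul_zero]
    intro h
    exact hj (Fin.ext h.symm)
  · intro h
    exact absurd (Finset.mem_univ _) h

theorem po_ne {E : Type u} [Field E] (v : Fin 3 → E) (hv : v ≠ 0) : po v ≠ 0 := by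
  intro h
  apply hv
  funext i
  rw [← po_coeff v i, h, coeff_zero]
  rfl

theorem po_deg {E : Type u} [Field E] (v : Fin 3 → E) : (po v).natDegree < 3 := by
  have : (po v).natDegree ≤ 2 := by
    refine natDegree_sum_le_of_forall_le _ _ ?_
    intro j _
    refine (natDegree_C_mul_X_pow_le _ _).trans ?_
    omega
  omega

theorem po_map {E : Type u} [Field E] [Algebra E K] (v : Fin 3 → E) :
    (po v).map (algebraMap E K) = po (fun i => algebraMap E K (v i)) := by
  unfold po
  simp only [Polynomial.map_sum, Polynomial.map_mul, Polynomial.map_pow, map_C, map_X]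

theorem aeval_po (x : D) (v : Fin 3 → K) : aeval ((1 : K) ⊗ₜ[F] x) (po v) = g K x v := by
  unfold po
  rw [map_sum, g_apply]
  refine Finset.sum_congr rfl fun j _ => ?_
  rw [map_mul, map_pow, aeval_C, aeval_X, Algebra.smul_def]

theorem aeval_tmul (x : D) (p : F[X]) :
    aeval ((1 : K) ⊗ₜ[F] x) (p.map (algebraMap F K)) = (1 : K) ⊗ₜ[F] aeval x p := by
  rw [aeval_map_algebraMap]
  exact aeval_algHom_apply (Algebra.TensorProduct.includeRight : D →ₐ[F] K ⊗[F] D) x p

end form

end Pool.Agent.Helper95K9.IR.Sbu
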