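import Pool.Agent.Helper95K9.IR.Sbu2

/-!
Degree of irrationality of del Pezzo surfaces: the leaf SBU, part three (existence of the
coordinates of the generic point).
-/

set_option autoImplicit false

namespace Pool.Agent.Helper95K9.IR.Sbu

open Polynomial TensorProduct

universe u

variable {F D K : Type u} [Field F] [DivisionRing D] [Algebra F D] [Field K] [Algebra F K]

/-- Coordinates of the generic point. -/
structure Dat (x : D) (c : K ⊗[F] D →ₗ[K] (Fin 3 → K)) : Prop where
  cg : ∀ v, c (g K x v) = v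
  left : ∀ a a', c a = 0 → c (a' * a) = 0
  top : ∀ E : IntermediateField F K, (∀ (d : D) (j : Fin 3), c ((1 : K) ⊗ₜ[F] d) j ∈ E) → E = ⊤

/-- Inverses of polynomials in `x`. -/
theorem exists_inv {x : D} (hp : Irreducible (minpoly F x)) (h3 : (minpoly F x).natDegree = 3)
    (hK : ∀ z : K, IsAlgebraic F z → z ∈ (algebraMap F K).range)
    {E : Type u} [Field E] [Algebra F E] [Algebra E K] [IsScalarTower F E K]
    (v : Fin 3 → E) (hv : v ≠ 0) :
    ∃ u : E[X], aeval ((1 : K) ⊗ₜ[F] x) (u.map (algebraMap E K)) *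
      g K x (fun i => algebraMap E K (v i)) = 1 := by
  obtain ⟨u, w, huw⟩ := coprime (minpoly F x) hp h3 hK (po v) (po_ne v hv) (po_deg v)
  refine ⟨u, ?_⟩
  have h1 := congrArg (fun q => aeval ((1 : K) ⊗ₜ[F] x) (q.map (algebraMap E K))) huw
  simp only [Polynomial.map_add, Polynomial.map_mul, Polynomial.map_one, map_add, map_mul,
    map_one] at h1
  rw [po_map, aeval_po, Polynomial.map_map, ← IsScalarTower.algebraMap_eq, aeval_tmul,
    minpoly.aeval, TensorProduct.tmul_zero, mul_zero, add_zero] at h1
  exact h1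

theorem exists_dat (hK : IsFFSB F D K) (h9 : Module.finrank F D = 9) {x : D}
    (hp : Irreducible (minpoly F x)) (h3 : (minpoly F x).natDegree = 3) :
    ∃ c : K ⊗[F] D →ₗ[K] (Fin 3 → K), Dat x c := by
  obtain ⟨hs, I, hI3, hI, hE⟩ := hK
  have hfin : Module.Finite F D := Module.finite_of_finrank_pos (by rw [h9]; norm_num)
  have hfinI : Module.Finite K I := Module.finite_of_finrank_pos (by rw [hI3]; norm_num)
  let b : Module.Basis (Fin 9) F D := Module.finBasisOfFinrankEq F D h9
  have hinj : Function.Injective ((pi b I) ∘ₗ (g K x)) := by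
    rw [← LinearMap.ker_eq_bot, LinearMap.ker_eq_bot']
    intro v hv
    by_contra h0
    obtain ⟨u, hu⟩ := exists_inv hp h3 hs.2 (E := K) v h0
    apply pi_one hI hI3 (b := b)
    rw [← hu]
    exact pi_mul hI _ _ hv
  have hd : Module.finrank K (Fin 3 → K) = Module.finrank K (Module.Dual K I) := by
    rw [Subspace.dual_finrank_eq, hI3]
    simp
  let e := LinearMap.linearEquivOfInjective ((pi b I) ∘ₗ (g K x)) hinj hd
  have he : ∀ v, e v = pi b I (g K x v) := fun v => rfl
  have hc : ∀ a, pi b I a = pi b I (g K x (e.symm (pi b I a))) := by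
    intro a
    rw [← he, LinearEquiv.apply_symm_apply]
  refine ⟨e.symm.toLinearMap ∘ₗ (pi b I), ?_, ?_, ?_⟩
  · intro v
    change e.symm (pi b I (g K x v)) = v
    rw [← he, LinearEquiv.symm_apply_apply]
  · intro a a' h
    change e.symm (pi b I (a' * a)) = 0
    have h1 : e.symm (pi b I a) = 0 := h
    rw [LinearEquiv.map_eq_zero_iff] at h1
    rw [LinearEquiv.map_eq_zero_iff]
    exact pi_mul hI _ _ h1
  · intro E hEc
    have hEc' : ∀ (d : D) (j : Fin 3), e.symm (pi b I ((1 : K) ⊗ₜ[F] d)) j ∈ E := hEc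
    apply hE E
    obtain ⟨bs, hbs⟩ := exists_dual b
    obtain ⟨Φ, hΦ⟩ : ∃ Φ : I →ₗ[K] (Fin 3 → K), ∀ r j, Φ r j =
        pi b I (((1 : K) ⊗ₜ[F] x) ^ (j : ℕ)) r :=
      ⟨LinearMap.pi fun j => pi b I (((1 : K) ⊗ₜ[F] x) ^ (j : ℕ)), fun r j => rfl⟩
    have hexp : ∀ (a : K ⊗[F] D) (r : I), pi b I a r = ∑ j, e.symm (pi b I a) j * Φ r j := by
      intro a r
      have h1 : pi b I a r = pi b I (g K x (e.symm (pi b I a))) r :=
        congrArg (fun f => f r) (hc a)
      rw [h1, g_apply, map_sum, LinearMap.sum_apply]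
      refine Finset.sum_congr rfl fun j _ => ?_
      rw [map_smul, LinearMap.smul_apply, smul_eq_mul, hΦ]
    have hΦi : Function.Injective Φ := by
      rw [← LinearMap.ker_eq_bot, LinearMap.ker_eq_bot']
      intro r hr
      apply eq_zero r (b := b)
      intro a
      rw [hexp, hr]
      simp
    have hΦs : Function.Surjective Φ := by
      rwa [← LinearMap.injective_iff_surjective_of_finrank_eq_finrank]
      rw [hI3]
      simp
    choose r hr using fun j : Fin 3 => hΦs (Pi.single j 1)
    have hrE : ∀ j, ((r j : I) : K ⊗[F] D) ∈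
        Set.range (Algebra.TensorProduct.map E.val (AlgHom.id F D)) := by
      intro j
      have h1 : ∀ k, (Algebra.TensorProduct.basis K b).repr (r j : K ⊗[F] D) k ∈ E := by
        intro k
        rw [repr_eq b bs hbs]
        have h2 := hexp ((1 : K) ⊗ₜ[F] bs k) (r j)
        rw [pi_apply, hr] at h2
        rw [h2, Finset.sum_eq_single j]
        · rw [Pi.single_eq_same, mul_one]
          exact hEc' _ _
        · intro i _ hij
          rw [Pi.single_eq_of_ne hij, mul_zero]
        · intro h
          exact absurd (Finset.mem_univ _) h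
      refine ⟨∑ k, (⟨_, h1 k⟩ : E) ⊗ₜ[F] b k, ?_⟩
      rw [map_sum]
      conv_rhs => rw [← (Algebra.TensorProduct.basis K b).sum_repr (r j : K ⊗[F] D)]
      refine Finset.sum_congr rfl fun k _ => ?_
      rw [Algebra.TensorProduct.map_tmul, Algebra.TensorProduct.basis_apply,
        TensorProduct.smul_tmul', smul_eq_mul, mul_one]
      rfl
    apply le_antisymm
    · intro a ha
      have h1 : (⟨a, ha⟩ : I) = ∑ j, Φ ⟨a, ha⟩ j • r j := by
        apply hΦi
        rw [map_sum]
        funext i
        rw [Finset.sum_apply, Finset.sum_eq_single i]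
        · rw [map_smul, hr, Pi.smul_apply, Pi.single_eq_same, smul_eq_mul, mul_one]
        · intro j _ hj
          rw [map_smul, hr, Pi.smul_apply, Pi.single_eq_of_ne hj.symm, smul_zero]
        · intro h
          exact absurd (Finset.mem_univ _) h
      have h2 := congrArg (fun s : I => (s : K ⊗[F] D)) h1
      simp only [AddSubmonoidClass.coe_finsetSum, Submodule.coe_smul] at h2
      rw [h2]
      refine Submodule.sum_mem _ fun j _ => Submodule.smul_mem _ _ ?_
      exact Submodule.subset_span ⟨(r j).2, hrE j⟩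
    · rw [Submodule.span_le]
      rintro a ⟨ha, -⟩
      exact ha

end Pool.Agent.Helper95K9.IR.Sbu
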