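import Pool.Agent.Helper95K9.IR.Sbu3

/-!
Degree of irrationality of del Pezzo surfaces: the leaf SBU, part four (one element gives the
generic point).
-/

set_option autoImplicit false

namespace Pool.Agent.Helper95K9.IR.Sbu

open Polynomial TensorProduct

universe u

variable {F D K : Type u} [Field F] [DivisionRing D] [Algebra F D] [Field K] [Algebra F K]

/-- Elements with coordinates in `E`. -/
def Mem (c : K ⊗[F] D →ₗ[K] (Fin 3 → K)) (E : IntermediateField F K) (a : K ⊗[F] D) : Prop :=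
  ∀ j, c a j ∈ E

section mem
variable {x : D} {c : K ⊗[F] D →ₗ[K] (Fin 3 → K)} {E : IntermediateField F K}

theorem Mem.add {a a' : K ⊗[F] D} (h : Mem c E a) (h' : Mem c E a') : Mem c E (a + a') := by
  intro j
  rw [map_add]
  exact add_mem (h j) (h' j)

theorem Mem.sub {a a' : K ⊗[F] D} (h : Mem c E a) (h' : Mem c E a') : Mem c E (a - a') := by
  intro j
  rw [map_sub]
  exact sub_mem (h j) (h' j)

theorem Mem.smul {a : K ⊗[F] D} (h : Mem c E a) {k : K} (hk : k ∈ E) : Mem c E (k • a) := by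
  intro j
  rw [map_smul]
  exact mul_mem hk (h j)

theorem Mem.ker {a : K ⊗[F] D} (h : c a = 0) : Mem c E a := by
  intro j
  rw [h]
  exact zero_mem E

theorem Dat.sub (hd : Dat x c) (a : K ⊗[F] D) : c (a - g K x (c a)) = 0 := by
  rw [map_sub, hd.cg, sub_self]

theorem g_single (x : D) (j : Fin 3) :
    g K x (Pi.single j 1) = ((1 : K) ⊗ₜ[F] x) ^ (j : ℕ) := by
  rw [g_apply, Finset.sum_eq_single j]
  · rw [Pi.single_eq_same, one_smul]
  · intro i _ hi
    rw [Pi.single_eq_of_ne hi, zero_smul]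
  · intro h
    exact absurd (Finset.mem_univ _) h

theorem Dat.not_unit (hd : Dat x c) (a u : K ⊗[F] D) (h : u * a = 1) : c a ≠ 0 := by
  intro h0
  have h1 := hd.left a u h0
  have h2 : g K x (Pi.single 0 1) = (1 : K ⊗[F] D) := by
    rw [g_single]
    exact pow_zero _
  rw [h, ← h2, hd.cg] at h1
  have := congrFun h1 0
  rw [Pi.single_eq_same] at this
  exact one_ne_zero this

theorem pow_tmul (x : D) (n : ℕ) : ((1 : K) ⊗ₜ[F] x) ^ n = (1 : K) ⊗ₜ[F] (x ^ n) := by
  rw [Algebra.TensorProduct.tmul_pow, one_pow]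

theorem mem_pow (hd : Dat x c) (h3 : (minpoly F x).natDegree = 3) (hx : IsIntegral F x)
    (n : ℕ) (hn : n ≤ 3) : Mem c E (((1 : K) ⊗ₜ[F] x) ^ n) := by
  by_cases h : n < 3
  · have h1 := hd.cg (Pi.single ⟨n, h⟩ 1)
    rw [g_single] at h1
    intro j
    change c (((1 : K) ⊗ₜ[F] x) ^ ((⟨n, h⟩ : Fin 3) : ℕ)) j ∈ E
    rw [h1]
    by_cases hj : j = ⟨n, h⟩
    · rw [hj, Pi.single_eq_same]
      exact one_mem E
    · rw [Pi.single_eq_of_ne hj]
      exact zero_mem E
  · have hn3 : n = 3 := by omega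
    subst hn3
    have h1 := minpoly.aeval F x
    rw [aeval_eq_sum_range, h3, Finset.sum_range_succ] at h1
    have h2 : (minpoly F x).coeff 3 = 1 := by
      have := minpoly.monic hx
      rw [Monic, leadingCoeff, h3] at this
      exact this
    rw [h2, one_smul, Finset.sum_range] at h1
    have h4 : ((1 : K) ⊗ₜ[F] x) ^ 3 = g K x (fun j => -algebraMap F K ((minpoly F x).coeff j)) := by
      rw [pow_tmul, eq_neg_of_add_eq_zero_right h1, g_apply, TensorProduct.tmul_neg,
        TensorProduct.tmul_sum, ← Finset.sum_neg_distrib]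
      refine Finset.sum_congr rfl fun j _ => ?_
      rw [neg_smul, pow_tmul, TensorProduct.tmul_smul, algebraMap_smul]
    rw [h4]
    intro j
    rw [hd.cg]
    exact neg_mem (E.algebraMap_mem _)

theorem Mem.mulX (hd : Dat x c) (h3 : (minpoly F x).natDegree = 3) (hx : IsIntegral F x)
    {a : K ⊗[F] D} (h : Mem c E a) : Mem c E (((1 : K) ⊗ₜ[F] x) * a) := by
  have h1 : c (((1 : K) ⊗ₜ[F] x) * a) = c (((1 : K) ⊗ₜ[F] x) * g K x (c a)) := by
    have := hd.left _ ((1 : K) ⊗ₜ[F] x) (hd.sub a)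
    rw [mul_sub, map_sub] at this
    exact sub_eq_zero.1 this
  have h2 : Mem c E (((1 : K) ⊗ₜ[F] x) * g K x (c a)) := by
    rw [g_apply, Finset.mul_sum, Fin.sum_univ_three]
    refine Mem.add (Mem.add ?_ ?_) ?_
    · rw [mul_smul_comm, ← pow_succ']
      exact (mem_pow hd h3 hx _ (by decide)).smul (h _)
    · rw [mul_smul_comm, ← pow_succ']
      exact (mem_pow hd h3 hx _ (by decide)).smul (h _)
    · rw [mul_smul_comm, ← pow_succ']
      exact (mem_pow hd h3 hx _ (by decide)).smul (h _)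
  intro j
  rw [h1]
  exact h2 j

theorem Mem.pol (hd : Dat x c) (h3 : (minpoly F x).natDegree = 3) (hx : IsIntegral F x)
    {a : K ⊗[F] D} (h : Mem c E a) (u : E[X]) :
    Mem c E (aeval ((1 : K) ⊗ₜ[F] x) (u.map (algebraMap E K)) * a) := by
  induction u using Polynomial.induction_on' with
  | add p q hp hq =>
    rw [Polynomial.map_add, map_add, add_mul]
    exact hp.add hq
  | monomial n e =>
    rw [map_monomial, aeval_monomial, mul_assoc, ← Algebra.smul_def]
    refine Mem.smul ?_ e.2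
    induction n with
    | zero => rw [pow_zero, one_mul]; exact h
    | succ n ih =>
      rw [pow_succ', mul_assoc]
      exact ih.mulX hd h3 hx

theorem Mem.polF (hd : Dat x c) (h3 : (minpoly F x).natDegree = 3) (hx : IsIntegral F x)
    {d : D} (h : Mem c E ((1 : K) ⊗ₜ[F] d)) (u : F[X]) :
    Mem c E ((1 : K) ⊗ₜ[F] (aeval x u * d)) := by
  have h1 := h.pol hd h3 hx (u.map (algebraMap F E))
  rw [Polynomial.map_map, ← IsScalarTower.algebraMap_eq, aeval_tmul,
    Algebra.TensorProduct.tmul_mul_tmul, one_mul] at h1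
  exact h1

end mem

end Pool.Agent.Helper95K9.IR.Sbu
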