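import Pool.Agent.Helper95K9.IR.Sbu4

/-!
Degree of irrationality of del Pezzo surfaces: the leaf SBU, part five (the division algebra as a
space over a cubic subfield).
-/

set_option autoImplicit false

namespace Pool.Agent.Helper95K9.IR.Sbu

open Polynomial TensorProduct

universe u

section D
variable {F D : Type u} [Field F] [DivisionRing D] [Algebra F D]

/-- The element of `F(x)` with the coordinates `v`. -/
noncomputable def g0 (F : Type u) [Field F] [Algebra F D] (x : D) : (Fin 3 → F) →ₗ[F] D :=
  Fintype.linearCombination F (fun j : Fin 3 => x ^ (j : ℕ))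

theorem g0_apply (x : D) (v : Fin 3 → F) : g0 F x v = ∑ j : Fin 3, v j • x ^ (j : ℕ) := rfl

theorem aeval_po0 (x : D) (v : Fin 3 → F) : aeval x (po v) = g0 F x v := by
  unfold po
  rw [map_sum, g0_apply]
  refine Finset.sum_congr rfl fun j _ => ?_
  rw [map_mul, map_pow, aeval_C, aeval_X, Algebra.smul_def]

variable {x : D} (hp : Irreducible (minpoly F x)) (h3 : (minpoly F x).natDegree = 3)

include hp h3 in
theorem inv0 (v : Fin 3 → F) (hv : v ≠ 0) : ∃ u : F[X], aeval x u * g0 F x v = 1 := by
  have h1 : IsCoprime (po v) (minpoly F x) := by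
    rw [isCoprime_comm, hp.coprime_iff_not_dvd]
    intro h
    have h2 := natDegree_le_of_dvd h (po_ne v hv)
    have := po_deg v
    omega
  obtain ⟨u, w, huw⟩ := h1
  refine ⟨u, ?_⟩
  have h2 := congrArg (aeval x) huw
  rw [map_add, map_mul, map_mul, map_one, minpoly.aeval, mul_zero, add_zero, aeval_po0] at h2
  exact h2

include h3 in
theorem red (hx : IsIntegral F x) (u : F[X]) : ∃ v, aeval x u = g0 F x v := by
  refine ⟨fun j => (u %ₘ minpoly F x).coeff j, ?_⟩
  have h1 : aeval x u = aeval x (u %ₘ minpoly F x) := by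
    conv_lhs => rw [← modByMonic_add_div u (minpoly F x)]
    rw [map_add, map_mul, minpoly.aeval, zero_mul, add_zero]
  have h2 : (u %ₘ minpoly F x).natDegree < 3 := by
    have := natDegree_modByMonic_lt u (minpoly.monic hx) (by
      intro h
      rw [h, natDegree_one] at h3
      omega)
    omega
  rw [h1, aeval_eq_sum_range' h2, Finset.sum_range, g0_apply]

/-- The subspace `F(x) + F(x) y`. -/
noncomputable def W (F : Type u) [Field F] [Algebra F D] (x y : D) : Submodule F D :=
  LinearMap.range (LinearMap.coprod (g0 F x) ((LinearMap.mulRight F y) ∘ₗ (g0 F x)))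

theorem mem_W {y d : D} : d ∈ W F x y ↔ ∃ a b, d = g0 F x a + g0 F x b * y := by
  unfold W
  rw [LinearMap.mem_range]
  constructor
  · rintro ⟨⟨a, b⟩, rfl⟩
    exact ⟨a, b, rfl⟩
  · rintro ⟨a, b, rfl⟩
    exact ⟨(a, b), rfl⟩

include h3 in
theorem W_pol (hx : IsIntegral F x) {y d : D} (u : F[X]) (h : d ∈ W F x y) :
    aeval x u * d ∈ W F x y := by
  rw [mem_W] at h
  obtain ⟨a, b, rfl⟩ := h
  rw [mem_W]
  obtain ⟨a', ha⟩ := red h3 hx (u * po a)
  obtain ⟨b', hb⟩ := red h3 hx (u * po b)
  refine ⟨a', b', ?_⟩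
  rw [← ha, ← hb, map_mul, map_mul, aeval_po0, aeval_po0, mul_add, mul_assoc]

/-- The right stabiliser of `F(x) + F(x) y`. -/
noncomputable def Sr (F : Type u) [Field F] [Algebra F D] (x y : D) : Subalgebra F D where
  carrier := {d | ∀ v ∈ W F x y, v * d ∈ W F x y}
  mul_mem' := by
    intro d d' hd hd' v hv
    rw [← mul_assoc]
    exact hd' _ (hd _ hv)
  add_mem' := by
    intro d d' hd hd' v hv
    rw [mul_add]
    exact add_mem (hd _ hv) (hd' _ hv)
  algebraMap_mem' := by
    intro r v hv
    rw [← Algebra.commutes, ← Algebra.smul_def]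
    exact Submodule.smul_mem _ _ hv

include hp h3 in
theorem g0_inj : Function.Injective (g0 F x) := by
  rw [← LinearMap.ker_eq_bot, LinearMap.ker_eq_bot']
  intro v hv
  by_contra h0
  obtain ⟨u, hu⟩ := inv0 hp h3 v h0
  rw [hv, mul_zero] at hu
  exact zero_ne_one hu

include hp h3 in
theorem W_finrank {y : D} (hy : ∀ v, g0 F x v ≠ y) : Module.finrank F (W F x y) = 6 := by
  unfold W
  rw [LinearMap.finrank_range_of_inj]
  · rw [Module.finrank_prod]
    simp
  · rw [← LinearMap.ker_eq_bot, LinearMap.ker_eq_bot']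
    rintro ⟨a, b⟩ hab
    have hab' : g0 F x a + g0 F x b * y = 0 := hab
    have hb : b = 0 := by
      by_contra h0
      obtain ⟨u, hu⟩ := inv0 hp h3 b h0
      have hx : IsIntegral F x := by
        by_contra h
        rw [minpoly.eq_zero h, natDegree_zero] at h3
        omega
      obtain ⟨v, hv⟩ := red h3 hx (-(u * po a))
      apply hy v
      rw [← hv, map_neg, map_mul, aeval_po0]
      have h1 := congrArg (fun z => aeval x u * z) hab'
      simp only [mul_add, mul_zero, ← mul_assoc, hu, one_mul] at h1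
      exact (eq_neg_of_add_eq_zero_right h1).symm
    rw [hb, map_zero, zero_mul, add_zero] at hab'
    have ha : a = 0 := by
      apply g0_inj hp h3
      rw [hab', map_zero]
    rw [ha, hb]
    rfl

theorem x_mem : x ∈ Algebra.adjoin F ({x} : Set D) := Algebra.self_mem_adjoin_singleton F x

/-- The right stabiliser does not contain `x` and `y`. -/
theorem not_both (h9 : Module.finrank F D = 9) [Module.Finite F D]
    (hp : Irreducible (minpoly F x)) (h3 : (minpoly F x).natDegree = 3)
    {y : D} (hy : ∀ v, g0 F x v ≠ y) (h1 : x ∈ Sr F x y) (h2 : y ∈ Sr F x y) : False := by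
  have hx : IsIntegral F x := IsIntegral.of_finite F x
  have e : Subalgebra.toSubmodule (Sr F x y) = W F x y := by
    apply le_antisymm
    · intro d hd
      have hd' : d ∈ Sr F x y := hd
      have hone : (1 : D) ∈ W F x y := by
        rw [mem_W]
        obtain ⟨a, ha⟩ := red h3 hx 1
        refine ⟨a, 0, ?_⟩
        rw [← ha, map_one, map_zero, zero_mul, add_zero]
      have := hd' 1 hone
      rwa [one_mul] at this
    · intro d hd
      rw [mem_W] at hd
      obtain ⟨a, b, rfl⟩ := hd
      have hpol : ∀ u : F[X], aeval x u ∈ Sr F x y := by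
        intro u
        have h5 : Algebra.adjoin F ({x} : Set D) ≤ Sr F x y := by
          rw [Algebra.adjoin_le_iff]
          intro z hz
          rw [Set.mem_singleton_iff.1 hz]
          exact h1
        exact h5 (aeval_mem_adjoin_singleton F x)
      change g0 F x a + g0 F x b * y ∈ Sr F x y
      rw [← aeval_po0, ← aeval_po0]
      exact add_mem (hpol _) (mul_mem (hpol _) h2)
  have h6 : Module.finrank F (Sr F x y) = 6 := by
    rw [← W_finrank hp h3 hy, ← e]
    rfl
  have h7 := sub_dvd (Sr F x y)
  rw [h6, h9] at h7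
  omega

end D

/-- Solving a linear system of rank two. -/
theorem rank_two {F K : Type u} [Field F] [Field K] [Algebra F K] (μ ν t : Fin 3 → F)
    (hind : ∀ s r : F, s • μ + r • ν = 0 → s = 0 ∧ r = 0) (α₁ α₂ : K)
    (h : ∀ i, α₁ * algebraMap F K (μ i) + α₂ * algebraMap F K (ν i) = algebraMap F K (t i)) :
    ∃ a₁ a₂ : F, α₁ = algebraMap F K a₁ ∧ α₂ = algebraMap F K a₂ := by
  have hli : LinearIndependent F ![μ, ν] := by
    rw [LinearIndependent.pair_iff]
    exact hind
  obtain ⟨f, hf⟩ : ∃ f : (Fin 3 → F) →ₗ[F] (Fin 2 → F), ∀ i, f (![μ, ν] i) = Pi.single i 1 := by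
    obtain ⟨f, hf⟩ := (LinearMap.exists_leftInverse_of_injective
      (Fintype.linearCombination F ![μ, ν]) (by
        rw [LinearMap.ker_eq_bot]
        exact hli.fintypeLinearCombination_injective))
    refine ⟨f, fun i => ?_⟩
    have h1 := congrArg (fun φ => φ (Pi.single i 1)) hf
    simpa [Fintype.linearCombination_apply_single] using h1
  have hexp : ∀ (v : Fin 3 → F) (k : Fin 2), f v k = ∑ i, v i * f (Pi.single i 1) k := by
    intro v k
    have h1 : v = ∑ i, v i • (Pi.single i (1 : F) : Fin 3 → F) := by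
      funext j
      rw [Finset.sum_apply, Finset.sum_eq_single j]
      · simp
      · intro i _ hi
        simp [hi.symm]
      · intro h
        exact absurd (Finset.mem_univ _) h
    conv_lhs => rw [h1]
    rw [map_sum, Finset.sum_apply]
    refine Finset.sum_congr rfl fun i _ => ?_
    rw [map_smul, Pi.smul_apply, smul_eq_mul]
  have key : ∀ k : Fin 2, α₁ * algebraMap F K (f μ k) + α₂ * algebraMap F K (f ν k) =
      algebraMap F K (f t k) := by
    intro k
    rw [hexp μ, hexp ν, hexp t, map_sum, map_sum, map_sum, Finset.mul_sum, Finset.mul_sum,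
      ← Finset.sum_add_distrib]
    refine Finset.sum_congr rfl fun i _ => ?_
    rw [map_mul, map_mul, map_mul, ← h i]
    ring
  have f0 := hf 0
  have f1 := hf 1
  simp only [Matrix.cons_val_zero, Matrix.cons_val_one] at f0 f1
  refine ⟨f t 0, f t 1, ?_, ?_⟩
  · rw [← key 0, f0, f1]
    simp
  · rw [← key 1, f0, f1]
    simp

end Pool.Agent.Helper95K9.IR.Sbu
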