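import Pool.Agent.Helper95K9.IR.Sbu5

/-!
Degree of irrationality of del Pezzo surfaces: the leaf SBU, part six (one element generates the
function field).
-/

set_option autoImplicit false

namespace Pool.Agent.Helper95K9.IR.Sbu

open Polynomial TensorProduct

universe u

variable {F D K : Type u} [Field F] [DivisionRing D] [Algebra F D] [Field K] [Algebra F K]

theorem g_map (x : D) (v : Fin 3 → F) :
    g K x (fun i => algebraMap F K (v i)) = (1 : K) ⊗ₜ[F] g0 F x v := by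
  rw [g_apply, g0_apply, TensorProduct.tmul_sum]
  refine Finset.sum_congr rfl fun j _ => ?_
  rw [pow_tmul, TensorProduct.tmul_smul, algebraMap_smul]

section
variable {x : D} {c : K ⊗[F] D →ₗ[K] (Fin 3 → K)}

/-- Eigenvalues. -/
theorem eig (hd : Dat x c) (a : K ⊗[F] D) (k : K) (h : c (a - k • (1 : K ⊗[F] D)) = 0) (P : K[X])
    (hP : aeval a P = 0) : P.eval k = 0 := by
  have h1 : ∀ n : ℕ, c (a ^ n - k ^ n • (1 : K ⊗[F] D)) = 0 := by
    intro n
    induction n with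
    | zero => rw [pow_zero, pow_zero, one_smul, sub_self, map_zero]
    | succ n ih =>
      have e : a ^ (n + 1) - k ^ (n + 1) • (1 : K ⊗[F] D) =
          a ^ n * (a - k • (1 : K ⊗[F] D)) + k • (a ^ n - k ^ n • (1 : K ⊗[F] D)) := by
        rw [mul_sub, ← pow_succ, mul_smul_comm, mul_one, smul_sub, smul_smul, ← pow_succ']
        abel
      rw [e, map_add, hd.left _ _ h, map_smul, ih, smul_zero, add_zero]
  have h2 : c (aeval a P - P.eval k • (1 : K ⊗[F] D)) = 0 := by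
    rw [aeval_eq_sum_range, eval_eq_sum_range, Finset.sum_smul, ← Finset.sum_sub_distrib, map_sum]
    refine Finset.sum_eq_zero fun i _ => ?_
    rw [mul_smul, ← smul_sub, map_smul, h1, smul_zero]
  rw [hP, zero_sub, map_neg, neg_eq_zero] at h2
  by_contra h0
  apply hd.not_unit (P.eval k • (1 : K ⊗[F] D)) ((P.eval k)⁻¹ • (1 : K ⊗[F] D)) _ h2
  rw [smul_mul_smul_comm, inv_mul_cancel₀ h0, one_smul, one_mul]

variable [Module.Finite F D] {E : IntermediateField F K}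

theorem Mem.g0' (hd : Dat x c) (h3 : (minpoly F x).natDegree = 3)
    (v : Fin 3 → F) : Mem c E ((1 : K) ⊗ₜ[F] g0 F x v) := by
  have hx : IsIntegral F x := IsIntegral.of_finite F x
  have h1 : Mem c E ((1 : K) ⊗ₜ[F] (1 : D)) := by
    have := mem_pow (E := E) hd h3 hx 0 (by decide)
    rwa [pow_zero, Algebra.TensorProduct.one_def] at this
  have h2 := h1.polF hd h3 hx (po v)
  rwa [mul_one, aeval_po0] at h2

theorem Mem.g0mul (hd : Dat x c) (h3 : (minpoly F x).natDegree = 3) {d : D}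
    (h : Mem c E ((1 : K) ⊗ₜ[F] d)) (v : Fin 3 → F) :
    Mem c E ((1 : K) ⊗ₜ[F] (g0 F x v * d)) := by
  have hx : IsIntegral F x := IsIntegral.of_finite F x
  have h2 := h.polF hd h3 hx (po v)
  rwa [aeval_po0] at h2

/-- The third coordinate is unique. -/
theorem third (hd : Dat x c) (hp : Irreducible (minpoly F x)) (h3 : (minpoly F x).natDegree = 3)
    {y w : D} (hy : Mem c E ((1 : K) ⊗ₜ[F] y)) (hw : ¬ Mem c E ((1 : K) ⊗ₜ[F] w))
    (a b e : Fin 3 → F) (h : g0 F x a + g0 F x b * y + g0 F x e * w = 0) : e = 0 := by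
  have hx : IsIntegral F x := IsIntegral.of_finite F x
  by_contra h0
  obtain ⟨u, hu⟩ := inv0 hp h3 e h0
  apply hw
  have h1 : Mem c E ((1 : K) ⊗ₜ[F] (g0 F x e * w)) := by
    have e1 : g0 F x e * w = g0 F x (-a) + g0 F x (-b) * y := by
      rw [map_neg, map_neg, neg_mul]
      have := eq_neg_of_add_eq_zero_right h
      rw [this]
      abel
    rw [e1, TensorProduct.tmul_add]
    exact (Mem.g0' hd h3 _).add (Mem.g0mul hd h3 hy _)
  have h2 := h1.polF hd h3 hx u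
  rwa [← mul_assoc, hu, one_mul] at h2

/-- Decomposition of all elements. -/
theorem decomp (hd : Dat x c) (h9 : Module.finrank F D = 9) (hp : Irreducible (minpoly F x))
    (h3 : (minpoly F x).natDegree = 3)
    {y w : D} (hy : Mem c E ((1 : K) ⊗ₜ[F] y)) (hy0 : ∀ v, g0 F x v ≠ y)
    (hw : ¬ Mem c E ((1 : K) ⊗ₜ[F] w)) (d : D) :
    ∃ a b e : Fin 3 → F, d = g0 F x a + g0 F x b * y + g0 F x e * w := by
  have h6 := W_finrank hp h3 hy0
  have hS : Module.finrank F (LinearMap.range ((LinearMap.mulRight F w) ∘ₗ (g0 F x))) = 3 := by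
    rw [LinearMap.finrank_range_of_inj]
    · simp
    · rw [← LinearMap.ker_eq_bot, LinearMap.ker_eq_bot']
      intro e he
      have he' : g0 F x e * w = 0 := he
      exact third hd hp h3 hy hw 0 0 e (by rw [he']; simp)
  have hinf : W F x y ⊓ LinearMap.range ((LinearMap.mulRight F w) ∘ₗ (g0 F x)) = ⊥ := by
    rw [eq_bot_iff]
    rintro z ⟨hz1, hz2⟩
    obtain ⟨a, b, hab⟩ := mem_W.1 hz1
    obtain ⟨e, he⟩ := hz2
    have he' : g0 F x e * w = z := he
    have h1 : e = 0 := by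
      have := third hd hp h3 hy hw (-a) (-b) e (by
        rw [he', hab, map_neg, map_neg, neg_mul]
        abel)
      exact this
    rw [← he', h1, map_zero, zero_mul]
    exact Submodule.zero_mem _
  have hsup := Submodule.finrank_sup_add_finrank_inf_eq (W F x y)
    (LinearMap.range ((LinearMap.mulRight F w) ∘ₗ (g0 F x)))
  rw [hinf, finrank_bot, h6, hS] at hsup
  have htop : W F x y ⊔ LinearMap.range ((LinearMap.mulRight F w) ∘ₗ (g0 F x)) = ⊤ := by
    apply Submodule.eq_top_of_finrank_eq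
    rw [h9]
    exact hsup
  have hd' : d ∈ W F x y ⊔ LinearMap.range ((LinearMap.mulRight F w) ∘ₗ (g0 F x)) := by
    rw [htop]
    trivial
  rw [Submodule.mem_sup] at hd'
  obtain ⟨z1, hz1, z2, ⟨e, he⟩, hz⟩ := hd'
  obtain ⟨a, b, hab⟩ := mem_W.1 hz1
  have he' : g0 F x e * w = z2 := he
  exact ⟨a, b, e, by rw [← hz, hab, he']⟩

/-- The fundamental relation. -/
theorem rel (hd : Dat x c) (hp : Irreducible (minpoly F x)) (h3 : (minpoly F x).natDegree = 3)
    (hK : ∀ z : K, IsAlgebraic F z → z ∈ (algebraMap F K).range)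
    {y w : D} (hy : Mem c E ((1 : K) ⊗ₜ[F] y)) (hw : ¬ Mem c E ((1 : K) ⊗ₜ[F] w))
    (a b e a' b' e' a'' b'' e'' : Fin 3 → F)
    (h : y * y = g0 F x a + g0 F x b * y + g0 F x e * w)
    (h' : y * x = g0 F x a' + g0 F x b' * y + g0 F x e' * w)
    (h'' : y * x ^ 2 = g0 F x a'' + g0 F x b'' * y + g0 F x e'' * w) (i : Fin 3) :
    c ((1 : K) ⊗ₜ[F] y) 1 * algebraMap F K (e' i) + c ((1 : K) ⊗ₜ[F] y) 2 *
      algebraMap F K (e'' i) = algebraMap F K (e i) := by
  have hx : IsIntegral F x := IsIntegral.of_finite F x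
  obtain ⟨α, hα⟩ : ∃ α, α = c ((1 : K) ⊗ₜ[F] y) := ⟨_, rfl⟩
  have hαE : ∀ j, α j ∈ E := by
    intro j
    rw [hα]
    exact hy j
  rw [← hα]
  obtain ⟨s, hs⟩ : ∃ s : Fin 3 → E, s = fun i => (⟨α 1, hαE 1⟩ : E) * algebraMap F E (e' i) +
    (⟨α 2, hαE 2⟩ : E) * algebraMap F E (e'' i) - algebraMap F E (e i) := ⟨_, rfl⟩
  have hsK : ∀ i, algebraMap E K (s i) = α 1 * algebraMap F K (e' i) +
      α 2 * algebraMap F K (e'' i) - algebraMap F K (e i) := by
    intro i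
    rw [hs]
    rfl
  by_cases hs0 : s = 0
  · have := hsK i
    rw [hs0, Pi.zero_apply, map_zero] at this
    exact sub_eq_zero.1 this.symm
  exfalso
  apply hw
  obtain ⟨u, hu⟩ := exists_inv hp h3 hK s hs0
  -- the relation
  have hκ := hd.left _ ((1 : K) ⊗ₜ[F] y) (hd.sub ((1 : K) ⊗ₜ[F] y))
  rw [← hα] at hκ
  obtain ⟨κ, hκ2⟩ : ∃ κ, κ = ((1 : K) ⊗ₜ[F] y) * ((1 : K) ⊗ₜ[F] y - g K x α) := ⟨_, rfl⟩
  rw [← hκ2] at hκ
  have hκ3 : κ = (1 : K) ⊗ₜ[F] (y * y) - α 0 • ((1 : K) ⊗ₜ[F] y) -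
      α 1 • ((1 : K) ⊗ₜ[F] (y * x)) - α 2 • ((1 : K) ⊗ₜ[F] (y * x ^ 2)) := by
    rw [hκ2, mul_sub, Algebra.TensorProduct.tmul_mul_tmul, one_mul, g_apply, Fin.sum_univ_three,
      mul_add, mul_add, mul_smul_comm, mul_smul_comm, mul_smul_comm, pow_tmul, pow_tmul, pow_tmul,
      Algebra.TensorProduct.tmul_mul_tmul, Algebra.TensorProduct.tmul_mul_tmul,
      Algebra.TensorProduct.tmul_mul_tmul, one_mul]
    have e0 : x ^ ((0 : Fin 3) : ℕ) = 1 := pow_zero x
    have e1 : x ^ ((1 : Fin 3) : ℕ) = x := pow_one x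
    have e2 : x ^ ((2 : Fin 3) : ℕ) = x ^ 2 := rfl
    rw [e0, e1, e2, mul_one]
    abel
  have hz : g K x (fun i => algebraMap E K (s i)) * ((1 : K) ⊗ₜ[F] w) =
      α 1 • ((1 : K) ⊗ₜ[F] (g0 F x e' * w)) + α 2 • ((1 : K) ⊗ₜ[F] (g0 F x e'' * w)) -
        (1 : K) ⊗ₜ[F] (g0 F x e * w) := by
    have e1 : (fun i => algebraMap E K (s i)) = α 1 • (fun i => algebraMap F K (e' i)) +
        α 2 • (fun i => algebraMap F K (e'' i)) - (fun i => algebraMap F K (e i)) := by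
      funext i
      rw [hsK]
      rfl
    rw [e1, map_sub, map_add, map_smul, map_smul, g_map, g_map, g_map, sub_mul, add_mul,
      smul_mul_assoc, smul_mul_assoc, Algebra.TensorProduct.tmul_mul_tmul,
      Algebra.TensorProduct.tmul_mul_tmul, Algebra.TensorProduct.tmul_mul_tmul, one_mul]
  have key : ∀ {p q r t : D}, p = q + r + t → ((1 : K) ⊗ₜ[F] t : K ⊗[F] D) =
      (1 : K) ⊗ₜ[F] p - ((1 : K) ⊗ₜ[F] q + (1 : K) ⊗ₜ[F] r) := by
    intro p q r t hp
    rw [hp, TensorProduct.tmul_add, TensorProduct.tmul_add]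
    abel
  have hmem : Mem c E (g K x (fun i => algebraMap E K (s i)) * ((1 : K) ⊗ₜ[F] w)) := by
    have e1 : g K x (fun i => algebraMap E K (s i)) * ((1 : K) ⊗ₜ[F] w) =
        ((1 : K) ⊗ₜ[F] g0 F x a + (1 : K) ⊗ₜ[F] (g0 F x b * y)) - κ -
        α 0 • ((1 : K) ⊗ₜ[F] y) -
        α 1 • ((1 : K) ⊗ₜ[F] g0 F x a' + (1 : K) ⊗ₜ[F] (g0 F x b' * y)) -
        α 2 • ((1 : K) ⊗ₜ[F] g0 F x a'' + (1 : K) ⊗ₜ[F] (g0 F x b'' * y)) := by
      rw [hz, key h, key h', key h'', hκ3, smul_sub, smul_sub]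
      abel
    rw [e1]
    have m1 : ∀ a b, Mem c E ((1 : K) ⊗ₜ[F] g0 F x a + (1 : K) ⊗ₜ[F] (g0 F x b * y)) :=
      fun a b => (Mem.g0' hd h3 a).add (Mem.g0mul hd h3 hy b)
    exact ((((m1 a b).sub (Mem.ker hκ)).sub (hy.smul (hαE 0))).sub ((m1 a' b').smul (hαE 1))).sub
      ((m1 a'' b'').smul (hαE 2))
  have h5 := hmem.pol hd h3 hx u
  rwa [← mul_assoc, hu, one_mul] at h5

end

end Pool.Agent.Helper95K9.IR.Sbu
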