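import Pool.Agent.Helper95K9.IR.Sbu6

/-!
Degree of irrationality of del Pezzo surfaces: the leaf SBU, last part.
-/

set_option autoImplicit false

namespace Pool.Agent.Helper95K9.IR.Sbu

open Polynomial TensorProduct

universe u

variable {F D K : Type u} [Field F] [DivisionRing D] [Algebra F D] [Field K] [Algebra F K]

section
variable {x : D} {c : K ⊗[F] D →ₗ[K] (Fin 3 → K)}

/-- The element `y` minus its eigenvalue is not in `D`. -/
theorem not_rat [Module.Finite F D] (hd : Dat x c)
    (hK : ∀ z : K, IsAlgebraic F z → z ∈ (algebraMap F K).range)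
    {y : D} (hy0 : ∀ v, g0 F x v ≠ y) (a₁ a₂ : F)
    (h1 : c ((1 : K) ⊗ₜ[F] y) 1 = algebraMap F K a₁)
    (h2 : c ((1 : K) ⊗ₜ[F] y) 2 = algebraMap F K a₂) : False := by
  obtain ⟨α, hα⟩ : ∃ α, α = c ((1 : K) ⊗ₜ[F] y) := ⟨_, rfl⟩
  rw [← hα] at h1 h2
  have hsub := hd.sub ((1 : K) ⊗ₜ[F] y)
  rw [← hα] at hsub
  obtain ⟨z, hz⟩ : ∃ z : D, z = y - a₁ • x - a₂ • x ^ 2 := ⟨_, rfl⟩
  have hg : (1 : K) ⊗ₜ[F] y - g K x α = (1 : K) ⊗ₜ[F] z - α 0 • (1 : K ⊗[F] D) := by
    rw [hz, g_apply, Fin.sum_univ_three, h1, h2, pow_tmul, pow_tmul, pow_tmul]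
    have e0 : x ^ ((0 : Fin 3) : ℕ) = 1 := pow_zero x
    have e1 : x ^ ((1 : Fin 3) : ℕ) = x := pow_one x
    have e2 : x ^ ((2 : Fin 3) : ℕ) = x ^ 2 := rfl
    rw [e0, e1, e2, TensorProduct.tmul_sub, TensorProduct.tmul_sub, TensorProduct.tmul_smul,
      TensorProduct.tmul_smul, algebraMap_smul, algebraMap_smul, Algebra.TensorProduct.one_def]
    abel
  rw [hg] at hsub
  have h3 := eig hd _ _ hsub ((minpoly F z).map (algebraMap F K)) (by
    rw [aeval_tmul, minpoly.aeval, TensorProduct.tmul_zero])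
  rw [eval_map_algebraMap] at h3
  obtain ⟨a₀, h0⟩ := hK (α 0) ⟨minpoly F z, minpoly.ne_zero (IsIntegral.of_finite F z), h3⟩
  have hne : z - a₀ • (1 : D) ≠ 0 := by
    intro h
    apply hy0 ![a₀, a₁, a₂]
    rw [g0_apply, Fin.sum_univ_three]
    have e0 : x ^ ((0 : Fin 3) : ℕ) = 1 := pow_zero x
    have e1 : x ^ ((1 : Fin 3) : ℕ) = x := pow_one x
    have e2 : x ^ ((2 : Fin 3) : ℕ) = x ^ 2 := rfl
    rw [e0, e1, e2]
    have h4 : z = a₀ • (1 : D) := sub_eq_zero.1 h
    have h5 : y = a₁ • x + a₂ • x ^ 2 + z := by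
      rw [hz]
      abel
    rw [h5, h4]
    simp only [Matrix.cons_val_zero, Matrix.cons_val_one, Matrix.cons_val]
    abel
  apply hd.not_unit ((1 : K) ⊗ₜ[F] z - α 0 • (1 : K ⊗[F] D))
    ((1 : K) ⊗ₜ[F] (z - a₀ • (1 : D))⁻¹) _ hsub
  have e3 : (1 : K) ⊗ₜ[F] z - α 0 • (1 : K ⊗[F] D) = (1 : K) ⊗ₜ[F] (z - a₀ • (1 : D)) := by
    rw [TensorProduct.tmul_sub, TensorProduct.tmul_smul, ← h0, algebraMap_smul,
      Algebra.TensorProduct.one_def]
  rw [e3, Algebra.TensorProduct.tmul_mul_tmul, one_mul, inv_mul_cancel₀ hne,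
    Algebra.TensorProduct.one_def]

/-- One element generates the function field. -/
theorem top_of [Module.Finite F D] (hd : Dat x c) (h9 : Module.finrank F D = 9)
    (hnc : ∃ a b : D, a * b ≠ b * a)
    (hp : Irreducible (minpoly F x)) (h3 : (minpoly F x).natDegree = 3)
    (hK : ∀ z : K, IsAlgebraic F z → z ∈ (algebraMap F K).range)
    {y : D} (hy0 : ∀ v, g0 F x v ≠ y) (E : IntermediateField F K)
    (hy : Mem c E ((1 : K) ⊗ₜ[F] y)) : E = ⊤ := by
  have hx : IsIntegral F x := IsIntegral.of_finite F x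
  apply hd.top E
  intro w
  by_contra hw'
  have hw : ¬ Mem c E ((1 : K) ⊗ₜ[F] w) := fun h => hw' h
  obtain ⟨a, b, e, h⟩ := decomp hd h9 hp h3 hy hy0 hw (y * y)
  obtain ⟨a', b', e', h'⟩ := decomp hd h9 hp h3 hy hy0 hw (y * x)
  obtain ⟨a'', b'', e'', h''⟩ := decomp hd h9 hp h3 hy hy0 hw (y * x ^ 2)
  have hrel := rel hd hp h3 hK hy hw a b e a' b' e' a'' b'' e'' h h' h''
  by_cases hind : ∀ s r : F, s • e' + r • e'' = 0 → s = 0 ∧ r = 0
  · obtain ⟨a₁, a₂, h1, h2⟩ := rank_two e' e'' e hind _ _ hrel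
    exact not_rat hd hK hy0 a₁ a₂ h1 h2
  · push Not at hind
    obtain ⟨s, r, hsr, hne⟩ := hind
    obtain ⟨z, hz⟩ : ∃ z : D, z = s • x + r • x ^ 2 := ⟨_, rfl⟩
    have hzx : z = aeval x (C s * X + C r * X ^ 2) := by
      rw [hz, map_add, map_mul, map_mul, map_pow, aeval_C, aeval_C, aeval_X, Algebra.smul_def,
        Algebra.smul_def]
    have hyz : y * z ∈ W F x y := by
      rw [mem_W]
      refine ⟨s • a' + r • a'', s • b' + r • b'', ?_⟩
      have e1 : y * z = s • (y * x) + r • (y * x ^ 2) := by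
        rw [hz, mul_add, mul_smul_comm, mul_smul_comm]
      have e2 : s • (g0 F x e' * w) + r • (g0 F x e'' * w) = 0 := by
        rw [← smul_mul_assoc, ← smul_mul_assoc, ← add_mul, ← map_smul, ← map_smul, ← map_add,
          hsr, map_zero, zero_mul]
      rw [e1, h', h'', map_add, map_smul, map_smul, map_add, map_smul, map_smul, add_mul,
        smul_mul_assoc, smul_mul_assoc, smul_add, smul_add, smul_add, smul_add]
      have e3 : ∀ p q r' s' t u : D, t + u = 0 → p + q + t + (r' + s' + u) =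
          p + r' + (q + s') := by
        intro p q r' s' t u htu
        have : u = -t := eq_neg_of_add_eq_zero_right htu
        rw [this]
        abel
      exact e3 _ _ _ _ _ _ e2
    have hWL : ∀ u : F[X], aeval x u ∈ W F x y := by
      intro u
      obtain ⟨v, hv⟩ := red h3 hx u
      rw [mem_W]
      exact ⟨v, 0, by rw [hv, map_zero, zero_mul, add_zero]⟩
    have hS : ∀ d : D, (∃ u : F[X], d = aeval x u) → y * d ∈ W F x y → d ∈ Sr F x y := by
      rintro d ⟨u, hu⟩ hyd v hv
      obtain ⟨p, q, rfl⟩ := mem_W.1 hv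
      rw [add_mul, mul_assoc]
      refine add_mem ?_ ?_
      · rw [hu, ← aeval_po0, ← map_mul]
        exact hWL _
      · rw [← aeval_po0]
        exact W_pol h3 hx _ hyd
    have hzS : z ∈ Sr F x y := hS z ⟨_, hzx⟩ hyz
    have hzF : z ∉ (algebraMap F D).range := by
      rintro ⟨t, ht⟩
      have e1 : g0 F x ![-t, s, r] = 0 := by
        rw [g0_apply, Fin.sum_univ_three]
        have e0 : x ^ ((0 : Fin 3) : ℕ) = 1 := pow_zero x
        have e1 : x ^ ((1 : Fin 3) : ℕ) = x := pow_one x
        have e2 : x ^ ((2 : Fin 3) : ℕ) = x ^ 2 := rfl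
        rw [e0, e1, e2]
        simp only [Matrix.cons_val_zero, Matrix.cons_val_one, Matrix.cons_val]
        rw [add_assoc, ← hz, ← ht, neg_smul, Algebra.algebraMap_eq_smul_one]
        abel
      have e2 : (![-t, s, r] : Fin 3 → F) = 0 := by
        apply g0_inj hp h3
        rw [e1, map_zero]
      have e3 : s = 0 := congrFun e2 1
      have e4 : r = 0 := congrFun e2 2
      exact hne e3 e4
    have hxS : x ∈ Sr F x y := by
      have h5 : Algebra.adjoin F ({z} : Set D) ≤ Algebra.adjoin F ({x} : Set D) := by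
        rw [Algebra.adjoin_le_iff]
        intro z' hz'
        rw [Set.mem_singleton_iff.1 hz', hzx]
        exact aeval_mem_adjoin_singleton F x
      have hdeg : ∀ t : D, t ∉ (algebraMap F D).range →
          Module.finrank F (Algebra.adjoin F ({t} : Set D)) = 3 := by
        intro t ht
        rcases deg_le h9 hnc t with h6 | h6
        · exfalso
          apply ht
          rw [Subalgebra.finrank_eq_one_iff] at h6
          have : t ∈ (⊥ : Subalgebra F D) := by
            rw [← h6]
            exact Algebra.self_mem_adjoin_singleton F t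
          exact this
        · exact h6
      have hxF : x ∉ (algebraMap F D).range := by
        rintro ⟨t, ht⟩
        apply hzF
        rw [hz, ← ht]
        exact ⟨s * t + r * t ^ 2, by
          rw [map_add, map_mul, map_mul, map_pow, Algebra.smul_def, Algebra.smul_def]⟩
      have h7 : Subalgebra.toSubmodule (Algebra.adjoin F ({z} : Set D)) =
          Subalgebra.toSubmodule (Algebra.adjoin F ({x} : Set D)) := by
        apply Submodule.eq_of_le_of_finrank_eq h5
        exact (hdeg z hzF).trans (hdeg x hxF).symm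
      have h8 : x ∈ Algebra.adjoin F ({z} : Set D) := by
        have : x ∈ Subalgebra.toSubmodule (Algebra.adjoin F ({z} : Set D)) := by
          rw [h7]
          exact Algebra.self_mem_adjoin_singleton F x
        exact this
      have h10 : Algebra.adjoin F ({z} : Set D) ≤ Sr F x y := by
        rw [Algebra.adjoin_le_iff]
        intro z' hz'
        rw [Set.mem_singleton_iff.1 hz']
        exact hzS
      exact h10 h8
    have hyW : y ∈ W F x y := by
      obtain ⟨v, hv⟩ := red h3 hx 1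
      rw [mem_W]
      refine ⟨0, v, ?_⟩
      rw [← hv, map_one, map_zero, one_mul, zero_add]
    have huniq : ∀ (d : D) (p q t : Fin 3 → F), d = g0 F x p + g0 F x q * y + g0 F x t * w →
        d ∈ W F x y → t = 0 := by
      intro d p q t hdd hdW
      obtain ⟨p', q', hpq⟩ := mem_W.1 hdW
      apply third hd hp h3 hy hw (p - p') (q - q') t
      rw [map_sub, map_sub, sub_mul]
      have : g0 F x p + g0 F x q * y + g0 F x t * w - (g0 F x p' + g0 F x q' * y) = 0 := by
        rw [← hdd, ← hpq, sub_self]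
      rw [← this]
      abel
    have he' : e' = 0 := huniq _ _ _ _ h' (hxS y hyW)
    have he'' : e'' = 0 := huniq _ _ _ _ h'' ((Sr F x y).pow_mem hxS 2 y hyW)
    have he : e = 0 := by
      funext i
      have := hrel i
      rw [he', he''] at this
      simp only [Pi.zero_apply, map_zero, mul_zero, add_zero] at this
      exact (map_eq_zero _).1 this.symm
    have hyS : y ∈ Sr F x y := by
      intro v hv
      obtain ⟨p, q, rfl⟩ := mem_W.1 hv
      rw [add_mul, mul_assoc]
      refine add_mem ?_ ?_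
      · rw [mem_W]
        exact ⟨0, p, by rw [map_zero, zero_add]⟩
      · rw [← aeval_po0]
        apply W_pol h3 hx
        rw [mem_W]
        exact ⟨a, b, by rw [h, he, map_zero, zero_mul, add_zero]⟩
    exact not_both h9 hp h3 hy0 hxS hyS

end

end Pool.Agent.Helper95K9.IR.Sbu
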