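import Pool.Agent.Helper95K9.IR.Tool

/-!
Degree of irrationality of del Pezzo surfaces: tools for degree six.
-/

set_option autoImplicit false

namespace Pool.Agent.Helper95K9.IR.Six

open Polynomial

universe u

variable {F Ω : Type u} [Field F] [Field Ω] [Algebra F Ω]

/-- Families of values at the conjugates `θ i` with coordinates in `K`. -/
def Co (K : IntermediateField F Ω) (θ : Fin 3 → Ω) (v : Fin 3 → Ω) : Prop :=
  ∃ x : Fin 3 → Ω, (∀ j, x j ∈ K) ∧ ∀ i, v i = ev x (θ i)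

/-- The elementary symmetric functions of `θ` are in `F`. -/
theorem sym (θ : Fin 3 → Ω) (h : IsCubic F θ) : ∃ s₁ s₂ s₃ : F,
    θ 0 + θ 1 + θ 2 = algebraMap F Ω s₁ ∧
    θ 0 * θ 1 + θ 0 * θ 2 + θ 1 * θ 2 = algebraMap F Ω s₂ ∧
    θ 0 * θ 1 * θ 2 = algebraMap F Ω s₃ := by
  obtain ⟨-, g, -, hg⟩ := h
  have h0 := congrArg (fun p => p.coeff 0) hg
  have h1 := congrArg (fun p => p.coeff 1) hg
  have h2 := congrArg (fun p => p.coeff 2) hg
  have hexp : (∏ i, (X - C (θ i)) : Polynomial Ω) = X ^ 3 - C (θ 0 + θ 1 + θ 2) * X ^ 2 +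
      C (θ 0 * θ 1 + θ 0 * θ 2 + θ 1 * θ 2) * X - C (θ 0 * θ 1 * θ 2) := by
    rw [Fin.prod_univ_three]
    simp only [map_add, map_mul]
    ring
  rw [hexp] at h0 h1 h2
  simp only [coeff_map, coeff_sub, coeff_add, coeff_C_mul, coeff_X_pow, coeff_X, coeff_C] at h0 h1 h2
  norm_num at h0 h1 h2
  exact ⟨-g.coeff 2, g.coeff 1, -g.coeff 0, by rw [map_neg, h2]; ring, by rw [h1],
    by rw [map_neg, h0]; ring⟩

theorem cube (θ : Fin 3 → Ω) (h : IsCubic F θ) : ∃ s₁ s₂ s₃ : F, ∀ i,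
    θ i ^ 3 = algebraMap F Ω s₁ * θ i ^ 2 - algebraMap F Ω s₂ * θ i + algebraMap F Ω s₃ := by
  obtain ⟨s₁, s₂, s₃, h1, h2, h3⟩ := sym θ h
  refine ⟨s₁, s₂, s₃, ?_⟩
  intro i
  rw [← h1, ← h2, ← h3]
  fin_cases i
  · simp only [Fin.zero_eta]; ring
  · simp only [Fin.mk_one]; ring
  · simp only [Fin.reduceFinMk]; ring

/-- Uniqueness of the coordinates. -/
theorem uniq (θ : Fin 3 → Ω) (h : Function.Injective θ) (x y : Fin 3 → Ω)
    (hxy : ∀ i, ev x (θ i) = ev y (θ i)) : x = y := by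
  have h01 : θ 1 - θ 0 ≠ 0 := sub_ne_zero.2 (fun e => by have := h e; simp at this)
  have h02 : θ 2 - θ 0 ≠ 0 := sub_ne_zero.2 (fun e => by have := h e; simp at this)
  have h12 : θ 2 - θ 1 ≠ 0 := sub_ne_zero.2 (fun e => by have := h e; simp at this)
  have e0 := hxy 0
  have e1 := hxy 1
  have e2 := hxy 2
  simp only [ev] at e0 e1 e2
  have f1 : (x 1 - y 1) + (x 2 - y 2) * (θ 0 + θ 1) = 0 := by
    apply mul_left_cancel₀ h01
    linear_combination e1 - e0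
  have f2 : (x 1 - y 1) + (x 2 - y 2) * (θ 0 + θ 2) = 0 := by
    apply mul_left_cancel₀ h02
    linear_combination e2 - e0
  have g2 : x 2 - y 2 = 0 := by
    apply mul_left_cancel₀ h12
    linear_combination f2 - f1
  have g1 : x 1 - y 1 = 0 := by
    rw [g2] at f1
    linear_combination f1
  have g0 : x 0 - y 0 = 0 := by
    have a1 : x 1 = y 1 := sub_eq_zero.1 g1
    have a2 : x 2 = y 2 := sub_eq_zero.1 g2
    rw [a1, a2] at e0
    linear_combination e0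
  funext i
  fin_cases i
  · exact sub_eq_zero.1 g0
  · exact sub_eq_zero.1 g1
  · exact sub_eq_zero.1 g2

/-- The coordinates lie in every field which contains the values and the `θ i`. -/
theorem coord_mem (θ : Fin 3 → Ω) (h : Function.Injective θ) (x : Fin 3 → Ω)
    (M : IntermediateField F Ω) (hθ : ∀ i, θ i ∈ M) (hv : ∀ i, ev x (θ i) ∈ M) :
    ∀ j, x j ∈ M := by
  have h01 : θ 1 - θ 0 ≠ 0 := sub_ne_zero.2 (fun e => by have := h e; simp at this)
  have h02 : θ 2 - θ 0 ≠ 0 := sub_ne_zero.2 (fun e => by have := h e; simp at this)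
  have h12 : θ 2 - θ 1 ≠ 0 := sub_ne_zero.2 (fun e => by have := h e; simp at this)
  have f1 : x 1 + x 2 * (θ 0 + θ 1) = (ev x (θ 1) - ev x (θ 0)) / (θ 1 - θ 0) := by
    rw [eq_div_iff h01]; simp only [ev]; ring
  have f2 : x 1 + x 2 * (θ 0 + θ 2) = (ev x (θ 2) - ev x (θ 0)) / (θ 2 - θ 0) := by
    rw [eq_div_iff h02]; simp only [ev]; ring
  have m1 : x 1 + x 2 * (θ 0 + θ 1) ∈ M := by
    rw [f1]; exact M.div_mem (M.sub_mem (hv 1) (hv 0)) (M.sub_mem (hθ 1) (hθ 0))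
  have m2 : x 1 + x 2 * (θ 0 + θ 2) ∈ M := by
    rw [f2]; exact M.div_mem (M.sub_mem (hv 2) (hv 0)) (M.sub_mem (hθ 2) (hθ 0))
  have g2 : x 2 ∈ M := by
    have : x 2 = ((x 1 + x 2 * (θ 0 + θ 2)) - (x 1 + x 2 * (θ 0 + θ 1))) / (θ 2 - θ 1) := by
      rw [eq_div_iff h12]; ring
    rw [this]; exact M.div_mem (M.sub_mem m2 m1) (M.sub_mem (hθ 2) (hθ 1))
  have g1 : x 1 ∈ M := by
    have : x 1 = (x 1 + x 2 * (θ 0 + θ 1)) - x 2 * (θ 0 + θ 1) := by ring
    rw [this]; exact M.sub_mem m1 (M.mul_mem g2 (M.add_mem (hθ 0) (hθ 1)))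
  have g0 : x 0 ∈ M := by
    have : x 0 = ev x (θ 0) - x 1 * θ 0 - x 2 * θ 0 ^ 2 := by simp only [ev]; ring
    rw [this]
    exact M.sub_mem (M.sub_mem (hv 0) (M.mul_mem g1 (hθ 0))) (M.mul_mem g2 (pow_mem (hθ 0) 2))
  intro j
  fin_cases j
  · exact g0
  · exact g1
  · exact g2

section CoLemmas

variable {K : IntermediateField F Ω} {θ : Fin 3 → Ω}

theorem Co.congr {v w : Fin 3 → Ω} (hv : Co K θ v) (h : ∀ i, w i = v i) : Co K θ w := by
  obtain ⟨x, hx, hv⟩ := hv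
  exact ⟨x, hx, fun i => by rw [h i, hv i]⟩

theorem Co.mono {K' : IntermediateField F Ω} (hK : K ≤ K') {v : Fin 3 → Ω} (hv : Co K θ v) :
    Co K' θ v := by
  obtain ⟨x, hx, hv⟩ := hv
  exact ⟨x, fun j => hK (hx j), hv⟩

theorem Co.of (x : Fin 3 → Ω) (hx : ∀ j, x j ∈ K) : Co K θ (fun i => ev x (θ i)) :=
  ⟨x, hx, fun _ => rfl⟩

theorem Co.const (a : Ω) (ha : a ∈ K) : Co K θ (fun _ => a) := by
  refine ⟨![a, 0, 0], ?_, ?_⟩
  · intro j
    fin_cases j
    · exact ha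
    · exact K.zero_mem
    · exact K.zero_mem
  · intro i; simp [ev]

theorem Co.constF (a : F) : Co K θ (fun _ => algebraMap F Ω a) :=
  Co.const _ (K.algebraMap_mem a)

theorem Co.theta : Co K θ θ := by
  refine ⟨![0, 1, 0], ?_, ?_⟩
  · intro j
    fin_cases j
    · exact K.zero_mem
    · exact K.one_mem
    · exact K.zero_mem
  · intro i; simp [ev]

theorem Co.add {v w : Fin 3 → Ω} (hv : Co K θ v) (hw : Co K θ w) :
    Co K θ (fun i => v i + w i) := by
  obtain ⟨x, hx, hv⟩ := hv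
  obtain ⟨y, hy, hw⟩ := hw
  exact ⟨fun j => x j + y j, fun j => K.add_mem (hx j) (hy j),
    fun i => by show v i + w i = _; rw [hv i, hw i]; simp only [ev]; ring⟩

theorem Co.neg {v : Fin 3 → Ω} (hv : Co K θ v) : Co K θ (fun i => - v i) := by
  obtain ⟨x, hx, hv⟩ := hv
  exact ⟨fun j => - x j, fun j => K.neg_mem (hx j), fun i => by show - v i = _; rw [hv i]; simp only [ev]; ring⟩

theorem Co.sub {v w : Fin 3 → Ω} (hv : Co K θ v) (hw : Co K θ w) :
    Co K θ (fun i => v i - w i) :=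
  (hv.add hw.neg).congr (fun i => by ring)

theorem Co.mul (hθ : IsCubic F θ) {v w : Fin 3 → Ω} (hv : Co K θ v) (hw : Co K θ w) :
    Co K θ (fun i => v i * w i) := by
  obtain ⟨x, hx, hv⟩ := hv
  obtain ⟨y, hy, hw⟩ := hw
  obtain ⟨s₁, s₂, s₃, hs⟩ := cube θ hθ
  have m1 := K.algebraMap_mem s₁
  have m2 := K.algebraMap_mem s₂
  have m3 := K.algebraMap_mem s₃
  set a₁ := algebraMap F Ω s₁
  set a₂ := algebraMap F Ω s₂
  set a₃ := algebraMap F Ω s₃
  have hc3 : x 1 * y 2 + x 2 * y 1 ∈ K := K.add_mem (K.mul_mem (hx 1) (hy 2)) (K.mul_mem (hx 2) (hy 1))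
  have hc4 : x 2 * y 2 ∈ K := K.mul_mem (hx 2) (hy 2)
  refine ⟨![x 0 * y 0 + a₃ * (x 1 * y 2 + x 2 * y 1) + a₁ * a₃ * (x 2 * y 2),
    x 0 * y 1 + x 1 * y 0 - a₂ * (x 1 * y 2 + x 2 * y 1) + (a₃ - a₁ * a₂) * (x 2 * y 2),
    x 0 * y 2 + x 1 * y 1 + x 2 * y 0 + a₁ * (x 1 * y 2 + x 2 * y 1) +
      (a₁ ^ 2 - a₂) * (x 2 * y 2)], ?_, ?_⟩
  · intro j
    fin_cases j
    · exact K.add_mem (K.add_mem (K.mul_mem (hx 0) (hy 0)) (K.mul_mem m3 hc3))
        (K.mul_mem (K.mul_mem m1 m3) hc4)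
    · exact K.add_mem (K.sub_mem (K.add_mem (K.mul_mem (hx 0) (hy 1)) (K.mul_mem (hx 1) (hy 0)))
        (K.mul_mem m2 hc3)) (K.mul_mem (K.sub_mem m3 (K.mul_mem m1 m2)) hc4)
    · exact K.add_mem (K.add_mem (K.add_mem (K.add_mem (K.mul_mem (hx 0) (hy 2))
        (K.mul_mem (hx 1) (hy 1))) (K.mul_mem (hx 2) (hy 0))) (K.mul_mem m1 hc3))
        (K.mul_mem (K.sub_mem (pow_mem m1 2) m2) hc4)
  · intro i
    show v i * w i = _
    rw [hv i, hw i]
    simp only [ev, Matrix.cons_val_zero, Matrix.cons_val_one, Matrix.cons_val]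
    have h3 := hs i
    have h4 : θ i ^ 4 = (a₁ ^ 2 - a₂) * θ i ^ 2 + (a₃ - a₁ * a₂) * θ i + a₁ * a₃ := by
      linear_combination (θ i + a₁) * h3
    linear_combination (x 1 * y 2 + x 2 * y 1) * h3 + (x 2 * y 2) * h4

/-- A constant family has its value in `K`. -/
theorem Co.const_mem (hθ : Function.Injective θ) {a : Ω} (h : Co K θ (fun _ => a)) : a ∈ K := by
  obtain ⟨x, hx, hv⟩ := h
  have : x = ![a, 0, 0] := by
    apply uniq θ hθ
    intro i
    rw [← hv i]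
    simp [ev]
  have h0 : x 0 = a := by rw [this]; simp
  rw [← h0]
  exact hx 0

/-- The two conjugates different from the given one. -/
theorem Co.adj (hθ : IsCubic F θ) {v : Fin 3 → Ω} (hv : Co K θ v) :
    Co K θ (fun i => v (i + 1) * v (i + 2)) := by
  obtain ⟨x, hx, hv⟩ := hv
  obtain ⟨s₁, s₂, s₃, h1, h2, h3⟩ := sym θ hθ
  have m1 := K.algebraMap_mem s₁
  have m2 := K.algebraMap_mem s₂
  have m3 := K.algebraMap_mem s₃
  have hP : Co K θ (fun i => algebraMap F Ω s₁ - θ i) := (Co.const _ m1).sub Co.theta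
  have hQ : Co K θ (fun i => algebraMap F Ω s₂ - θ i * (algebraMap F Ω s₁ - θ i)) :=
    (Co.const _ m2).sub (Co.mul hθ Co.theta hP)
  have e1 : ∀ i, θ (i + 1) + θ (i + 2) = algebraMap F Ω s₁ - θ i := by
    intro i
    rw [← h1]
    fin_cases i
    · show θ 1 + θ 2 = _ - θ 0
      ring
    · show θ 2 + θ 0 = _ - θ 1
      ring
    · show θ 0 + θ 1 = _ - θ 2
      ring
  have e2 : ∀ i, θ (i + 1) * θ (i + 2) =
      algebraMap F Ω s₂ - θ i * (algebraMap F Ω s₁ - θ i) := by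
    intro i
    rw [← h1, ← h2]
    fin_cases i
    · show θ 1 * θ 2 = _ - θ 0 * (_ - θ 0)
      ring
    · show θ 2 * θ 0 = _ - θ 1 * (_ - θ 1)
      ring
    · show θ 0 * θ 1 = _ - θ 2 * (_ - θ 2)
      ring
  have hPQ := Co.mul hθ hP hQ
  have hPP := Co.mul hθ hP hP
  have hQQ := Co.mul hθ hQ hQ
  have c00 := Co.const (K := K) (θ := θ) _ (K.mul_mem (hx 0) (hx 0))
  have c01 := Co.const (K := K) (θ := θ) _ (K.mul_mem (hx 0) (hx 1))
  have c02 := Co.const (K := K) (θ := θ) _ (K.mul_mem (hx 0) (hx 2))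
  have c11 := Co.const (K := K) (θ := θ) _ (K.mul_mem (hx 1) (hx 1))
  have c12 := Co.const (K := K) (θ := θ) _ (K.mul_mem (hx 1) (hx 2))
  have c22 := Co.const (K := K) (θ := θ) _ (K.mul_mem (hx 2) (hx 2))
  refine (((((c00.add (Co.mul hθ c01 hP)).add (Co.mul hθ c02 (hPP.sub (hQ.add hQ)))).add
    (Co.mul hθ c11 hQ)).add (Co.mul hθ c12 hPQ)).add (Co.mul hθ c22 hQQ)).congr ?_
  intro i
  simp only [hv, ev]
  rw [← e2 i, ← e1 i]
  ring

theorem prod_eq (v : Fin 3 → Ω) (i : Fin 3) : v i * (v (i + 1) * v (i + 2)) = v 0 * v 1 * v 2 := by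
  fin_cases i
  · show v 0 * (v 1 * v 2) = _
    ring
  · show v 1 * (v 2 * v 0) = _
    ring
  · show v 2 * (v 0 * v 1) = _
    ring

theorem Co.prod_mem (hθ : IsCubic F θ) {v : Fin 3 → Ω} (hv : Co K θ v) :
    v 0 * v 1 * v 2 ∈ K :=
  Co.const_mem hθ.1 ((Co.mul hθ hv (hv.adj hθ)).congr (fun i => (prod_eq v i).symm))

theorem Co.sum_mem (hθ : IsCubic F θ) {v : Fin 3 → Ω} (hv : Co K θ v) :
    v 0 + v 1 + v 2 ∈ K := by
  obtain ⟨x, hx, hv⟩ := hv
  obtain ⟨s₁, s₂, s₃, h1, h2, h3⟩ := sym θ hθ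
  have m1 := K.algebraMap_mem s₁
  have m2 := K.algebraMap_mem s₂
  have : v 0 + v 1 + v 2 = x 0 + x 0 + x 0 + x 1 * algebraMap F Ω s₁ +
      x 2 * (algebraMap F Ω s₁ ^ 2 - (algebraMap F Ω s₂ + algebraMap F Ω s₂)) := by
    rw [hv 0, hv 1, hv 2, ← h1, ← h2]
    simp only [ev]
    ring
  rw [this]
  exact K.add_mem (K.add_mem (K.add_mem (K.add_mem (hx 0) (hx 0)) (hx 0)) (K.mul_mem (hx 1) m1))
    (K.mul_mem (hx 2) (K.sub_mem (pow_mem m1 2) (K.add_mem m2 m2)))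

/-- Inverses. -/
theorem Co.inv (hθ : IsCubic F θ) {v : Fin 3 → Ω} (hv : Co K θ v) (h0 : ∀ i, v i ≠ 0) :
    Co K θ (fun i => (v i)⁻¹) := by
  have hN : v 0 * v 1 * v 2 ≠ 0 := mul_ne_zero (mul_ne_zero (h0 0) (h0 1)) (h0 2)
  refine (Co.mul hθ (hv.adj hθ) (Co.const _ (K.inv_mem (hv.prod_mem hθ)))).congr ?_
  intro i
  rw [← prod_eq v i] at hN ⊢
  have h1 : v i ≠ 0 := h0 i
  have h2 : v (i + 1) * v (i + 2) ≠ 0 := by
    intro h
    rw [h] at hN
    simp at hN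
  field_simp
  rw [div_self h2]

theorem Co.div (hθ : IsCubic F θ) {v w : Fin 3 → Ω} (hv : Co K θ v) (hw : Co K θ w)
    (h0 : ∀ i, w i ≠ 0) : Co K θ (fun i => v i / w i) :=
  (Co.mul hθ hv (hw.inv hθ h0)).congr (fun i => by rw [div_eq_mul_inv])

/-- The irreducible polynomial stays irreducible over a field in which `F` is algebraically
closed. -/
theorem degree_three (hθ : IsCubic F θ)
    (hK : ∀ x ∈ K, IsAlgebraic F x → x ∈ (algebraMap F Ω).range) (i : Fin 3) :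
    (minpoly K (θ i)).natDegree = 3 := by
  obtain ⟨hinj, g, hg, hgp⟩ := hθ
  have hmon : g.Monic := by
    have : (g.map (algebraMap F Ω)).Monic := by
      rw [hgp]; exact monic_prod_of_monic _ _ (fun i _ => monic_X_sub_C _)
    exact Polynomial.monic_of_injective (algebraMap F Ω).injective this
  have hdeg : g.natDegree = 3 := by
    rw [← Polynomial.natDegree_map (algebraMap F Ω), hgp,
      natDegree_prod_of_monic _ _ (fun i _ => monic_X_sub_C _)]
    simp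
  have hirr : Irreducible (g.map (algebraMap F K)) := by
    have hm : (g.map (algebraMap F K)).Monic := hmon.map _
    have hd : (g.map (algebraMap F K)).natDegree = 3 := by rw [Polynomial.natDegree_map, hdeg]
    rw [Polynomial.Monic.irreducible_iff_roots_eq_zero_of_degree_le_three hm (by omega) (by omega)]
    rw [Multiset.eq_zero_iff_forall_notMem]
    intro r hr
    rw [mem_roots hm.ne_zero, IsRoot.def, eval_map_algebraMap] at hr
    have hr' : aeval (r : Ω) g = 0 := by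
      have := congrArg (algebraMap K Ω) hr
      rw [← aeval_algebraMap_apply] at this
      simpa using this
    have halg : IsAlgebraic F (r : Ω) := ⟨g, hg.ne_zero, hr'⟩
    obtain ⟨a, ha⟩ := hK r r.2 halg
    have : aeval (algebraMap F Ω a) g = 0 := by rw [ha]; exact hr'
    rw [aeval_algebraMap_apply, map_eq_zero] at this
    have h1 : g.degree = 1 := degree_eq_one_of_irreducible_of_root hg
      (by rw [IsRoot.def]; simpa [coe_aeval_eq_eval] using this)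
    have h2 : g.natDegree = 1 := natDegree_eq_of_degree_eq_some h1
    omega
  have hroot : aeval (θ i) (g.map (algebraMap F K)) = 0 := by
    rw [aeval_map_algebraMap, ← eval_map_algebraMap, hgp, eval_prod]
    apply Finset.prod_eq_zero (Finset.mem_univ i)
    simp
  have := minpoly.eq_of_irreducible_of_monic hirr hroot (hmon.map _)
  rw [← this, Polynomial.natDegree_map, hdeg]

/-- Nonzero coordinates have nonzero values. -/
theorem ev_ne_zero (hθ : IsCubic F θ)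
    (hK : ∀ x ∈ K, IsAlgebraic F x → x ∈ (algebraMap F Ω).range) (x : Fin 3 → Ω)
    (hx : ∀ j, x j ∈ K) (h0 : x ≠ 0) (i : Fin 3) : ev x (θ i) ≠ 0 := by
  intro h
  have hd := degree_three hθ hK i
  set p : Polynomial K := C ⟨x 0, hx 0⟩ + C ⟨x 1, hx 1⟩ * X + C ⟨x 2, hx 2⟩ * X ^ 2 with hp
  have hp0 : p ≠ 0 := by
    intro hp0
    apply h0
    have c0 : p.coeff 0 = ⟨x 0, hx 0⟩ := by rw [hp]; simp [coeff_C, coeff_X, coeff_X_pow]
    have c1 : p.coeff 1 = ⟨x 1, hx 1⟩ := by rw [hp]; simp [coeff_C, coeff_X, coeff_X_pow]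
    have c2 : p.coeff 2 = ⟨x 2, hx 2⟩ := by rw [hp]; simp [coeff_C, coeff_X, coeff_X_pow]
    rw [hp0] at c0 c1 c2
    funext j
    fin_cases j
    · exact (congrArg Subtype.val c0).symm
    · exact (congrArg Subtype.val c1).symm
    · exact (congrArg Subtype.val c2).symm
  have hr : aeval (θ i) p = 0 := by
    rw [hp]
    simp only [map_add, map_mul, map_pow, aeval_C, aeval_X]
    exact h
  have h1 := minpoly.dvd K (θ i) hr
  have h2 := natDegree_le_of_dvd h1 hp0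
  have h3 : p.natDegree ≤ 2 := by
    rw [hp]
    compute_degree
  omega

theorem Co.ne_zero (hθ : IsCubic F θ)
    (hK : ∀ x ∈ K, IsAlgebraic F x → x ∈ (algebraMap F Ω).range) {v : Fin 3 → Ω}
    (hv : Co K θ v) (h0 : v ≠ 0) (i : Fin 3) : v i ≠ 0 := by
  obtain ⟨x, hx, hv⟩ := hv
  rw [hv i]
  apply ev_ne_zero hθ hK x hx
  intro hx0
  apply h0
  funext j
  rw [hv j, hx0]
  simp [ev]

end CoLemmas

end Pool.Agent.Helper95K9.IR.Six
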