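import Pool.Agent.Helper95K9.IR.Six

/-!
Degree of irrationality of del Pezzo surfaces: tools for degree six, second part (twisting,
Galois closure, degrees over the Galois closure).
-/

set_option autoImplicit false

namespace Pool.Agent.Helper95K9.IR.Six

open Polynomial IntermediateField

universe u

variable {F Ω : Type u} [Field F] [Field Ω] [Algebra F Ω]

theorem quad {ω ω' : Ω} (h : IsQuad F ω ω') : ∃ A B : F, ω + ω' = algebraMap F Ω B ∧
    ω * ω' = - algebraMap F Ω A := by
  obtain ⟨-, g, -, hg⟩ := h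
  have h0 := congrArg (fun p => p.coeff 0) hg
  have h1 := congrArg (fun p => p.coeff 1) hg
  have hexp : ((X - C ω) * (X - C ω') : Polynomial Ω) = X ^ 2 - C (ω + ω') * X + C (ω * ω') := by
    simp only [map_add, map_mul]
    ring
  rw [hexp] at h0 h1
  simp only [coeff_map, coeff_sub, coeff_add, coeff_C_mul, coeff_X_pow, coeff_X, coeff_C] at h0 h1
  norm_num at h0 h1
  exact ⟨-g.coeff 0, -g.coeff 1, by rw [map_neg, h1]; ring, by rw [map_neg, h0]; ring⟩

theorem Co.coord {K : IntermediateField F Ω} {θ : Fin 3 → Ω} (hθ : Function.Injective θ)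
    {x : Fin 3 → Ω} (h : Co K θ (fun i => ev x (θ i))) : ∀ j, x j ∈ K := by
  obtain ⟨y, hy, hv⟩ := h
  have : x = y := uniq θ hθ x y hv
  rw [this]
  exact hy

theorem Co.ofF {K : IntermediateField F Ω} {θ : Fin 3 → Ω} (x : Fin 3 → Ω) (hx : InF F x) :
    Co K θ (fun i => ev x (θ i)) := by
  refine Co.of x (fun j => ?_)
  obtain ⟨a, ha⟩ := hx j
  rw [← ha]
  exact K.algebraMap_mem a

theorem adj_le {x y : Fin 3 → Ω} {M : IntermediateField F Ω} (hx : ∀ j, x j ∈ M)
    (hy : ∀ j, y j ∈ M) : adjoin F (Set.range x ∪ Set.range y) ≤ M := by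
  rw [adjoin_le_iff]
  rintro z (⟨j, rfl⟩ | ⟨j, rfl⟩)
  · exact hx j
  · exact hy j

theorem mem_adj_l (x y : Fin 3 → Ω) (j : Fin 3) : x j ∈ adjoin F (Set.range x ∪ Set.range y) :=
  subset_adjoin F _ (Or.inl ⟨j, rfl⟩)

theorem mem_adj_r (x y : Fin 3 → Ω) (j : Fin 3) : y j ∈ adjoin F (Set.range x ∪ Set.range y) :=
  subset_adjoin F _ (Or.inr ⟨j, rfl⟩)

/-- [TW] Twisting by an element with coordinates in `F`. -/
theorem twist {θ : Fin 3 → Ω} {ω ω' : Ω} (hθ : IsCubic F θ) (hω : IsQuad F ω ω')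
    (K : IntermediateField F Ω) (x y : Fin 3 → Ω)
    (hxy : adjoin F (Set.range x ∪ Set.range y) = K) (X Y : Fin 3 → Ω) (hX : InF F X)
    (hY : InF F Y) (hn : ∀ i, zz θ ω X Y i * zz θ ω' X Y i ≠ 0) :
    ∃ x' y' : Fin 3 → Ω, adjoin F (Set.range x' ∪ Set.range y') = K ∧
      (∀ i, zz θ ω x y i = zz θ ω x' y' i * zz θ ω X Y i) ∧
      (∀ i, zz θ ω' x y i = zz θ ω' x' y' i * zz θ ω' X Y i) := by
  obtain ⟨A, B, hB, hA⟩ := quad hω
  set a := algebraMap F Ω A with ha
  set b := algebraMap F Ω B with hb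
  have hA' : a = - (ω * ω') := by rw [hA]; ring
  have hB' : b = ω + ω' := hB.symm
  have hxK : ∀ j, x j ∈ K := fun j => hxy ▸ mem_adj_l x y j
  have hyK : ∀ j, y j ∈ K := fun j => hxy ▸ mem_adj_r x y j
  have cx := Co.of (K := K) (θ := θ) x hxK
  have cy := Co.of (K := K) (θ := θ) y hyK
  have cX := Co.ofF (K := K) (θ := θ) X hX
  have cY := Co.ofF (K := K) (θ := θ) Y hY
  have ca : Co K θ (fun _ => a) := Co.constF A
  have cb : Co K θ (fun _ => b) := Co.constF B
  have cn : Co K θ (fun i => zz θ ω X Y i * zz θ ω' X Y i) := by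
    refine (((cX.mul hθ cX).add ((cb.mul hθ cX).mul hθ cY)).sub ((ca.mul hθ cY).mul hθ cY)).congr ?_
    intro i
    simp only [zz]
    rw [hA', hB']
    ring
  have cx' := ((((cx.mul hθ cX).add ((cb.mul hθ cx).mul hθ cY)).sub
    ((ca.mul hθ cy).mul hθ cY))).div hθ cn hn
  have cy' := ((cy.mul hθ cX).sub (cx.mul hθ cY)).div hθ cn hn
  obtain ⟨x', hx', hvx⟩ := cx'
  obtain ⟨y', hy', hvy⟩ := cy'
  have e1 : ∀ i, zz θ ω x y i = zz θ ω x' y' i * zz θ ω X Y i := by
    intro i
    have h1 := hvx i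
    have h2 := hvy i
    have h3 := hn i
    have hm : zz θ ω X Y i ≠ 0 := left_ne_zero_of_mul h3
    have hm' : zz θ ω' X Y i ≠ 0 := right_ne_zero_of_mul h3
    rw [div_eq_iff h3] at h1 h2
    have : zz θ ω x' y' i = ev x' (θ i) + ω * ev y' (θ i) := rfl
    apply mul_right_cancel₀ hm'
    have e : zz θ ω x y i * zz θ ω' X Y i =
        (ev x (θ i) * ev X (θ i) + b * ev x (θ i) * ev Y (θ i) - a * ev y (θ i) * ev Y (θ i)) +
        ω * (ev y (θ i) * ev X (θ i) - ev x (θ i) * ev Y (θ i)) := by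
      rw [hA', hB']
      simp only [zz]
      ring
    rw [e, h1, h2, this]
    ring
  have e2 : ∀ i, zz θ ω' x y i = zz θ ω' x' y' i * zz θ ω' X Y i := by
    intro i
    have h1 := hvx i
    have h2 := hvy i
    have h3 := hn i
    have hm : zz θ ω X Y i ≠ 0 := left_ne_zero_of_mul h3
    have hm' : zz θ ω' X Y i ≠ 0 := right_ne_zero_of_mul h3
    rw [div_eq_iff h3] at h1 h2
    have : zz θ ω' x' y' i = ev x' (θ i) + ω' * ev y' (θ i) := rfl
    apply mul_right_cancel₀ hm
    have e : zz θ ω' x y i * zz θ ω X Y i =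
        (ev x (θ i) * ev X (θ i) + b * ev x (θ i) * ev Y (θ i) - a * ev y (θ i) * ev Y (θ i)) +
        ω' * (ev y (θ i) * ev X (θ i) - ev x (θ i) * ev Y (θ i)) := by
      rw [hA', hB']
      simp only [zz]
      ring
    rw [e, h1, h2, this]
    ring
  refine ⟨x', y', le_antisymm (adj_le hx' hy') ?_, e1, e2⟩
  rw [← hxy]
  set K' := adjoin F (Set.range x' ∪ Set.range y') with hK'
  have dx := Co.of (K := K') (θ := θ) x' (fun j => mem_adj_l x' y' j)
  have dy := Co.of (K := K') (θ := θ) y' (fun j => mem_adj_r x' y' j)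
  have dX := Co.ofF (K := K') (θ := θ) X hX
  have dY := Co.ofF (K := K') (θ := θ) Y hY
  have da : Co K' θ (fun _ => a) := Co.constF A
  have db : Co K' θ (fun _ => b) := Co.constF B
  have hne : ω - ω' ≠ 0 := sub_ne_zero.2 hω.1
  have key : ∀ i, ev x (θ i) = ev x' (θ i) * ev X (θ i) + a * ev y' (θ i) * ev Y (θ i) ∧
      ev y (θ i) = ev y' (θ i) * ev X (θ i) + ev x' (θ i) * ev Y (θ i) +
        b * ev y' (θ i) * ev Y (θ i) := by
    intro i
    have h1 := e1 i
    have h2 := e2 i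
    simp only [zz] at h1 h2
    rw [hA', hB']
    have k2 : ev y (θ i) = ev y' (θ i) * ev X (θ i) + ev x' (θ i) * ev Y (θ i) +
        (ω + ω') * ev y' (θ i) * ev Y (θ i) := by
      apply mul_left_cancel₀ hne
      linear_combination h1 - h2
    refine ⟨?_, k2⟩
    rw [k2] at h1
    linear_combination h1
  apply adj_le
  · exact Co.coord hθ.1 (((dx.mul hθ dX).add ((da.mul hθ dy).mul hθ dY)).congr
      (fun i => (key i).1))
  · exact Co.coord hθ.1 ((((dy.mul hθ dX).add (dx.mul hθ dY)).add ((db.mul hθ dy).mul hθ dY)).congr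
      (fun i => (key i).2))

/-- The coordinates lie in every field which contains the `θ i`, `ω`, `ω'` and the values. -/
theorem le_of_values {θ : Fin 3 → Ω} {ω ω' : Ω} (hθ : Function.Injective θ) (hω : ω ≠ ω')
    (x y : Fin 3 → Ω) (M : IntermediateField F Ω) (hM : ∀ i, θ i ∈ M) (h1 : ω ∈ M) (h2 : ω' ∈ M)
    (hz : ∀ i, zz θ ω x y i ∈ M) (hz' : ∀ i, zz θ ω' x y i ∈ M) :
    adjoin F (Set.range x ∪ Set.range y) ≤ M := by
  have hne : ω - ω' ≠ 0 := sub_ne_zero.2 hω
  have hy : ∀ i, ev y (θ i) ∈ M := by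
    intro i
    have : ev y (θ i) = (zz θ ω x y i - zz θ ω' x y i) / (ω - ω') := by
      rw [eq_div_iff hne]
      simp only [zz]
      ring
    rw [this]
    exact M.div_mem (M.sub_mem (hz i) (hz' i)) (M.sub_mem h1 h2)
  have hx : ∀ i, ev x (θ i) ∈ M := by
    intro i
    have : ev x (θ i) = zz θ ω x y i - ω * ev y (θ i) := by
      simp only [zz]
      ring
    rw [this]
    exact M.sub_mem (hz i) (M.mul_mem h1 (hy i))
  exact adj_le (coord_mem θ hθ x M hM hx) (coord_mem θ hθ y M hM hy)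

/-! ### The Galois closure -/

theorem gal_of (p : Polynomial F) (hs : (p.map (algebraMap F Ω)).Splits)
    (hsep : ∀ x ∈ p.rootSet Ω, IsSeparable F x) :
    IsGalois F (adjoin F (p.rootSet Ω)) ∧ FiniteDimensional F (adjoin F (p.rootSet Ω)) := by
  have h1 := adjoin_rootSet_isSplittingField hs
  have h2 : Normal F (adjoin F (p.rootSet Ω)) := Normal.of_isSplittingField (hFEp := h1) p
  have h3 : Algebra.IsSeparable F (adjoin F (p.rootSet Ω)) :=
    (isSeparable_adjoin_iff_isSeparable F Ω).2 hsep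
  have h4 : FiniteDimensional F (adjoin F (p.rootSet Ω)) :=
    Polynomial.IsSplittingField.finiteDimensional _ p
  exact ⟨{ }, h4⟩

theorem sep_of (g : Polynomial F) (hg : Irreducible g) (hm : g.Monic)
    (hs : (g.map (algebraMap F Ω)).Separable) (x : Ω) (hx : aeval x g = 0) : IsSeparable F x := by
  have : minpoly F x = g := (minpoly.eq_of_irreducible_of_monic hg hx hm).symm
  unfold IsSeparable
  rw [this]
  exact (separable_map (algebraMap F Ω)).1 hs

theorem gal3 {θ : Fin 3 → Ω} (hθ : IsCubic F θ) :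
    IsGalois F (adjoin F (Set.range θ)) ∧ FiniteDimensional F (adjoin F (Set.range θ)) := by
  obtain ⟨hinj, g, hg, hgp⟩ := hθ
  have hmon : g.Monic := by
    have : (g.map (algebraMap F Ω)).Monic := by
      rw [hgp]; exact monic_prod_of_monic _ _ (fun i _ => monic_X_sub_C _)
    exact Polynomial.monic_of_injective (algebraMap F Ω).injective this
  have hroot : g.rootSet Ω = Set.range θ := by
    ext z
    rw [mem_rootSet, ← eval_map_algebraMap, hgp, eval_prod, Finset.prod_eq_zero_iff]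
    constructor
    · rintro ⟨-, i, -, hi⟩
      refine ⟨i, ?_⟩
      simp only [eval_sub, eval_X, eval_C] at hi
      exact (sub_eq_zero.1 hi).symm
    · rintro ⟨i, rfl⟩
      exact ⟨hg.ne_zero, i, Finset.mem_univ _, by simp⟩
  have hsep : (g.map (algebraMap F Ω)).Separable := by
    rw [hgp]
    exact separable_prod_X_sub_C_iff.2 hinj
  rw [← hroot]
  apply gal_of g
  · rw [hgp]
    exact Polynomial.Splits.prod (fun i _ => Polynomial.Splits.X_sub_C _)
  · intro x hx
    exact sep_of g hg hmon hsep x (aeval_eq_zero_of_mem_rootSet hx)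

/-- The Galois closure. -/
theorem gal6 {θ : Fin 3 → Ω} {ω ω' : Ω} (hθ : IsCubic F θ) (hω : IsQuad F ω ω') :
    IsGalois F (adjoin F (Set.range θ ∪ {ω, ω'})) ∧
      FiniteDimensional F (adjoin F (Set.range θ ∪ {ω, ω'})) := by
  obtain ⟨hinj, g, hg, hgp⟩ := hθ
  obtain ⟨hne, h, hh, hhp⟩ := hω
  have hmon : g.Monic := by
    have : (g.map (algebraMap F Ω)).Monic := by
      rw [hgp]; exact monic_prod_of_monic _ _ (fun i _ => monic_X_sub_C _)
    exact Polynomial.monic_of_injective (algebraMap F Ω).injective this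
  have hmon' : h.Monic := by
    have : (h.map (algebraMap F Ω)).Monic := by
      rw [hhp]; exact (monic_X_sub_C _).mul (monic_X_sub_C _)
    exact Polynomial.monic_of_injective (algebraMap F Ω).injective this
  have hroot : ∀ z, aeval z g = 0 ↔ z ∈ Set.range θ := by
    intro z
    rw [← eval_map_algebraMap, hgp, eval_prod, Finset.prod_eq_zero_iff]
    constructor
    · rintro ⟨i, -, hi⟩
      refine ⟨i, ?_⟩
      simp only [eval_sub, eval_X, eval_C] at hi
      exact (sub_eq_zero.1 hi).symm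
    · rintro ⟨i, rfl⟩
      exact ⟨i, Finset.mem_univ _, by simp⟩
  have hroot' : ∀ z, aeval z h = 0 ↔ z ∈ ({ω, ω'} : Set Ω) := by
    intro z
    rw [← eval_map_algebraMap, hhp]
    simp only [eval_mul, eval_sub, eval_X, eval_C, mul_eq_zero, sub_eq_zero,
      Set.mem_insert_iff, Set.mem_singleton_iff]
  have hsep : (g.map (algebraMap F Ω)).Separable := by
    rw [hgp]
    exact separable_prod_X_sub_C_iff.2 hinj
  have hsep' : (h.map (algebraMap F Ω)).Separable := by
    rw [hhp]
    have : ((X - C ω) * (X - C ω') : Polynomial Ω) = ∏ i : Fin 2, (X - C ((![ω, ω'] : Fin 2 → Ω) i)) := by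
      rw [Fin.prod_univ_two]
      simp
    rw [this, separable_prod_X_sub_C_iff]
    intro i j hij
    fin_cases i <;> fin_cases j
    · rfl
    · exact absurd hij hne
    · exact absurd hij.symm hne
    · rfl
  have hroot2 : (g * h).rootSet Ω = Set.range θ ∪ {ω, ω'} := by
    ext z
    rw [mem_rootSet, map_mul, mul_eq_zero, hroot, hroot']
    constructor
    · rintro ⟨-, h⟩
      exact h
    · intro h
      exact ⟨mul_ne_zero hg.ne_zero hh.ne_zero, h⟩
  rw [← hroot2]
  apply gal_of (g * h)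
  · rw [Polynomial.map_mul, hgp, hhp]
    exact (Polynomial.Splits.prod (fun i _ => Polynomial.Splits.X_sub_C _)).mul
      ((Polynomial.Splits.X_sub_C _).mul (Polynomial.Splits.X_sub_C _))
  · intro x hx
    rw [hroot2] at hx
    rcases hx with hx | hx
    · exact sep_of g hg hmon hsep x ((hroot x).2 hx)
    · exact sep_of h hh hmon' hsep' x ((hroot' x).2 hx)

theorem inf_bot {K G : IntermediateField F Ω} (hK : IsSurfaceField F K)
    (hG : FiniteDimensional F G) : K ⊓ G = ⊥ := by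
  rw [eq_bot_iff]
  rintro z ⟨h1, h2⟩
  have halg : IsAlgebraic F (⟨z, h2⟩ : G) := Algebra.IsAlgebraic.isAlgebraic _
  have halg' : IsAlgebraic F z := halg.algebraMap (A := Ω)
  have halg'' : IsAlgebraic F (⟨z, h1⟩ : K) := by
    rwa [← isAlgebraic_algebraMap_iff (A := Ω) (algebraMap K Ω).injective]
  obtain ⟨a, ha⟩ := hK.2 _ halg''
  rw [mem_bot]
  exact ⟨a, by rw [IsScalarTower.algebraMap_apply F K Ω, ha]; rfl⟩

theorem alg_of_surface {K : IntermediateField F Ω} (hK : IsSurfaceField F K) :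
    ∀ x ∈ K, IsAlgebraic F x → x ∈ (algebraMap F Ω).range := by
  intro x hx hal
  have halg'' : IsAlgebraic F (⟨x, hx⟩ : K) := by
    rwa [← isAlgebraic_algebraMap_iff (A := Ω) (algebraMap K Ω).injective]
  obtain ⟨a, ha⟩ := hK.2 _ halg''
  exact ⟨a, by rw [IsScalarTower.algebraMap_apply F K Ω, ha]; rfl⟩

/-! ### Degrees -/

theorem relfinrank_sub {K : IntermediateField F Ω} (s t : K) :
    relfinrank (adjoin F ({(s : Ω), (t : Ω)} : Set Ω)) K =
      Module.finrank (adjoin F ({s, t} : Set K)) K := by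
  have h1 : (adjoin F ({s, t} : Set K)).map K.val = adjoin F ({(s : Ω), (t : Ω)} : Set Ω) := by
    rw [adjoin_map, Set.image_pair]
    rfl
  have h2 : (⊤ : IntermediateField F K).map K.val = K := by
    rw [← AlgHom.fieldRange_eq_map, fieldRange_val]
  rw [← relfinrank_top_right, ← relfinrank_map_map _ _ K.val, h1, h2]

/-- From a bound over the Galois closure to `HasDeg`. -/
theorem hasDeg_of_sup (hUB : S_UB.{u}) (hD : S_DESC.{u}) {K G : IntermediateField F Ω}
    (hK : IsSurfaceField F K) (hG : IsGalois F G ∧ FiniteDimensional F G) (s t : Ω) (hs : s ∈ K)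
    (ht : t ∈ K) (m : ℕ)
    (h : 0 < relfinrank (adjoin F ({s, t} : Set Ω) ⊔ G) (K ⊔ G) ∧
      relfinrank (adjoin F ({s, t} : Set Ω) ⊔ G) (K ⊔ G) ≤ m) :
    ∃ n, n ≤ m ∧ HasDeg F K n := by
  have hle : adjoin F ({s, t} : Set Ω) ≤ K := by
    rw [adjoin_le_iff]
    rintro z (rfl | rfl)
    · exact hs
    · exact ht
  have h1 := hD F Ω (adjoin F ({s, t} : Set Ω)) K G m hle hG.1 hG.2 (inf_bot hK hG.2) h.1 h.2
  have h2 := relfinrank_sub (K := K) ⟨s, hs⟩ ⟨t, ht⟩
  simp only at h2
  rw [h2] at h1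
  exact Tool.hasDeg_of hUB hK ⟨s, hs⟩ ⟨t, ht⟩ m h1.1 h1.2

theorem rational_of_hasDeg {K : Type u} [Field K] [Algebra F K]
    (h : ∃ n, n ≤ 1 ∧ HasDeg F K n) : Rational F K := by
  obtain ⟨n, hn, hpos, s, t, hst, hr⟩ := h
  have : n = 1 := by omega
  rw [this] at hr
  exact ⟨s, t, hst, finrank_eq_one_iff_eq_top.1 hr⟩

theorem adjoin_val_top (A : IntermediateField F Ω) (T : Set Ω) (S : Set (adjoin A T))
    (hS : Subtype.val '' S = T) : adjoin A S = ⊤ := by
  apply lift_injective
  rw [lift_adjoin, hS, lift_top]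

theorem relfinrank_adjoin (A : IntermediateField F Ω) (T : Set Ω) :
    relfinrank A (A ⊔ adjoin F T) = Module.finrank A (adjoin A T) := by
  have h : A ≤ A ⊔ adjoin F T := le_sup_left
  rw [relfinrank_eq_finrank_of_le h]
  have : extendScalars h = adjoin A T := by
    apply restrictScalars_injective F
    rw [extendScalars_restrictScalars, restrictScalars_adjoin_eq_sup]
  rw [this]

/-- Degree of an extension generated by a root of a polynomial. -/
theorem rel1 {A B : IntermediateField F Ω} (hAB : A ≤ B) (w : Ω) (hw : w ∈ B)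
    (hB : B ≤ A ⊔ adjoin F {w}) (p : Polynomial A) (hp : p ≠ 0) (m : ℕ) (hm : p.natDegree ≤ m)
    (h : aeval w p = 0) : 0 < relfinrank A B ∧ relfinrank A B ≤ m := by
  have hBe : B = A ⊔ adjoin F {w} := le_antisymm hB (sup_le hAB (by
    rw [adjoin_le_iff]; rintro z rfl; exact hw))
  rw [hBe, relfinrank_adjoin]
  have hmem : w ∈ adjoin A ({w} : Set Ω) := mem_adjoin_simple_self A w
  have htop : adjoin A ({⟨w, hmem⟩} : Set (adjoin A ({w} : Set Ω))) = ⊤ :=
    adjoin_val_top A {w} _ (by rw [Set.image_singleton])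
  apply Tool.finrank_le _ htop p hp m hm
  have : algebraMap (adjoin A ({w} : Set Ω)) Ω (aeval (⟨w, hmem⟩ : adjoin A ({w} : Set Ω)) p) = 0 := by
    rw [← aeval_algebraMap_apply]
    exact h
  exact (map_eq_zero _).1 this

end Pool.Agent.Helper95K9.IR.Six
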