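import Pool.Agent.Helper95K9.IR.SixLA

/-!
Degree of irrationality of del Pezzo surfaces: leaf 6L2.
-/

set_option autoImplicit false
set_option linter.unusedSimpArgs false
set_option linter.unusedSectionVars false

namespace Pool.Agent.Helper95K9.IR.SixL

open MvPolynomial
open scoped TensorProduct

universe u

/-- The polynomial with given coefficients. -/
noncomputable def pT {R : Type u} [CommRing R] (x : Fin 3 → R) : Polynomial R :=
  Polynomial.C (x 0) + Polynomial.C (x 1) * Polynomial.X + Polynomial.C (x 2) * Polynomial.X ^ 2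

theorem pT_aeval {R S : Type u} [CommRing R] [CommRing S] [Algebra R S] (x : Fin 3 → R) (t : S) :
    Polynomial.aeval t (pT x) = algebraMap R S (x 0) + algebraMap R S (x 1) * t +
      algebraMap R S (x 2) * t ^ 2 := by
  unfold pT
  simp

section Base

variable {F Ω : Type u} [Field F] [Field Ω] [Algebra F Ω] (K : IntermediateField F Ω)
  (E : IntermediateField F K)

theorem Phi_pT (x : Fin 3 → K) (t : Ω) : Nd.Phi E t (pT x) =
    (1 : Ω) ⊗ₜ[E] x 0 + t ⊗ₜ[E] x 1 + (t ^ 2) ⊗ₜ[E] x 2 := by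
  unfold pT
  simp only [map_add, map_mul, map_pow, Nd.Phi_C, Nd.Phi_X]
  simp [Algebra.TensorProduct.tmul_mul_tmul, Algebra.TensorProduct.tmul_pow]

theorem Phi_F (t : Ω) (a : F) : Nd.Phi E t (Polynomial.C (algebraMap F K a)) =
    (algebraMap F Ω a) ⊗ₜ[E] (1 : K) :=
  Nd.Phi_CF (F := F) (E := E) (K := K) (Ω := Ω) t a

/-- The key identity for `L(ω)`. -/
theorem key2 {θ : Fin 3 → Ω} {ω ω' : Ω} (hc : IsCubic F θ) (A B : F)
    (hB : algebraMap F Ω B = ω + ω') (hA : algebraMap F Ω A = -(ω * ω')) (b : Fin 3 → F)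
    (x y : Fin 3 → K)
    (h : ∀ i, zz θ ω (fun j => (x j : Ω)) (fun j => (y j : Ω)) i *
      zz θ ω' (fun j => (x j : Ω)) (fun j => (y j : Ω)) i =
        ev (fun j => algebraMap F Ω (b j)) (θ i)) (i : Fin 3) :
    (Nd.Phi E (θ i) (pT x) + (ω ⊗ₜ[E] (1 : K)) * Nd.Phi E (θ i) (pT y)) *
      (Nd.Phi E (θ i) (pT x) + (ω' ⊗ₜ[E] (1 : K)) * Nd.Phi E (θ i) (pT y)) =
      (ev (fun j => algebraMap F Ω (b j)) (θ i)) ⊗ₜ[E] (1 : K) := by
  obtain ⟨hinj, g, hgi, hg⟩ := hc
  have h1 := Nd.Phi_zero (F := F) (E := E) (K := K) (Ω := Ω) θ hinj g hg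
    (pT x * pT x + Polynomial.C (algebraMap F K B) * (pT x * pT y) -
      Polynomial.C (algebraMap F K A) * (pT y * pT y) -
      pT (fun j => algebraMap F K (b j))) (by
    intro l
    simp only [map_sub, map_add, map_mul, pT_aeval, Polynomial.aeval_C]
    have hl := h l
    unfold zz ev at hl
    have eB : algebraMap K Ω (algebraMap F K B) = ω + ω' := by
      rw [← hB]; rfl
    have eA : algebraMap K Ω (algebraMap F K A) = -(ω * ω') := by
      rw [← hA]; rfl
    have eb : ∀ j, algebraMap K Ω (algebraMap F K (b j)) = algebraMap F Ω (b j) := fun _ => rfl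
    have ex : ∀ z : K, algebraMap K Ω z = (z : Ω) := fun _ => rfl
    rw [eB, eA]
    simp only [eb]
    simp only [ex]
    linear_combination hl) i
  simp only [map_sub, map_add, map_mul, Phi_F] at h1
  rw [hB, hA] at h1
  have h2 : Nd.Phi E (θ i) (pT (fun j => algebraMap F K (b j))) =
      (ev (fun j => algebraMap F Ω (b j)) (θ i)) ⊗ₜ[E] (1 : K) := by
    unfold pT
    simp only [map_add, map_mul, map_pow, Phi_F, Nd.Phi_X]
    simp only [Algebra.TensorProduct.tmul_mul_tmul, Algebra.TensorProduct.tmul_pow, one_pow,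
      mul_one, ← TensorProduct.add_tmul]
    rfl
  rw [h2] at h1
  have h3 : ((ω + ω') ⊗ₜ[E] (1 : K) : Ω ⊗[E] K) = ω ⊗ₜ[E] (1 : K) + ω' ⊗ₜ[E] (1 : K) :=
    TensorProduct.add_tmul _ _ _
  have h4 : ((-(ω * ω')) ⊗ₜ[E] (1 : K) : Ω ⊗[E] K) =
      -((ω ⊗ₜ[E] (1 : K)) * (ω' ⊗ₜ[E] (1 : K))) := by
    rw [TensorProduct.neg_tmul, Algebra.TensorProduct.tmul_mul_tmul, one_mul]
  rw [h3, h4] at h1
  linear_combination h1

end Base

section Norm2

variable {F Ω : Type u} [Field F] [Field Ω] [Algebra F Ω]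

theorem quad_monic {ω ω' : Ω} {q : Polynomial F}
    (hq : q.map (algebraMap F Ω) = (Polynomial.X - Polynomial.C ω) *
      (Polynomial.X - Polynomial.C ω')) : q.Monic ∧ q.natDegree = 2 := by
  constructor
  · have h1 : (q.map (algebraMap F Ω)).Monic := by
      rw [hq]
      exact (Polynomial.monic_X_sub_C _).mul (Polynomial.monic_X_sub_C _)
    exact Polynomial.monic_of_injective (algebraMap F Ω).injective h1
  · rw [← Polynomial.natDegree_map (algebraMap F Ω), hq,
      (Polynomial.monic_X_sub_C _).natDegree_mul (Polynomial.monic_X_sub_C _)]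
    simp

/-- The norm of a relation over `L(ω)` from `K` to `F(s, t)`. -/
theorem norm2 (K L : IntermediateField F Ω) (s t : K) (n : ℕ)
    (hfr : Module.finrank (IntermediateField.adjoin F ({s, t} : Set K)) K = n) (hn : 0 < n)
    (θk : kk K L s t) {ω ω' : Ω} (hq : IsQuad F ω ω') (x y : Fin 3 → K) (β : Ω)
    (key : (Nd.Phi (IntermediateField.adjoin F ({s, t} : Set K)) (θk : Ω) (pT x) +
        (ω ⊗ₜ (1 : K)) * Nd.Phi (IntermediateField.adjoin F ({s, t} : Set K)) (θk : Ω) (pT y)) *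
      (Nd.Phi (IntermediateField.adjoin F ({s, t} : Set K)) (θk : Ω) (pT x) +
        (ω' ⊗ₜ (1 : K)) * Nd.Phi (IntermediateField.adjoin F ({s, t} : Set K)) (θk : Ω) (pT y)) =
      β ⊗ₜ (1 : K)) :
    ∃ u v : kk K L s t, ((u : Ω) + v * ω) * ((u : Ω) + v * ω') = β ^ n := by
  obtain ⟨q, -, hqm⟩ := hq.2
  obtain ⟨hmon, hdeg⟩ := quad_monic hqm
  let : Algebra (IntermediateField.adjoin F ({s, t} : Set K)) (kk K L s t) :=
    (jj K L s t).toAlgebra
  have : IsScalarTower (IntermediateField.adjoin F ({s, t} : Set K)) (kk K L s t) Ω :=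
    IsScalarTower.of_algebraMap_eq (fun _ => rfl)
  have : Module.Finite (IntermediateField.adjoin F ({s, t} : Set K)) K :=
    Module.finite_of_finrank_pos (by rw [hfr]; exact hn)
  let b := Module.finBasisOfFinrankEq (IntermediateField.adjoin F ({s, t} : Set K)) K hfr
  let z : Polynomial (kk K L s t) ⊗[IntermediateField.adjoin F ({s, t} : Set K)] K :=
    (1 ⊗ₜ x 0 + Polynomial.C θk ⊗ₜ x 1 + Polynomial.C (θk ^ 2) ⊗ₜ x 2) +
      (Polynomial.X ⊗ₜ (1 : K)) *
        (1 ⊗ₜ y 0 + Polynomial.C θk ⊗ₜ y 1 + Polynomial.C (θk ^ 2) ⊗ₜ y 2)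
  have hF : (algebraMap F Ω) = (algebraMap (kk K L s t) Ω).comp (algebraMap F (kk K L s t)) := rfl
  obtain ⟨r, hr, hrw⟩ := Nd.Nm_mod (Ω := Ω) b z (q.map (algebraMap F (kk K L s t)))
    (hmon.map _) (by
      intro h1
      have h2 : (q.map (algebraMap F (kk K L s t))).natDegree = 2 := by
        rw [Polynomial.natDegree_map, hdeg]
      rw [h1] at h2
      simp at h2)
  have hroot : ∀ w : Ω, Polynomial.eval w (q.map (algebraMap F Ω)) = 0 →
      Polynomial.aeval w (q.map (algebraMap F (kk K L s t))) = 0 := by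
    intro w hw
    rw [← Polynomial.eval_map_algebraMap, Polynomial.map_map, ← hF]
    exact hw
  have hz : ∀ w : Ω, Algebra.TensorProduct.map
        ((Polynomial.aeval w : Polynomial (kk K L s t) →ₐ[kk K L s t] Ω).restrictScalars
          (IntermediateField.adjoin F ({s, t} : Set K)))
        (AlgHom.id (IntermediateField.adjoin F ({s, t} : Set K)) K) z =
      Nd.Phi (IntermediateField.adjoin F ({s, t} : Set K)) (θk : Ω) (pT x) +
        (w ⊗ₜ (1 : K)) * Nd.Phi (IntermediateField.adjoin F ({s, t} : Set K)) (θk : Ω) (pT y) := by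
    intro w
    rw [Phi_pT, Phi_pT]
    simp only [z, map_add, map_mul, Algebra.TensorProduct.map_tmul, AlgHom.coe_id, id_eq,
      AlgHom.restrictScalars_apply, Polynomial.aeval_X, Polynomial.aeval_C, map_one, map_pow]
    rfl
  have h1 := hrw ω (hroot ω (by rw [hqm]; simp))
  have h2 := hrw ω' (hroot ω' (by rw [hqm]; simp))
  rw [hz] at h1 h2
  have h3 : Polynomial.aeval ω r * Polynomial.aeval ω' r = β ^ n := by
    rw [h1, h2, ← Nd.Nm_mul, key, Nd.Nm_base]
    simp
  rw [Polynomial.natDegree_map, hdeg] at hr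
  refine ⟨r.coeff 0, r.coeff 1, ?_⟩
  rw [← h3, Polynomial.aeval_eq_sum_range' hr, Polynomial.aeval_eq_sum_range' hr]
  simp only [Finset.sum_range_succ, Finset.sum_range_zero, zero_add, pow_zero, pow_one,
    Algebra.smul_def, mul_one]
  rfl

end Norm2

end Pool.Agent.Helper95K9.IR.SixL
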