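import Pool.Agent.Helper95K9.IR.SixL2

/-!
Degree of irrationality of del Pezzo surfaces: leaf 6L2, conclusion.
-/

set_option autoImplicit false
set_option linter.unusedSimpArgs false
set_option linter.unusedSectionVars false

namespace Pool.Agent.Helper95K9.IR.SixL

open MvPolynomial
open scoped TensorProduct

universe u

variable {F Ω : Type u} [Field F] [Field Ω] [Algebra F Ω]

/-- The form `X ^ 2 + B X Y - A Y ^ 2 - β Z ^ 2`. -/
noncomputable def q2 {k : Type u} [Field k] (A B β : k) : MvPolynomial (Fin 3) k :=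
  C 1 * (X 0 * X 0) + C B * (X 0 * X 1) + C (-A) * (X 1 * X 1) + C (-β) * (X 2 * X 2)

theorem q2_hom {k : Type u} [Field k] (A B β : k) : (q2 A B β).IsHomogeneous 2 := by
  have h : ∀ (a : k) (i j : Fin 3), (C a * (X i * X j) : MvPolynomial (Fin 3) k).IsHomogeneous 2 := by
    intro a i j
    have := (isHomogeneous_C (Fin 3) a).mul ((isHomogeneous_X k i).mul (isHomogeneous_X k j))
    simpa using this
  exact (((h _ _ _).add (h _ _ _)).add (h _ _ _)).add (h _ _ _)

theorem q2_aeval {k K : Type u} [Field k] [Field K] [Algebra k K] (A B β : k) (P : Fin 3 → K) :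
    aeval P (q2 A B β) = P 0 ^ 2 + algebraMap k K B * P 0 * P 1 - algebraMap k K A * P 1 ^ 2 -
      algebraMap k K β * P 2 ^ 2 := by
  unfold q2
  simp only [map_add, map_mul, aeval_C, aeval_X, map_one, map_neg]
  ring

theorem adj_mem {θ : Fin 3 → Ω} (h : IsCubic F θ) (i : Fin 3) :
    Algebra.IsAlgebraic F (IntermediateField.adjoin F ({θ i} : Set Ω)) := by
  have : FiniteDimensional F (IntermediateField.adjoin F ({θ i} : Set Ω)) := by
    apply Module.finite_of_finrank_pos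
    rw [Nf.finrank_cubic h i]
    norm_num
  infer_instance

theorem exists_K6 {θ : Fin 3 → Ω} {ω ω' : Ω} {b : Fin 3 → Ω} {c : Ω} {K : IntermediateField F Ω}
    (h : IsFF6 θ ω ω' b c K) : ∃ x y : Fin 3 → K,
      OnT θ ω ω' b c (fun j => (x j : Ω)) (fun j => (y j : Ω)) := by
  obtain ⟨_, x, y, hT, hK⟩ := h
  have hx : ∀ j, x j ∈ K := by
    intro j
    rw [← hK]
    exact IntermediateField.subset_adjoin F _ (Or.inl ⟨j, rfl⟩)
  have hy : ∀ j, y j ∈ K := by
    intro j
    rw [← hK]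
    exact IntermediateField.subset_adjoin F _ (Or.inr ⟨j, rfl⟩)
  exact ⟨fun j => ⟨x j, hx j⟩, fun j => ⟨y j, hy j⟩, hT⟩

/-- From one conjugate to all. -/
theorem all_conj {θ : Fin 3 → Ω} {ω ω' : Ω} (hc : IsCubic F θ) (hq : IsQuad F ω ω')
    (x y b : Fin 3 → F) (i : Fin 3)
    (h : zz θ ω (fun j => algebraMap F Ω (x j)) (fun j => algebraMap F Ω (y j)) i *
      zz θ ω' (fun j => algebraMap F Ω (x j)) (fun j => algebraMap F Ω (y j)) i =
        ev (fun j => algebraMap F Ω (b j)) (θ i)) (l : Fin 3) :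
    zz θ ω (fun j => algebraMap F Ω (x j)) (fun j => algebraMap F Ω (y j)) l *
      zz θ ω' (fun j => algebraMap F Ω (x j)) (fun j => algebraMap F Ω (y j)) l =
        ev (fun j => algebraMap F Ω (b j)) (θ l) := by
  obtain ⟨A, B, hB, hA⟩ := Nf.exists_AB hq
  obtain ⟨P, hP⟩ : ∃ P : Polynomial F, P = pT x * pT x + Polynomial.C B * (pT x * pT y) -
      Polynomial.C A * (pT y * pT y) - pT b := ⟨_, rfl⟩
  have hev : ∀ l, Polynomial.aeval (θ l) P =
      zz θ ω (fun j => algebraMap F Ω (x j)) (fun j => algebraMap F Ω (y j)) l *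
      zz θ ω' (fun j => algebraMap F Ω (x j)) (fun j => algebraMap F Ω (y j)) l -
        ev (fun j => algebraMap F Ω (b j)) (θ l) := by
    intro l
    rw [hP]
    simp only [map_sub, map_add, map_mul, pT_aeval, Polynomial.aeval_C, hB, hA]
    unfold zz ev
    ring
  obtain ⟨_, g, hgi, hg⟩ := hc
  have h0 : Polynomial.aeval (θ i) P = 0 := by
    rw [hev, h, sub_self]
  have h1 : g ∣ P := by
    rw [← Nf.minpoly_eq hgi hg i]
    exact minpoly.dvd F (θ i) h0
  obtain ⟨Q, hQ⟩ := h1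
  have h2 : Polynomial.aeval (θ l) P = 0 := by
    rw [hQ, map_mul, Nf.g_root hg l, zero_mul]
  rw [hev] at h2
  exact sub_eq_zero.1 h2

/-- The norm form of `L(ω)` over `L` is anisotropic. -/
theorem aniso {θ : Fin 3 → Ω} {ω ω' : Ω} (hc : IsCubic F θ) (hq : IsQuad F ω ω') (i : Fin 3)
    (u v : Ω) (hu : u ∈ IntermediateField.adjoin F ({θ i} : Set Ω))
    (hv : v ∈ IntermediateField.adjoin F ({θ i} : Set Ω))
    (h : (u + v * ω) * (u + v * ω') = 0) : u = 0 ∧ v = 0 := by
  have h1 : ∀ w : Ω, w ∉ IntermediateField.adjoin F ({θ i} : Set Ω) → u + v * w = 0 →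
      u = 0 ∧ v = 0 := by
    intro w hw h0
    by_cases hv0 : v = 0
    · rw [hv0, zero_mul, add_zero] at h0
      exact ⟨h0, hv0⟩
    · exfalso
      apply hw
      have : w = -u / v := by
        field_simp
        linear_combination h0
      rw [this]
      exact div_mem (neg_mem hu) hv
  rcases mul_eq_zero.1 h with h0 | h0
  · exact h1 ω (Nf.quad_notMem hc hq i) h0
  · exact h1 ω' (Nf.quad_notMem hc (Nf.quad_symm hq) i) h0

/-- [6L2] -/
theorem sixL2 (hpl : S_PL.{u}) : S_6L2.{u} := by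
  intro F Ω _ _ _ θ ω ω' b c₀ c₁ K h6 hK n hn hodd
  obtain ⟨hcub, hquad, hbF, -, -, hNb, hN0⟩ := h6
  obtain ⟨x, y, hT, -⟩ := exists_K6 hK
  obtain ⟨hn0, s, t, hAI, hfr⟩ := hn
  obtain ⟨A, B, hB, hA⟩ := Nf.exists_AB hquad
  choose b' hb' using hbF
  have hbb : b = fun j => algebraMap F Ω (b' j) := by funext j; exact (hb' j).symm
  have hβ0 : ev b (θ 0) ≠ 0 := by
    rw [← hNb] at hN0
    exact fun h0 => hN0 (Finset.prod_eq_zero (Finset.mem_univ 0) h0)
  obtain ⟨L, hL⟩ : ∃ L : IntermediateField F Ω, L = IntermediateField.adjoin F ({θ 0} : Set Ω) :=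
    ⟨_, rfl⟩
  have h1 : θ 0 ∈ L := by
    rw [hL]
    exact IntermediateField.subset_adjoin F _ rfl
  have hθk : θ 0 ∈ kk K L s t := (kk K L s t).algebraMap_mem (⟨θ 0, h1⟩ : L)
  have hβL : ev b (θ 0) ∈ L := by
    unfold ev
    rw [hbb]
    exact add_mem (add_mem (IntermediateField.algebraMap_mem _ _)
      (mul_mem (IntermediateField.algebraMap_mem _ _) h1))
      (mul_mem (IntermediateField.algebraMap_mem _ _) (pow_mem h1 2))
  have hLalg : Algebra.IsAlgebraic F L := by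
    rw [hL]
    exact adj_mem hcub 0
  obtain ⟨u, v, huv⟩ := norm2 K L s t n hfr hn0
    ⟨θ 0, hθk⟩ hquad x y (ev b (θ 0)) (by
      rw [hbb]
      exact key2 K _ hcub A B hB hA b' x y (by rw [← hbb]; exact hT) 0)
  obtain ⟨m, rfl⟩ : ∃ m, n = 2 * m + 1 := ⟨n / 2, by omega⟩
  set β : L := ⟨ev b (θ 0), hβL⟩ with hβ
  obtain ⟨p, hp, hz⟩ := spec hpl K L s t hAI 3 ![u, v, algebraMap L (kk K L s t) (β ^ m)] (by
    intro h0
    have := congrFun h0 2
    simp only [Matrix.cons_val, Pi.zero_apply, map_pow] at this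
    have h2 : algebraMap L (kk K L s t) β = 0 := by
      by_contra hne
      exact (pow_ne_zero m hne) this
    have h3 : β = 0 := (map_eq_zero_iff _ (algebraMap L (kk K L s t)).injective).1 h2
    exact hβ0 (congrArg Subtype.val h3))
  have h4 := hz 2 (q2 (algebraMap F L A) (algebraMap F L B) β) (q2_hom _ _ _) (by
    rw [q2_aeval]
    simp only [Matrix.cons_val]
    apply Subtype.ext
    have e1 : (algebraMap L Ω (algebraMap F L B)) = ω + ω' := by
      rw [← hB]; rfl
    have e2 : (algebraMap L Ω (algebraMap F L A)) = -(ω * ω') := by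
      rw [← hA]; rfl
    have e3 : algebraMap L Ω β = ev b (θ 0) := rfl
    push_cast [map_pow]
    rw [e1, e2, e3]
    linear_combination huv)
  rw [q2_aeval] at h4
  have h5 : (((p 0 : L) : Ω) + (p 1 : Ω) * ω) * ((p 0 : Ω) + (p 1 : Ω) * ω') =
      ev b (θ 0) * (p 2 : Ω) ^ 2 := by
    have h6 := congrArg (Subtype.val : L → Ω) h4
    simp only [Algebra.algebraMap_self, RingHom.id_apply] at h6
    push_cast at h6
    rw [hB, hA] at h6
    have e3 : (β : Ω) = ev b (θ 0) := rfl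
    rw [e3] at h6
    linear_combination h6
  have hp2 : p 2 ≠ 0 := by
    intro h0
    rw [h0] at h5
    simp only [ZeroMemClass.coe_zero, ne_eq, OfNat.ofNat_ne_zero, not_false_eq_true, zero_pow,
      mul_zero] at h5
    obtain ⟨h7, h8⟩ := aniso hcub hquad 0 _ _ (hL ▸ (p 0).2) (hL ▸ (p 1).2) h5
    apply hp
    funext j
    fin_cases j
    · exact Subtype.ext h7
    · exact Subtype.ext h8
    · exact h0
  have hp2' : ((p 2 : L) : Ω) ≠ 0 := fun h0 => hp2 (Subtype.ext h0)
  obtain ⟨x', hx'⟩ := Nf.mem_cubic hcub 0 ((p 0 / p 2 : L) : Ω)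
    (hL ▸ (p 0 / p 2 : L).2)
  obtain ⟨y', hy'⟩ := Nf.mem_cubic hcub 0 ((p 1 / p 2 : L) : Ω)
    (hL ▸ (p 1 / p 2 : L).2)
  refine ⟨fun j => algebraMap F Ω (x' j), fun j => algebraMap F Ω (y' j),
    fun j => ⟨x' j, rfl⟩, fun j => ⟨y' j, rfl⟩, ?_⟩
  intro i
  rw [hbb]
  apply all_conj hcub hquad x' y' b' 0
  unfold zz
  rw [← hx', ← hy', ← hbb]
  push_cast
  field_simp
  linear_combination h5

end Pool.Agent.Helper95K9.IR.SixL
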