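import Pool.Agent.Helper95K9.IR.SixL2b

/-!
Degree of irrationality of del Pezzo surfaces: leaf 6L3.
-/

set_option autoImplicit false
set_option linter.unusedSimpArgs false
set_option linter.unusedSectionVars false

namespace Pool.Agent.Helper95K9.IR.SixL

open MvPolynomial
open scoped TensorProduct

universe u

variable {F Ω : Type u} [Field F] [Field Ω] [Algebra F Ω]

/-- The linear polynomial `x + y W`. -/
noncomputable def lT {R : Type u} [CommRing R] (x y : R) : Polynomial R :=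
  Polynomial.C x + Polynomial.C y * Polynomial.X

theorem lT_aeval {R S : Type u} [CommRing R] [CommRing S] [Algebra R S] (x y : R) (t : S) :
    Polynomial.aeval t (lT x y) = algebraMap R S x + algebraMap R S y * t := by
  unfold lT
  simp

/-- The key identity for the cubic norm. -/
theorem key3 (K : IntermediateField F Ω) (E : IntermediateField F K)
    {θ : Fin 3 → Ω} {ω ω' : Ω} (hq : IsQuad F ω ω') (e₁ e₂ e₃ : F)
    (h₁ : algebraMap F Ω e₁ = θ 0 + θ 1 + θ 2)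
    (h₂ : algebraMap F Ω e₂ = θ 0 * θ 1 + θ 0 * θ 2 + θ 1 * θ 2)
    (h₃ : algebraMap F Ω e₃ = θ 0 * θ 1 * θ 2) (c₀ c₁ : F) (x y : Fin 3 → K)
    (h : (∏ i, zz θ ω (fun j => (x j : Ω)) (fun j => (y j : Ω)) i) =
      algebraMap F Ω c₀ + algebraMap F Ω c₁ * ω)
    (h' : (∏ i, zz θ ω' (fun j => (x j : Ω)) (fun j => (y j : Ω)) i) =
      algebraMap F Ω c₀ + algebraMap F Ω c₁ * ω') :
    (∏ i, (Nd.Phi E ω (lT (x 0) (y 0)) + (θ i ⊗ₜ[E] (1 : K)) * Nd.Phi E ω (lT (x 1) (y 1)) +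
      ((θ i ⊗ₜ[E] (1 : K)) ^ 2) * Nd.Phi E ω (lT (x 2) (y 2)))) =
      (algebraMap F Ω c₀ + algebraMap F Ω c₁ * ω) ⊗ₜ[E] (1 : K) := by
  obtain ⟨q, hqi, hqm⟩ := hq.2
  have h1 := Nd.Phi_zero (F := F) (E := E) (K := K) (Ω := Ω) ![ω, ω'] (by
      intro i j hij
      fin_cases i <;> fin_cases j <;> simp_all [hq.1, hq.1.symm]) q (by
      rw [hqm, Fin.prod_univ_two]; rfl)
    (Nf.nf (Polynomial.C (algebraMap F K e₁)) (Polynomial.C (algebraMap F K e₂))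
      (Polynomial.C (algebraMap F K e₃)) (lT (x 0) (y 0)) (lT (x 1) (y 1)) (lT (x 2) (y 2)) -
      lT (algebraMap F K c₀) (algebraMap F K c₁)) (by
    have hw : ∀ w : Ω, (∏ i, zz θ w (fun j => (x j : Ω)) (fun j => (y j : Ω)) i) =
      algebraMap F Ω c₀ + algebraMap F Ω c₁ * w → Polynomial.aeval w
      (Nf.nf (Polynomial.C (algebraMap F K e₁)) (Polynomial.C (algebraMap F K e₂))
      (Polynomial.C (algebraMap F K e₃)) (lT (x 0) (y 0)) (lT (x 1) (y 1)) (lT (x 2) (y 2)) -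
      lT (algebraMap F K c₀) (algebraMap F K c₁)) = 0 := by
      intro w hw
      have hm := Nf.nf_map (Polynomial.aeval w : Polynomial K →ₐ[K] Ω).toRingHom
        (Polynomial.C (algebraMap F K e₁)) (Polynomial.C (algebraMap F K e₂))
        (Polynomial.C (algebraMap F K e₃)) (lT (x 0) (y 0)) (lT (x 1) (y 1)) (lT (x 2) (y 2))
      rw [map_sub]
      have hm' : Polynomial.aeval w (Nf.nf (Polynomial.C (algebraMap F K e₁))
        (Polynomial.C (algebraMap F K e₂)) (Polynomial.C (algebraMap F K e₃)) (lT (x 0) (y 0))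
        (lT (x 1) (y 1)) (lT (x 2) (y 2))) = Nf.nf (θ 0 + θ 1 + θ 2)
          (θ 0 * θ 1 + θ 0 * θ 2 + θ 1 * θ 2) (θ 0 * θ 1 * θ 2)
          ((x 0 : Ω) + (y 0 : Ω) * w) ((x 1 : Ω) + (y 1 : Ω) * w)
          ((x 2 : Ω) + (y 2 : Ω) * w) := by
        refine Eq.trans hm ?_
        have a1 : (Polynomial.aeval w : Polynomial K →ₐ[K] Ω).toRingHom
          (Polynomial.C (algebraMap F K e₁)) = θ 0 + θ 1 + θ 2 := by
          rw [← h₁]
          simp
        have a2 : (Polynomial.aeval w : Polynomial K →ₐ[K] Ω).toRingHom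
          (Polynomial.C (algebraMap F K e₂)) = θ 0 * θ 1 + θ 0 * θ 2 + θ 1 * θ 2 := by
          rw [← h₂]
          simp
        have a3 : (Polynomial.aeval w : Polynomial K →ₐ[K] Ω).toRingHom
          (Polynomial.C (algebraMap F K e₃)) = θ 0 * θ 1 * θ 2 := by
          rw [← h₃]
          simp
        have a4 : ∀ a b : K, (Polynomial.aeval w : Polynomial K →ₐ[K] Ω).toRingHom (lT a b) =
          (a : Ω) + (b : Ω) * w := fun a b => lT_aeval a b w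
        rw [a1, a2, a3, a4, a4, a4]
      rw [hm', lT_aeval, ← Nf.nf_prod]
      have e1 : algebraMap K Ω (algebraMap F K c₀) = algebraMap F Ω c₀ := rfl
      have e2 : algebraMap K Ω (algebraMap F K c₁) = algebraMap F Ω c₁ := rfl
      rw [e1, e2, ← hw, Fin.prod_univ_three]
      unfold zz ev
      ring
    intro i
    fin_cases i
    · exact hw ω h
    · exact hw ω' h') 0
  simp only [Matrix.cons_val_zero] at h1
  rw [map_sub, Nf.nf_map, sub_eq_zero] at h1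
  have h2 : ∀ a : F, Nd.Phi E ω (Polynomial.C (algebraMap F K a)) =
      (algebraMap F Ω a) ⊗ₜ[E] (1 : K) := fun a => Phi_F K E ω a
  rw [h2, h2, h2, h₁, h₂, h₃] at h1
  have h3 : Nd.Phi E ω (lT (algebraMap F K c₀) (algebraMap F K c₁)) =
      (algebraMap F Ω c₀ + algebraMap F Ω c₁ * ω) ⊗ₜ[E] (1 : K) := by
    unfold lT
    rw [map_add, map_mul, h2, h2, Nd.Phi_X, Algebra.TensorProduct.tmul_mul_tmul, one_mul,
      ← TensorProduct.add_tmul]
  rw [← h3, ← h1, Fin.prod_univ_three]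
  have h4 : ((θ 0 + θ 1 + θ 2) ⊗ₜ[E] (1 : K) : Ω ⊗[E] K) = θ 0 ⊗ₜ[E] (1 : K) +
      θ 1 ⊗ₜ[E] (1 : K) + θ 2 ⊗ₜ[E] (1 : K) := by
    rw [TensorProduct.add_tmul, TensorProduct.add_tmul]
  have h5 : ∀ a b : Ω, ((a * b) ⊗ₜ[E] (1 : K) : Ω ⊗[E] K) = (a ⊗ₜ[E] (1 : K)) *
      (b ⊗ₜ[E] (1 : K)) := by
    intro a b
    rw [Algebra.TensorProduct.tmul_mul_tmul, one_mul]
  have h6 : ((θ 0 * θ 1 + θ 0 * θ 2 + θ 1 * θ 2) ⊗ₜ[E] (1 : K) : Ω ⊗[E] K) =
      (θ 0 ⊗ₜ[E] (1 : K)) * (θ 1 ⊗ₜ[E] (1 : K)) + (θ 0 ⊗ₜ[E] (1 : K)) * (θ 2 ⊗ₜ[E] (1 : K)) +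
        (θ 1 ⊗ₜ[E] (1 : K)) * (θ 2 ⊗ₜ[E] (1 : K)) := by
    rw [TensorProduct.add_tmul, TensorProduct.add_tmul, h5, h5, h5]
  rw [h4, h6, h5 (θ 0 * θ 1), h5, ← Nf.nf_prod]
  ring

end Pool.Agent.Helper95K9.IR.SixL
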