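import Pool.Agent.Helper95K9.IR.Nd

/-!
Degree of irrationality of del Pezzo surfaces: specialisation over a finite extension of the
constants.
-/

set_option autoImplicit false
set_option linter.unusedSimpArgs false

namespace Pool.Agent.Helper95K9.IR.SixL

open MvPolynomial

universe u

variable {F Ω : Type u} [Field F] [Field Ω] [Algebra F Ω]

/-- `L(s, t)`. -/
noncomputable def kk (K L : IntermediateField F Ω) (s t : K) : IntermediateField L Ω :=
  IntermediateField.adjoin L ({(s : Ω), (t : Ω)} : Set Ω)

theorem mem_kk (K L : IntermediateField F Ω) (s t : K)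
    (e : IntermediateField.adjoin F ({s, t} : Set K)) : ((e : K) : Ω) ∈ kk K L s t := by
  have h1 : IntermediateField.adjoin F ({s, t} : Set K) ≤
      IntermediateField.comap K.val ((kk K L s t).restrictScalars F) := by
    rw [IntermediateField.adjoin_le_iff]
    intro x hx
    show (x : Ω) ∈ kk K L s t
    apply IntermediateField.subset_adjoin
    simp only [Set.mem_insert_iff, Set.mem_singleton_iff] at hx ⊢
    rcases hx with rfl | rfl
    · exact Or.inl rfl
    · exact Or.inr rfl
  exact h1 e.2

/-- The inclusion of `F(s, t)` in `L(s, t)`. -/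
noncomputable def jj (K L : IntermediateField F Ω) (s t : K) :
    IntermediateField.adjoin F ({s, t} : Set K) →+* kk K L s t where
  toFun e := ⟨((e : K) : Ω), mem_kk K L s t e⟩
  map_one' := rfl
  map_mul' _ _ := rfl
  map_zero' := rfl
  map_add' _ _ := rfl

theorem hasDeg_kk (K L : IntermediateField F Ω) (s t : K) [Algebra.IsAlgebraic F L]
    (h : AlgebraicIndependent F ![s, t]) : HasDeg L (kk K L s t) 1 := by
  refine ⟨Nat.one_pos, ⟨(s : Ω), IntermediateField.subset_adjoin _ _ (by simp)⟩,
    ⟨(t : Ω), IntermediateField.subset_adjoin _ _ (by simp)⟩, ?_, ?_⟩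
  · have h1 : AlgebraicIndependent F (K.val ∘ ![s, t]) :=
      h.map' K.val.toRingHom.injective
    have h2 : AlgebraicIndependent L (K.val ∘ ![s, t]) := h1.extendScalars L
    apply AlgebraicIndependent.of_comp (kk K L s t).val
    convert h2 using 1
    funext i
    fin_cases i <;> rfl
  · have h3 := Nf.top_of (kk K L s t) ({(s : Ω), (t : Ω)} : Set Ω) rfl
    have h4 : ((Subtype.val : kk K L s t → Ω) ⁻¹' ({(s : Ω), (t : Ω)} : Set Ω)) =
        {⟨(s : Ω), IntermediateField.subset_adjoin _ _ (by simp)⟩,
          ⟨(t : Ω), IntermediateField.subset_adjoin _ _ (by simp)⟩} := by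
      ext z
      simp only [Set.mem_preimage, Set.mem_insert_iff, Set.mem_singleton_iff, Subtype.ext_iff]
    rw [h4] at h3
    rw [h3]
    exact IntermediateField.finrank_top

/-- Specialisation over `L`. -/
theorem spec (hpl : S_PL.{u}) (K L : IntermediateField F Ω) (s t : K) [Algebra.IsAlgebraic F L]
    (h : AlgebraicIndependent F ![s, t]) (N : ℕ) (P : Fin N → kk K L s t) (hP : P ≠ 0) :
    ∃ p : Fin N → L, p ≠ 0 ∧ ∀ (d : ℕ) (g : MvPolynomial (Fin N) L), g.IsHomogeneous d →
      aeval P g = 0 → aeval p g = 0 := by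
  obtain ⟨κ, hpos, hle, hsp⟩ := hpl L (kk K L s t) 1 (hasDeg_kk K L s t h)
  obtain ⟨p, hp, hg⟩ := hsp N P hP
  have h1 : Module.finrank L κ = 1 := le_antisymm hle hpos
  have hbot : κ = ⊥ := IntermediateField.finrank_eq_one_iff.1 h1
  have hex : ∀ j, ∃ r : L, algebraMap L κ r = p j := by
    intro j
    have h2 : (p j : AlgebraicClosure L) ∈ (⊥ : IntermediateField L (AlgebraicClosure L)) := by
      rw [← hbot]; exact (p j).2
    rw [IntermediateField.mem_bot] at h2
    obtain ⟨r, hr⟩ := h2
    exact ⟨r, Subtype.ext hr⟩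
  choose r hr using hex
  refine ⟨r, ?_, ?_⟩
  · intro h0
    apply hp
    funext j
    rw [← hr j, h0]
    simp
  · intro d g hgd hgP
    have h3 := hg d g hgd hgP
    have h4 : aeval p g = algebraMap L κ (aeval r g) := by
      have : p = algebraMap L κ ∘ r := by funext j; exact (hr j).symm
      rw [this, MvPolynomial.aeval_algebraMap_apply]
    rw [h4] at h3
    exact (map_eq_zero_iff _ (algebraMap L κ).injective).1 h3

end Pool.Agent.Helper95K9.IR.SixL
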